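import Pool.Agent.Work.MP_e8a478_co.Defs

/-!
# Canonical theories as universal first-order theories (sanity check for `Theory`)

`Lang.fo L` is the first-order language (Mathlib) without function symbols whose relation symbols
are those of `L`.  Every universal theory `T` in `Lang.fo L` gives a `Theory L`, namely its class
of finite models, and the union of two theories in disjoint languages corresponds to
`Theory.union`.
-/

set_option autoImplicit false

open FirstOrder

namespace Pool.MP_e8a478_co

/-- The first-order language with the relation symbols of `L` (and no function symbols). -/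
def Lang.fo (L : Lang) : FirstOrder.Language where
  Functions _ := Empty
  Relations n := {i : L.ι // L.ar i = n}

/-- An `L`-structure as a first-order structure. -/
@[reducible] def Str.fo {L : Lang} {V : Type} (S : Str L V) : L.fo.Structure V where
  funMap f := nomatch f
  RelMap R x := S R.1 (fun k => x (Fin.cast R.2 k)) = true

/-- The models of the first-order theory `T` with vertex set `V`. -/
def foMod {L : Lang} (T : L.fo.Theory) (V : Type) : Set (Str L V) :=
  {S | @FirstOrder.Language.Theory.Model L.fo V S.fo T}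

/-- The induced substructure embeds. -/
def pullEmb {L : Lang} {V W : Type} (S : Str L V) (f : W ↪ V) :
    @FirstOrder.Language.Embedding L.fo W V (S.pull f).fo S.fo :=
  @FirstOrder.Language.Embedding.mk L.fo W V (S.pull f).fo S.fo f
    (fun g => nomatch g) (fun _ _ => Iff.rfl)

/-- The canonical theory given by a universal first-order theory. -/
def Theory.ofFO {L : Lang} (T : L.fo.Theory) (hT : T.IsUniversal) : Theory L where
  mod n := foMod T (Fin n)
  hered f S hS := by
    let _ := S.fo
    let _ := (S.pull f).fo
    have : (Fin _) ⊨ T := hS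
    exact FirstOrder.Language.Theory.IsUniversal.models_of_embedding (pullEmb S f)

/-- Inclusion of the first language. -/
def inlHom (L₁ L₂ : Lang) : L₁.fo →ᴸ (L₁.sum L₂).fo where
  onFunction := fun _ f => nomatch f
  onRelation := fun _ R => ⟨Sum.inl R.1, R.2⟩

/-- Inclusion of the second language. -/
def inrHom (L₁ L₂ : Lang) : L₂.fo →ᴸ (L₁.sum L₂).fo where
  onFunction := fun _ f => nomatch f
  onRelation := fun _ R => ⟨Sum.inr R.1, R.2⟩

/-- The models of the union of two theories in disjoint languages. -/
theorem foMod_union {L₁ L₂ : Lang} (T₁ : L₁.fo.Theory) (T₂ : L₂.fo.Theory) (V : Type) :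
    foMod ((inlHom L₁ L₂).onTheory T₁ ∪ (inrHom L₁ L₂).onTheory T₂) V =
      {S | S.fst ∈ foMod T₁ V ∧ S.snd ∈ foMod T₂ V} := by
  ext S
  let i1 := S.fst.fo
  let i2 := S.snd.fo
  let i3 := S.fo
  have e1 : (inlHom L₁ L₂).IsExpansionOn V :=
    ⟨fun f => (nomatch f), fun _ _ => rfl⟩
  have e2 : (inrHom L₁ L₂).IsExpansionOn V :=
    ⟨fun f => (nomatch f), fun _ _ => rfl⟩
  show (V ⊨ ((inlHom L₁ L₂).onTheory T₁ ∪ (inrHom L₁ L₂).onTheory T₂)) ↔ (V ⊨ T₁) ∧ (V ⊨ T₂)
  rw [FirstOrder.Language.Theory.model_union_iff, FirstOrder.Language.LHom.onTheory_model,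
    FirstOrder.Language.LHom.onTheory_model]

/-- `Theory.union` is the union of first-order theories. -/
theorem ofFO_union {L₁ L₂ : Lang} (T₁ : L₁.fo.Theory) (T₂ : L₂.fo.Theory)
    (h₁ : T₁.IsUniversal) (h₂ : T₂.IsUniversal) (n : ℕ) :
    ((Theory.ofFO T₁ h₁).union (Theory.ofFO T₂ h₂)).mod n =
      foMod ((inlHom L₁ L₂).onTheory T₁ ∪ (inrHom L₁ L₂).onTheory T₂) (Fin n) :=
  (foMod_union T₁ T₂ (Fin n)).symm

end Pool.MP_e8a478_co
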