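import Pool.Agent.Work.MP_e8a478_co.Sys

/-!
# Positivity of box expressions
-/

open MeasureTheory Filter Topology

namespace Coup

variable {Ω I : Type*} {m0 : MeasurableSpace Ω} {μ : Measure Ω} [IsProbabilityMeasure μ]
variable {Φ : Flow Ω I μ}

/-- The box expression. -/
def box (Φ : Flow Ω I μ) : List (I ↪ I) → (Ω → ℝ) → Ω → ℝ
  | [], u => u
  | σ :: l, u => box Φ l (fun ω => u ω * u (Φ.τ σ ω))

/-- Admissible lists of facets and shifts. -/
inductive Valid (E : Set I) : Set I → List (Set I) → List (I ↪ I) → Prop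
  | nil (S : Set I) : Valid E S [] []
  | cons (S W : Set I) (l : List (Set I)) (σ : I ↪ I) (ρ : List (I ↪ I)) (hW : W ⊆ S)
      (hl : ∀ X ∈ l, X ⊆ S) (hfix : ∀ x ∈ W ∪ E, σ x = x)
      (hdis : Disjoint (σ '' (S \ W)) (S ∪ E))
      (h : Valid E (S ∪ σ '' S) (l.map fun X => X ∪ σ '' X) ρ) : Valid E S (W :: l) (σ :: ρ)

theorem image_eq_of_fix {σ : I ↪ I} {W : Set I} (h : ∀ x ∈ W, σ x = x) : σ '' W = W := by
  ext y; constructor
  · rintro ⟨x, hx, rfl⟩; rw [h x hx]; exact hx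
  · intro hy; exact ⟨y, hy, h y hy⟩

theorem image_S {σ : I ↪ I} {S W : Set I} (hW : W ⊆ S) (h : ∀ x ∈ W, σ x = x) :
    σ '' S = W ∪ σ '' (S \ W) := by
  conv_lhs => rw [← Set.union_sdiff_cancel hW]
  rw [Set.image_union, image_eq_of_fix h]

/-- The base computation. -/
theorem Fam.base (K : Fam Φ) [Countable I] {E S W : Set I} (hE : E.Infinite)
    (hSE : Disjoint S E) {σ : I ↪ I} (hW : W ⊆ S) (hfix : ∀ x ∈ W ∪ E, σ x = x)
    (hdis : Disjoint (σ '' (S \ W)) (S ∪ E)) {u : Ω → ℝ} (hu : AB μ u)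
    (hm : StronglyMeasurable[K.H (S ∪ E)] u) :
    ∫ ω, u ω * u (Φ.τ σ ω) ∂μ = ∫ ω, ((μ[u|K.H (W ∪ E)]) ω) ^ 2 ∂μ := by
  set U : Set I := σ '' (S \ W) with hU
  have hui : Integrable u μ := hu.integrable' (K.le _) hm
  have himS : σ '' (S ∪ E) = W ∪ (E ∪ U) := by
    rw [Set.image_union, image_S hW (fun x hx => hfix x (Or.inl hx)),
      image_eq_of_fix (fun x hx => hfix x (Or.inr hx)), Set.union_assoc, Set.union_comm U E]
  have hvm : StronglyMeasurable[K.H (W ∪ (E ∪ U))] (fun ω => u (Φ.τ σ ω)) := by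
    rw [← himS]; exact K.comp_meas σ hm
  have hvb : AB μ (fun ω => u (Φ.τ σ ω)) := hu.comp (Φ.mp σ)
  have hvi : Integrable (fun ω => u (Φ.τ σ ω)) μ := hvb.integrable' (K.le _) hvm
  have huv : Integrable (fun ω => u ω * u (Φ.τ σ ω)) μ := (hu.mul hvb).integrable (hui.1.mul hvi.1)
  rw [integral_mul_condExp (K.le (W ∪ (E ∪ U))) hui huv hvm.aestronglyMeasurable]
  have hinv := K.inv hE hSE hdis (𝒲 := {W}) (by rintro X rfl; exact hW) hu hm
  rw [K.J_singleton, K.J_singleton] at hinv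
  set a := μ[u|K.H (W ∪ E)] with ha
  have hab : AB μ a := hu.condExp _
  have hai : Integrable a μ := integrable_condExp
  have e1 : ∫ ω, (μ[u|K.H (W ∪ (E ∪ U))]) ω * u (Φ.τ σ ω) ∂μ = ∫ ω, u (Φ.τ σ ω) * a ω ∂μ := by
    apply integral_congr_ae
    filter_upwards [hinv] with ω h
    rw [← h, mul_comm]
  rw [e1, integral_mul_condExp (K.le (W ∪ E)) hvi ((hvb.mul hab).integrable (hvi.1.mul hai.1))
    stronglyMeasurable_condExp.aestronglyMeasurable]
  have hcomp := condExp_comp (K.H (W ∪ E)) (Φ.mp σ) (K.le _) hui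
  rw [K.comap, image_eq_of_fix hfix] at hcomp
  apply integral_congr_ae
  filter_upwards [hcomp] with ω h
  rw [h, ← ha, K.comp_id hfix (u := a) stronglyMeasurable_condExp ω, sq]

omit [IsProbabilityMeasure μ] in
theorem ae_zero_of_integral_sq {a : Ω → ℝ} (h2 : Integrable (fun ω => (a ω) ^ 2) μ)
    (h : ∫ ω, (a ω) ^ 2 ∂μ = 0) : a =ᵐ[μ] 0 := by
  rw [integral_eq_zero_iff_of_nonneg (fun ω => sq_nonneg _) h2] at h
  filter_upwards [h] with ω hω
  have : (a ω) ^ 2 = 0 := hω
  simpa using this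

theorem AB.integrable_sq {a : Ω → ℝ} (ha : AB μ a) (hm : AEStronglyMeasurable a μ) :
    Integrable (fun ω => (a ω) ^ 2) μ := by
  have := (ha.mul ha).integrable (hm.mul hm)
  simpa [sq] using this

omit [IsProbabilityMeasure μ] in
theorem AB.indicator {s : Set Ω} : AB μ (s.indicator (fun _ => (1 : ℝ))) := by
  apply AB.of_bdd (C := 1)
  intro ω
  by_cases h : ω ∈ s <;> simp [h]

theorem Fam.step (K : Fam Φ) [Countable I] {E S W : Set I} (hE : E.Infinite)
    (hSE : Disjoint S E) {σ : I ↪ I} (hW : W ⊆ S) (hfix : ∀ x ∈ W ∪ E, σ x = x)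
    (hdis : Disjoint (σ '' (S \ W)) (S ∪ E)) {𝒲 : Set (Set I)} (h𝒲 : ∀ X ∈ 𝒲, X ⊆ S)
    {u : Ω → ℝ} (hu : AB μ u) (hm : StronglyMeasurable[K.H (S ∪ E)] u) :
    μ[(fun ω => u ω * u (Φ.τ σ ω))|K.J E ((fun X => X ∪ σ '' X) '' 𝒲)] =ᵐ[μ] 0 ↔
      μ[u|K.J E (insert W 𝒲)] =ᵐ[μ] 0 := by
  set U : Set I := σ '' (S \ W) with hU
  have hui : Integrable u μ := hu.integrable' (K.le _) hm
  have himSS : σ '' S = W ∪ U := image_S hW (fun x hx => hfix x (Or.inl hx))
  have himE : σ '' E = E := image_eq_of_fix (fun x hx => hfix x (Or.inr hx))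
  have himS : σ '' (S ∪ E) = W ∪ (E ∪ U) := by
    rw [Set.image_union, himSS, himE, Set.union_assoc, Set.union_comm U E]
  have hvm : StronglyMeasurable[K.H (W ∪ (E ∪ U))] (fun ω => u (Φ.τ σ ω)) := by
    rw [← himS]; exact K.comp_meas σ hm
  have hvb : AB μ (fun ω => u (Φ.τ σ ω)) := hu.comp (Φ.mp σ)
  have hvi : Integrable (fun ω => u (Φ.τ σ ω)) μ := hvb.integrable' (K.le _) hvm
  have huvb : AB μ (fun ω => u ω * u (Φ.τ σ ω)) := hu.mul hvb
  have huv : Integrable (fun ω => u ω * u (Φ.τ σ ω)) μ := huvb.integrable (hui.1.mul hvi.1)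
  constructor
  · intro h0
    rw [K.J_insert, sup_comm]
    apply condExp_sup_eq_zero (K.J_le _ _) (K.le _) hui
    intro A B hA hB
    set a : Ω → ℝ := A.indicator (fun _ => (1:ℝ)) with ha
    have haJ : StronglyMeasurable[K.J E 𝒲] a := stronglyMeasurable_const.indicator hA
    have hJS : K.J E 𝒲 ≤ K.H (S ∪ E) :=
      K.J_le_H fun X hX => Set.union_subset_union_left _ (h𝒲 X hX)
    have haS : StronglyMeasurable[K.H (S ∪ E)] a := haJ.mono hJS
    have hab : AB μ a := AB.indicator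
    have huam : StronglyMeasurable[K.H (S ∪ E)] (fun ω => u ω * a ω) := hm.mul haS
    have huab : AB μ (fun ω => u ω * a ω) := hu.mul hab
    have huai : Integrable (fun ω => u ω * a ω) μ := huab.integrable' (K.le _) huam
    have hbase := K.base hE hSE hW hfix hdis huab huam
    have haτ : StronglyMeasurable[K.J E ((fun X => X ∪ σ '' X) '' 𝒲)] (fun ω => a (Φ.τ σ ω)) := by
      have h1 : StronglyMeasurable[(K.J E 𝒲).comap (Φ.τ σ)] (fun ω => a (Φ.τ σ ω)) :=
        haJ.comp_measurable (comap_measurable _)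
      apply h1.mono
      rw [K.comap_J]
      refine iSup₂_le fun X hX => ?_
      rw [Set.image_union, himE]
      refine (K.mono ?_).trans (K.le_J E (Set.mem_image_of_mem (fun X => X ∪ σ '' X) hX))
      exact Set.union_subset_union_left _ Set.subset_union_right
    have ha' : StronglyMeasurable[K.J E ((fun X => X ∪ σ '' X) '' 𝒲)] a := by
      apply haJ.mono
      exact K.J_le_of fun X hX => ⟨X ∪ σ '' X, Set.mem_image_of_mem (fun X => X ∪ σ '' X) hX,
        Set.union_subset_union_left _ Set.subset_union_left⟩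
    have hzero : ∫ ω, (u ω * u (Φ.τ σ ω)) * (a ω * a (Φ.τ σ ω)) ∂μ = 0 := by
      apply integral_mul_eq_zero (K.J_le _ _) huv _ _ h0
      · exact (huvb.mul (hab.mul (hab.comp (Φ.mp σ)))).integrable
          (huv.1.mul ((ha'.mono (K.J_le _ _)).aestronglyMeasurable.mul
            (haτ.mono (K.J_le _ _)).aestronglyMeasurable))
      · exact (ha'.mul haτ).aestronglyMeasurable
    have hsq : ∫ ω, ((μ[(fun ω => u ω * a ω)|K.H (W ∪ E)]) ω) ^ 2 ∂μ = 0 := by
      rw [← hbase, ← hzero]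
      congr 1; ext ω; ring
    have hc := ae_zero_of_integral_sq
      ((huab.condExp (K.H (W ∪ E))).integrable_sq integrable_condExp.1) hsq
    have hBi : StronglyMeasurable[K.H (W ∪ E)] (B.indicator (fun _ => (1:ℝ))) :=
      stronglyMeasurable_const.indicator hB
    have hlast := integral_mul_eq_zero (v := B.indicator (fun _ => (1:ℝ))) (K.le (W ∪ E)) huai
      ((huab.mul AB.indicator).integrable (huai.1.mul (hBi.mono (K.le _)).aestronglyMeasurable))
      hBi.aestronglyMeasurable hc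
    rw [setIntegral_eq_mul ((K.J_le _ _ _ hA).inter (K.le _ _ hB)), ← hlast]
    congr 1; ext ω
    by_cases h1 : ω ∈ A <;> by_cases h2 : ω ∈ B <;> simp [ha, h1, h2]
  · intro h0
    have hinv := K.inv hE hSE hdis (𝒲 := insert W 𝒲)
      (by rintro X (rfl | hX); exacts [hW, h𝒲 X hX]) hu hm
    have h1 : μ[u|K.J (E ∪ U) (insert W 𝒲)] =ᵐ[μ] 0 := hinv.symm.trans h0
    apply condExp_eq_zero_of_setIntegral (K.J_le _ _) huv
    intro s hs
    rw [setIntegral_eq_mul (K.J_le _ _ _ hs)]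
    have hle1 : K.H (W ∪ (E ∪ U)) ≤ K.J (E ∪ U) (insert W 𝒲) := K.le_J _ (Set.mem_insert _ _)
    have hle2 : K.J E ((fun X => X ∪ σ '' X) '' 𝒲) ≤ K.J (E ∪ U) (insert W 𝒲) := by
      apply K.J_le_of
      rintro _ ⟨X, hX, rfl⟩
      refine ⟨X, Set.mem_insert_of_mem _ hX, ?_⟩
      rintro x ((hx | hx) | hx)
      · exact Or.inl hx
      · obtain ⟨y, hy, rfl⟩ := hx
        by_cases hyW : y ∈ W
        · left; rw [hfix y (Or.inl hyW)]; exact hy
        · right; right; exact ⟨y, ⟨h𝒲 X hX hy, hyW⟩, rfl⟩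
      · exact Or.inr (Or.inl hx)
    have hsm : StronglyMeasurable[K.J (E ∪ U) (insert W 𝒲)] (s.indicator (fun _ => (1:ℝ))) :=
      stronglyMeasurable_const.indicator (hle2 _ hs)
    have hall : StronglyMeasurable[K.J (E ∪ U) (insert W 𝒲)]
        (fun ω => u (Φ.τ σ ω) * s.indicator (fun _ => (1:ℝ)) ω) :=
      (hvm.mono hle1).mul hsm
    have := integral_mul_eq_zero
      (v := fun ω => u (Φ.τ σ ω) * s.indicator (fun _ => (1:ℝ)) ω) (K.J_le _ _) hui
      ((hu.mul (hvb.mul AB.indicator)).integrable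
        (hui.1.mul (hall.mono (K.J_le _ _)).aestronglyMeasurable)) hall.aestronglyMeasurable h1
    rw [← this]
    congr 1; ext ω; ring

/-- Positivity of the box expressions. -/
theorem Fam.pos (K : Fam Φ) [Countable I] {E : Set I} (hE : E.Infinite) {S : Set I}
    {l : List (Set I)} {ρ : List (I ↪ I)} (hv : Valid E S l ρ) :
    l ≠ [] → Disjoint S E → ∀ {u : Ω → ℝ}, AB μ u → StronglyMeasurable[K.H (S ∪ E)] u →
    0 ≤ ∫ ω, box Φ ρ u ω ∂μ ∧
      (∫ ω, box Φ ρ u ω ∂μ = 0 ↔ μ[u|K.J E {W | W ∈ l}] =ᵐ[μ] 0) := by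
  induction hv with
  | nil S => intro h; exact absurd rfl h
  | cons S W l σ ρ hW hl hfix hdis hv ih =>
    intro _ hSE u hu hm
    have hui : Integrable u μ := hu.integrable' (K.le _) hm
    have himSS : σ '' S = W ∪ σ '' (S \ W) := image_S hW (fun x hx => hfix x (Or.inl hx))
    have himE : σ '' E = E := image_eq_of_fix (fun x hx => hfix x (Or.inr hx))
    have hvm1 : StronglyMeasurable[K.H (σ '' (S ∪ E))] (fun ω => u (Φ.τ σ ω)) := K.comp_meas σ hm
    have hvm : StronglyMeasurable[K.H ((S ∪ σ '' S) ∪ E)] (fun ω => u ω * u (Φ.τ σ ω)) := by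
      apply StronglyMeasurable.mul
      · exact hm.mono (K.mono (Set.union_subset_union_left _ Set.subset_union_left))
      · apply hvm1.mono
        rw [Set.image_union, himE]
        exact K.mono (Set.union_subset_union_left _ Set.subset_union_right)
    have hvb : AB μ (fun ω => u ω * u (Φ.τ σ ω)) := hu.mul (hu.comp (Φ.mp σ))
    have hSE' : Disjoint (S ∪ σ '' S) E := by
      rw [himSS]
      refine Set.disjoint_union_left.2 ⟨hSE, Set.disjoint_union_left.2 ⟨?_, ?_⟩⟩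
      · exact Set.disjoint_of_subset_left hW hSE
      · exact Set.disjoint_of_subset_right Set.subset_union_right hdis
    cases l with
    | nil =>
      cases hv
      have hb := K.base hE hSE hW hfix hdis hu hm
      have hset : {X : Set I | X ∈ [W]} = {W} := by ext X; simp
      rw [hset, K.J_singleton]
      change 0 ≤ ∫ ω, u ω * u (Φ.τ σ ω) ∂μ ∧ (∫ ω, u ω * u (Φ.τ σ ω) ∂μ = 0 ↔ _)
      rw [hb]
      refine ⟨integral_nonneg fun ω => sq_nonneg _, ?_, ?_⟩
      · intro h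
        exact ae_zero_of_integral_sq ((hu.condExp _).integrable_sq integrable_condExp.1) h
      · intro h
        apply integral_eq_zero_of_ae
        filter_upwards [h] with ω hω
        simp [hω]
    | cons X l =>
      have h1 := ih (by simp) hSE' hvb hvm
      change 0 ≤ ∫ ω, box Φ ρ (fun ω => u ω * u (Φ.τ σ ω)) ω ∂μ ∧
        (∫ ω, box Φ ρ (fun ω => u ω * u (Φ.τ σ ω)) ω ∂μ = 0 ↔ _)
      refine ⟨h1.1, h1.2.trans ?_⟩
      have h2 := K.step hE hSE hW hfix hdis (𝒲 := {Y | Y ∈ X :: l}) hl hu hm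
      have e1 : {Y : Set I | Y ∈ (X :: l).map fun X => X ∪ σ '' X}
          = (fun X => X ∪ σ '' X) '' {Y | Y ∈ X :: l} := by
        ext Y; simp [List.mem_map, eq_comm]
      have e2 : {Y : Set I | Y ∈ W :: X :: l} = insert W {Y | Y ∈ X :: l} := by
        ext Y; simp
      rw [e1, e2]
      exact h2

end Coup
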