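import Pool.Agent.Work.MP_e8a478_co.Box

/-!
# Charges

A charge is an equivariant family of bounded random variables indexed by injective `k`-tuples
whose conditional expectation vanishes given everything which does not see the whole tuple.
-/

set_option autoImplicit false

open MeasureTheory Filter Topology

namespace Coup

/-- bounded functions -/
def Bd {Ω : Type*} (F : Ω → ℝ) : Prop := ∃ C : ℝ, ∀ ω, |F ω| ≤ C

section Bd

variable {Ω : Type*} {F G : Ω → ℝ}

theorem Bd.ab {m0 : MeasurableSpace Ω} (μ : Measure Ω) (h : Bd F) : AB μ F := by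
  obtain ⟨C, hC⟩ := h
  exact AB.of_bdd hC

theorem Bd.mul (hF : Bd F) (hG : Bd G) : Bd (fun ω => F ω * G ω) := by
  obtain ⟨C, hC⟩ := hF
  obtain ⟨D, hD⟩ := hG
  refine ⟨C * D, fun ω => ?_⟩
  rw [abs_mul]
  exact mul_le_mul (hC ω) (hD ω) (abs_nonneg _) ((abs_nonneg _).trans (hC ω))

theorem Bd.const (c : ℝ) : Bd (fun _ : Ω => c) := ⟨|c|, fun _ => le_rfl⟩

theorem Bd.add (hF : Bd F) (hG : Bd G) : Bd (fun ω => F ω + G ω) := by
  obtain ⟨C, hC⟩ := hF
  obtain ⟨D, hD⟩ := hG
  exact ⟨C + D, fun ω => (abs_add_le _ _).trans (add_le_add (hC ω) (hD ω))⟩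

theorem Bd.prod {α : Type*} (s : Finset α) {F : α → Ω → ℝ} (h : ∀ a ∈ s, Bd (F a)) :
    Bd (fun ω => ∏ a ∈ s, F a ω) := by
  classical
  induction s using Finset.induction_on with
  | empty => simpa using Bd.const 1
  | insert a s ha ih =>
    simp only [Finset.prod_insert ha]
    exact (h a (Finset.mem_insert_self _ _)).mul
      (ih fun b hb => h b (Finset.mem_insert_of_mem hb))

theorem Bd.comp {Ω' : Type*} (hF : Bd F) (f : Ω' → Ω) : Bd (fun ω => F (f ω)) := by
  obtain ⟨C, hC⟩ := hF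
  exact ⟨C, fun ω => hC _⟩

theorem stronglyMeasurable_finprod {α : Type*} {m : MeasurableSpace Ω} (s : Finset α)
    {F : α → Ω → ℝ} (h : ∀ a ∈ s, StronglyMeasurable[m] (F a)) :
    StronglyMeasurable[m] (fun ω => ∏ a ∈ s, F a ω) :=
  Finset.stronglyMeasurable_fun_prod s h

end Bd

/-- injective tuples outside `E` -/
def Adm {I : Type*} (E : Set I) {k : ℕ} (s : Fin k → I) : Prop :=
  Function.Injective s ∧ ∀ i, s i ∉ E

theorem exists_perm {I : Type*} (E : Set I) : ∀ (k : ℕ) (x s : Fin k → I), Adm E x → Adm E s →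
    ∃ π : Equiv.Perm I, (∀ i, π (x i) = s i) ∧ ∀ e ∈ E, π e = e := by
  classical
  intro k
  induction k with
  | zero => exact fun x s _ _ => ⟨Equiv.refl I, fun i => i.elim0, fun e _ => rfl⟩
  | succ k ih =>
    intro x s hx hs
    obtain ⟨π, h1, h2⟩ := ih (fun i => x i.castSucc) (fun i => s i.castSucc)
      ⟨fun i j h => Fin.castSucc_injective k (hx.1 h), fun i => hx.2 _⟩
      ⟨fun i j h => Fin.castSucc_injective k (hs.1 h), fun i => hs.2 _⟩
    refine ⟨π.trans (Equiv.swap (π (x (Fin.last k))) (s (Fin.last k))), ?_, ?_⟩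
    · intro i
      refine Fin.lastCases ?_ ?_ i
      · simp
      · intro i
        rw [Equiv.trans_apply, h1 i, Equiv.swap_apply_of_ne_of_ne]
        · intro h
          rw [← h1 i] at h
          have := hx.1 (π.injective h)
          exact absurd this (Fin.castSucc_lt_last i).ne
        · intro h
          exact absurd (hs.1 h) (Fin.castSucc_lt_last i).ne
    · intro e he
      rw [Equiv.trans_apply, h2 e he, Equiv.swap_apply_of_ne_of_ne]
      · intro h
        rw [← h2 e he] at h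
        have := π.injective h
        exact hx.2 _ (this ▸ he)
      · intro h
        exact hs.2 _ (h ▸ he)

section

variable {Ω I : Type*} {m0 : MeasurableSpace Ω} {μ : Measure Ω} [IsProbabilityMeasure μ]
variable {Φ : Flow Ω I μ}

theorem Adm.comp {E : Set I} {k : ℕ} {s : Fin k → I} (hs : Adm E s) {σ : I → I}
    (hσ : Function.Injective σ) (hE : ∀ e ∈ E, σ e = e) : Adm E (fun i => σ (s i)) := by
  refine ⟨hσ.comp hs.1, fun i hi => hs.2 i ?_⟩
  have := hσ (hE _ hi)
  rwa [← this]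

/-- a charge -/
structure Charge (K : Fam Φ) (E : Set I) (k : ℕ) where
  T : (Fin k → I) → Ω → ℝ
  bdd : ∀ s ω, |T s ω| ≤ 1
  meas : ∀ s, Adm E s → StronglyMeasurable[K.H (Set.range s ∪ E)] (T s)
  equiv : ∀ s, Adm E s → ∀ σ : I ↪ I, (∀ e ∈ E, σ e = e) →
    ∀ ω, T s (Φ.τ σ ω) = T (fun i => σ (s i)) ω
  vanish : ∀ s, Adm E s → ∀ 𝒲 : Set (Set I), (∀ W ∈ 𝒲, ¬ Set.range s ⊆ W) →
    μ[T s|K.J E 𝒲] =ᵐ[μ] 0

open Classical in
/-- the charge generated by one random variable -/
noncomputable def Charge.mk' (K : Fam Φ) (E : Set I) (k : ℕ) (x : Fin k → I) (hx : Adm E x)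
    (T : Ω → ℝ) (hb : ∀ ω, |T ω| ≤ 1) (hm : StronglyMeasurable[K.H (Set.range x ∪ E)] T)
    (hv : ∀ 𝒲 : Set (Set I), (∀ W ∈ 𝒲, ¬ Set.range x ⊆ W) → μ[T|K.J E 𝒲] =ᵐ[μ] 0) :
    Charge K E k where
  T s ω := if h : Adm E s then T (Φ.τ (exists_perm E k x s hx h).choose.toEmbedding ω) else 0
  bdd s ω := by
    by_cases h : Adm E s
    · rw [dif_pos h]; exact hb _
    · rw [dif_neg h]; simp
  meas s hs := by
    simp only [dif_pos hs]
    obtain ⟨h1, h2⟩ := (exists_perm E k x s hx hs).choose_spec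
    have := K.comp_meas (exists_perm E k x s hx hs).choose.toEmbedding hm
    convert this using 2
    rw [Set.image_union]
    congr 1
    · rw [← Set.range_comp]
      congr 1
      funext i
      exact (h1 i).symm
    · exact (image_eq_of_fix (σ := (exists_perm E k x s hx hs).choose.toEmbedding) h2).symm
  equiv s hs σ hσ ω := by
    have hs' := hs.comp σ.injective hσ
    rw [dif_pos hs, dif_pos hs', Φ.comp]
    obtain ⟨h1, h2⟩ := (exists_perm E k x s hx hs).choose_spec
    obtain ⟨h3, h4⟩ := (exists_perm E k x _ hx hs').choose_spec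
    apply K.comp_agree (U := Set.range x ∪ E) _ hm
    rintro y (⟨i, rfl⟩ | hy)
    · simp only [Function.Embedding.trans_apply, Equiv.coe_toEmbedding]
      rw [h1, h3]
    · simp only [Function.Embedding.trans_apply, Equiv.coe_toEmbedding]
      rw [h2 y hy, h4 y hy, hσ y hy]
  vanish s hs 𝒲 h𝒲 := by
    obtain ⟨h1, h2⟩ := (exists_perm E k x s hx hs).choose_spec
    set π := (exists_perm E k x s hx hs).choose with hπ
    simp only [dif_pos hs]
    have hT : Integrable T μ := (Bd.ab μ ⟨1, hb⟩).integrable' (K.le _) hm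
    have hv' := hv ((fun W => π ⁻¹' W) '' 𝒲) (by
      rintro _ ⟨W, hW, rfl⟩ hsub
      apply h𝒲 W hW
      rintro _ ⟨i, rfl⟩
      rw [← h1 i]
      exact hsub ⟨i, rfl⟩)
    have hc := condExp_comp (K.J E ((fun W => π ⁻¹' W) '' 𝒲)) (Φ.mp π.toEmbedding)
      (K.J_le _ _) hT
    have hJ : (K.J E ((fun W => π ⁻¹' W) '' 𝒲)).comap (Φ.τ π.toEmbedding) = K.J E 𝒲 := by
      rw [K.comap_J, iSup_image]
      unfold Fam.J
      apply iSup_congr; intro W
      apply iSup_congr; intro _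
      congr 1
      rw [Set.image_union]
      congr 1
      · exact Set.image_preimage_eq W π.surjective
      · exact image_eq_of_fix (σ := π.toEmbedding) h2
    rw [hJ] at hc
    refine hc.trans ?_
    have := (Φ.mp π.toEmbedding).quasiMeasurePreserving.ae hv'
    filter_upwards [this] with ω hω
    exact hω

omit [IsProbabilityMeasure μ] in
theorem Charge.mk'_base (K : Fam Φ) (E : Set I) (k : ℕ) (x : Fin k → I) (hx : Adm E x)
    (T : Ω → ℝ) (hb : ∀ ω, |T ω| ≤ 1) (hm : StronglyMeasurable[K.H (Set.range x ∪ E)] T)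
    [IsProbabilityMeasure μ]
    (hv : ∀ 𝒲 : Set (Set I), (∀ W ∈ 𝒲, ¬ Set.range x ⊆ W) → μ[T|K.J E 𝒲] =ᵐ[μ] 0) :
    (Charge.mk' K E k x hx T hb hm hv).T x = T := by
  classical
  funext ω
  simp only [Charge.mk', dif_pos hx]
  obtain ⟨h1, h2⟩ := (exists_perm E k x x hx hx).choose_spec
  apply K.comp_id (U := Set.range x ∪ E) _ hm
  rintro y (⟨i, rfl⟩ | hy)
  · exact h1 i
  · exact h2 y hy

/-- the basic vanishing lemma -/
theorem Charge.int_eq_zero {K : Fam Φ} {E : Set I} {k : ℕ} (C : Charge K E k) {s : Fin k → I}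
    (hs : Adm E s) {𝒲 : Set (Set I)} (h𝒲 : ∀ W ∈ 𝒲, ¬ Set.range s ⊆ W) {G : Ω → ℝ}
    (hG : StronglyMeasurable[K.J E 𝒲] G) (hb : Bd G) : ∫ ω, C.T s ω * G ω ∂μ = 0 := by
  have h1 : Integrable (C.T s) μ := (Bd.ab μ ⟨1, C.bdd s⟩).integrable' (K.le _) (C.meas s hs)
  refine integral_mul_eq_zero (K.J_le _ _) h1 ?_ hG.aestronglyMeasurable (C.vanish s hs 𝒲 h𝒲)
  exact ((Bd.ab μ ⟨1, C.bdd s⟩).mul (hb.ab μ)).integrable
    (h1.1.mul (hG.mono (K.J_le _ _)).aestronglyMeasurable)

end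

end Coup
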