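import Pool.Agent.Work.MP_e8a478_co.Mov

/-!
# Combinatorics of the boxes
-/

open MeasureTheory Filter Topology ProbabilityTheory

namespace Coup

variable {Ω I : Type*} {m0 : MeasurableSpace Ω} {μ : Measure Ω}

/-- The composite of the shifts selected by `w`. -/
def cmp {I : Type*} : (k : ℕ) → (Fin k → (I ↪ I)) → (Fin k → Bool) → (I ↪ I)
  | 0, _, _ => Function.Embedding.refl I
  | k + 1, σ, w =>
    if w 0 then (σ 0).trans (cmp k (fun i => σ i.succ) (fun i => w i.succ))
    else cmp k (fun i => σ i.succ) (fun i => w i.succ)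

theorem box_ofFn (Φ : Flow Ω I μ) : ∀ (k : ℕ) (σ : Fin k → (I ↪ I)) (u : Ω → ℝ) (ω : Ω),
    box Φ (List.ofFn σ) u ω = ∏ w : Fin k → Bool, u (Φ.τ (cmp k σ w) ω)
  | 0, σ, u, ω => by
    simp only [List.ofFn_zero, box, cmp, Φ.one, Finset.prod_const]
    simp
  | k + 1, σ, u, ω => by
    rw [List.ofFn_succ]
    change box Φ (List.ofFn fun i => σ i.succ) (fun ω => u ω * u (Φ.τ (σ 0) ω)) ω = _
    rw [box_ofFn Φ k]
    rw [← (Fin.consEquiv (fun _ : Fin (k + 1) => Bool)).prod_comp, Fintype.prod_prod_type,
      Fintype.prod_bool, ← Finset.prod_mul_distrib]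
    apply Finset.prod_congr rfl
    intro w _
    rw [Φ.comp]
    simp only [Fin.consEquiv, Equiv.coe_fn_mk, cmp, Fin.cons_zero, Fin.cons_succ]
    simp [mul_comm]

/-- The swap embedding. -/
noncomputable def sw {I : Type*} (a b : I) : I ↪ I :=
  open Classical in (Equiv.swap a b).toEmbedding

theorem sw_left {I : Type*} (a b : I) : sw a b a = b := by
  classical
  simp [sw]

theorem sw_right {I : Type*} (a b : I) : sw a b b = a := by
  classical
  simp [sw]

theorem sw_ne {I : Type*} {a b z : I} (h1 : z ≠ a) (h2 : z ≠ b) : sw a b z = z := by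
  classical
  simp only [sw, Equiv.coe_toEmbedding]
  exact Equiv.swap_apply_of_ne_of_ne h1 h2

/-- The disjointness data for the two tuples. -/
structure Disj {I : Type*} {k : ℕ} (x xs : Fin k → I) : Prop where
  inj : Function.Injective x
  injs : Function.Injective xs
  ne : ∀ i j, x i ≠ xs j

theorem Disj.tail {I : Type*} {k : ℕ} {x xs : Fin (k + 1) → I} (h : Disj x xs) :
    Disj (fun i : Fin k => x i.succ) (fun i : Fin k => xs i.succ) :=
  ⟨h.inj.comp (Fin.succ_injective k), h.injs.comp (Fin.succ_injective k), fun _ _ => h.ne _ _⟩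

theorem cmp_other {I : Type*} : ∀ (k : ℕ) (x xs : Fin k → I) (w : Fin k → Bool) (z : I),
    (∀ i, z ≠ x i) → (∀ i, z ≠ xs i) → cmp k (fun i => sw (x i) (xs i)) w z = z
  | 0, _, _, _, _, _, _ => rfl
  | k + 1, x, xs, w, z, h1, h2 => by
    have ih := cmp_other k (fun i => x i.succ) (fun i => xs i.succ) (fun i => w i.succ) z
      (fun i => h1 _) (fun i => h2 _)
    by_cases hw : w 0
    · simp only [cmp, hw, if_true, Function.Embedding.trans_apply]
      rw [sw_ne (h1 0) (h2 0)]; exact ih
    · simp only [cmp, hw]
      exact ih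

theorem cmp_x {I : Type*} : ∀ (k : ℕ) (x xs : Fin k → I) (_ : Disj x xs) (w : Fin k → Bool)
    (i : Fin k), cmp k (fun i => sw (x i) (xs i)) w (x i) = if w i then xs i else x i
  | 0, _, _, _, _, i => i.elim0
  | k + 1, x, xs, h, w, i => by
    have ih := cmp_x k (fun i => x i.succ) (fun i => xs i.succ) h.tail (fun i => w i.succ)
    refine Fin.cases ?_ (fun j => ?_) i
    · have h1 : ∀ z, (z = x 0 ∨ z = xs 0) →
          cmp k (fun i => sw (x i.succ) (xs i.succ)) (fun i => w i.succ) z = z := by
        intro z hz
        apply cmp_other k (fun i => x i.succ) (fun i => xs i.succ)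
        · intro i he
          rcases hz with rfl | rfl
          · exact Fin.succ_ne_zero i (h.inj he).symm
          · exact h.ne _ _ he.symm
        · intro i he
          rcases hz with rfl | rfl
          · exact h.ne _ _ he
          · exact Fin.succ_ne_zero i (h.injs he).symm
      by_cases hw : w 0
      · simp only [cmp, hw, if_true, Function.Embedding.trans_apply]
        rw [sw_left]; exact h1 _ (Or.inr rfl)
      · simp only [cmp, hw]
        exact h1 _ (Or.inl rfl)
    · by_cases hw : w 0
      · simp only [cmp, hw, if_true, Function.Embedding.trans_apply]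
        rw [sw_ne (fun he => Fin.succ_ne_zero j (h.inj he)) (h.ne _ _)]
        exact ih j
      · simp only [cmp, hw]
        exact ih j

/-- The facets opposite to the points of the tuple are admissible with the swaps. -/
theorem valid_swaps {I : Type*} {E : Set I} : ∀ (k : ℕ) (x xs : Fin k → I) (_ : Disj x xs)
    (S : Set I) (_ : ∀ i, x i ∈ S) (_ : ∀ i, xs i ∉ S) (_ : ∀ i, xs i ∉ E) (_ : Disjoint S E),
    Valid E S (List.ofFn fun i => S \ {x i}) (List.ofFn fun i => sw (x i) (xs i))
  | 0, _, _, _, S, _, _, _, _ => by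
    simp only [List.ofFn_zero]
    exact Valid.nil S
  | k + 1, x, xs, h, S, hx, hs, hsE, hSE => by
    have hSE' := Set.disjoint_left.1 hSE
    have h0 : S \ (S \ {x 0}) = {x 0} := by
      ext z; constructor
      · rintro ⟨h1, h2⟩
        by_contra hne
        exact h2 ⟨h1, hne⟩
      · rintro rfl
        exact ⟨hx 0, fun h => h.2 rfl⟩
    have hfixS : ∀ z ∈ S, z ≠ x 0 → sw (x 0) (xs 0) z = z := fun z hz hne =>
      sw_ne hne (fun he => hs 0 (he ▸ hz))
    have him : ∀ X : Set I, X ⊆ S → x 0 ∈ X →
        X ∪ sw (x 0) (xs 0) '' X = X ∪ {xs 0} := by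
      intro X hX hx0
      ext z; constructor
      · rintro (hz | ⟨y, hy, rfl⟩)
        · exact Or.inl hz
        · by_cases hy0 : y = x 0
          · subst hy0; right; rw [sw_left]; rfl
          · left; rw [hfixS y (hX hy) hy0]; exact hy
      · rintro (hz | hz)
        · exact Or.inl hz
        · rw [Set.mem_singleton_iff] at hz
          subst hz
          exact Or.inr ⟨x 0, hx0, sw_left _ _⟩
    rw [List.ofFn_succ, List.ofFn_succ]
    apply Valid.cons
    · exact Set.sdiff_subset
    · intro X hX
      rw [List.mem_ofFn] at hX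
      obtain ⟨i, rfl⟩ := hX
      exact Set.sdiff_subset
    · rintro z (hz | hz)
      · exact hfixS z hz.1 hz.2
      · apply sw_ne
        · rintro rfl; exact hSE' (hx 0) hz
        · rintro rfl; exact hsE 0 hz
    · rw [h0, Set.image_singleton, sw_left, Set.disjoint_left]
      rintro z hz
      rw [Set.mem_singleton_iff] at hz
      subst hz
      rintro (h | h)
      · exact hs 0 h
      · exact hsE 0 h
    · have hS1 : S ∪ sw (x 0) (xs 0) '' S = S ∪ {xs 0} := him S le_rfl (hx 0)
      have hmap : (List.ofFn fun i : Fin k => S \ {x i.succ}).map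
          (fun X => X ∪ sw (x 0) (xs 0) '' X)
          = List.ofFn fun i : Fin k => (S ∪ {xs 0}) \ {x i.succ} := by
        rw [List.map_ofFn]
        congr 1
        funext i
        change (S \ {x i.succ}) ∪ sw (x 0) (xs 0) '' (S \ {x i.succ}) = _
        rw [him _ Set.sdiff_subset ⟨hx 0, fun he =>
          Fin.succ_ne_zero i (h.inj (Set.mem_singleton_iff.1 he)).symm⟩]
        ext z
        simp only [Set.mem_union, Set.mem_sdiff, Set.mem_singleton_iff]
        constructor
        · rintro (⟨h1, h2⟩ | rfl)
          · exact ⟨Or.inl h1, h2⟩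
          · exact ⟨Or.inr rfl, (h.ne _ _).symm⟩
        · rintro ⟨h1 | h1, h2⟩
          · exact Or.inl ⟨h1, h2⟩
          · exact Or.inr h1
      rw [hS1, hmap]
      apply valid_swaps k (fun i => x i.succ) (fun i => xs i.succ) h.tail (S ∪ {xs 0})
      · exact fun i => Or.inl (hx _)
      · rintro i (hi | hi)
        · exact hs _ hi
        · exact Fin.succ_ne_zero i (h.injs hi)
      · exact fun i => hsE _
      · rw [Set.disjoint_union_left]
        refine ⟨hSE, ?_⟩
        rw [Set.disjoint_singleton_left]
        exact hsE 0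

/-- The tuple selected by `w`. -/
def pk {I : Type*} {k : ℕ} (x xs : Fin k → I) (w : Fin k → Bool) : Fin k → I :=
  fun i => if w i then xs i else x i

theorem pk_injective {I : Type*} {k : ℕ} {x xs : Fin k → I} (h : Disj x xs) (w : Fin k → Bool) :
    Function.Injective (pk x xs w) := by
  intro i j hij
  unfold pk at hij
  by_cases h1 : w i <;> by_cases h2 : w j
  · simp only [h1, h2, if_true] at hij; exact h.injs hij
  · simp only [h1, h2, if_true] at hij; exact absurd hij.symm (by simpa using h.ne j i)
  · simp only [h1, h2, if_true] at hij; exact absurd hij (by simpa using h.ne i j)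
  · simp only [h1, h2] at hij; exact h.inj (by simpa using hij)

theorem pk_eq {I : Type*} {k : ℕ} {x xs : Fin k → I} (h : Disj x xs) {w w' : Fin k → Bool}
    {i j : Fin k} (he : pk x xs w i = pk x xs w' j) : i = j ∧ w i = w' j := by
  unfold pk at he
  by_cases h1 : w i <;> by_cases h2 : w' j
  · simp only [h1, h2, if_true] at he; exact ⟨h.injs he, by rw [h1, h2]⟩
  · simp only [h1, h2, if_true] at he; exact absurd he.symm (by simpa using h.ne j i)
  · simp only [h1, h2, if_true] at he; exact absurd he (by simpa using h.ne i j)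
  · refine ⟨h.inj (by simpa [h1, h2] using he), ?_⟩
    rw [Bool.not_eq_true] at h1 h2
    rw [h1, h2]

/-- The sections forming a full box have the same labelling. -/
theorem comb {V : Type*} [DecidableEq V] {k : ℕ} {y ys : Fin k → V}
    {c : V → Fin k} {ℬ : Finset (Fin k → V)} (hsec : ∀ a ∈ ℬ, ∀ i, c (a i) = i)
    (hform : ∀ a ∈ ℬ, ∃ (w : Fin k → Bool) (π : Fin k → Fin k), a = fun i => pk y ys w (π i))
    (hcard : ℬ.card = 2 ^ k) :
    ∃ π : Equiv.Perm (Fin k), ℬ = Finset.univ.image (fun w => fun i => pk y ys w (π i)) := by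
  classical
  -- the labelling is a permutation
  have hform' : ∀ a ∈ ℬ, ∃ (w : Fin k → Bool) (π : Equiv.Perm (Fin k)),
      a = fun i => pk y ys w (π i) := by
    intro a ha
    obtain ⟨w, π, rfl⟩ := hform a ha
    have hπ : Function.Injective π := by
      intro i j hij
      have h1 := hsec _ ha i
      have h2 := hsec _ ha j
      simp only [hij] at h1
      exact h1.symm.trans h2
    exact ⟨w, Equiv.ofBijective π (Finite.injective_iff_bijective.1 hπ), rfl⟩
  choose! W P hWP using hform'
  have hWinj : Set.InjOn W ℬ := by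
    intro a ha b hb hab
    funext i
    have e1 : a i = pk y ys (W a) (P a i) := congrFun (hWP a ha) i
    have e2 : ∀ j, b j = pk y ys (W b) (P b j) := fun j => congrFun (hWP b hb) j
    have e3 : b ((P b).symm (P a i)) = pk y ys (W b) (P a i) := by
      rw [e2, Equiv.apply_symm_apply]
    rw [← hab, ← e1] at e3
    have e4 : c (a i) = i := hsec a ha i
    rw [← e3, hsec b hb] at e4
    rw [← e3, e4]
  have hsurj : ∀ w : Fin k → Bool, ∃ a ∈ ℬ, W a = w := by
    have h1 : (ℬ.image W).card = 2 ^ k := by rw [Finset.card_image_of_injOn hWinj, hcard]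
    have h2 : ℬ.image W = Finset.univ := by
      apply Finset.eq_univ_of_card
      rw [h1]; simp
    intro w
    have := Finset.mem_univ w
    rw [← h2, Finset.mem_image] at this
    exact this
  -- colours
  have hcol : ∀ a ∈ ℬ, ∀ j, c (pk y ys (W a) j) = (P a).symm j := by
    intro a ha j
    have e1 : a ((P a).symm j) = pk y ys (W a) j := by
      have := congrFun (hWP a ha) ((P a).symm j)
      rw [this, Equiv.apply_symm_apply]
    rw [← e1, hsec a ha]
  obtain ⟨a0, ha0, hW0⟩ := hsurj (fun _ => false)
  have c0 : ∀ j, c (y j) = (P a0).symm j := by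
    intro j
    have := hcol a0 ha0 j
    rw [hW0] at this
    simpa [pk] using this
  have c1 : ∀ j, c (ys j) = (P a0).symm j := by
    intro j
    obtain ⟨a1, ha1, hW1⟩ := hsurj (fun i => decide (i = j))
    have e1 : ∀ l, l ≠ j → (P a1).symm l = (P a0).symm l := by
      intro l hl
      have := hcol a1 ha1 l
      rw [hW1] at this
      rw [← this, ← c0 l]
      simp [pk, hl]
    have e2 : (P a1).symm j = (P a0).symm j := by
      by_contra hne
      have h3 : (P a1) ((P a0).symm j) ≠ j := fun he => hne ((Equiv.symm_apply_eq _).2 he.symm)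
      have h4 := e1 _ h3
      rw [Equiv.symm_apply_apply] at h4
      exact h3 ((P a0).symm.injective h4).symm
    rw [← e2, ← hcol a1 ha1 j, hW1]
    simp [pk]
  have hP : ∀ a ∈ ℬ, P a = P a0 := by
    intro a ha
    have : (P a).symm = (P a0).symm := by
      ext j
      rw [← hcol a ha j]
      congr 1
      by_cases hw : W a j
      · simp [pk, hw, c1]
      · simp [pk, hw, c0]
    exact Equiv.symm_bijective.injective this
  refine ⟨P a0, ?_⟩
  ext a
  rw [Finset.mem_image]
  constructor
  · intro ha
    refine ⟨W a, Finset.mem_univ _, ?_⟩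
    rw [← hP a ha]
    exact (hWP a ha).symm
  · rintro ⟨w, _, rfl⟩
    obtain ⟨a, ha, hw⟩ := hsurj w
    have e1 := hWP a ha
    rw [hw, hP a ha] at e1
    rw [← e1]
    exact ha

theorem pk_comp_injective {I : Type*} {k : ℕ} {x xs : Fin k → I} (h : Disj x xs)
    (π : Equiv.Perm (Fin k)) :
    Function.Injective (fun w : Fin k → Bool => fun i => pk x xs w (π i)) := by
  intro w w' he
  funext j
  have := congrFun he (π.symm j)
  simp only [Equiv.apply_symm_apply] at this
  exact (pk_eq h this).2

end Coup
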