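import Pool.Agent.Work.MP_e8a478_co.Defs

/-!
# Interface of the concrete part (MP_e8a478_co)

A. `HomProps`  : limit objects are consistent, dissociated, supported families        (helper65)
B. `MemHom`    : conversely, such families are limit objects                          (helper77)
C. `UcLaw`     : unique coupleability kills every consistent (not nec. dissociated)
                 family with the two marginals, except the product                    (helper77)
D. `ExistsMeasure`, `Invariance`, `Independence` : the exchangeable random structure  (helper65)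
-/

open Filter Topology Classical MeasureTheory ProbabilityTheory

namespace Pool.MP_e8a478_co

variable {L L₁ L₂ : Lang}

/-- A consistent family of probability distributions on the labelled finite structures. -/
structure Consistent (ξ : Fam L) : Prop where
  nonneg : ∀ m M, 0 ≤ ξ m M
  total : ∑ M : Str L (Fin 0), ξ 0 M = 1
  cons : ∀ {m n : ℕ} (f : Fin m ↪ Fin n) (M : Str L (Fin m)),
    ∑ N : Str L (Fin n), (if N.pull f = M then ξ n N else 0) = ξ m M

/-- Disjoint parts are independent. -/
def Dissociated (ξ : Fam L) : Prop :=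
  ∀ (m n : ℕ) (M : Str L (Fin m)) (M' : Str L (Fin n)),
    ∑ N : Str L (Fin (m + n)),
      (if N.pull (Fin.castAdd n) = M ∧ N.pull (Fin.natAdd m) = M' then ξ (m + n) N else 0) =
        ξ m M * ξ n M'

/-- The family lives on the models of `T`. -/
def Supported (T : Theory L) (ξ : Fam L) : Prop := ∀ n N, ξ n N ≠ 0 → N ∈ T.mod n

/-- A. -/
def HomProps : Prop := ∀ (L : Lang) (T : Theory L) (ξ : Fam L), ξ ∈ Hom T →
  Consistent ξ ∧ Dissociated ξ ∧ Supported T ξ

/-- B. -/
def MemHom : Prop := ∀ (L : Lang) (T : Theory L) (ξ : Fam L),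
  Consistent ξ → Dissociated ξ → Supported T ξ → ξ ∈ Hom T

/-- C. -/
def UcLaw : Prop := ∀ (L₁ L₂ : Lang) (T₁ : Theory L₁) (T₂ : Theory L₂) (φ₁ : Fam L₁) (φ₂ : Fam L₂)
  (ξ : Fam (L₁.sum L₂)), Consistent φ₁ → Dissociated φ₁ → Supported T₁ φ₁ →
  Consistent φ₂ → Dissociated φ₂ → Supported T₂ φ₂ → UC T₁ T₂ φ₁ φ₂ →
  Consistent ξ → marg₁ ξ = φ₁ → marg₂ ξ = φ₂ → ξ = indep φ₁ φ₂

instance (L : Lang) (V : Type) : MeasurableSpace (Str L V) :=
  inferInstanceAs (MeasurableSpace ((i : L.ι) → (Fin (L.ar i) → V) → Bool))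

instance (L : Lang) (V : Type) : TopologicalSpace (Str L V) :=
  inferInstanceAs (TopologicalSpace ((i : L.ι) → (Fin (L.ar i) → V) → Bool))

/-- `μ` is the law of a random structure on `I` with the distribution family `ξ`. -/
def IsLaw {I : Type} (ξ : Fam L) (μ : Measure (Str L I)) : Prop :=
  ∀ (m : ℕ) (f : Fin m ↪ I) (M : Str L (Fin m)), μ {S | S.pull f = M} = ENNReal.ofReal (ξ m M)

/-- the σ-algebra of the structure induced on `U` -/
@[reducible] def HS (L : Lang) {I : Type} (U : Set I) : MeasurableSpace (Str L I) :=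
  MeasurableSpace.comap (fun S : Str L I => S.pull (Subtype.val : U → I)) inferInstance

/-- D. -/
def ExistsMeasure : Prop := ∀ (L : Lang) (I : Type) [Countable I] (ξ : Fam L), Consistent ξ →
  ∃ μ : Measure (Str L I), IsProbabilityMeasure μ ∧ IsLaw ξ μ

/-- D. -/
def Invariance : Prop := ∀ (L : Lang) (I : Type) (ξ : Fam L) (μ : Measure (Str L I)),
  Consistent ξ → IsProbabilityMeasure μ → IsLaw ξ μ → ∀ σ : I → I, Function.Injective σ →
  MeasurePreserving (fun S : Str L I => S.pull σ) μ μ

/-- D. -/
def Independence : Prop := ∀ (L : Lang) (I : Type) (ξ : Fam L)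
  (μ : Measure (Str L I)), IsProbabilityMeasure μ → Consistent ξ → Dissociated ξ → IsLaw ξ μ →
  ∀ U V : Set I, Disjoint U V → Indep (HS L U) (HS L V) μ

end Pool.MP_e8a478_co
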