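import Mathlib

/-!
# Conditional expectations: auxiliary facts
-/

open MeasureTheory Filter

namespace Coup

variable {Ω : Type*} {m0 : MeasurableSpace Ω} {μ : Measure Ω} [IsProbabilityMeasure μ]

/-- Almost everywhere bounded functions. -/
def AB (μ : Measure Ω) (u : Ω → ℝ) : Prop := ∃ C : ℝ, ∀ᵐ ω ∂μ, |u ω| ≤ C

omit [IsProbabilityMeasure μ] in
theorem AB.mul {u v : Ω → ℝ} (hu : AB μ u) (hv : AB μ v) : AB μ (fun ω => u ω * v ω) := by
  obtain ⟨C, hC⟩ := hu
  obtain ⟨D, hD⟩ := hv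
  refine ⟨C * D, ?_⟩
  filter_upwards [hC, hD] with ω h1 h2
  rw [abs_mul]
  exact mul_le_mul h1 h2 (abs_nonneg _) ((abs_nonneg _).trans h1)

omit [IsProbabilityMeasure μ] in
theorem AB.sub {u v : Ω → ℝ} (hu : AB μ u) (hv : AB μ v) : AB μ (fun ω => u ω - v ω) := by
  obtain ⟨C, hC⟩ := hu
  obtain ⟨D, hD⟩ := hv
  refine ⟨C + D, ?_⟩
  filter_upwards [hC, hD] with ω h1 h2
  exact (abs_sub _ _).trans (add_le_add h1 h2)

omit [IsProbabilityMeasure μ] in
theorem AB.comp {u : Ω → ℝ} (hu : AB μ u) {τ : Ω → Ω} (hτ : MeasurePreserving τ μ μ) :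
    AB μ (fun ω => u (τ ω)) := by
  obtain ⟨C, hC⟩ := hu
  exact ⟨C, hτ.quasiMeasurePreserving.ae hC⟩

omit [IsProbabilityMeasure μ] in
theorem AB.condExp {u : Ω → ℝ} (hu : AB μ u) (m : MeasurableSpace Ω) : AB μ (μ[u|m]) := by
  obtain ⟨C, hC⟩ := hu
  exact ⟨C, ae_bdd_abs_condExp_of_ae_bdd_abs hC⟩

omit [IsProbabilityMeasure μ] in
theorem AB.of_bdd {u : Ω → ℝ} {C : ℝ} (h : ∀ ω, |u ω| ≤ C) : AB μ u :=
  ⟨C, Eventually.of_forall h⟩

theorem AB.integrable {u : Ω → ℝ} (hu : AB μ u) (hm : AEStronglyMeasurable u μ) :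
    Integrable u μ := by
  obtain ⟨C, hC⟩ := hu
  exact Integrable.of_bound hm C (by simpa using hC)

theorem AB.integrable' {u : Ω → ℝ} (hu : AB μ u) {m : MeasurableSpace Ω} (hm : m ≤ m0)
    (h : StronglyMeasurable[m] u) : Integrable u μ :=
  hu.integrable (h.mono hm).aestronglyMeasurable

theorem integral_condExp' {m : MeasurableSpace Ω} (hm : m ≤ m0) (u : Ω → ℝ) :
    ∫ ω, (μ[u|m]) ω ∂μ = ∫ ω, u ω ∂μ := integral_condExp hm

/-- Orthogonality. -/
theorem integral_mul_eq_zero {m : MeasurableSpace Ω} (hm : m ≤ m0) {u v : Ω → ℝ}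
    (hu : Integrable u μ) (huv : Integrable (fun ω => u ω * v ω) μ)
    (hv : AEStronglyMeasurable[m] v μ) (h0 : μ[u|m] =ᵐ[μ] 0) :
    ∫ ω, u ω * v ω ∂μ = 0 := by
  have h1 : μ[(u * v)|m] =ᵐ[μ] μ[u|m] * v :=
    condExp_mul_of_aestronglyMeasurable_right hv huv hu
  have h2 : ∫ ω, (μ[(u * v)|m]) ω ∂μ = ∫ ω, (u * v) ω ∂μ := integral_condExp hm
  have h3 : ∫ ω, (μ[(u * v)|m]) ω ∂μ = 0 := by
    rw [integral_congr_ae h1]
    apply integral_eq_zero_of_ae
    filter_upwards [h0] with ω h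
    simp [h]
  rw [h3] at h2
  exact h2.symm

/-- Integrals against measurable functions only see the conditional expectation. -/
theorem integral_mul_condExp {m : MeasurableSpace Ω} (hm : m ≤ m0) {u v : Ω → ℝ}
    (hu : Integrable u μ) (huv : Integrable (fun ω => u ω * v ω) μ)
    (hv : AEStronglyMeasurable[m] v μ) :
    ∫ ω, u ω * v ω ∂μ = ∫ ω, (μ[u|m]) ω * v ω ∂μ := by
  have h1 : μ[(u * v)|m] =ᵐ[μ] μ[u|m] * v :=
    condExp_mul_of_aestronglyMeasurable_right hv huv hu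
  have h2 : ∫ ω, (μ[(u * v)|m]) ω ∂μ = ∫ ω, (u * v) ω ∂μ := integral_condExp hm
  rw [integral_congr_ae h1] at h2
  exact h2.symm

theorem condExp_eq_zero_of_setIntegral {m : MeasurableSpace Ω} (hm : m ≤ m0) {u : Ω → ℝ}
    (hu : Integrable u μ) (h : ∀ s, MeasurableSet[m] s → ∫ ω in s, u ω ∂μ = 0) :
    μ[u|m] =ᵐ[μ] 0 := by
  symm
  apply ae_eq_condExp_of_forall_setIntegral_eq hm hu
  · intro s _ _
    exact (integrable_zero _ _ _).integrableOn
  · intro s hs _
    rw [h s hs]; simp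
  · exact stronglyMeasurable_zero.aestronglyMeasurable

omit [IsProbabilityMeasure μ] in
theorem setIntegral_eq_mul {u : Ω → ℝ} {s : Set Ω} (hs : MeasurableSet s) :
    ∫ ω in s, u ω ∂μ = ∫ ω, u ω * s.indicator (fun _ => (1:ℝ)) ω ∂μ := by
  rw [← integral_indicator hs]
  congr 1
  ext ω
  by_cases h : ω ∈ s <;> simp [h]

/-- Test on intersections. -/
theorem condExp_sup_eq_zero {m1 m2 : MeasurableSpace Ω} (h1 : m1 ≤ m0) (h2 : m2 ≤ m0)
    {u : Ω → ℝ} (hu : Integrable u μ)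
    (h : ∀ A B, MeasurableSet[m1] A → MeasurableSet[m2] B → ∫ ω in A ∩ B, u ω ∂μ = 0) :
    μ[u|m1 ⊔ m2] =ᵐ[μ] 0 := by
  have hle : m1 ⊔ m2 ≤ m0 := sup_le h1 h2
  apply condExp_eq_zero_of_setIntegral hle hu
  set C : Set (Set Ω) := {s | ∃ A B, MeasurableSet[m1] A ∧ MeasurableSet[m2] B ∧ s = A ∩ B} with hC
  have hgen : m1 ⊔ m2 = MeasurableSpace.generateFrom C := by
    apply le_antisymm
    · apply sup_le
      · intro A hA
        apply MeasurableSpace.measurableSet_generateFrom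
        exact ⟨A, Set.univ, hA, MeasurableSet.univ, by simp⟩
      · intro B hB
        apply MeasurableSpace.measurableSet_generateFrom
        exact ⟨Set.univ, B, MeasurableSet.univ, hB, by simp⟩
    · apply MeasurableSpace.generateFrom_le
      rintro s ⟨A, B, hA, hB, rfl⟩
      exact MeasurableSet.inter ((le_sup_left : m1 ≤ m1 ⊔ m2) A hA)
        ((le_sup_right : m2 ≤ m1 ⊔ m2) B hB)
  have hpi : IsPiSystem C := by
    rintro s ⟨A, B, hA, hB, rfl⟩ t ⟨A', B', hA', hB', rfl⟩ _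
    refine ⟨A ∩ A', B ∩ B', hA.inter hA', hB.inter hB', ?_⟩
    ext x; simp only [Set.mem_inter_iff]; tauto
  have huniv : ∫ ω, u ω ∂μ = 0 := by
    have := h Set.univ Set.univ MeasurableSet.univ MeasurableSet.univ
    simpa using this
  intro s hs
  refine MeasurableSpace.induction_on_inter
    (C := fun s _ => ∫ ω in s, u ω ∂μ = 0) hgen hpi ?_ ?_ ?_ ?_ s hs
  · simp
  · rintro t ⟨A, B, hA, hB, rfl⟩
    exact h A B hA hB
  · intro t ht hzero
    have := integral_add_compl (hle t ht) hu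
    rw [hzero, huniv] at this
    simpa using this
  · intro f hd hf hz
    rw [integral_iUnion (fun i => hle _ (hf i)) hd hu.integrableOn]
    simp [hz]

/-- Conditional expectation and measure preserving maps. -/
theorem condExp_comp {Ω : Type*} (m : MeasurableSpace Ω) {m0 : MeasurableSpace Ω}
    {μ : Measure Ω} [IsProbabilityMeasure μ] {τ : Ω → Ω} (hτ : MeasurePreserving τ μ μ)
    (hm : m ≤ m0) {u : Ω → ℝ} (hu : Integrable u μ) :
    μ[(fun ω => u (τ ω))|m.comap τ] =ᵐ[μ] fun ω => (μ[u|m]) (τ ω) := by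
  have hle : m.comap τ ≤ m0 := by
    rintro s ⟨t, ht, rfl⟩
    exact hτ.measurable (hm t ht)
  symm
  have hcint : Integrable (fun ω => (μ[u|m]) (τ ω)) μ :=
    hτ.integrable_comp_of_integrable integrable_condExp
  apply ae_eq_condExp_of_forall_setIntegral_eq hle (hτ.integrable_comp_of_integrable hu)
  · intro s _ _
    exact hcint.integrableOn
  · rintro s ⟨t, ht, rfl⟩ _
    have ht0 : MeasurableSet[m0] t := hm t ht
    have key : ∀ v : Ω → ℝ, AEStronglyMeasurable v μ →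
        ∫ ω in τ ⁻¹' t, v (τ ω) ∂μ = ∫ ω in t, v ω ∂μ := by
      intro v hv
      have hv' : AEStronglyMeasurable v (μ.map τ) := by rw [hτ.map_eq]; exact hv
      have := setIntegral_map (μ := μ) ht0 hv' hτ.aemeasurable
      rw [hτ.map_eq] at this
      exact this.symm
    have k1 := key _ hu.aestronglyMeasurable
    have k2 := key _ (integrable_condExp (m := m) (f := u) (μ := μ)).aestronglyMeasurable
    have k3 : ∫ ω in τ ⁻¹' t, (u ∘ τ) ω ∂μ = ∫ ω in τ ⁻¹' t, u (τ ω) ∂μ := rfl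
    rw [k3, k1, k2]
    exact setIntegral_condExp hm hu ht
  · apply StronglyMeasurable.aestronglyMeasurable
    have h1 : StronglyMeasurable[m] (μ[u|m]) := stronglyMeasurable_condExp
    have h2 : @Measurable Ω Ω (m.comap τ) m τ := comap_measurable τ
    exact h1.comp_measurable h2

/-- Nested algebras with equal `L_2` norms. -/
theorem condExp_eq_of_norm {m m' : MeasurableSpace Ω} (hmm : m ≤ m') (hm' : m' ≤ m0) {u : Ω → ℝ}
    (hu : AB μ u)
    (hn : ∫ ω, ((μ[u|m]) ω) ^ 2 ∂μ = ∫ ω, ((μ[u|m']) ω) ^ 2 ∂μ) : μ[u|m] =ᵐ[μ] μ[u|m'] := by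
  have hm : m ≤ m0 := hmm.trans hm'
  set a := μ[u|m] with ha
  set b := μ[u|m'] with hb
  have hAa : AB μ a := hu.condExp m
  have hAb : AB μ b := hu.condExp m'
  have hia : Integrable a μ := integrable_condExp
  have hib : Integrable b μ := integrable_condExp
  have hbb : Integrable (fun ω => b ω * a ω) μ := (hAb.mul hAa).integrable (hib.1.mul hia.1)
  have haa : Integrable (fun ω => a ω * a ω) μ := (hAa.mul hAa).integrable (hia.1.mul hia.1)
  have hb2 : Integrable (fun ω => b ω * b ω) μ := (hAb.mul hAb).integrable (hib.1.mul hib.1)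
  have hcross : ∫ ω, b ω * a ω ∂μ = ∫ ω, a ω * a ω ∂μ := by
    rw [integral_mul_condExp hm hib hbb stronglyMeasurable_condExp.aestronglyMeasurable]
    apply integral_congr_ae
    have := condExp_condExp_of_le (μ := μ) (f := u) hmm hm'
    filter_upwards [this] with ω h
    rw [hb, h]
  have hsq : ∫ ω, (a ω - b ω) ^ 2 ∂μ = 0 := by
    have h1 : ∀ ω, (a ω - b ω) ^ 2 = a ω * a ω - 2 * (b ω * a ω) + b ω * b ω := fun ω => by ring
    have h7 : ∫ ω, (a ω - b ω) ^ 2 ∂μ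
        = ∫ ω, ((a ω * a ω - 2 * (b ω * a ω)) + b ω * b ω) ∂μ := by
      apply integral_congr_ae
      exact Eventually.of_forall h1
    have h8 : ∫ ω, ((a ω * a ω - 2 * (b ω * a ω)) + b ω * b ω) ∂μ
        = ∫ ω, (a ω * a ω - 2 * (b ω * a ω)) ∂μ + ∫ ω, b ω * b ω ∂μ :=
      integral_add (haa.sub (hbb.const_mul 2)) hb2
    have h9 : ∫ ω, (a ω * a ω - 2 * (b ω * a ω)) ∂μ
        = ∫ ω, a ω * a ω ∂μ - ∫ ω, 2 * (b ω * a ω) ∂μ :=
      integral_sub haa (hbb.const_mul 2)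
    rw [h7, h8, h9, integral_const_mul, hcross]
    have h2 : ∫ ω, b ω * b ω ∂μ = ∫ ω, a ω * a ω ∂μ := by
      have h3 : ∀ f : Ω → ℝ, ∫ ω, f ω * f ω ∂μ = ∫ ω, (f ω) ^ 2 ∂μ := by
        intro f; congr 1; ext ω; ring
      rw [h3, h3]; exact hn.symm
    rw [h2]; ring
  have h4 : (fun ω => (a ω - b ω) ^ 2) =ᵐ[μ] 0 := by
    rw [← integral_eq_zero_iff_of_nonneg (fun ω => sq_nonneg _)]
    · exact hsq
    · have hs : AB μ (fun ω => a ω - b ω) := hAa.sub hAb
      have := (hs.mul hs).integrable ((hia.1.sub hib.1).mul (hia.1.sub hib.1))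
      simpa [sq] using this
  filter_upwards [h4] with ω h
  have h5 : (a ω - b ω) ^ 2 = 0 := h
  have h6 : a ω - b ω = 0 := by simpa using h5
  linarith

end Coup
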