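import Pool.Agent.Work.MP_e8a478_co.Poly

/-!
# A common level contradicts unique coupleability
-/

open MeasureTheory Filter Topology ProbabilityTheory

namespace Coup

variable {Ω I : Type*} {m0 : MeasurableSpace Ω} {μ : Measure Ω} [IsProbabilityMeasure μ]
variable {Φ : Flow Ω I μ} {E : Set I} {k : ℕ} {x : Fin k → I} {T T' : Ω → ℝ}

/-- A finite sum of monomials which is constant on `[0,1]` has no coefficient in positive
degree. -/
theorem coeff_zero_of_const {β : Type*} (s : Finset β) (d : β → ℕ) (a : β → ℝ) (C : ℝ)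
    (h : ∀ t : ℝ, 0 ≤ t → t ≤ 1 → ∑ b ∈ s, t ^ d b * a b = C) {N : ℕ} (hN : 0 < N) :
    ∑ b ∈ s, (if d b = N then a b else 0) = 0 := by
  classical
  set P : Polynomial ℝ := ∑ b ∈ s, Polynomial.C (a b) * Polynomial.X ^ d b with hP
  have heval : ∀ t, P.eval t = ∑ b ∈ s, t ^ d b * a b := by
    intro t
    rw [hP, Polynomial.eval_finsetSum]
    apply Finset.sum_congr rfl
    intro b _
    rw [Polynomial.eval_mul, Polynomial.eval_C, Polynomial.eval_pow, Polynomial.eval_X, mul_comm]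
  have hPC : P = Polynomial.C C := by
    apply Polynomial.eq_of_infinite_eval_eq
    apply Set.Infinite.mono (s := Set.Icc (0:ℝ) 1)
    · intro t ht
      change P.eval t = (Polynomial.C C).eval t
      rw [heval, h t ht.1 ht.2, Polynomial.eval_C]
    · exact Set.Icc_infinite zero_lt_one
  have h1 : P.coeff N = 0 := by
    rw [hPC, Polynomial.coeff_C, if_neg hN.ne']
  rw [hP, Polynomial.finsetSum_coeff] at h1
  refine Eq.trans (Finset.sum_congr rfl ?_) h1
  intro b _
  rw [Polynomial.coeff_C_mul_X_pow]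
  by_cases hb : d b = N
  · rw [if_pos hb, if_pos hb.symm]
  · rw [if_neg hb, if_neg (fun h => hb h.symm)]

omit [IsProbabilityMeasure μ] in
theorem AB.prod {β : Type*} {s : Finset β} {u : β → Ω → ℝ} (h : ∀ b ∈ s, AB μ (u b)) :
    AB μ (fun ω => ∏ b ∈ s, u b ω) := by
  classical
  induction s using Finset.induction_on with
  | empty => exact AB.of_bdd (C := 1) (by simp)
  | insert a s ha ih =>
    have h1 := (h a (Finset.mem_insert_self _ _)).mul (ih fun b hb => h b (Finset.mem_insert_of_mem hb))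
    have h2 : (fun ω => ∏ b ∈ insert a s, u b ω) = fun ω => u a ω * ∏ b ∈ s, u b ω := by
      funext ω; rw [Finset.prod_insert ha]
    rw [h2]; exact h1

/-- The composite shift. -/
noncomputable def sh {k : ℕ} (x xs : Fin k → I) (w : Fin k → Bool) : I ↪ I :=
  cmp k (fun i => sw (x i) (xs i)) w

/-- The box function. -/
noncomputable def bx (Φ : Flow Ω I μ) {k : ℕ} (x xs : Fin k → I) (u : Ω → ℝ) : Ω → ℝ :=
  fun ω => ∏ w : Fin k → Bool, u (Φ.τ (sh x xs w) ω)

section

variable {K : Fam Φ} {xs : Fin k → I} {S : Set I}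

theorem bx_pos [Countable I] (hk : 0 < k) (hE : E.Infinite) (hd : Disj x xs)
    (hxS : ∀ i, x i ∈ S) (hsS : ∀ i, xs i ∉ S) (hsE : ∀ i, xs i ∉ E) (hSE : Disjoint S E)
    {u : Ω → ℝ} (hu : AB μ u) (hm : StronglyMeasurable[K.H (S ∪ E)] u) :
    0 ≤ ∫ ω, bx Φ x xs u ω ∂μ ∧
      (∫ ω, bx Φ x xs u ω ∂μ = 0 →
        μ[u|K.J E {W | ∃ z ∈ Set.range x, W = S \ {z}}] =ᵐ[μ] 0) := by
  have hv := valid_swaps k x xs hd S hxS hsS hsE hSE
  have hl : (List.ofFn fun i => S \ {x i}) ≠ [] := by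
    intro h
    have := congrArg List.length h
    simp at this
    omega
  have hp := K.pos hE hv hl hSE hu hm
  have e1 : ∀ ω, box Φ (List.ofFn fun i => sw (x i) (xs i)) u ω = bx Φ x xs u ω :=
    fun ω => box_ofFn Φ k _ u ω
  have e2 : {W : Set I | W ∈ List.ofFn fun i => S \ {x i}} = {W | ∃ z ∈ Set.range x, W = S \ {z}} := by
    ext W
    simp only [List.mem_ofFn, Set.mem_range, exists_exists_eq_and]
    constructor
    · rintro ⟨i, rfl⟩; exact ⟨i, rfl⟩
    · rintro ⟨i, rfl⟩; exact ⟨i, rfl⟩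
  simp only [e1, e2] at hp
  exact ⟨hp.1, hp.2.1⟩

theorem sh_E (hxE : ∀ i, x i ∉ E) (hsE : ∀ i, xs i ∉ E) (w : Fin k → Bool) :
    ∀ e ∈ E, sh x xs w e = e := by
  intro e he
  apply cmp_other
  · rintro i rfl; exact hxE i he
  · rintro i rfl; exact hsE i he

theorem sh_x (hd : Disj x xs) (w : Fin k → Bool) (i : Fin k) :
    sh x xs w (x i) = pk x xs w i := cmp_x k x xs hd w i

theorem sh_other {z : I} (h1 : ∀ i, z ≠ x i) (h2 : ∀ i, z ≠ xs i) (w : Fin k → Bool) :
    sh x xs w z = z := cmp_other k x xs w z h1 h2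

omit [IsProbabilityMeasure μ] in
theorem bx_AB {u : Ω → ℝ} (hu : AB μ u) : AB μ (bx Φ x xs u) :=
  AB.prod fun _ _ => hu.comp (Φ.mp _)

omit [IsProbabilityMeasure μ] in
theorem bx_meas {u : Ω → ℝ} (hm : StronglyMeasurable[K.H S] u) {m : MeasurableSpace Ω}
    (h : ∀ w, K.H (sh x xs w '' S) ≤ m) : StronglyMeasurable[m] (bx Φ x xs u) :=
  Finset.stronglyMeasurable_fun_prod _ fun w _ => (K.comp_meas (sh x xs w) hm).mono (h w)

omit [IsProbabilityMeasure μ] in
/-- Rewriting a full box moment. -/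
theorem mom_box {n : ℕ} (hT : Cent K E x T) (hd : Disj x xs) (hsE : ∀ i, xs i ∉ E)
    {ι : Fin n → I} {y ys : Fin k → Fin n} (hy : ∀ i, ι (y i) = x i) (hys : ∀ i, ι (ys i) = xs i)
    (hdy : Disj y ys) (π : Equiv.Perm (Fin k)) (u : Ω → ℝ) :
    mom Φ E x T ι (bx Φ x xs u) (Finset.univ.image (fun w => fun i => pk y ys w (π i)))
      = ∫ ω, bx Φ x xs (fun ω => u ω * cp Φ E x T (fun i => x (π i)) ω) ω ∂μ := by
  classical
  unfold mom
  congr 1; ext ω
  rw [Finset.prod_image (fun w _ w' _ h => pk_comp_injective hdy π h)]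
  unfold bx
  rw [Finset.prod_mul_distrib]
  congr 1
  apply Finset.prod_congr rfl
  intro w _
  have hg : Good E (fun i => x (π i)) := ⟨hT.good.1.comp π.injective, fun i => hT.good.2 _⟩
  rw [hT.cp_comp hg (sh_E hT.good.2 hsE w)]
  congr 1
  funext i
  rw [sh_x hd]
  by_cases hw : w (π i) <;> simp [pk, hw, hy, hys]

end

/-- The points of a section lie over the two tuples. -/
theorem form_of_sub {xs : Fin k → I} {S S' : Set I} (hd : Disj x xs)
    (hsS : ∀ i, xs i ∉ S) (hsS' : ∀ i, xs i ∉ S') (hSS : S ∩ S' ⊆ Set.range x)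
    {w w' : Fin k → Bool} {v : I} (h1 : v ∈ sh x xs w '' S) (h2 : v ∈ sh x xs w' '' S') :
    ∃ j, v = pk x xs w j := by
  obtain ⟨s, hs, rfl⟩ := h1
  by_cases hsx : ∃ j, s = x j
  · obtain ⟨j, rfl⟩ := hsx
    exact ⟨j, sh_x hd w j⟩
  · exfalso
    push Not at hsx
    have hss : ∀ j, s ≠ xs j := fun j he => hsS j (he ▸ hs)
    rw [sh_other hsx hss] at h2
    obtain ⟨s', hs', he⟩ := h2
    by_cases hsx' : ∃ j, s' = x j
    · obtain ⟨j, rfl⟩ := hsx'
      rw [sh_x hd] at he
      unfold pk at he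
      split_ifs at he
      · exact hss j he.symm
      · exact hsx j he.symm
    · push Not at hsx'
      rw [sh_other hsx' (fun j (he' : s' = xs j) => hsS' j (he' ▸ hs'))] at he
      subst he
      obtain ⟨j, hj⟩ := hSS ⟨hs, hs'⟩
      exact hsx j hj.symm

/-- The main contradiction. -/
theorem core {K K' : Fam Φ} [Countable I] (hk : 0 < k) (hE : E.Infinite) (hE' : Eᶜ.Infinite)
    (hT : Cent K E x T) (hT' : Cent K' E x T') {S S' : Set I} (hS : S.Finite) (hS' : S'.Finite)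
    (hSE : Disjoint S E) (hSE' : Disjoint S' E) (hxS : ∀ i, x i ∈ S) (hxS' : ∀ i, x i ∈ S')
    (hSS : S ∩ S' ⊆ Set.range x) {f f' : Ω → ℝ} (hf : AB μ f) (hf' : AB μ f')
    (hfm : StronglyMeasurable[K.H S] f) (hfm' : StronglyMeasurable[K'.H S'] f')
    (hne : ¬ μ[(fun ω => f ω * T ω)|K.J E {W | ∃ z ∈ Set.range x, W = S \ {z}}] =ᵐ[μ] 0)
    (hne' : ¬ μ[(fun ω => f' ω * T' ω)|K'.J E {W | ∃ z ∈ Set.range x, W = S' \ {z}}] =ᵐ[μ] 0)
    (hUC : ∀ (t : ℝ), 0 ≤ t → t ≤ 1 → ∀ (n : ℕ) (ι : Fin n → I), Good E ι →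
      ∀ F G : Ω → ℝ, AB μ F → StronglyMeasurable[K.H (Set.range ι)] F → AB μ G →
      StronglyMeasurable[K'.H (Set.range ι)] G →
      Q Φ E x T T' t ι F G = (∫ ω, F ω ∂μ) * ∫ ω, G ω ∂μ) : False := by
  classical
  -- fresh points
  have hinf : (Eᶜ \ (S ∪ S')).Infinite := hE'.sdiff (hS.union hS')
  let xs : Fin k → I := fun i => (hinf.natEmbedding _ i : I)
  have hxs : ∀ i, xs i ∈ Eᶜ \ (S ∪ S') := fun i => (hinf.natEmbedding _ i).2
  have hsE : ∀ i, xs i ∉ E := fun i => (hxs i).1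
  have hsS : ∀ i, xs i ∉ S := fun i h => (hxs i).2 (Or.inl h)
  have hsS' : ∀ i, xs i ∉ S' := fun i h => (hxs i).2 (Or.inr h)
  have hd : Disj x xs := by
    refine ⟨hT.good.1, ?_, fun i j he => hsS j (he ▸ hxS i)⟩
    intro i j hij
    have h1 : (hinf.natEmbedding _ (i : ℕ)) = hinf.natEmbedding _ (j : ℕ) := Subtype.ext hij
    exact Fin.ext ((hinf.natEmbedding _).injective h1)
  -- the vertex set
  have hRfin : (S ∪ S' ∪ Set.range xs).Finite := (hS.union hS').union (Set.finite_range _)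
  set R : Finset I := hRfin.toFinset with hR
  have hmemR : ∀ z, z ∈ R ↔ z ∈ S ∪ S' ∪ Set.range xs := fun z => by rw [hR, Set.Finite.mem_toFinset]
  set ι : Fin R.card → I := fun i => (R.equivFin.symm i : I) with hι
  have hιR : ∀ z ∈ R, ∃ i, ι i = z := fun z hz => ⟨R.equivFin ⟨z, hz⟩, by simp [hι]⟩
  have hrange : Set.range ι = S ∪ S' ∪ Set.range xs := by
    ext z; constructor
    · rintro ⟨i, rfl⟩
      exact (hmemR _).1 (R.equivFin.symm i).2
    · intro hz
      exact hιR z ((hmemR z).2 hz)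
  have hgood : Good E ι := by
    refine ⟨fun i j hij => R.equivFin.symm.injective (Subtype.ext hij), fun i hi => ?_⟩
    have h1 : ι i ∈ Set.range ι := ⟨i, rfl⟩
    rw [hrange] at h1
    rcases h1 with (h1 | h1) | ⟨j, h1⟩
    · exact Set.disjoint_left.1 hSE h1 hi
    · exact Set.disjoint_left.1 hSE' h1 hi
    · exact hsE j (h1 ▸ hi)
  have hxR : ∀ i, ∃ j, ι j = x i := fun i => hιR _ ((hmemR _).2 (Or.inl (Or.inl (hxS i))))
  have hxsR : ∀ i, ∃ j, ι j = xs i := fun i => hιR _ ((hmemR _).2 (Or.inr ⟨i, rfl⟩))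
  choose y hy using hxR
  choose ys hys using hxsR
  have hdy : Disj y ys := by
    refine ⟨fun i j h => hd.inj (by rw [← hy, ← hy, h]), fun i j h => hd.injs (by rw [← hys, ← hys, h]),
      fun i j h => hd.ne i j (by rw [← hy, ← hys, h])⟩
  -- the test functions
  have himg : ∀ w, sh x xs w '' S ⊆ Set.range ι := by
    rintro w _ ⟨s, hs, rfl⟩
    rw [hrange]
    by_cases hsx : ∃ j, s = x j
    · obtain ⟨j, rfl⟩ := hsx
      rw [sh_x hd]; unfold pk
      split_ifs
      · exact Or.inr ⟨j, rfl⟩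
      · exact Or.inl (Or.inl (hxS j))
    · push Not at hsx
      rw [sh_other hsx (fun j (he : s = xs j) => hsS j (he ▸ hs))]
      exact Or.inl (Or.inl hs)
  have himg' : ∀ w, sh x xs w '' S' ⊆ Set.range ι := by
    rintro w _ ⟨s, hs, rfl⟩
    rw [hrange]
    by_cases hsx : ∃ j, s = x j
    · obtain ⟨j, rfl⟩ := hsx
      rw [sh_x hd]; unfold pk
      split_ifs
      · exact Or.inr ⟨j, rfl⟩
      · exact Or.inl (Or.inl (hxS j))
    · push Not at hsx
      rw [sh_other hsx (fun j (he : s = xs j) => hsS' j (he ▸ hs))]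
      exact Or.inl (Or.inr hs)
  set F := bx Φ x xs f with hFdef
  set G := bx Φ x xs f' with hGdef
  have hFAB : AB μ F := bx_AB hf
  have hGAB : AB μ G := bx_AB hf'
  have hFR : StronglyMeasurable[K.H (Set.range ι)] F := bx_meas hfm fun w => K.mono (himg w)
  have hGR : StronglyMeasurable[K'.H (Set.range ι)] G := bx_meas hfm' fun w => K'.mono (himg' w)
  set 𝒰 : Set (Set I) := {W | ∃ w, W = sh x xs w '' S} with h𝒰
  set 𝒰' : Set (Set I) := {W | ∃ w, W = sh x xs w '' S'} with h𝒰'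
  have hFJ : StronglyMeasurable[K.J E 𝒰] F := bx_meas hfm fun w =>
    (K.mono Set.subset_union_left).trans (K.le_J E (W := sh x xs w '' S) ⟨w, rfl⟩)
  have hGJ : StronglyMeasurable[K'.J E 𝒰'] G := bx_meas hfm' fun w =>
    (K'.mono Set.subset_union_left).trans (K'.le_J E (W := sh x xs w '' S') ⟨w, rfl⟩)
  -- the polynomial identity
  set A : Finset ((_ : Fin R.card → Fin k) × Finset (Fin k → Fin R.card)) :=
    Finset.univ.sigma (fun c => (sec c).powerset) with hA
  have hconst : ∀ t : ℝ, 0 ≤ t → t ≤ 1 →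
      ∑ b ∈ A, t ^ b.2.card * (mom Φ E x T ι F b.2 * mom Φ E x T' ι G b.2)
        = (k : ℝ) ^ R.card * ((∫ ω, F ω ∂μ) * ∫ ω, G ω ∂μ) := by
    intro t h0 h1
    have h2 := hUC t h0 h1 R.card ι hgood F G hFAB hFR hGAB hGR
    rw [hA, Finset.sum_sigma, ← h2]
    unfold Q Qc
    rw [mul_inv_cancel_left₀ (pow_ne_zero _ (by exact_mod_cast hk.ne'))]
  have hcoef := coeff_zero_of_const A (fun b => b.2.card)
    (fun b => mom Φ E x T ι F b.2 * mom Φ E x T' ι G b.2) _ hconst (N := 2 ^ k) (by positivity)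
  -- positivity of the terms
  have hbxpos : ∀ π : Equiv.Perm (Fin k),
      0 ≤ ∫ ω, bx Φ x xs (fun ω => f ω * cp Φ E x T (fun i => x (π i)) ω) ω ∂μ ∧
      0 ≤ ∫ ω, bx Φ x xs (fun ω => f' ω * cp Φ E x T' (fun i => x (π i)) ω) ω ∂μ := by
    intro π
    have hg : Good E (fun i => x (π i)) := ⟨hT.good.1.comp π.injective, fun i => hT.good.2 _⟩
    have hr : Set.range (fun i => x (π i)) ∪ E ⊆ S ∪ E :=
      Set.union_subset_union_left _ (by rintro _ ⟨i, rfl⟩; exact hxS _)
    have hr' : Set.range (fun i => x (π i)) ∪ E ⊆ S' ∪ E :=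
      Set.union_subset_union_left _ (by rintro _ ⟨i, rfl⟩; exact hxS' _)
    exact ⟨(bx_pos hk hE hd hxS hsS hsE hSE (hf.mul (hT.cp_AB _))
      ((hfm.mono (K.mono Set.subset_union_left)).mul ((hT.cp_meas hg).mono (K.mono hr)))).1,
      (bx_pos hk hE hd hxS' hsS' hsE hSE' (hf'.mul (hT'.cp_AB _))
      ((hfm'.mono (K'.mono Set.subset_union_left)).mul ((hT'.cp_meas hg).mono (K'.mono hr')))).1⟩
  have hterm : ∀ b ∈ A, 0 ≤ (if b.2.card = 2 ^ k then
      mom Φ E x T ι F b.2 * mom Φ E x T' ι G b.2 else 0) := by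
    rintro ⟨c, ℬ⟩ hb
    rw [hA, Finset.mem_sigma, Finset.mem_powerset] at hb
    have hℬ : ℬ ⊆ sec c := hb.2
    split_ifs with hcard
    · by_cases h1 : ∀ a ∈ ℬ, ∃ w, Set.range (fun i => ι (a i)) ⊆ sh x xs w '' S
      · by_cases h2 : ∀ a ∈ ℬ, ∃ w, Set.range (fun i => ι (a i)) ⊆ sh x xs w '' S'
        · obtain ⟨π, hπ⟩ := comb (y := y) (ys := ys) (c := c) (ℬ := ℬ)
            (fun a ha => mem_sec.1 (hℬ ha)) (by
              intro a ha
              obtain ⟨w, hw⟩ := h1 a ha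
              obtain ⟨w', hw'⟩ := h2 a ha
              have h3 : ∀ i, ∃ j, a i = pk y ys w j := by
                intro i
                obtain ⟨j, hj⟩ := form_of_sub hd hsS hsS' hSS (hw ⟨i, rfl⟩) (hw' ⟨i, rfl⟩)
                refine ⟨j, hgood.1 ?_⟩
                have hj' : ι (a i) = pk x xs w j := hj
                rw [hj']
                by_cases hw : w j <;> simp [pk, hw, hy, hys]
              choose π hπ using h3
              exact ⟨w, π, funext hπ⟩) hcard
          simp only [hπ]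
          rw [hFdef, hGdef, mom_box hT hd hsE hy hys hdy π f, mom_box hT' hd hsE hy hys hdy π f']
          exact mul_nonneg (hbxpos π).1 (hbxpos π).2
        · push Not at h2
          obtain ⟨a, ha, hna⟩ := h2
          have h0 := mom_zero hE hT' hgood hℬ hGAB hGJ ha (by rintro W ⟨w, rfl⟩; exact hna w)
          simp only [h0, mul_zero, le_refl]
      · push Not at h1
        obtain ⟨a, ha, hna⟩ := h1
        have h0 := mom_zero hE hT hgood hℬ hFAB hFJ ha (by rintro W ⟨w, rfl⟩; exact hna w)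
        simp only [h0, zero_mul, le_refl]
    · exact le_rfl
  -- the special term
  let c0 : Fin R.card → Fin k := fun v =>
    if h : ∃ j, v = y j ∨ v = ys j then h.choose else ⟨0, hk⟩
  have hc0 : ∀ w j, c0 (pk y ys w j) = j := by
    intro w j
    have h : ∃ j', pk y ys w j = y j' ∨ pk y ys w j = ys j' := by
      refine ⟨j, ?_⟩
      unfold pk
      split_ifs
      · exact Or.inr rfl
      · exact Or.inl rfl
    have hc : c0 (pk y ys w j) = h.choose := dif_pos h
    rw [hc]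
    have hspec := h.choose_spec
    rcases hspec with hs | hs
    · have e1 : pk y ys (fun _ => false) h.choose = y h.choose := by simp [pk]
      rw [← e1] at hs
      exact (pk_eq hdy hs).1.symm
    · have e1 : pk y ys (fun _ => true) h.choose = ys h.choose := by simp [pk]
      rw [← e1] at hs
      exact (pk_eq hdy hs).1.symm
  let ℬ0 : Finset (Fin k → Fin R.card) :=
    Finset.univ.image (fun w => fun i => pk y ys w ((Equiv.refl (Fin k)) i))
  have hb0 : (⟨c0, ℬ0⟩ : (_ : Fin R.card → Fin k) × Finset (Fin k → Fin R.card)) ∈ A := by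
    rw [hA, Finset.mem_sigma, Finset.mem_powerset]
    refine ⟨Finset.mem_univ _, ?_⟩
    intro a ha
    obtain ⟨w, _, rfl⟩ := Finset.mem_image.1 ha
    rw [mem_sec]
    intro i
    exact hc0 w i
  have hcard0 : ℬ0.card = 2 ^ k := by
    rw [Finset.card_image_of_injective _ (pk_comp_injective hdy (Equiv.refl _))]
    simp
  have hcp : ∀ (K'' : Fam Φ) (T'' u : Ω → ℝ), Cent K'' E x T'' →
      (fun ω => u ω * cp Φ E x T'' (fun i => x ((Equiv.refl (Fin k)) i)) ω)
        = fun ω => u ω * T'' ω := by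
    intro K'' T'' u h
    funext ω
    congr 1
    exact h.cp_self ω
  have hpos1 : 0 < mom Φ E x T ι F ℬ0 := by
    rw [hFdef, mom_box hT hd hsE hy hys hdy (Equiv.refl _) f, hcp K T f hT]
    have hm : StronglyMeasurable[K.H (S ∪ E)] (fun ω => f ω * T ω) :=
      (hfm.mono (K.mono Set.subset_union_left)).mul (hT.meas.mono (K.mono
        (Set.union_subset_union_left _ (by rintro _ ⟨i, rfl⟩; exact hxS _))))
    have hb := bx_pos hk hE hd hxS hsS hsE hSE (hf.mul (AB.of_bdd hT.bd)) hm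
    exact lt_of_le_of_ne hb.1 fun h => hne (hb.2 h.symm)
  have hpos2 : 0 < mom Φ E x T' ι G ℬ0 := by
    rw [hGdef, mom_box hT' hd hsE hy hys hdy (Equiv.refl _) f', hcp K' T' f' hT']
    have hm : StronglyMeasurable[K'.H (S' ∪ E)] (fun ω => f' ω * T' ω) :=
      (hfm'.mono (K'.mono Set.subset_union_left)).mul (hT'.meas.mono (K'.mono
        (Set.union_subset_union_left _ (by rintro _ ⟨i, rfl⟩; exact hxS' _))))
    have hb := bx_pos hk hE hd hxS' hsS' hsE hSE' (hf'.mul (AB.of_bdd hT'.bd)) hm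
    exact lt_of_le_of_ne hb.1 fun h => hne' (hb.2 h.symm)
  have hge := Finset.single_le_sum hterm hb0
  rw [hcoef, if_pos hcard0] at hge
  exact absurd hge (not_le.2 (mul_pos hpos1 hpos2))

end Coup
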