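import Mathlib

/-!
# Unique coupleability (MP_e8a478_co): definitions

We use LABELLED densities: `dens M N` is the probability that a uniformly random injection
`Fin m → Fin n` pulls `N` back to exactly `M`.  It is `|Aut M| / m!` times the probability that a
uniformly random `m`-subset of the vertex set of `N` induces a copy of `M`.
-/

set_option autoImplicit false

open Filter Topology Classical

namespace Pool.MP_e8a478_co

/-- A finite relational language without constants: finitely many relation symbols `i`, the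
symbol `i` having `ar i` arguments. -/
structure Lang where
  /-- the relation symbols -/
  ι : Type
  /-- there are finitely many of them -/
  fin : Fintype ι
  /-- the arity of a relation symbol -/
  ar : ι → ℕ

instance (L : Lang) : Fintype L.ι := L.fin

/-- `L`-structures with vertex set `V`. -/
def Str (L : Lang) (V : Type) : Type := (i : L.ι) → (Fin (L.ar i) → V) → Bool

namespace Str

variable {L L₁ L₂ : Lang} {V W : Type}

/-- The structure induced on `W` by a map `f : W → V` and a structure on `V` (for injective `f`: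
the copy on `W` of the substructure on the range of `f`). -/
def pull (S : Str L V) (f : W → V) : Str L W := fun i x => S i (f ∘ x)

end Str

/-- A canonical (universal) theory, given by its finite models up to isomorphism: a class of
finite structures closed under isomorphism and under induced substructures. -/
structure Theory (L : Lang) where
  /-- the models with vertex set `Fin n` -/
  mod : ∀ n : ℕ, Set (Str L (Fin n))
  /-- closure under isomorphism and induced substructures -/
  hered : ∀ {m n : ℕ} (f : Fin m ↪ Fin n) (S : Str L (Fin n)), S ∈ mod n → S.pull f ∈ mod m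

/-- Labelled induced density of `M` in `N`. -/
noncomputable def dens {L : Lang} {m n : ℕ} (M : Str L (Fin m)) (N : Str L (Fin n)) : ℝ :=
  (Nat.card {f : Fin m ↪ Fin n // N.pull f = M} : ℝ) / (Nat.card (Fin m ↪ Fin n) : ℝ)

/-- Functions assigning a real number to every finite labelled structure. -/
abbrev Fam (L : Lang) : Type := ∀ m : ℕ, Str L (Fin m) → ℝ

/-- The limit objects of `T`: all limits of the densities in a sequence of finite models of `T`
whose numbers of vertices tend to infinity. -/
def Hom {L : Lang} (T : Theory L) : Set (Fam L) :=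
  {φ | ∃ (n : ℕ → ℕ) (N : ∀ j, Str L (Fin (n j))), Tendsto n atTop atTop ∧
    (∀ j, N j ∈ T.mod (n j)) ∧
    ∀ (m : ℕ) (M : Str L (Fin m)), Tendsto (fun j => dens M (N j)) atTop (𝓝 (φ m M))}

/-- The disjoint union of two languages. -/
def Lang.sum (L₁ L₂ : Lang) : Lang where
  ι := L₁.ι ⊕ L₂.ι
  fin := inferInstance
  ar := Sum.elim L₁.ar L₂.ar

/-- The reduct to the first language. -/
def Str.fst {L₁ L₂ : Lang} {V : Type} (S : Str (L₁.sum L₂) V) : Str L₁ V :=
  fun i x => S (Sum.inl i) x

/-- The reduct to the second language. -/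
def Str.snd {L₁ L₂ : Lang} {V : Type} (S : Str (L₁.sum L₂) V) : Str L₂ V :=
  fun i x => S (Sum.inr i) x

/-- The union of two theories in disjoint languages. -/
def Theory.union {L₁ L₂ : Lang} (T₁ : Theory L₁) (T₂ : Theory L₂) : Theory (L₁.sum L₂) where
  mod n := {S | S.fst ∈ T₁.mod n ∧ S.snd ∈ T₂.mod n}
  hered f S hS := ⟨T₁.hered f _ hS.1, T₂.hered f _ hS.2⟩

noncomputable instance (L : Lang) (n : ℕ) : Fintype (Str L (Fin n)) :=
  @Fintype.ofFinite _ (by unfold Str; infer_instance)

/-- The marginal on the first language. -/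
noncomputable def marg₁ {L₁ L₂ : Lang} (ξ : Fam (L₁.sum L₂)) : Fam L₁ :=
  fun m M => ∑ S : Str (L₁.sum L₂) (Fin m), if S.fst = M then ξ m S else 0

/-- The marginal on the second language. -/
noncomputable def marg₂ {L₁ L₂ : Lang} (ξ : Fam (L₁.sum L₂)) : Fam L₂ :=
  fun m M => ∑ S : Str (L₁.sum L₂) (Fin m), if S.snd = M then ξ m S else 0

/-- The independent coupling. -/
def indep {L₁ L₂ : Lang} (φ₁ : Fam L₁) (φ₂ : Fam L₂) : Fam (L₁.sum L₂) :=
  fun m S => φ₁ m S.fst * φ₂ m S.snd

/-- `ξ` is a coupling of `φ₁` and `φ₂`. -/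
def IsCoupling {L₁ L₂ : Lang} (T₁ : Theory L₁) (T₂ : Theory L₂) (φ₁ : Fam L₁) (φ₂ : Fam L₂)
    (ξ : Fam (L₁.sum L₂)) : Prop :=
  ξ ∈ Hom (T₁.union T₂) ∧ marg₁ ξ = φ₁ ∧ marg₂ ξ = φ₂

/-- `φ₁` and `φ₂` are uniquely coupleable: the independent coupling is their only coupling. -/
def UC {L₁ L₂ : Lang} (T₁ : Theory L₁) (T₂ : Theory L₂) (φ₁ : Fam L₁) (φ₂ : Fam L₂) : Prop :=
  ∀ ξ : Fam (L₁.sum L₂), IsCoupling T₁ T₂ φ₁ φ₂ ξ ↔ ξ = indep φ₁ φ₂

end Pool.MP_e8a478_co
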