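import Pool.Agent.Work.MP_e8a478_co.Charge

/-!
# The coupling density
-/

set_option autoImplicit false

open MeasureTheory Filter Topology

namespace Coup

variable {Ω I : Type*} {m0 : MeasurableSpace Ω} {μ : Measure Ω} [IsProbabilityMeasure μ]
variable {Φ : Flow Ω I μ} {K K' : Fam Φ} {E : Set I} {k : ℕ}

/-- the sections of a colouring -/
def Sec {n : ℕ} (c : Fin n → Fin k) : Finset (Fin k → Fin n) :=
  Finset.univ.filter (fun s => ∀ i, c (s i) = i)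

theorem mem_Sec {n : ℕ} {c : Fin n → Fin k} {s : Fin k → Fin n} :
    s ∈ Sec c ↔ ∀ i, c (s i) = i := by simp [Sec]

theorem Sec_inj {n : ℕ} {c : Fin n → Fin k} {s : Fin k → Fin n} (hs : s ∈ Sec c) :
    Function.Injective s := by
  intro i j h
  rw [mem_Sec] at hs
  rw [← hs i, ← hs j, h]

theorem Sec_eq_of_subset {n : ℕ} {c : Fin n → Fin k} {s s' : Fin k → Fin n} (hs : s ∈ Sec c)
    (hs' : s' ∈ Sec c) (h : Set.range s ⊆ Set.range s') : s = s' := by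
  rw [mem_Sec] at hs hs'
  funext i
  obtain ⟨j, hj⟩ := h ⟨i, rfl⟩
  have : j = i := by rw [← hs' j, hj, hs i]
  rw [← hj, this]

/-- `∫ F ∏_{s ∈ 𝒜} T_s` -/
noncomputable def cint (C : Charge K E k) (ι : ℕ → I) {n : ℕ} (F : Ω → ℝ)
    (𝒜 : Finset (Fin k → Fin n)) : ℝ :=
  ∫ ω, F ω * ∏ s ∈ 𝒜, C.T (fun i => ι (s i)) ω ∂μ

theorem adm_of_inj {ι : ℕ → I} (hι : Function.Injective ι) (hE : ∀ j, ι j ∉ E) {n : ℕ}
    {s : Fin k → Fin n} (hs : Function.Injective s) : Adm E (fun i => ι (s i)) :=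
  ⟨fun _ _ h => hs (Fin.ext (hι h)), fun _ => hE _⟩

omit [IsProbabilityMeasure μ] in
theorem bd_prod (C : Charge K E k) (ι : ℕ → I) {n : ℕ} (𝒜 : Finset (Fin k → Fin n)) :
    Bd (fun ω => ∏ s ∈ 𝒜, C.T (fun i => ι (s i)) ω) :=
  Bd.prod _ fun _ _ => ⟨1, C.bdd _⟩

omit [IsProbabilityMeasure μ] in
theorem meas_prod (C : Charge K E k) {ι : ℕ → I} (hι : Function.Injective ι)
    (hE : ∀ j, ι j ∉ E) {n : ℕ} {𝒜 : Finset (Fin k → Fin n)}
    (h𝒜 : ∀ s ∈ 𝒜, Function.Injective s) :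
    StronglyMeasurable[K.J E {W | ∃ s ∈ 𝒜, W = Set.range (fun i => ι (s i))}]
      (fun ω => ∏ s ∈ 𝒜, C.T (fun i => ι (s i)) ω) := by
  apply stronglyMeasurable_finprod
  intro s hs
  refine (C.meas _ (adm_of_inj hι hE (h𝒜 s hs))).mono ?_
  exact K.le_J E ⟨s, hs, rfl⟩

omit [IsProbabilityMeasure μ] in
theorem meas_prod0 (C : Charge K E k) {ι : ℕ → I} (hι : Function.Injective ι)
    (hE : ∀ j, ι j ∉ E) {n : ℕ} {𝒜 : Finset (Fin k → Fin n)}
    (h𝒜 : ∀ s ∈ 𝒜, Function.Injective s) :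
    StronglyMeasurable (fun ω => ∏ s ∈ 𝒜, C.T (fun i => ι (s i)) ω) :=
  (meas_prod C hι hE h𝒜).mono (K.J_le _ _)

theorem integrable_mul_prod (C : Charge K E k) {ι : ℕ → I} (hι : Function.Injective ι)
    (hE : ∀ j, ι j ∉ E) {n : ℕ} {𝒜 : Finset (Fin k → Fin n)}
    (h𝒜 : ∀ s ∈ 𝒜, Function.Injective s) {F : Ω → ℝ} (hF : StronglyMeasurable F) (hb : Bd F) :
    Integrable (fun ω => F ω * ∏ s ∈ 𝒜, C.T (fun i => ι (s i)) ω) μ :=
  ((hb.mul (bd_prod C ι 𝒜)).ab μ).integrable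
    (hF.mul (meas_prod0 C hι hE h𝒜)).aestronglyMeasurable

/-- the vanishing lemma for the coefficients -/
theorem cint_eq_zero (C : Charge K E k) {ι : ℕ → I} (hι : Function.Injective ι)
    (hE : ∀ j, ι j ∉ E) {n : ℕ} {c : Fin n → Fin k} {𝒜 : Finset (Fin k → Fin n)}
    (h𝒜 : 𝒜 ⊆ Sec c) {F : Ω → ℝ} {𝒲 : Set (Set I)} (hF : StronglyMeasurable[K.J E 𝒲] F)
    (hb : Bd F) {s₀ : Fin k → Fin n} (hs₀ : s₀ ∈ 𝒜)
    (h𝒲 : ∀ W ∈ 𝒲, ¬ Set.range (fun i => ι (s₀ i)) ⊆ W) : cint C ι F 𝒜 = 0 := by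
  classical
  have h1 : cint C ι F 𝒜 = ∫ ω, C.T (fun i => ι (s₀ i)) ω *
      (F ω * ∏ s ∈ 𝒜.erase s₀, C.T (fun i => ι (s i)) ω) ∂μ := by
    unfold cint
    congr 1
    funext ω
    rw [← Finset.mul_prod_erase 𝒜 _ hs₀]
    ring
  rw [h1]
  have hinj : ∀ s ∈ 𝒜.erase s₀, Function.Injective s :=
    fun s hs => Sec_inj (h𝒜 (Finset.mem_of_mem_erase hs))
  refine C.int_eq_zero (adm_of_inj hι hE (Sec_inj (h𝒜 hs₀)))
    (𝒲 := 𝒲 ∪ {W | ∃ s ∈ 𝒜.erase s₀, W = Set.range (fun i => ι (s i))}) ?_ ?_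
    (hb.mul (bd_prod C ι _))
  · rintro W (hW | ⟨s, hs, rfl⟩)
    · exact h𝒲 W hW
    · intro hsub
      have : Set.range s₀ ⊆ Set.range s := by
        rintro _ ⟨i, rfl⟩
        obtain ⟨j, hj⟩ := hsub ⟨i, rfl⟩
        exact ⟨j, Fin.ext (hι hj)⟩
      have h2 := Sec_eq_of_subset (h𝒜 hs₀) (h𝒜 (Finset.mem_of_mem_erase hs)) this
      exact (Finset.ne_of_mem_erase hs) h2.symm
  · apply StronglyMeasurable.mul
    · exact hF.mono (K.J_le_of fun W hW => ⟨W, Or.inl hW, le_rfl⟩)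
    · exact (meas_prod C hι hE hinj).mono (K.J_le_of fun W hW => ⟨W, Or.inr hW, le_rfl⟩)

/-- the bilinear expression -/
noncomputable def Qc (C : Charge K E k) (C' : Charge K' E k) (ι : ℕ → I) (t : ℝ) {n : ℕ}
    (c : Fin n → Fin k) (F G : Ω → ℝ) : ℝ :=
  ∑ 𝒜 ∈ (Sec c).powerset, t ^ 𝒜.card * (cint C ι F 𝒜 * cint C' ι G 𝒜)

/-- average over the colourings -/
noncomputable def Q (C : Charge K E k) (C' : Charge K' E k) (ι : ℕ → I) (t : ℝ) (n : ℕ)
    (F G : Ω → ℝ) : ℝ :=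
  (∑ c : Fin n → Fin k, Qc C C' ι t c F G) / (k : ℝ) ^ n

/-- positivity -/
theorem Qc_nonneg (C : Charge K E k) (C' : Charge K' E k) {ι : ℕ → I}
    (hι : Function.Injective ι) (hE : ∀ j, ι j ∉ E) {t : ℝ} (ht0 : 0 ≤ t) (ht1 : t ≤ 1) {n : ℕ}
    (c : Fin n → Fin k) {F G : Ω → ℝ} (hF : StronglyMeasurable F) (hFb : Bd F)
    (hF0 : ∀ ω, 0 ≤ F ω) (hG : StronglyMeasurable G) (hGb : Bd G) (hG0 : ∀ ω, 0 ≤ G ω) :
    0 ≤ Qc C C' ι t c F G := by
  -- the inner integral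
  have hin : ∀ ω' : Ω, ∑ 𝒜 ∈ (Sec c).powerset, t ^ 𝒜.card * (cint C ι F 𝒜 *
      ∏ s ∈ 𝒜, C'.T (fun i => ι (s i)) ω') =
      ∫ ω, F ω * ∏ s ∈ Sec c, (1 + t * C.T (fun i => ι (s i)) ω * C'.T (fun i => ι (s i)) ω')
        ∂μ := by
    intro ω'
    have e : ∀ ω, F ω * ∏ s ∈ Sec c, (1 + t * C.T (fun i => ι (s i)) ω *
        C'.T (fun i => ι (s i)) ω') = ∑ 𝒜 ∈ (Sec c).powerset,
        (t ^ 𝒜.card * ∏ s ∈ 𝒜, C'.T (fun i => ι (s i)) ω') *
          (F ω * ∏ s ∈ 𝒜, C.T (fun i => ι (s i)) ω) := by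
      intro ω
      rw [Finset.prod_one_add, Finset.mul_sum]
      apply Finset.sum_congr rfl
      intro 𝒜 _
      rw [Finset.prod_mul_distrib, Finset.prod_mul_distrib, Finset.prod_const]
      ring
    simp_rw [e]
    rw [integral_finsetSum]
    · apply Finset.sum_congr rfl
      intro 𝒜 _
      rw [integral_const_mul]
      unfold cint
      ring
    · intro 𝒜 h𝒜
      exact (integrable_mul_prod C hι hE
        (fun s hs => Sec_inj (Finset.mem_powerset.1 h𝒜 hs)) hF hFb).const_mul _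
  have hpos : ∀ ω' : Ω, 0 ≤ ∫ ω, F ω * ∏ s ∈ Sec c, (1 + t * C.T (fun i => ι (s i)) ω *
      C'.T (fun i => ι (s i)) ω') ∂μ := by
    intro ω'
    apply integral_nonneg
    intro ω
    apply mul_nonneg (hF0 ω)
    apply Finset.prod_nonneg
    intro s _
    have h1 := C.bdd (fun i => ι (s i)) ω
    have h2 := C'.bdd (fun i => ι (s i)) ω'
    have h3 : |t * C.T (fun i => ι (s i)) ω * C'.T (fun i => ι (s i)) ω'| ≤ 1 := by
      rw [abs_mul, abs_mul, abs_of_nonneg ht0]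
      calc t * |C.T (fun i => ι (s i)) ω| * |C'.T (fun i => ι (s i)) ω'| ≤ 1 * 1 * 1 := by
            gcongr
        _ = 1 := by norm_num
    linarith [(abs_le.1 h3).1]
  have hout : Qc C C' ι t c F G = ∫ ω', G ω' * ∑ 𝒜 ∈ (Sec c).powerset, t ^ 𝒜.card *
      (cint C ι F 𝒜 * ∏ s ∈ 𝒜, C'.T (fun i => ι (s i)) ω') ∂μ := by
    have e : ∀ ω', G ω' * ∑ 𝒜 ∈ (Sec c).powerset, t ^ 𝒜.card *
      (cint C ι F 𝒜 * ∏ s ∈ 𝒜, C'.T (fun i => ι (s i)) ω') =
      ∑ 𝒜 ∈ (Sec c).powerset, (t ^ 𝒜.card * cint C ι F 𝒜) *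
        (G ω' * ∏ s ∈ 𝒜, C'.T (fun i => ι (s i)) ω') := by
      intro ω'
      rw [Finset.mul_sum]
      apply Finset.sum_congr rfl
      intro 𝒜 _
      ring
    simp_rw [e]
    rw [integral_finsetSum]
    · unfold Qc
      apply Finset.sum_congr rfl
      intro 𝒜 _
      rw [integral_const_mul]
      show _ = _ * cint C' ι G 𝒜
      ring
    · intro 𝒜 h𝒜
      exact (integrable_mul_prod C' hι hE
        (fun s hs => Sec_inj (Finset.mem_powerset.1 h𝒜 hs)) hG hGb).const_mul _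
  rw [hout]
  apply integral_nonneg
  intro ω'
  show 0 ≤ G ω' * _
  rw [hin]
  exact mul_nonneg (hG0 ω') (hpos ω')

theorem Q_nonneg (C : Charge K E k) (C' : Charge K' E k) {ι : ℕ → I}
    (hι : Function.Injective ι) (hE : ∀ j, ι j ∉ E) {t : ℝ} (ht0 : 0 ≤ t) (ht1 : t ≤ 1) (n : ℕ)
    {F G : Ω → ℝ} (hF : StronglyMeasurable F) (hFb : Bd F)
    (hF0 : ∀ ω, 0 ≤ F ω) (hG : StronglyMeasurable G) (hGb : Bd G) (hG0 : ∀ ω, 0 ≤ G ω) :
    0 ≤ Q C C' ι t n F G :=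
  div_nonneg (Finset.sum_nonneg fun c _ => Qc_nonneg C C' hι hE ht0 ht1 c hF hFb hF0 hG hGb hG0)
    (by positivity)

/-! ### Linearity -/

theorem cint_sum (C : Charge K E k) {ι : ℕ → I} (hι : Function.Injective ι)
    (hE : ∀ j, ι j ∉ E) {n : ℕ} {𝒜 : Finset (Fin k → Fin n)}
    (h𝒜 : ∀ s ∈ 𝒜, Function.Injective s) {α : Type*} (A : Finset α) (r : α → ℝ)
    {F : α → Ω → ℝ} (hF : ∀ a ∈ A, StronglyMeasurable (F a)) (hb : ∀ a ∈ A, Bd (F a)) :
    cint C ι (fun ω => ∑ a ∈ A, r a * F a ω) 𝒜 = ∑ a ∈ A, r a * cint C ι (F a) 𝒜 := by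
  unfold cint
  have e : ∀ ω, (∑ a ∈ A, r a * F a ω) * ∏ s ∈ 𝒜, C.T (fun i => ι (s i)) ω =
      ∑ a ∈ A, r a * (F a ω * ∏ s ∈ 𝒜, C.T (fun i => ι (s i)) ω) := by
    intro ω
    rw [Finset.sum_mul]
    exact Finset.sum_congr rfl fun a _ => by ring
  simp_rw [e]
  rw [integral_finsetSum]
  · exact Finset.sum_congr rfl fun a _ => integral_const_mul _ _
  · intro a ha
    exact (integrable_mul_prod C hι hE h𝒜 (hF a ha) (hb a ha)).const_mul _

theorem Q_sum (C : Charge K E k) (C' : Charge K' E k) {ι : ℕ → I}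
    (hι : Function.Injective ι) (hE : ∀ j, ι j ∉ E) (t : ℝ) (n : ℕ)
    {α β : Type*} (A : Finset α) (B : Finset β) (r : α → ℝ) (q : β → ℝ)
    {F : α → Ω → ℝ} (hF : ∀ a ∈ A, StronglyMeasurable (F a)) (hFb : ∀ a ∈ A, Bd (F a))
    {G : β → Ω → ℝ} (hG : ∀ a ∈ B, StronglyMeasurable (G a)) (hGb : ∀ a ∈ B, Bd (G a)) :
    Q C C' ι t n (fun ω => ∑ a ∈ A, r a * F a ω) (fun ω => ∑ b ∈ B, q b * G b ω) =
      ∑ a ∈ A, ∑ b ∈ B, r a * q b * Q C C' ι t n (F a) (G b) := by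
  have h1 : ∀ c : Fin n → Fin k, Qc C C' ι t c (fun ω => ∑ a ∈ A, r a * F a ω)
      (fun ω => ∑ b ∈ B, q b * G b ω) = ∑ a ∈ A, ∑ b ∈ B, r a * q b * Qc C C' ι t c (F a) (G b) := by
    intro c
    unfold Qc
    have h2 : ∀ 𝒜 ∈ (Sec c).powerset, t ^ 𝒜.card * (cint C ι (fun ω => ∑ a ∈ A, r a * F a ω) 𝒜 *
        cint C' ι (fun ω => ∑ b ∈ B, q b * G b ω) 𝒜) =
        ∑ a ∈ A, ∑ b ∈ B, r a * q b * (t ^ 𝒜.card * (cint C ι (F a) 𝒜 * cint C' ι (G b) 𝒜)) := by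
      intro 𝒜 h𝒜
      have hinj : ∀ s ∈ 𝒜, Function.Injective s :=
        fun s hs => Sec_inj (Finset.mem_powerset.1 h𝒜 hs)
      rw [cint_sum C hι hE hinj A r hF hFb, cint_sum C' hι hE hinj B q hG hGb,
        Finset.sum_mul_sum, Finset.mul_sum]
      apply Finset.sum_congr rfl
      intro a _
      rw [Finset.mul_sum]
      apply Finset.sum_congr rfl
      intro b _
      ring
    rw [Finset.sum_congr rfl h2, Finset.sum_comm]
    apply Finset.sum_congr rfl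
    intro a _
    rw [Finset.sum_comm]
    apply Finset.sum_congr rfl
    intro b _
    rw [Finset.mul_sum]
  unfold Q
  rw [Finset.sum_congr rfl (fun c _ => h1 c), Finset.sum_comm, Finset.sum_div]
  apply Finset.sum_congr rfl
  intro a _
  rw [Finset.sum_comm, Finset.sum_div]
  apply Finset.sum_congr rfl
  intro b _
  rw [← Finset.mul_sum, mul_div_assoc]

/-! ### Marginals -/

omit [IsProbabilityMeasure μ] in
theorem cint_empty (C : Charge K E k) (ι : ℕ → I) {n : ℕ} (F : Ω → ℝ) :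
    cint C ι F (∅ : Finset (Fin k → Fin n)) = ∫ ω, F ω ∂μ := by
  simp [cint]

theorem range_not_subset_empty (hk : 0 < k) {ι : ℕ → I} {n : ℕ} (s : Fin k → Fin n) :
    ¬ Set.range (fun i => ι (s i)) ⊆ (∅ : Set I) := by
  intro h
  exact h ⟨⟨0, hk⟩, rfl⟩

theorem cint_one (C : Charge K E k) {ι : ℕ → I} (hι : Function.Injective ι)
    (hE : ∀ j, ι j ∉ E) {n : ℕ} {c : Fin n → Fin k} {𝒜 : Finset (Fin k → Fin n)}
    (h𝒜 : 𝒜 ⊆ Sec c) (hne : 𝒜.Nonempty) : cint C ι (fun _ => 1) 𝒜 = 0 := by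
  obtain ⟨s₀, hs₀⟩ := hne
  exact cint_eq_zero C hι hE h𝒜 (𝒲 := ∅) stronglyMeasurable_const (Bd.const 1) hs₀ (by simp)

theorem Qc_one_right (C : Charge K E k) (C' : Charge K' E k) {ι : ℕ → I}
    (hι : Function.Injective ι) (hE : ∀ j, ι j ∉ E) (t : ℝ) {n : ℕ}
    (c : Fin n → Fin k) (F : Ω → ℝ) : Qc C C' ι t c F (fun _ => 1) = ∫ ω, F ω ∂μ := by
  unfold Qc
  rw [Finset.sum_eq_single ∅]
  · rw [cint_empty, cint_empty]
    simp
  · intro 𝒜 h𝒜 hne
    rw [cint_one C' hι hE (Finset.mem_powerset.1 h𝒜) (Finset.nonempty_iff_ne_empty.2 hne)]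
    ring
  · intro h
    exact absurd (Finset.empty_mem_powerset _) h

theorem Qc_one_left (C : Charge K E k) (C' : Charge K' E k) {ι : ℕ → I}
    (hι : Function.Injective ι) (hE : ∀ j, ι j ∉ E) (t : ℝ) {n : ℕ}
    (c : Fin n → Fin k) (G : Ω → ℝ) : Qc C C' ι t c (fun _ => 1) G = ∫ ω, G ω ∂μ := by
  unfold Qc
  rw [Finset.sum_eq_single ∅]
  · rw [cint_empty, cint_empty]
    simp
  · intro 𝒜 h𝒜 hne
    rw [cint_one C hι hE (Finset.mem_powerset.1 h𝒜) (Finset.nonempty_iff_ne_empty.2 hne)]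
    ring
  · intro h
    exact absurd (Finset.empty_mem_powerset _) h

theorem Q_one_right (hk : 0 < k) (C : Charge K E k) (C' : Charge K' E k) {ι : ℕ → I}
    (hι : Function.Injective ι) (hE : ∀ j, ι j ∉ E) (t : ℝ) (n : ℕ)
    (F : Ω → ℝ) : Q C C' ι t n F (fun _ => 1) = ∫ ω, F ω ∂μ := by
  unfold Q
  simp only [Qc_one_right C C' hι hE]
  have : (k : ℝ) ≠ 0 := by positivity
  simp [Finset.card_univ]
  field_simp

theorem Q_one_left (hk : 0 < k) (C : Charge K E k) (C' : Charge K' E k) {ι : ℕ → I}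
    (hι : Function.Injective ι) (hE : ∀ j, ι j ∉ E) (t : ℝ) (n : ℕ)
    (G : Ω → ℝ) : Q C C' ι t n (fun _ => 1) G = ∫ ω, G ω ∂μ := by
  unfold Q
  simp only [Qc_one_left C C' hι hE]
  have : (k : ℝ) ≠ 0 := by positivity
  simp [Finset.card_univ]
  field_simp

/-! ### Consistency -/

omit [IsProbabilityMeasure μ] in
theorem cint_comp (C : Charge K E k) {ι : ℕ → I} (hι : Function.Injective ι)
    (hE : ∀ j, ι j ∉ E) {m n : ℕ} (f : Fin m ↪ Fin n) (σ : I ↪ I) (hσE : ∀ e ∈ E, σ e = e)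
    (hσ : ∀ i : Fin m, σ (ι i) = ι (f i)) {𝒜 : Finset (Fin k → Fin m)}
    (h𝒜 : ∀ s ∈ 𝒜, Function.Injective s) {F : Ω → ℝ} (hF : StronglyMeasurable F) :
    cint C ι (fun ω => F (Φ.τ σ ω)) (𝒜.map ⟨fun s => f ∘ s, fun s s' h => by
      funext i; exact f.injective (congrFun h i)⟩) = cint C ι F 𝒜 := by
  unfold cint
  have e : ∀ ω, F (Φ.τ σ ω) * ∏ s ∈ 𝒜.map ⟨fun s => f ∘ s, fun s s' h => by
      funext i; exact f.injective (congrFun h i)⟩, C.T (fun i => ι (s i)) ω =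
      (fun ω => F ω * ∏ s ∈ 𝒜, C.T (fun i => ι (s i)) ω) (Φ.τ σ ω) := by
    intro ω
    rw [Finset.prod_map]
    congr 1
    apply Finset.prod_congr rfl
    intro s hs
    rw [C.equiv _ (adm_of_inj hι hE (h𝒜 s hs)) σ hσE]
    congr 1
    funext i
    exact (hσ (s i)).symm
  simp_rw [e]
  have hm : AEStronglyMeasurable (fun ω => F ω * ∏ s ∈ 𝒜, C.T (fun i => ι (s i)) ω)
      (μ.map (Φ.τ σ)) := by
    rw [(Φ.mp σ).map_eq]
    exact (hF.mul (meas_prod0 C hι hE h𝒜)).aestronglyMeasurable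
  have h5 := integral_map (Φ.mp σ).aemeasurable hm
  rw [(Φ.mp σ).map_eq] at h5
  exact h5.symm

theorem Qc_comp (C : Charge K E k) (C' : Charge K' E k) {ι : ℕ → I} (hι : Function.Injective ι)
    (hE : ∀ j, ι j ∉ E) {m n : ℕ} (f : Fin m ↪ Fin n) (σ : I ↪ I) (hσE : ∀ e ∈ E, σ e = e)
    (hσ : ∀ i : Fin m, σ (ι i) = ι (f i)) (t : ℝ) (c : Fin n → Fin k) {F G : Ω → ℝ}
    (hF : StronglyMeasurable[K.H (Set.range (fun i : Fin m => ι i) ∪ E)] F) (hFb : Bd F)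
    (hG : StronglyMeasurable[K'.H (Set.range (fun i : Fin m => ι i) ∪ E)] G) (hGb : Bd G) :
    Qc C C' ι t c (fun ω => F (Φ.τ σ ω)) (fun ω => G (Φ.τ σ ω)) =
      Qc C C' ι t (c ∘ f) F G := by
  classical
  let φ : (Fin k → Fin m) ↪ (Fin k → Fin n) := ⟨fun s => f ∘ s, fun s s' h => by
      funext i; exact f.injective (congrFun h i)⟩
  have hφ : ∀ 𝒜 ∈ (Sec (c ∘ f)).powerset, 𝒜.map φ ∈ (Sec c).powerset := by
    intro 𝒜 h𝒜
    rw [Finset.mem_powerset] at h𝒜 ⊢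
    intro s hs
    obtain ⟨s', hs', rfl⟩ := Finset.mem_map.1 hs
    have := mem_Sec.1 (h𝒜 hs')
    exact mem_Sec.2 this
  have hterm : ∀ 𝒜 ∈ (Sec (c ∘ f)).powerset, t ^ 𝒜.card * (cint C ι F 𝒜 * cint C' ι G 𝒜) =
      t ^ (𝒜.map φ).card * (cint C ι (fun ω => F (Φ.τ σ ω)) (𝒜.map φ) *
        cint C' ι (fun ω => G (Φ.τ σ ω)) (𝒜.map φ)) := by
    intro 𝒜 h𝒜
    have hinj : ∀ s ∈ 𝒜, Function.Injective s :=
      fun s hs => Sec_inj (Finset.mem_powerset.1 h𝒜 hs)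
    rw [Finset.card_map]
    congr 2
    · exact (cint_comp C hι hE f σ hσE hσ hinj (hF.mono (K.le _))).symm
    · exact (cint_comp C' hι hE f σ hσE hσ hinj (hG.mono (K'.le _))).symm
  unfold Qc
  symm
  apply Finset.sum_bij_ne_zero (fun 𝒜 _ _ => 𝒜.map φ)
  · intro 𝒜 h𝒜 _
    exact hφ 𝒜 h𝒜
  · intro 𝒜 _ _ 𝒜' _ _ h
    exact Finset.map_injective φ h
  · intro ℬ hℬ hne
    rw [Finset.mem_powerset] at hℬ
    -- all sections in `ℬ` factor through `f`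
    have hfac : ∀ s ∈ ℬ, ∀ i, ∃ j, f j = s i := by
      intro s hs
      by_contra hcon
      apply hne
      have hz : cint C ι (fun ω => F (Φ.τ σ ω)) ℬ = 0 := by
        refine cint_eq_zero C hι hE hℬ (𝒲 := {Set.range (fun i : Fin m => ι (f i))}) ?_
          (hFb.comp _) hs ?_
        · rw [K.J_singleton]
          have := K.comp_meas σ hF
          convert this using 2
          rw [Set.image_union, image_eq_of_fix hσE, ← Set.range_comp]
          congr 2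
          funext i
          exact (hσ i).symm
        · rintro W rfl hsub
          apply hcon
          intro i
          obtain ⟨j, hj⟩ := hsub ⟨i, rfl⟩
          exact ⟨j, Fin.ext (hι hj)⟩
      rw [hz]
      ring
    choose g hg using hfac
    have hmap : (ℬ.attach.image (fun s => g s.1 s.2)).map φ = ℬ := by
      ext s
      simp only [Finset.mem_map, Finset.mem_image, Finset.mem_attach, true_and, Subtype.exists]
      constructor
      · rintro ⟨_, ⟨s', hs', rfl⟩, rfl⟩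
        have : φ (g s' hs') = s' := by
          funext i; exact hg s' hs' i
        rw [this]; exact hs'
      · intro hs
        exact ⟨g s hs, ⟨s, hs, rfl⟩, by funext i; exact hg s hs i⟩
    have hmem : ℬ.attach.image (fun s => g s.1 s.2) ∈ (Sec (c ∘ f)).powerset := by
      rw [Finset.mem_powerset]
      intro s' hs'
      obtain ⟨⟨s, hs⟩, -, rfl⟩ := Finset.mem_image.1 hs'
      rw [mem_Sec]
      intro i
      show c (f (g s hs i)) = i
      rw [hg]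
      exact mem_Sec.1 (hℬ hs) i
    refine ⟨_, hmem, ?_, hmap⟩
    rw [hterm _ hmem, hmap]
    exact hne
  · intro 𝒜 h𝒜 _
    exact hterm 𝒜 h𝒜

/-- averaging over the colourings -/
theorem sum_colourings {m n : ℕ} (f : Fin m ↪ Fin n) (h : (Fin m → Fin k) → ℝ) :
    ∑ c : Fin n → Fin k, h (c ∘ f) = (k : ℝ) ^ (n - m) * ∑ c : Fin m → Fin k, h c := by
  classical
  let e : Fin m ⊕ {x : Fin n // x ∉ Set.range f} ≃ Fin n :=
    ((Equiv.ofInjective f f.injective).sumCongr (Equiv.refl _)).trans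
      (Equiv.Set.sumCompl (Set.range f))
  have h1 : ∑ c : Fin n → Fin k, h (c ∘ f) =
      ∑ p : (Fin m → Fin k) × ({x : Fin n // x ∉ Set.range f} → Fin k), h p.1 := by
    apply Fintype.sum_equiv
      ((Equiv.arrowCongr e.symm (Equiv.refl (Fin k))).trans (Equiv.sumArrowEquivProdArrow _ _ _))
    intro g
    rfl
  have hc : Fintype.card {x : Fin n // x ∉ Set.range f} = n - m := by
    have h4 := Fintype.card_congr e
    rw [Fintype.card_sum, Fintype.card_fin, Fintype.card_fin] at h4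
    omega
  rw [h1, Fintype.sum_prod_type]
  simp only [Finset.sum_const, Finset.card_univ, nsmul_eq_mul, ← Finset.mul_sum]
  rw [Fintype.card_fun, hc, Fintype.card_fin]
  push_cast
  rfl

theorem Q_comp (hk : 0 < k) (C : Charge K E k) (C' : Charge K' E k) {ι : ℕ → I}
    (hι : Function.Injective ι)
    (hE : ∀ j, ι j ∉ E) {m n : ℕ} (f : Fin m ↪ Fin n) (σ : I ↪ I) (hσE : ∀ e ∈ E, σ e = e)
    (hσ : ∀ i : Fin m, σ (ι i) = ι (f i)) (t : ℝ) {F G : Ω → ℝ}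
    (hF : StronglyMeasurable[K.H (Set.range (fun i : Fin m => ι i) ∪ E)] F) (hFb : Bd F)
    (hG : StronglyMeasurable[K'.H (Set.range (fun i : Fin m => ι i) ∪ E)] G) (hGb : Bd G) :
    Q C C' ι t n (fun ω => F (Φ.τ σ ω)) (fun ω => G (Φ.τ σ ω)) = Q C C' ι t m F G := by
  unfold Q
  rw [Finset.sum_congr rfl (fun c _ => Qc_comp C C' hι hE f σ hσE hσ t c hF hFb hG hGb),
    sum_colourings f (fun c => Qc C C' ι t c F G)]
  have hmn : m ≤ n := by simpa using Fintype.card_le_of_embedding f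
  have : (k : ℝ) ^ n = (k : ℝ) ^ (n - m) * (k : ℝ) ^ m := by
    rw [← pow_add]; congr 1; omega
  have hk' : (k : ℝ) ≠ 0 := by positivity
  rw [this, mul_div_mul_left _ _ (pow_ne_zero _ hk')]

/-! ### The polynomial in `t` -/

/-- the coefficients of the polynomial -/
noncomputable def Qcoef (C : Charge K E k) (C' : Charge K' E k) (ι : ℕ → I) (n : ℕ)
    (F G : Ω → ℝ) (j : ℕ) : ℝ :=
  ∑ c : Fin n → Fin k, ∑ 𝒜 ∈ (Sec c).powerset.filter (fun 𝒜 => 𝒜.card = j),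
    cint C ι F 𝒜 * cint C' ι G 𝒜

omit [IsProbabilityMeasure μ] in
open Polynomial in
theorem Qcoef_eq_zero (hk : 0 < k) (C : Charge K E k) (C' : Charge K' E k) (ι : ℕ → I) (n : ℕ)
    (F G : Ω → ℝ) (r : ℝ) (h : ∀ t : ℝ, 0 ≤ t → t ≤ 1 → Q C C' ι t n F G = r) {j : ℕ}
    (hj : 0 < j) : Qcoef C C' ι n F G j = 0 := by
  classical
  let P : ℝ[X] := ∑ c : Fin n → Fin k, ∑ 𝒜 ∈ (Sec c).powerset,
    Polynomial.C (cint C ι F 𝒜 * cint C' ι G 𝒜) * X ^ 𝒜.card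
  have hk' : (k : ℝ) ^ n ≠ 0 := by positivity
  have hev : ∀ t : ℝ, 0 ≤ t → t ≤ 1 → P.eval t = (Polynomial.C ((k : ℝ) ^ n * r)).eval t := by
    intro t h0 h1
    rw [eval_C, ← h t h0 h1]
    unfold Q
    rw [mul_div_cancel₀ _ hk']
    simp only [P, eval_finsetSum, eval_mul, eval_C, eval_pow, eval_X]
    apply Finset.sum_congr rfl
    intro c _
    unfold Qc
    apply Finset.sum_congr rfl
    intro 𝒜 _
    ring
  have hP : P = Polynomial.C ((k : ℝ) ^ n * r) := by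
    apply Polynomial.eq_of_infinite_eval_eq
    apply Set.Infinite.mono (s := Set.Icc (0 : ℝ) 1)
    · intro t ht
      exact hev t ht.1 ht.2
    · exact Set.Icc_infinite one_pos
  have hcoef : P.coeff j = 0 := by
    rw [hP, coeff_C, if_neg hj.ne']
  have : P.coeff j = Qcoef C C' ι n F G j := by
    simp only [P, finsetSum_coeff, coeff_C_mul, coeff_X_pow]
    unfold Qcoef
    apply Finset.sum_congr rfl
    intro c _
    rw [Finset.sum_filter]
    apply Finset.sum_congr rfl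
    intro 𝒜 _
    by_cases hc : 𝒜.card = j
    · simp [hc]
    · rw [if_neg hc, if_neg (fun h => hc h.symm), mul_zero]
  rw [← this, hcoef]

end Coup
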