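import Pool.Agent.Work.MP_e8a478_co.Rigid

/-!
# Unique coupleability of an independent coupling with one limit object (MP_e8a478_co)
-/

set_option autoImplicit false

open Filter Topology Classical MeasureTheory ProbabilityTheory

namespace Pool.MP_e8a478_co

variable {L L₁ L₂ L₃ : Lang} {I : Type}

theorem HR_le_HS (R : Red L L₁) (U : Set I) : HR R U ≤ HS L U := by
  rw [HR_eq]
  have e : (fun S : Str L I => (R.r S).pull (Subtype.val : U → I))
      = (fun S : Str L U => R.r S) ∘ (fun S : Str L I => S.pull (Subtype.val : U → I)) := by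
    funext S
    exact R.pull _ _
  rw [e, ← MeasurableSpace.comap_comp]
  exact MeasurableSpace.comap_mono (R.meas U).comap_le

theorem push_comp (R : Red L₂ L₃) (R' : Red L₁ L₂) (ξ : Fam L₁) :
    push (R.comp R') ξ = push R (push R' ξ) := by
  funext m M
  have h := sum_push R' ξ m (fun N => R.r N = M)
  exact h.symm

theorem q1 (T₁ : Theory L₁) (T₂ : Theory L₂) (T₃ : Theory L₃) {φ₁ : Fam L₁} {φ₂ : Fam L₂}
    {ψ : Fam L₃} (h₁ : φ₁ ∈ Hom T₁) (h₂ : φ₂ ∈ Hom T₂) (h₃ : ψ ∈ Hom T₃)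
    (u₁ : UC T₁ T₃ φ₁ ψ) (u₂ : UC T₂ T₃ φ₂ ψ) :
    UC (T₁.union T₂) T₃ (indep φ₁ φ₂) ψ := by
  obtain ⟨c₁, d₁, s₁⟩ := homProps L₁ T₁ φ₁ h₁
  obtain ⟨c₂, d₂, s₂⟩ := homProps L₂ T₂ φ₂ h₂
  obtain ⟨c₃, d₃, s₃⟩ := homProps L₃ T₃ ψ h₃
  have c₁₂ := Consistent.indep c₁ c₂
  have d₁₂ := Dissociated.indep d₁ d₂
  have s₁₂ := Supported.indep s₁ s₂
  intro ξ
  constructor
  · rintro ⟨hξT, m₁, m₂⟩
    obtain ⟨hξ, hd, hs⟩ := homProps _ _ ξ hξT
    obtain ⟨μ, hp, hμ⟩ := exists_measure ((L₁.sum L₂).sum L₃) (ℕ ⊕ ℕ) ξ hξ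
    let E : Set (ℕ ⊕ ℕ) := Set.range Sum.inr
    have hE : E.Infinite := Set.infinite_range_of_injective Sum.inr_injective
    have hE' : Eᶜ.Infinite := by
      have h : Set.range (Sum.inl : ℕ → ℕ ⊕ ℕ) ⊆ Eᶜ := by
        rintro _ ⟨i, rfl⟩ ⟨j, hj⟩
        exact Sum.inr_ne_inl hj
      exact (Set.infinite_range_of_injective Sum.inl_injective).mono h
    let R12 : Red ((L₁.sum L₂).sum L₃) (L₁.sum L₂) := Red.fst (L₁.sum L₂) L₃
    let R3 : Red ((L₁.sum L₂).sum L₃) L₃ := Red.snd (L₁.sum L₂) L₃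
    let R1 : Red ((L₁.sum L₂).sum L₃) L₁ := (Red.fst L₁ L₂).comp R12
    let R2 : Red ((L₁.sum L₂).sum L₃) L₂ := (Red.snd L₁ L₂).comp R12
    have p12 : push R12 ξ = indep φ₁ φ₂ := by rw [push_fst, m₁]
    have p3 : push R3 ξ = ψ := by rw [push_snd, m₂]
    have p1 : push R1 ξ = φ₁ := by rw [push_comp, p12, push_fst, marg₁_indep c₂]
    have p2 : push R2 ξ = φ₂ := by rw [push_comp, p12, push_snd, marg₂_indep c₁]
    have hind : Indep ((fam (hξ := hξ) (hμ := hμ) R1).H Set.univ)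
        ((fam (hξ := hξ) (hμ := hμ) R2).H Set.univ) μ := by
      change Indep (HR R1 Set.univ) (HR R2 Set.univ) μ
      rw [HR_comp, HR_comp]
      have hlaw : IsLaw (indep φ₁ φ₂) (μ.map (fun S => R12.r S)) := by
        rw [← p12]; exact IsLaw.push R12 hξ hμ
      have hprob : IsProbabilityMeasure (μ.map (fun S : Str ((L₁.sum L₂).sum L₃) (ℕ ⊕ ℕ) => R12.r S)) :=
        Measure.isProbabilityMeasure_map (R12.meas _).aemeasurable
      exact Indep.comap_map (R12.meas _) (HR_le _ _) (HR_le _ _)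
        (indep_of_isLaw_indep c₁ c₂ hlaw _ _)
    have hdis : ∀ S : Finset (ℕ ⊕ ℕ), Disjoint (S : Set (ℕ ⊕ ℕ)) E →
        Indep ((fam (hξ := hξ) (hμ := hμ) (Red.id _)).H S)
          ((fam (hξ := hξ) (hμ := hμ) (Red.id _)).H E) μ := by
      intro S hS
      change Indep (HR (Red.id _) (S : Set (ℕ ⊕ ℕ))) (HR (Red.id _) E) μ
      rw [HR_id, HR_id]
      exact independence hξ hd μ hμ _ _ hS
    have hle : ∀ {A : Lang} (R : Red ((L₁.sum L₂).sum L₃) A) (U : Set (ℕ ⊕ ℕ)),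
        (fam (hξ := hξ) (hμ := hμ) R).H U ≤ (fam (hξ := hξ) (hμ := hμ) (Red.id _)).H U := by
      intro A R U
      change HR R U ≤ HR (Red.id _) U
      rw [HR_id]
      exact HR_le_HS R U
    have hR1 : Coup.Rigid (fam (hξ := hξ) (hμ := hμ) R1) (fam (hξ := hξ) (hμ := hμ) R3) E := by
      apply rigid_of_uc hE hE' T₁ T₃
      · rw [p1]; exact d₁
      · rw [p1]; exact s₁
      · rw [p3]; exact d₃
      · rw [p3]; exact s₃
      · rw [p1, p3]; exact u₁
    have hR2 : Coup.Rigid (fam (hξ := hξ) (hμ := hμ) R2) (fam (hξ := hξ) (hμ := hμ) R3) E := by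
      apply rigid_of_uc hE hE' T₂ T₃
      · rw [p2]; exact d₂
      · rw [p2]; exact s₂
      · rw [p3]; exact d₃
      · rw [p3]; exact s₃
      · rw [p2, p3]; exact u₂
    funext m S
    let ι : Fin m ↪ (ℕ ⊕ ℕ) := ⟨fun i => Sum.inl i, fun i j h => Fin.ext (Sum.inl_injective h)⟩
    let F : Finset (ℕ ⊕ ℕ) := Finset.univ.map ι
    have hF : (F : Set (ℕ ⊕ ℕ)) = Set.range ι := by simp [F]
    have hFE : Disjoint (F : Set (ℕ ⊕ ℕ)) E := by
      rw [hF, Set.disjoint_left]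
      rintro _ ⟨i, rfl⟩ ⟨j, hj⟩
      exact Sum.inr_ne_inl hj
    have hmain := Coup.main_abs (fam (hξ := hξ) (hμ := hμ) (Red.id _))
      (fam (hξ := hξ) (hμ := hμ) R1) (fam (hξ := hξ) (hμ := hμ) R2)
      (fam (hξ := hξ) (hμ := hμ) R3) (hle R1) (hle R2) (hle R3) hE hE' hind hdis hR1 hR2 hFE
      (f1 := ind R1 ι S.fst.fst) (f2 := ind R2 ι S.fst.snd) (h := ind R3 ι S.snd)
      (ind_AB _ _ _) (ind_AB _ _ _) (ind_AB _ _ _)
      (by rw [hF]; exact ind_meas R1 ι _) (by rw [hF]; exact ind_meas R2 ι _)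
      (by rw [hF]; exact ind_meas R3 ι _)
    have e1 : ∀ ω, ind R1 ι S.fst.fst ω * ind R2 ι S.fst.snd ω = ind R12 ι S.fst ω := by
      intro ω
      have h : (R12.r ω).pull ι = S.fst ↔
          (R1.r ω).pull ι = S.fst.fst ∧ (R2.r ω).pull ι = S.fst.snd := by
        constructor
        · intro h
          rw [← h]
          exact ⟨rfl, rfl⟩
        · rintro ⟨h1, h2⟩
          rw [← join_eta S.fst, ← h1, ← h2]
          exact (join_eta ((R12.r ω).pull ι)).symm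
      unfold ind
      by_cases a : (R1.r ω).pull ι = S.fst.fst <;> by_cases b : (R2.r ω).pull ι = S.fst.snd <;>
        simp [h, a, b]
    have e2 : ∀ ω, ind R12 ι S.fst ω * ind R3 ι S.snd ω = ind (Red.id _) ι S ω := by
      intro ω
      have h : ((Red.id _).r ω).pull ι = S ↔
          (R12.r ω).pull ι = S.fst ∧ (R3.r ω).pull ι = S.snd := by
        constructor
        · intro h
          rw [← h]
          exact ⟨rfl, rfl⟩
        · rintro ⟨h1, h2⟩
          rw [← join_eta S, ← h1, ← h2]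
          exact (join_eta (((Red.id _).r ω).pull ι)).symm
      unfold ind
      by_cases a : (R12.r ω).pull ι = S.fst <;> by_cases b : (R3.r ω).pull ι = S.snd <;>
        simp [h, a, b]
    simp only [e1, e2] at hmain
    have i0 : ∫ ω, ind (Red.id _) ι S ω ∂μ = push (Red.id _) ξ m S := ind_integral hξ hμ _ ι S
    have i1 : ∫ ω, ind R12 ι S.fst ω ∂μ = push R12 ξ m S.fst := ind_integral hξ hμ _ ι _
    have i2 : ∫ ω, ind R3 ι S.snd ω ∂μ = push R3 ξ m S.snd := ind_integral hξ hμ _ ι _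
    rw [i0, i1, i2, p12, p3] at hmain
    have h0 : push (Red.id _) ξ m S = ξ m S := by
      unfold push
      change ∑ N, (if N = S then ξ m N else 0) = _
      simp
    rw [h0] at hmain
    exact hmain
  · rintro rfl
    exact ⟨memHom _ _ _ (Consistent.indep c₁₂ c₃) (Dissociated.indep d₁₂ d₃)
      (Supported.indep s₁₂ s₃), marg₁_indep c₃, marg₂_indep c₁₂⟩

end Pool.MP_e8a478_co
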