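import Pool.Agent.Work.MP_e8a478_co.Concrete

/-!
# Part A of MP_e8a478_co: limit objects are consistent, dissociated and supported on the theory
-/

set_option autoImplicit false

open Filter Topology Classical

namespace Pool.MP_e8a478_co

variable {L : Lang}

namespace A

/-- density with respect to uniformly random maps -/
noncomputable def tdens {m v : ℕ} (M : Str L (Fin m)) (N : Str L (Fin v)) : ℝ :=
  (∑ g : Fin m → Fin v, if N.pull g = M then (1 : ℝ) else 0) / (v : ℝ) ^ m

theorem tdens_nonneg {m v : ℕ} (M : Str L (Fin m)) (N : Str L (Fin v)) : 0 ≤ tdens M N := by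
  unfold tdens
  apply div_nonneg _ (by positivity)
  exact Finset.sum_nonneg fun g _ => by split_ifs <;> norm_num

theorem dens_nonneg {m v : ℕ} (M : Str L (Fin m)) (N : Str L (Fin v)) : 0 ≤ dens M N := by
  unfold dens; positivity

/-- the proportion of injective maps -/
noncomputable def inj (m v : ℕ) : ℝ := (v.descFactorial m : ℝ) / (v : ℝ) ^ m

theorem tendsto_inj (m : ℕ) : Tendsto (inj m) atTop (𝓝 1) := by
  have h : ∀ i : ℕ, Tendsto (fun v : ℕ => ((v - i : ℕ) : ℝ) / (v : ℝ)) atTop (𝓝 1) := by
    intro i
    have h1 : Tendsto (fun v : ℕ => 1 - (i : ℝ) / (v : ℝ)) atTop (𝓝 (1 - 0)) :=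
      tendsto_const_nhds.sub (tendsto_const_div_atTop_nhds_zero_nat (i : ℝ))
    rw [sub_zero] at h1
    refine h1.congr' ?_
    filter_upwards [eventually_ge_atTop i, eventually_gt_atTop 0] with v hv hv0
    rw [Nat.cast_sub hv, sub_div, div_self (by positivity)]
  have h2 := tendsto_finsetProd (Finset.range m) (fun i _ => h i)
  rw [Finset.prod_const_one] at h2
  refine h2.congr (fun v => ?_)
  rw [inj, Nat.descFactorial_eq_prod_range, Finset.prod_div_distrib, Nat.cast_prod]
  simp

theorem abs_sub_le {m v : ℕ} (hv : m ≤ v) (hv0 : 0 < v) (M : Str L (Fin m)) (N : Str L (Fin v)) :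
    |tdens M N - dens M N| ≤ 1 - inj m v := by
  set a : ℝ := ∑ f : Fin m ↪ Fin v, if N.pull f = M then (1 : ℝ) else 0 with ha
  set T : ℝ := ∑ g : Fin m → Fin v, if N.pull g = M then (1 : ℝ) else 0 with hT
  set I : ℝ := (v.descFactorial m : ℝ) with hI
  set P : ℝ := (v : ℝ) ^ m with hP
  have hdens : dens M N = a / I := by
    rw [dens, ha, hI]
    congr 1
    · rw [Nat.card_eq_fintype_card, Fintype.card_subtype, Finset.card_filter]
      push_cast
      rfl
    · rw [Nat.card_eq_fintype_card, Fintype.card_embedding_eq]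
      simp
  have htdens : tdens M N = T / P := rfl
  have hIpos : 0 < I := by
    rw [hI]
    exact_mod_cast Nat.descFactorial_pos.2 hv
  have hPpos : 0 < P := by positivity
  have hinj : ∑ g ∈ (Finset.univ : Finset (Fin m → Fin v)).filter Function.Injective,
      (if N.pull g = M then (1 : ℝ) else 0) = a := by
    rw [ha]
    refine Finset.sum_bij' (fun g hg => ⟨g, (Finset.mem_filter.1 hg).2⟩) (fun f _ => f)
      (fun _ _ => Finset.mem_univ _) (fun f _ => by simp [f.injective]) (fun _ _ => rfl)
      (fun _ _ => rfl) (fun _ _ => rfl)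
  have hcard : (((Finset.univ : Finset (Fin m → Fin v)).filter Function.Injective).card : ℝ)
      = I := by
    rw [hI, ← Fintype.card_subtype]
    have : Fintype.card {g : Fin m → Fin v // Function.Injective g} =
        Fintype.card (Fin m ↪ Fin v) :=
      Fintype.card_congr (Equiv.subtypeInjectiveEquivEmbedding _ _)
    rw [this, Fintype.card_embedding_eq]
    simp
  have hcard2 : (((Finset.univ : Finset (Fin m → Fin v)).filter
      (fun g => ¬ Function.Injective g)).card : ℝ) = P - I := by
    have := Finset.card_filter_add_card_filter_not (s := (Finset.univ : Finset (Fin m → Fin v)))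
      Function.Injective
    have h2 : (Finset.univ : Finset (Fin m → Fin v)).card = v ^ m := by
      simp
    rw [h2] at this
    have h3 : ((((Finset.univ : Finset (Fin m → Fin v)).filter Function.Injective).card +
      ((Finset.univ : Finset (Fin m → Fin v)).filter
      (fun g => ¬ Function.Injective g)).card : ℕ) : ℝ) = ((v ^ m : ℕ) : ℝ) := by
      rw [this]
    push_cast at h3
    rw [hcard] at h3
    linarith
  have hsplit : T = a + ∑ g ∈ (Finset.univ : Finset (Fin m → Fin v)).filter
      (fun g => ¬ Function.Injective g), (if N.pull g = M then (1 : ℝ) else 0) := by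
    rw [hT, ← hinj, Finset.sum_filter_add_sum_filter_not]
  have hr0 : 0 ≤ ∑ g ∈ (Finset.univ : Finset (Fin m → Fin v)).filter
      (fun g => ¬ Function.Injective g), (if N.pull g = M then (1 : ℝ) else 0) :=
    Finset.sum_nonneg fun g _ => by split_ifs <;> norm_num
  have hr1 : ∑ g ∈ (Finset.univ : Finset (Fin m → Fin v)).filter
      (fun g => ¬ Function.Injective g), (if N.pull g = M then (1 : ℝ) else 0) ≤ P - I := by
    rw [← hcard2]
    refine (Finset.sum_le_sum (g := fun _ => (1 : ℝ)) fun g _ => ?_).trans (by simp)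
    split_ifs <;> norm_num
  have haI : a ≤ I := by
    rw [← hinj, ← hcard]
    refine (Finset.sum_le_sum (g := fun _ => (1 : ℝ)) fun g _ => ?_).trans (by simp)
    split_ifs <;> norm_num
  have ha0 : 0 ≤ a := Finset.sum_nonneg fun g _ => by split_ifs <;> norm_num
  have hinjv : inj m v = I / P := rfl
  rw [htdens, hdens, hinjv, abs_le]
  set r := ∑ g ∈ (Finset.univ : Finset (Fin m → Fin v)).filter
      (fun g => ¬ Function.Injective g), (if N.pull g = M then (1 : ℝ) else 0) with hr
  have hIP : I ≤ P := by linarith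
  have e1 : a / P ≤ a / I := div_le_div_of_nonneg_left ha0 hIpos hIP
  constructor
  · -- dens - tdens ≤ 1 - I/P
    have e2 : a / I - a / P ≤ 1 - I / P := by
      have : a / I - a / P = (a / I) * (1 - I / P) := by field_simp
      rw [this]
      have h1 : a / I ≤ 1 := (div_le_one hIpos).2 haI
      have h2 : 0 ≤ 1 - I / P := by
        rw [sub_nonneg]; exact (div_le_one hPpos).2 hIP
      nlinarith
    have e3 : a / P ≤ T / P := by
      apply div_le_div_of_nonneg_right _ hPpos.le
      linarith
    linarith
  · have e3 : T / P ≤ a / P + (1 - I / P) := by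
      have : a / P + (1 - I / P) = (a + (P - I)) / P := by field_simp
      rw [this]
      apply div_le_div_of_nonneg_right _ hPpos.le
      linarith
    linarith

theorem tdens_tendsto {m : ℕ} (M : Str L (Fin m)) {n : ℕ → ℕ} (N : ∀ j, Str L (Fin (n j)))
    (hn : Tendsto n atTop atTop) {x : ℝ} (h : Tendsto (fun j => dens M (N j)) atTop (𝓝 x)) :
    Tendsto (fun j => tdens M (N j)) atTop (𝓝 x) := by
  have h1 : Tendsto (fun j => tdens M (N j) - dens M (N j)) atTop (𝓝 0) := by
    have h2 : Tendsto (fun j => 1 - inj m (n j)) atTop (𝓝 0) := by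
      have := ((tendsto_inj m).comp hn).const_sub 1
      simpa using this
    rw [tendsto_zero_iff_abs_tendsto_zero]
    refine squeeze_zero' (Eventually.of_forall fun _ => abs_nonneg _) ?_ h2
    filter_upwards [hn.eventually_ge_atTop m, hn.eventually_gt_atTop 0] with j hj hj0
    exact abs_sub_le hj hj0 M (N j)
  simpa using h1.add h

/-- summing over the extensions of a map -/
theorem sum_comp {A B W V : Type} [Fintype A] [Fintype B] [Fintype W] [Fintype V]
    [DecidableEq A] [DecidableEq B] [DecidableEq W]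
    (e : A ⊕ B ≃ W) (F : (A → V) → (B → V) → ℝ) :
    ∑ g : W → V, F (fun a => g (e (Sum.inl a))) (fun b => g (e (Sum.inr b))) =
      ∑ g : A → V, ∑ h : B → V, F g h := by
  rw [← Fintype.sum_prod_type' (f := F)]
  apply Fintype.sum_equiv
    ((Equiv.arrowCongr e.symm (Equiv.refl V)).trans (Equiv.sumArrowEquivProdArrow A B V))
  intro g
  rfl

theorem tdens_cons {m n v : ℕ} (hv : 0 < v) (f : Fin m ↪ Fin n) (M : Str L (Fin m))
    (N : Str L (Fin v)) :
    ∑ N' : Str L (Fin n), (if N'.pull f = M then tdens N' N else 0) = tdens M N := by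
  have h1 : ∑ N' : Str L (Fin n), (if N'.pull f = M then tdens N' N else 0) =
      (∑ g : Fin n → Fin v, if N.pull (g ∘ f) = M then (1 : ℝ) else 0) / (v : ℝ) ^ n := by
    simp only [tdens, div_eq_mul_inv, ← ite_zero_mul, ← Finset.sum_mul]
    congr 1
    have : ∀ N' : Str L (Fin n), (if N'.pull f = M then
        ∑ g : Fin n → Fin v, (if N.pull g = N' then (1 : ℝ) else 0) else 0) =
        ∑ g : Fin n → Fin v, if N.pull g = N' then (if N'.pull f = M then (1 : ℝ) else 0)
          else 0 := by
      intro N'
      by_cases h : N'.pull f = M <;> simp [h]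
    rw [Finset.sum_congr rfl (fun N' _ => this N'), Finset.sum_comm]
    apply Finset.sum_congr rfl
    intro g _
    rw [Finset.sum_ite_eq]
    simp only [Finset.mem_univ, if_true]
    rfl
  rw [h1, tdens]
  let e : Fin m ⊕ {x : Fin n // x ∉ Set.range f} ≃ Fin n :=
    ((Equiv.ofInjective f f.injective).sumCongr (Equiv.refl _)).trans
      (Equiv.Set.sumCompl (Set.range f))
  have he : ∀ a, e (Sum.inl a) = f a := fun a => rfl
  have h2 := sum_comp (V := Fin v) e (fun g _ => if N.pull g = M then (1 : ℝ) else 0)
  have h3 : ∑ g : Fin n → Fin v, (if N.pull (g ∘ f) = M then (1 : ℝ) else 0) =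
      ∑ g : Fin m → Fin v, ∑ _h : {x : Fin n // x ∉ Set.range f} → Fin v,
        (if N.pull g = M then (1 : ℝ) else 0) := by
    exact h2
  rw [h3]
  simp only [Finset.sum_const, Finset.card_univ, nsmul_eq_mul, ← Finset.mul_sum]
  have hc : Fintype.card {x : Fin n // x ∉ Set.range f} = n - m := by
    have h4 := Fintype.card_congr e
    rw [Fintype.card_sum, Fintype.card_fin, Fintype.card_fin] at h4
    omega
  have hmn : m ≤ n := by
    simpa using Fintype.card_le_of_embedding f
  rw [Fintype.card_fun, hc, Fintype.card_fin]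
  push_cast
  have hvne : (v : ℝ) ≠ 0 := by positivity
  have : (v : ℝ) ^ n = (v : ℝ) ^ (n - m) * (v : ℝ) ^ m := by
    rw [← pow_add]; congr 1; omega
  rw [this, mul_div_mul_left _ _ (pow_ne_zero _ hvne)]

theorem tdens_diss {m n v : ℕ} (M : Str L (Fin m)) (M' : Str L (Fin n)) (N : Str L (Fin v)) :
    ∑ N' : Str L (Fin (m + n)), (if N'.pull (Fin.castAdd n) = M ∧ N'.pull (Fin.natAdd m) = M'
      then tdens N' N else 0) = tdens M N * tdens M' N := by
  have h1 : ∑ N' : Str L (Fin (m + n)), (if N'.pull (Fin.castAdd n) = M ∧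
      N'.pull (Fin.natAdd m) = M' then tdens N' N else 0) =
      (∑ g : Fin (m + n) → Fin v, if N.pull (g ∘ Fin.castAdd n) = M ∧
        N.pull (g ∘ Fin.natAdd m) = M' then (1 : ℝ) else 0) / (v : ℝ) ^ (m + n) := by
    simp only [tdens, div_eq_mul_inv, ← ite_zero_mul, ← Finset.sum_mul]
    congr 1
    have : ∀ N' : Str L (Fin (m + n)), (if N'.pull (Fin.castAdd n) = M ∧
        N'.pull (Fin.natAdd m) = M' then
        ∑ g : Fin (m + n) → Fin v, (if N.pull g = N' then (1 : ℝ) else 0) else 0) =
        ∑ g : Fin (m + n) → Fin v, if N.pull g = N' then (if N'.pull (Fin.castAdd n) = M ∧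
        N'.pull (Fin.natAdd m) = M' then (1 : ℝ) else 0) else 0 := by
      intro N'
      by_cases h : N'.pull (Fin.castAdd n) = M ∧ N'.pull (Fin.natAdd m) = M' <;> simp [h]
    rw [Finset.sum_congr rfl (fun N' _ => this N'), Finset.sum_comm]
    apply Finset.sum_congr rfl
    intro g _
    rw [Finset.sum_ite_eq]
    simp only [Finset.mem_univ, if_true]
    rfl
  rw [h1, tdens, tdens, div_mul_div_comm, ← pow_add]
  congr 1
  have h2 := sum_comp (V := Fin v) (finSumFinEquiv (m := m) (n := n))
    (fun g h => if N.pull g = M ∧ N.pull h = M' then (1 : ℝ) else 0)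
  have h3 : ∑ g : Fin (m + n) → Fin v, (if N.pull (g ∘ Fin.castAdd n) = M ∧
        N.pull (g ∘ Fin.natAdd m) = M' then (1 : ℝ) else 0) =
      ∑ g : Fin m → Fin v, ∑ h : Fin n → Fin v,
        (if N.pull g = M ∧ N.pull h = M' then (1 : ℝ) else 0) := by
    simp only [finSumFinEquiv_apply_left, finSumFinEquiv_apply_right] at h2
    exact h2
  rw [h3, Finset.sum_mul_sum]
  apply Finset.sum_congr rfl
  intro g _
  apply Finset.sum_congr rfl
  intro h _
  by_cases h4 : N.pull g = M <;> by_cases h5 : N.pull h = M' <;> simp [h4, h5]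

end A

open A

theorem homProps : HomProps := by
  intro L T ξ hξ
  obtain ⟨n, N, hn, hN, hlim⟩ := hξ
  have ht : ∀ (m : ℕ) (M : Str L (Fin m)), Tendsto (fun j => tdens M (N j)) atTop (𝓝 (ξ m M)) :=
    fun m M => tdens_tendsto M N hn (hlim m M)
  refine ⟨⟨?_, ?_, ?_⟩, ?_, ?_⟩
  · intro m M
    exact ge_of_tendsto' (ht m M) (fun j => tdens_nonneg _ _)
  · have h1 := tendsto_finsetSum Finset.univ (fun (M : Str L (Fin 0)) _ => ht 0 M)
    refine tendsto_nhds_unique h1 (tendsto_const_nhds.congr (fun j => ?_))
    simp only [tdens, pow_zero, div_one]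
    rw [Finset.sum_comm]
    simp
  · intro m n' f M
    have h1 := tendsto_finsetSum Finset.univ (fun (N' : Str L (Fin n')) _ =>
      (show Tendsto (fun j => if N'.pull f = M then tdens N' (N j) else 0) atTop
        (𝓝 (if N'.pull f = M then ξ n' N' else 0)) by
          split_ifs
          · exact ht n' N'
          · exact tendsto_const_nhds))
    refine tendsto_nhds_unique h1 ((ht m M).congr' ?_)
    filter_upwards [hn.eventually_gt_atTop 0] with j hj
    exact (tdens_cons hj f M (N j)).symm
  · intro m n' M M'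
    have h1 := tendsto_finsetSum Finset.univ (fun (N' : Str L (Fin (m + n'))) _ =>
      (show Tendsto (fun j => if N'.pull (Fin.castAdd n') = M ∧ N'.pull (Fin.natAdd m) = M'
        then tdens N' (N j) else 0) atTop
        (𝓝 (if N'.pull (Fin.castAdd n') = M ∧ N'.pull (Fin.natAdd m) = M'
          then ξ (m + n') N' else 0)) by
          split_ifs
          · exact ht _ N'
          · exact tendsto_const_nhds))
    refine tendsto_nhds_unique h1 (((ht m M).mul (ht n' M')).congr (fun j => ?_))
    exact (tdens_diss M M' (N j)).symm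
  · intro m M hM
    have hpos : 0 < ξ m M := lt_of_le_of_ne
      (ge_of_tendsto' (ht m M) (fun j => tdens_nonneg _ _)) (Ne.symm hM)
    have h1 := (hlim m M).eventually (lt_mem_nhds hpos)
    obtain ⟨j, hj⟩ := h1.exists
    have h2 : Nonempty {f : Fin m ↪ Fin (n j) // (N j).pull f = M} := by
      by_contra hne
      rw [not_nonempty_iff] at hne
      rw [dens, Nat.card_of_isEmpty] at hj
      simp at hj
    obtain ⟨f, hf⟩ := h2
    rw [← hf]
    exact T.hered f _ (hN j)

end Pool.MP_e8a478_co
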