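import Pool.Agent.Work.MP_e8a478_co.Concrete

/-!
# Part D of MP_e8a478_co: the exchangeable random structure of a consistent family
-/

set_option autoImplicit false

open Filter Topology Classical MeasureTheory ProbabilityTheory

namespace Pool.MP_e8a478_co

variable {L : Lang}

namespace D

variable {V I W : Type}

instance : CompactSpace (Str L V) :=
  inferInstanceAs (CompactSpace ((i : L.ι) → (Fin (L.ar i) → V) → Bool))

instance : T2Space (Str L V) :=
  inferInstanceAs (T2Space ((i : L.ι) → (Fin (L.ar i) → V) → Bool))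

instance [Countable V] : TopologicalSpace.PseudoMetrizableSpace (Str L V) :=
  inferInstanceAs (TopologicalSpace.PseudoMetrizableSpace
    ((i : L.ι) → (Fin (L.ar i) → V) → Bool))

instance [Countable V] : BorelSpace (Str L V) :=
  inferInstanceAs (BorelSpace ((i : L.ι) → (Fin (L.ar i) → V) → Bool))

instance [Countable V] : MeasurableSingletonClass (Str L V) :=
  inferInstanceAs (MeasurableSingletonClass ((i : L.ι) → (Fin (L.ar i) → V) → Bool))

instance [Finite V] : Finite (Str L V) :=
  inferInstanceAs (Finite ((i : L.ι) → (Fin (L.ar i) → V) → Bool))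

instance [Finite V] : DiscreteTopology (Str L V) :=
  Finite.instDiscreteTopology

theorem continuous_pull (f : V → I) : Continuous (fun S : Str L I => S.pull f) := by
  apply continuous_pi
  intro i
  apply continuous_pi
  intro x
  exact (continuous_apply (f ∘ x)).comp (continuous_apply i)

theorem measurable_pull (f : V → I) : Measurable (fun S : Str L I => S.pull f) := by
  apply measurable_pi_lambda
  intro i
  apply measurable_pi_lambda
  intro x
  exact (measurable_pi_apply (f ∘ x)).comp (measurable_pi_apply i)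

theorem pull_pull (S : Str L I) (f : V → I) (g : W → V) : (S.pull f).pull g = S.pull (f ∘ g) := rfl

theorem pull_id (S : Str L I) : S.pull id = S := rfl

theorem measurableSet_cyl {m : ℕ} (f : Fin m → I) (M : Str L (Fin m)) :
    MeasurableSet {S : Str L I | S.pull f = M} :=
  (measurable_pull f) (measurableSet_singleton M)

theorem isClopen_cyl {m : ℕ} (f : Fin m → I) (M : Str L (Fin m)) :
    IsClopen {S : Str L I | S.pull f = M} :=
  (isClopen_discrete {M}).preimage (continuous_pull f)

/-! ### The σ-algebras -/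

theorem HS_le (U : Set I) : HS L U ≤ (inferInstance : MeasurableSpace (Str L I)) := by
  rw [HS, MeasurableSpace.comap_le_iff_le_map]
  exact measurable_pull _

theorem HS_mono {U U' : Set I} (h : U ⊆ U') : HS L U ≤ HS L U' := by
  have e : (fun S : Str L I => S.pull (Subtype.val : U → I)) =
      (fun S : Str L U' => S.pull (Set.inclusion h)) ∘
        (fun S : Str L I => S.pull (Subtype.val : U' → I)) := rfl
  rw [HS, e, ← MeasurableSpace.comap_comp, HS]
  exact MeasurableSpace.comap_mono (measurable_pull _).comap_le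

/-- the coordinates with vertices in `U` are `HS L U`-measurable -/
theorem measurable_coord (U : Set I) (i : L.ι) (x : Fin (L.ar i) → I) (hx : ∀ k, x k ∈ U) :
    Measurable[HS L U] (fun S : Str L I => S i x) := by
  have e : (fun S : Str L I => S i x) = (fun S : Str L U => S i (fun k => ⟨x k, hx k⟩)) ∘
        (fun S : Str L I => S.pull (Subtype.val : U → I)) := rfl
  rw [e]
  exact ((measurable_pi_apply _).comp (measurable_pi_apply _)).comp (comap_measurable _)

theorem HS_univ : HS L (Set.univ : Set I) = (inferInstance : MeasurableSpace (Str L I)) := by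
  apply le_antisymm (HS_le _)
  have h : Measurable[HS L (Set.univ : Set I)] (id : Str L I → Str L I) := by
    refine @measurable_pi_lambda _ _ _ (HS L Set.univ) _ _ (fun i => ?_)
    refine @measurable_pi_lambda _ _ _ (HS L Set.univ) _ _ (fun x => ?_)
    exact measurable_coord _ i x (fun _ => Set.mem_univ _)
  intro s hs
  exact h hs

theorem HS_eq_iSup (U : Set I) :
    HS L U = ⨆ F : {F : Finset I // (F : Set I) ⊆ U}, HS L (F.1 : Set I) := by
  apply le_antisymm
  · rw [HS, MeasurableSpace.comap_le_iff_le_map]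
    have h : Measurable[⨆ F : {F : Finset I // (F : Set I) ⊆ U}, HS L (F.1 : Set I)]
        (fun S : Str L I => S.pull (Subtype.val : U → I)) := by
      refine @measurable_pi_lambda _ _ _ (_) _ _ (fun i => ?_)
      refine @measurable_pi_lambda _ _ _ (_) _ _ (fun x => ?_)
      have hF : ((Finset.univ.image (fun k => (x k).1) : Finset I) : Set I) ⊆ U := by
        intro y hy
        simp only [Finset.coe_image, Finset.coe_univ, Set.image_univ, Set.mem_range] at hy
        obtain ⟨k, rfl⟩ := hy
        exact (x k).2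
      have h1 := measurable_coord (L := L)
        ((Finset.univ.image (fun k => (x k).1) : Finset I) : Set I) i (fun k => (x k).1)
        (fun k => by simp)
      exact h1.mono (le_iSup (fun F : {F : Finset I // (F : Set I) ⊆ U} => HS L (F.1 : Set I))
        ⟨_, hF⟩) le_rfl
    exact h
  · exact iSup_le fun F => HS_mono F.2

/-- the π-system of the events depending on finitely many vertices of `U` -/
def cylSets (L : Lang) (U : Set I) : Set (Set (Str L I)) :=
  ⋃ F : {F : Finset I // (F : Set I) ⊆ U}, {t | MeasurableSet[HS L (F.1 : Set I)] t}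

theorem generateFrom_cylSets (U : Set I) : MeasurableSpace.generateFrom (cylSets L U) = HS L U := by
  rw [HS_eq_iSup, cylSets]
  exact MeasurableSpace.generateFrom_iUnion_measurableSet
    (fun F : {F : Finset I // (F : Set I) ⊆ U} => HS L (F.1 : Set I))

theorem isPiSystem_cylSets (U : Set I) : IsPiSystem (cylSets L U) := by
  intro s hs t ht _
  simp only [cylSets, Set.mem_iUnion] at hs ht ⊢
  obtain ⟨F, hF⟩ := hs
  obtain ⟨G, hG⟩ := ht
  refine ⟨⟨F.1 ∪ G.1, by simp [F.2, G.2]⟩, ?_⟩
  have h1 : MeasurableSet[HS L ((F.1 ∪ G.1 : Finset I) : Set I)] s :=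
    HS_mono (by simp) _ hF
  have h2 : MeasurableSet[HS L ((F.1 ∪ G.1 : Finset I) : Set I)] t :=
    HS_mono (by simp) _ hG
  exact @MeasurableSet.inter _ (HS L ((F.1 ∪ G.1 : Finset I) : Set I)) _ _ h1 h2

/-- an enumeration of a finite set -/
noncomputable def enum (F : Finset I) : Fin F.card ↪ I :=
  F.equivFin.symm.toEmbedding.trans (Function.Embedding.subtype _)

theorem range_enum (F : Finset I) : Set.range (enum F) = (F : Set I) := by
  ext x
  simp only [enum, Set.mem_range]
  constructor
  · rintro ⟨k, rfl⟩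
    simp
  · intro hx
    exact ⟨F.equivFin ⟨x, hx⟩, by simp⟩

/-- every event depending on `F` is a finite union of cylinders -/
theorem exists_cyl {F : Finset I} {s : Set (Str L I)}
    (hs : MeasurableSet[HS L (F : Set I)] s) :
    ∃ B : Set (Str L (Fin F.card)), s = {S | S.pull (enum F) ∈ B} := by
  obtain ⟨B, -, rfl⟩ := hs
  let e : {x // x ∈ (F : Set I)} → Fin F.card := fun x => F.equivFin ⟨x.1, x.2⟩
  refine ⟨{N | N.pull e ∈ B}, ?_⟩
  ext S
  have : (S.pull (enum F)).pull e = S.pull (Subtype.val : {x // x ∈ (F : Set I)} → I) := by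
    rw [pull_pull]
    congr 1
    funext x
    simp [enum, e]
  simp only [Set.mem_preimage, Set.mem_ofPred_eq, this]

theorem measure_cyl {ξ : Fam L} (hξ : ∀ m M, 0 ≤ ξ m M) {μ : Measure (Str L I)} (h : IsLaw ξ μ)
    {m : ℕ} (f : Fin m ↪ I) (B : Set (Str L (Fin m))) :
    μ {S | S.pull f ∈ B} = ENNReal.ofReal (∑ M : Str L (Fin m), if M ∈ B then ξ m M else 0) := by
  have e : {S : Str L I | S.pull f ∈ B} =
      ⋃ M ∈ Finset.univ.filter (fun M => M ∈ B), {S : Str L I | S.pull f = M} := by
    ext S; simp
  rw [e, measure_biUnion_finset]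
  · rw [ENNReal.ofReal_sum_of_nonneg (fun M _ => by split_ifs; exacts [hξ _ _, le_rfl])]
    rw [Finset.sum_filter]
    apply Finset.sum_congr rfl
    intro M _
    split_ifs
    · exact h m f M
    · simp
  · intro M _ M' _ hne
    rw [Function.onFun, Set.disjoint_left]
    intro S h1 h2
    exact hne (h1.symm.trans h2)
  · intro M _
    exact measurableSet_cyl _ _

theorem law_unique {ξ : Fam L} (hξ : ∀ m M, 0 ≤ ξ m M) {μ ν : Measure (Str L I)}
    [IsProbabilityMeasure μ] [IsProbabilityMeasure ν] (hμ : IsLaw ξ μ) (hν : IsLaw ξ ν) :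
    μ = ν := by
  apply MeasureTheory.ext_of_generate_finite (cylSets L Set.univ)
    (by rw [generateFrom_cylSets, HS_univ]) (isPiSystem_cylSets _)
  · intro s hs
    simp only [cylSets, Set.mem_iUnion] at hs
    obtain ⟨F, hF⟩ := hs
    obtain ⟨B, rfl⟩ := exists_cyl hF
    rw [measure_cyl hξ hμ, measure_cyl hξ hν]
  · simp

theorem isLaw_map {ξ : Fam L} {μ : Measure (Str L I)} (hμ : IsLaw ξ μ) (σ : V → I)
    (hσ : Function.Injective σ) : IsLaw ξ (μ.map (fun S : Str L I => S.pull σ)) := by
  intro m f M
  rw [Measure.map_apply (measurable_pull σ) (measurableSet_cyl _ _)]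
  exact hμ m (f.trans ⟨σ, hσ⟩) M

end D

namespace D

variable {I : Type}

/-- extend a structure on `{0, …, n-1}` to `I` along `e : I → ℕ` -/
noncomputable def ext (e : I → ℕ) {n : ℕ} (N : Str L (Fin n)) : Str L I := fun i x =>
  if h : ∀ k, e (x k) < n then N i (fun k => ⟨e (x k), h k⟩) else false

theorem ext_pull (e : I → ℕ) {n m : ℕ} (N : Str L (Fin n)) (f : Fin m → I)
    (h : ∀ k, e (f k) < n) : (ext e N).pull f = N.pull (fun k => ⟨e (f k), h k⟩) := by
  funext i x
  simp only [Str.pull, ext, Function.comp]
  rw [dif_pos (fun k => h (x k))]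
  rfl

/-- the approximating measure -/
noncomputable def approx (e : I → ℕ) (ξ : Fam L) (n : ℕ) : Measure (Str L I) :=
  ∑ N : Str L (Fin n), ENNReal.ofReal (ξ n N) • Measure.dirac (ext e N)

theorem total_eq_one {ξ : Fam L} (hξ : Consistent ξ) (n : ℕ) :
    ∑ N : Str L (Fin n), ξ n N = 1 := by
  rw [← hξ.total]
  have h := fun M : Str L (Fin 0) =>
    hξ.cons (⟨Fin.elim0, fun a => a.elim0⟩ : Fin 0 ↪ Fin n) M
  rw [← Finset.sum_congr rfl (fun M _ => h M), Finset.sum_comm]
  apply Finset.sum_congr rfl
  intro N _
  rw [Finset.sum_ite_eq]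
  simp

theorem approx_prob (e : I → ℕ) {ξ : Fam L} (hξ : Consistent ξ) (n : ℕ) :
    IsProbabilityMeasure (approx e ξ n) := by
  constructor
  rw [approx, Measure.coe_finsetSum, Finset.sum_apply]
  simp only [Measure.smul_apply, measure_univ, smul_eq_mul, mul_one]
  rw [← ENNReal.ofReal_sum_of_nonneg (fun N _ => hξ.nonneg _ _), total_eq_one hξ]
  simp

theorem approx_cyl [Countable I] (e : I → ℕ) (he : Function.Injective e) {ξ : Fam L}
    (hξ : Consistent ξ) (n m : ℕ) (f : Fin m ↪ I) (hf : ∀ k, e (f k) < n) (M : Str L (Fin m)) :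
    approx e ξ n {S | S.pull f = M} = ENNReal.ofReal (ξ m M) := by
  let f' : Fin m ↪ Fin n := ⟨fun k => ⟨e (f k), hf k⟩, fun a b hab =>
    f.injective (he (by simpa using hab))⟩
  rw [approx, Measure.coe_finsetSum, Finset.sum_apply, ← hξ.cons f' M,
    ENNReal.ofReal_sum_of_nonneg (fun N _ => by split_ifs; exacts [hξ.nonneg _ _, le_rfl])]
  apply Finset.sum_congr rfl
  intro N _
  rw [Measure.smul_apply, Measure.dirac_apply' _ (measurableSet_cyl f M), smul_eq_mul]
  have : (ext e N).pull f = N.pull f' := ext_pull e N f hf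
  by_cases h : N.pull f' = M
  · have h1 : ext e N ∈ {S : Str L I | S.pull f = M} := by
      show (ext e N).pull f = M
      rw [this, h]
    rw [Set.indicator_of_mem h1, if_pos h]
    simp
  · have h1 : ext e N ∉ {S : Str L I | S.pull f = M} := by
      show ¬ (ext e N).pull f = M
      rw [this]; exact h
    rw [Set.indicator_of_notMem h1, if_neg h]
    simp

end D

theorem exists_measure (L : Lang) (I : Type) [Countable I] (ξ : Fam L) (hξ : Consistent ξ) :
    ∃ μ : Measure (Str L I), IsProbabilityMeasure μ ∧ IsLaw ξ μ := by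
  obtain ⟨e, he⟩ := exists_injective_nat I
  let P : ℕ → ProbabilityMeasure (Str L I) := fun n => ⟨D.approx e ξ n, D.approx_prob e hξ n⟩
  let U : Ultrafilter ℕ := Filter.hyperfilter ℕ
  obtain ⟨μ, -, hμ⟩ := isCompact_univ.ultrafilter_le_nhds (U.map P) (by simp)
  refine ⟨μ, inferInstance, ?_⟩
  intro m f M
  have ht : Tendsto P U (𝓝 μ) := hμ
  have h1 := ProbabilityMeasure.tendsto_measure_of_isClopen_of_tendsto ht
    (D.isClopen_cyl (L := L) f M)
  have h2 : Tendsto (fun n => (P n : Measure (Str L I)) {S | S.pull f = M}) U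
      (𝓝 ((μ : Measure (Str L I)) {S | S.pull f = M})) := by
    have h3 := (ENNReal.continuous_coe.tendsto _).comp h1
    simpa [Function.comp_def] using h3
  have h3 : Tendsto (fun n => (P n : Measure (Str L I)) {S | S.pull f = M}) U
      (𝓝 (ENNReal.ofReal (ξ m M))) := by
    refine tendsto_const_nhds.congr' ?_
    have h4 : ∀ᶠ n in atTop, (P n : Measure (Str L I)) {S | S.pull f = M} =
        ENNReal.ofReal (ξ m M) := by
      filter_upwards [eventually_gt_atTop (Finset.univ.sup (fun k => e (f k)))] with n hn
      apply D.approx_cyl e he hξ n m f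
      intro k
      exact lt_of_le_of_lt (Finset.le_sup (f := fun k => e (f k)) (Finset.mem_univ k)) hn
    have h5 : (U : Filter ℕ) ≤ atTop := by
      rw [← Nat.cofinite_eq_atTop]
      exact Filter.hyperfilter_le_cofinite
    have h6 : ∀ᶠ n in (U : Filter ℕ), (P n : Measure (Str L I)) {S | S.pull f = M} =
        ENNReal.ofReal (ξ m M) := h5 h4
    exact h6.mono (fun n hn => hn.symm)
  exact tendsto_nhds_unique h2 h3

theorem invariance {I : Type} {ξ : Fam L} (hξ : Consistent ξ) (μ : Measure (Str L I))
    [IsProbabilityMeasure μ] (hμ : IsLaw ξ μ) (σ : I → I) (hσ : Function.Injective σ) :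
    MeasurePreserving (fun S : Str L I => S.pull σ) μ μ := by
  refine ⟨D.measurable_pull σ, ?_⟩
  have := Measure.isProbabilityMeasure_map (μ := μ) (D.measurable_pull (L := L) σ).aemeasurable
  exact D.law_unique hξ.nonneg (D.isLaw_map hμ σ hσ) hμ

theorem independence {I : Type} {ξ : Fam L} (hξ : Consistent ξ) (hd : Dissociated ξ)
    (μ : Measure (Str L I)) [IsProbabilityMeasure μ] (hμ : IsLaw ξ μ) (U V : Set I)
    (hUV : Disjoint U V) : Indep (HS L U) (HS L V) μ := by
  apply IndepSets.indep (D.HS_le U) (D.HS_le V) (D.isPiSystem_cylSets U) (D.isPiSystem_cylSets V)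
    (D.generateFrom_cylSets U).symm (D.generateFrom_cylSets V).symm
  rw [IndepSets_iff]
  intro s t hs ht
  simp only [D.cylSets, Set.mem_iUnion] at hs ht
  obtain ⟨F, hF⟩ := hs
  obtain ⟨G, hG⟩ := ht
  obtain ⟨B, rfl⟩ := D.exists_cyl hF
  obtain ⟨C, rfl⟩ := D.exists_cyl hG
  set f := D.enum F.1
  set g := D.enum G.1
  have hfg : ∀ a b, f a ≠ g b := by
    intro a b hab
    have h1 : f a ∈ U := F.2 (by rw [← D.range_enum]; exact ⟨a, rfl⟩)
    have h2 : g b ∈ V := G.2 (by rw [← D.range_enum]; exact ⟨b, rfl⟩)
    rw [hab] at h1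
    exact Set.disjoint_left.1 hUV h1 h2
  let h : Fin (F.1.card + G.1.card) ↪ I :=
    ⟨Fin.append f g, by
      intro a b hab
      induction a using Fin.addCases with
      | left a =>
        induction b using Fin.addCases with
        | left b =>
          simp only [Fin.append_left] at hab
          rw [f.injective hab]
        | right b =>
          simp only [Fin.append_left, Fin.append_right] at hab
          exact absurd hab (hfg a b)
      | right a =>
        induction b using Fin.addCases with
        | left b =>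
          simp only [Fin.append_left, Fin.append_right] at hab
          exact absurd hab.symm (hfg b a)
        | right b =>
          simp only [Fin.append_right] at hab
          rw [g.injective hab]⟩
  have hl : ∀ S : Str L I, (S.pull h).pull (Fin.castAdd G.1.card) = S.pull f := by
    intro S
    rw [D.pull_pull]
    congr 1
    funext k
    exact Fin.append_left _ _ _
  have hr : ∀ S : Str L I, (S.pull h).pull (Fin.natAdd F.1.card) = S.pull g := by
    intro S
    rw [D.pull_pull]
    congr 1
    funext k
    exact Fin.append_right _ _ _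
  have e : {S : Str L I | S.pull f ∈ B} ∩ {S | S.pull g ∈ C} =
      {S : Str L I | S.pull h ∈ {N : Str L (Fin (F.1.card + G.1.card)) |
        N.pull (Fin.castAdd G.1.card) ∈ B ∧ N.pull (Fin.natAdd F.1.card) ∈ C}} := by
    ext S
    simp only [Set.mem_inter_iff, Set.mem_ofPred_eq, hl, hr]
  rw [e, D.measure_cyl hξ.nonneg hμ, D.measure_cyl hξ.nonneg hμ, D.measure_cyl hξ.nonneg hμ,
    ← ENNReal.ofReal_mul (Finset.sum_nonneg fun M _ => by
      split_ifs; exacts [hξ.nonneg _ _, le_rfl])]
  congr 1
  rw [Finset.sum_mul_sum]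
  have h1 : ∀ (M : Str L (Fin F.1.card)) (M' : Str L (Fin G.1.card)),
      (if M ∈ B then ξ _ M else 0) * (if M' ∈ C then ξ _ M' else 0) =
      ∑ N : Str L (Fin (F.1.card + G.1.card)),
        if (N.pull (Fin.castAdd G.1.card) = M ∧ N.pull (Fin.natAdd F.1.card) = M') then
          (if M ∈ B ∧ M' ∈ C then ξ _ N else 0) else 0 := by
    intro M M'
    by_cases hM : M ∈ B
    · by_cases hM' : M' ∈ C
      · simp only [hM, hM', and_self, if_true]
        exact (hd _ _ M M').symm
      · simp [hM']
    · simp [hM]
  simp only [h1]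
  have h2 : ∀ M : Str L (Fin F.1.card), ∑ M' : Str L (Fin G.1.card),
      ∑ N : Str L (Fin (F.1.card + G.1.card)),
        (if (N.pull (Fin.castAdd G.1.card) = M ∧ N.pull (Fin.natAdd F.1.card) = M') then
          (if M ∈ B ∧ M' ∈ C then ξ _ N else 0) else 0) =
      ∑ N : Str L (Fin (F.1.card + G.1.card)),
        if N.pull (Fin.castAdd G.1.card) = M then
          (if M ∈ B ∧ N.pull (Fin.natAdd F.1.card) ∈ C then ξ _ N else 0) else 0 := by
    intro M
    rw [Finset.sum_comm]
    apply Finset.sum_congr rfl
    intro N _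
    by_cases hN : N.pull (Fin.castAdd G.1.card) = M
    · simp only [hN, true_and, if_true]
      rw [Finset.sum_ite_eq]
      simp
    · simp [hN]
  simp only [h2]
  rw [Finset.sum_comm]
  apply Finset.sum_congr rfl
  intro N _
  rw [Finset.sum_ite_eq]
  simp

theorem existsMeasure : ExistsMeasure := exists_measure

theorem invariance' : Invariance := fun _ _ _ μ hξ _ hμ σ hσ => invariance hξ μ hμ σ hσ

theorem independence' : Independence := fun _ _ _ μ _ hξ hd hμ U V hUV =>
  independence hξ hd μ hμ U V hUV

end Pool.MP_e8a478_co
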