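import Pool.Agent.Work.MP_e8a478_co.Cond

/-!
# Exchangeable systems of sub-algebras
-/

open MeasureTheory Filter Topology

namespace Coup

/-- A measure preserving action of the injections of the index set. -/
structure Flow (Ω I : Type*) [MeasurableSpace Ω] (μ : Measure Ω) where
  τ : (I ↪ I) → Ω → Ω
  mp : ∀ σ, MeasurePreserving (τ σ) μ μ
  comp : ∀ (σ σ' : I ↪ I) (ω : Ω), τ σ (τ σ' ω) = τ (σ.trans σ') ω
  one : ∀ ω, τ (Function.Embedding.refl I) ω = ω

/-- An equivariant family of sub-algebras indexed by the sets of indices. -/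
structure Fam {Ω I : Type*} {m0 : MeasurableSpace Ω} {μ : Measure Ω} (Φ : Flow Ω I μ) where
  H : Set I → MeasurableSpace Ω
  le : ∀ U, H U ≤ m0
  mono : ∀ {U V : Set I}, U ⊆ V → H U ≤ H V
  comap : ∀ (σ : I ↪ I) (U : Set I), (H U).comap (Φ.τ σ) = H (σ '' U)
  agree : ∀ (σ σ' : I ↪ I) (U : Set I), (∀ x ∈ U, σ x = σ' x) →
    ∀ s, MeasurableSet[H U] s → Φ.τ σ ⁻¹' s = Φ.τ σ' ⁻¹' s
  fin : ∀ U, H U ≤ ⨆ (F : Finset I) (_ : (F : Set I) ⊆ U), H F

theorem exists_shift {I : Type*} [Countable I] {A B : Set I} (hBA : B ⊆ A) (hB : B.Infinite) :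
    ∃ σ : I ↪ I, (∀ x ∉ A, σ x = x) ∧ σ '' A = B := by
  classical
  have hA : A.Infinite := hB.mono hBA
  have := hA.to_subtype
  have := hB.to_subtype
  obtain ⟨e⟩ : Nonempty (A ≃ B) := nonempty_equiv_of_countable
  let f : I → I := fun x => if h : x ∈ A then (e ⟨x, h⟩ : I) else x
  have hf1 : ∀ x (h : x ∈ A), f x = e ⟨x, h⟩ := fun x h => by simp [f, h]
  have hf2 : ∀ x, x ∉ A → f x = x := fun x h => by simp [f, h]
  have hinj : Function.Injective f := by
    intro x y hxy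
    by_cases hx : x ∈ A <;> by_cases hy : y ∈ A
    · rw [hf1 x hx, hf1 y hy] at hxy
      have := e.injective (Subtype.ext hxy)
      simpa using this
    · rw [hf1 x hx, hf2 y hy] at hxy
      exact absurd (hBA (hxy ▸ (e ⟨x, hx⟩).2)) hy
    · rw [hf2 x hx, hf1 y hy] at hxy
      exact absurd (hBA (hxy ▸ (e ⟨y, hy⟩).2)) hx
    · rwa [hf2 x hx, hf2 y hy] at hxy
  refine ⟨⟨f, hinj⟩, fun x hx => hf2 x hx, ?_⟩
  ext y
  constructor
  · rintro ⟨x, hx, rfl⟩
    change f x ∈ B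
    rw [hf1 x hx]
    exact (e ⟨x, hx⟩).2
  · intro hy
    refine ⟨e.symm ⟨y, hy⟩, (e.symm ⟨y, hy⟩).2, ?_⟩
    change f _ = y
    rw [hf1 _ (e.symm ⟨y, hy⟩).2]
    simp

section

variable {Ω I : Type*} {m0 : MeasurableSpace Ω} {μ : Measure Ω} [IsProbabilityMeasure μ]
variable {Φ : Flow Ω I μ}

omit [IsProbabilityMeasure μ] in
theorem Fam.comp_agree (K : Fam Φ) {σ σ' : I ↪ I} {U : Set I} (h : ∀ x ∈ U, σ x = σ' x)
    {u : Ω → ℝ} (hu : StronglyMeasurable[K.H U] u) (ω : Ω) : u (Φ.τ σ ω) = u (Φ.τ σ' ω) := by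
  have hs : MeasurableSet[K.H U] (u ⁻¹' {u (Φ.τ σ ω)}) :=
    hu.measurable (measurableSet_singleton _)
  have h1 := K.agree σ σ' U h _ hs
  have h2 : ω ∈ Φ.τ σ ⁻¹' (u ⁻¹' {u (Φ.τ σ ω)}) := by simp
  rw [h1] at h2
  simpa using h2.symm

omit [IsProbabilityMeasure μ] in
theorem Fam.comp_id (K : Fam Φ) {σ : I ↪ I} {U : Set I} (h : ∀ x ∈ U, σ x = x)
    {u : Ω → ℝ} (hu : StronglyMeasurable[K.H U] u) (ω : Ω) : u (Φ.τ σ ω) = u ω := by
  have := K.comp_agree (σ := σ) (σ' := Function.Embedding.refl I) (U := U)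
    (fun x hx => by simp [h x hx]) hu ω
  rwa [Φ.one] at this

omit [IsProbabilityMeasure μ] in
theorem Fam.comp_meas (K : Fam Φ) (σ : I ↪ I) {U : Set I}
    {u : Ω → ℝ} (hu : StronglyMeasurable[K.H U] u) :
    StronglyMeasurable[K.H (σ '' U)] (fun ω => u (Φ.τ σ ω)) := by
  rw [← K.comap σ U]
  exact hu.comp_measurable (comap_measurable _)

/-- Join of the algebras of the sets `W ∪ E`. -/
@[reducible]
def Fam.J (K : Fam Φ) (E : Set I) (𝒲 : Set (Set I)) : MeasurableSpace Ω :=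
  ⨆ W ∈ 𝒲, K.H (W ∪ E)

omit [IsProbabilityMeasure μ] in
theorem Fam.J_le (K : Fam Φ) (E : Set I) (𝒲 : Set (Set I)) : K.J E 𝒲 ≤ m0 :=
  iSup₂_le fun _ _ => K.le _

omit [IsProbabilityMeasure μ] in
theorem Fam.le_J (K : Fam Φ) (E : Set I) {𝒲 : Set (Set I)} {W : Set I} (h : W ∈ 𝒲) :
    K.H (W ∪ E) ≤ K.J E 𝒲 := le_iSup₂ (f := fun W (_ : W ∈ 𝒲) => K.H (W ∪ E)) W h

omit [IsProbabilityMeasure μ] in
theorem Fam.J_le_of (K : Fam Φ) {E E' : Set I} {𝒲 𝒲' : Set (Set I)}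
    (h : ∀ W ∈ 𝒲, ∃ W' ∈ 𝒲', W ∪ E ⊆ W' ∪ E') : K.J E 𝒲 ≤ K.J E' 𝒲' := by
  refine iSup₂_le fun W hW => ?_
  obtain ⟨W', hW', hs⟩ := h W hW
  exact (K.mono hs).trans (K.le_J E' hW')

omit [IsProbabilityMeasure μ] in
theorem Fam.J_le_H (K : Fam Φ) {E : Set I} {𝒲 : Set (Set I)} {X : Set I}
    (h : ∀ W ∈ 𝒲, W ∪ E ⊆ X) : K.J E 𝒲 ≤ K.H X :=
  iSup₂_le fun W hW => K.mono (h W hW)

omit [IsProbabilityMeasure μ] in
theorem Fam.comap_J (K : Fam Φ) (σ : I ↪ I) (E : Set I) (𝒲 : Set (Set I)) :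
    (K.J E 𝒲).comap (Φ.τ σ) = ⨆ W ∈ 𝒲, K.H (σ '' (W ∪ E)) := by
  simp only [Fam.J, MeasurableSpace.comap_iSup, K.comap]

omit [IsProbabilityMeasure μ] in
theorem Fam.J_singleton (K : Fam Φ) (E : Set I) (W : Set I) : K.J E {W} = K.H (W ∪ E) := by
  simp [Fam.J]

omit [IsProbabilityMeasure μ] in
theorem Fam.J_insert (K : Fam Φ) (E : Set I) (W : Set I) (𝒲 : Set (Set I)) :
    K.J E (insert W 𝒲) = K.H (W ∪ E) ⊔ K.J E 𝒲 := by
  apply le_antisymm
  · refine iSup₂_le fun X hX => ?_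
    rcases hX with rfl | hX
    · exact le_sup_left
    · exact (K.le_J E hX).trans le_sup_right
  · refine sup_le (K.le_J E (Set.mem_insert _ _)) ?_
    exact K.J_le_of fun X hX => ⟨X, Set.mem_insert_of_mem _ hX, le_rfl⟩

/-- Invariance of the conditional expectation, for functions of finitely many indices of the
environment. -/
theorem Fam.inv_fin (K : Fam Φ) [Countable I] {E S U F : Set I} (hE : E.Infinite)
    (hSE : Disjoint S E) (hU : Disjoint U (S ∪ E)) (hF : F.Finite) (hFE : F ⊆ E)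
    {𝒲 : Set (Set I)} (h𝒲 : ∀ W ∈ 𝒲, W ⊆ S) {u : Ω → ℝ} (hu : AB μ u)
    (hm : StronglyMeasurable[K.H (S ∪ F)] u) :
    μ[u|K.J E 𝒲] =ᵐ[μ] μ[u|K.J (E ∪ U) 𝒲] := by
  have hinf : (E \ F).Infinite := hE.sdiff hF
  obtain ⟨σ, h1, h2⟩ := exists_shift (A := (E \ F) ∪ U) (B := E \ F) Set.subset_union_left hinf
  have hui : Integrable u μ := hu.integrable' (K.le _) hm
  rw [Set.disjoint_left] at hSE hU
  have hfixS : ∀ x ∈ S, σ x = x := by
    intro x hx
    apply h1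
    rintro (h | h)
    · exact hSE hx h.1
    · exact hU h (Or.inl hx)
  have hfixF : ∀ x ∈ F, σ x = x := by
    intro x hx
    apply h1
    rintro (h | h)
    · exact h.2 hx
    · exact hU h (Or.inr (hFE hx))
  have himE : σ '' (E ∪ U) = E := by
    have e1 : E ∪ U = F ∪ ((E \ F) ∪ U) := by
      rw [← Set.union_assoc, Set.union_sdiff_cancel hFE]
    rw [e1, Set.image_union, h2]
    have e2 : σ '' F = F := by
      ext y; constructor
      · rintro ⟨x, hx, rfl⟩; rw [hfixF x hx]; exact hx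
      · intro hy; exact ⟨y, hy, hfixF y hy⟩
    rw [e2, Set.union_sdiff_cancel hFE]
  have himW : ∀ W ∈ 𝒲, σ '' (W ∪ (E ∪ U)) = W ∪ E := by
    intro W hW
    rw [Set.image_union, himE]
    have e2 : σ '' W = W := by
      ext y; constructor
      · rintro ⟨x, hx, rfl⟩; rw [hfixS x (h𝒲 W hW hx)]; exact hx
      · intro hy; exact ⟨y, hy, hfixS y (h𝒲 W hW hy)⟩
    rw [e2]
  have hcomap : (K.J (E ∪ U) 𝒲).comap (Φ.τ σ) = K.J E 𝒲 := by
    rw [K.comap_J]
    unfold Fam.J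
    exact iSup_congr fun W => iSup_congr fun hW => by rw [himW W hW]
  have hcomp : (fun ω => u (Φ.τ σ ω)) = u := by
    funext ω
    apply K.comp_id (U := S ∪ F) _ hm
    rintro x (hx | hx)
    · exact hfixS x hx
    · exact hfixF x hx
  have hmain := condExp_comp (K.J (E ∪ U) 𝒲) (Φ.mp σ) (K.J_le _ _) hui
  rw [hcomap, hcomp] at hmain
  apply condExp_eq_of_norm _ (K.J_le _ _) hu
  · have h3 : ∫ ω, ((μ[u|K.J E 𝒲]) ω) ^ 2 ∂μ
        = ∫ ω, ((μ[u|K.J (E ∪ U) 𝒲]) (Φ.τ σ ω)) ^ 2 ∂μ := by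
      apply integral_congr_ae
      filter_upwards [hmain] with ω h
      rw [h]
    rw [h3]
    have h4 : AEStronglyMeasurable (fun ω => ((μ[u|K.J (E ∪ U) 𝒲]) ω) ^ 2) μ :=
      (integrable_condExp.1.pow 2)
    have h5 := integral_map (μ := μ) (Φ.mp σ).aemeasurable
      (f := fun ω => ((μ[u|K.J (E ∪ U) 𝒲]) ω) ^ 2) (by rw [(Φ.mp σ).map_eq]; exact h4)
    rw [(Φ.mp σ).map_eq] at h5
    exact h5.symm
  · exact K.J_le_of fun W hW => ⟨W, hW, Set.union_subset_union_right _ Set.subset_union_left⟩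

omit [IsProbabilityMeasure μ] in
/-- Passing to the limit in an identity of conditional expectations. -/
theorem condExp_eq_of_approx {m1 m2 : MeasurableSpace Ω} {u : Ω → ℝ} (hu : Integrable u μ)
    {v : ℕ → Ω → ℝ} (hv : ∀ n, Integrable (v n) μ)
    (hlim : Tendsto (fun n => eLpNorm (v n - u) 1 μ) atTop (𝓝 0))
    (heq : ∀ n, μ[v n|m1] =ᵐ[μ] μ[v n|m2]) : μ[u|m1] =ᵐ[μ] μ[u|m2] := by
  have hb : ∀ n, eLpNorm (μ[u|m1] - μ[u|m2]) 1 μ
      ≤ eLpNorm (v n - u) 1 μ + eLpNorm (v n - u) 1 μ := by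
    intro n
    have e1 : μ[u|m1] - μ[u|m2] =ᵐ[μ] - μ[v n - u|m1] + μ[v n - u|m2] := by
      filter_upwards [condExp_sub (m := m1) (hv n) hu, condExp_sub (m := m2) (hv n) hu, heq n]
        with ω h1 h2 h3
      simp only [Pi.sub_apply, Pi.add_apply, Pi.neg_apply] at h1 h2 ⊢
      rw [h1, h2, h3]; ring
    rw [eLpNorm_congr_ae e1]
    refine (eLpNorm_add_le integrable_condExp.1.neg integrable_condExp.1 le_rfl).trans ?_
    rw [eLpNorm_neg]
    exact add_le_add (eLpNorm_condExp_le_eLpNorm _ le_rfl) (eLpNorm_condExp_le_eLpNorm _ le_rfl)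
  have hz : eLpNorm (μ[u|m1] - μ[u|m2]) 1 μ ≤ 0 := by
    have h2 : Tendsto (fun n => eLpNorm (v n - u) 1 μ + eLpNorm (v n - u) 1 μ) atTop (𝓝 0) := by
      simpa using hlim.add hlim
    exact ge_of_tendsto' h2 hb
  have h3 : μ[u|m1] - μ[u|m2] =ᵐ[μ] 0 := by
    rw [← eLpNorm_eq_zero_iff (integrable_condExp.1.sub integrable_condExp.1) one_ne_zero]
    exact le_antisymm hz bot_le
  filter_upwards [h3] with ω h
  simp only [Pi.sub_apply, Pi.zero_apply] at h
  linarith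

/-- Invariance of the conditional expectation under enlarging the environment. -/
theorem Fam.inv (K : Fam Φ) [Countable I] {E S U : Set I} (hE : E.Infinite)
    (hSE : Disjoint S E) (hU : Disjoint U (S ∪ E))
    {𝒲 : Set (Set I)} (h𝒲 : ∀ W ∈ 𝒲, W ⊆ S) {u : Ω → ℝ} (hu : AB μ u)
    (hm : StronglyMeasurable[K.H (S ∪ E)] u) :
    μ[u|K.J E 𝒲] =ᵐ[μ] μ[u|K.J (E ∪ U) 𝒲] := by
  have hui : Integrable u μ := hu.integrable' (K.le _) hm
  obtain ⟨f, hf⟩ := (Set.to_countable E).exists_eq_range hE.nonempty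
  have hfE : ∀ n : ℕ, f '' {i | i < n} ⊆ E := by
    rintro n _ ⟨i, _, rfl⟩
    rw [hf]; exact ⟨i, rfl⟩
  let ℱ : Filtration ℕ m0 :=
    ⟨fun n => K.H (S ∪ f '' {i | i < n}), fun n m hnm => K.mono
      (Set.union_subset_union_right _ (Set.image_mono fun i hi => lt_of_lt_of_le hi hnm)),
      fun n => K.le _⟩
  have hsup : ⨆ n, (ℱ n) = K.H (S ∪ E) := by
    apply le_antisymm
    · exact iSup_le fun n => K.mono (Set.union_subset_union_right _ (hfE n))
    · refine (K.fin _).trans (iSup₂_le fun G hG => ?_)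
      have hn : ∃ n : ℕ, (G : Set I) ⊆ S ∪ f '' {i | i < n} := by
        have : ∀ G : Finset I, (G : Set I) ⊆ S ∪ E → ∃ n : ℕ, (G : Set I) ⊆ S ∪ f '' {i | i < n} := by
          classical
          intro G
          induction G using Finset.induction_on with
          | empty => intro _; exact ⟨0, by simp⟩
          | insert a G ha ih =>
            intro h
            rw [Finset.coe_insert, Set.insert_subset_iff] at h
            obtain ⟨n, hn⟩ := ih h.2
            rcases h.1 with haS | haE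
            · refine ⟨n, ?_⟩
              rw [Finset.coe_insert, Set.insert_subset_iff]
              exact ⟨Or.inl haS, hn⟩
            · rw [hf] at haE
              obtain ⟨i, rfl⟩ := haE
              refine ⟨max n (i + 1), ?_⟩
              rw [Finset.coe_insert, Set.insert_subset_iff]
              refine ⟨Or.inr ⟨i, lt_of_lt_of_le (Nat.lt_succ_self i) (le_max_right _ _), rfl⟩, ?_⟩
              refine hn.trans (Set.union_subset_union_right _ (Set.image_mono fun j hj => ?_))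
              have hj' : j < n := by simpa using hj
              exact lt_of_lt_of_le hj' (le_max_left _ _)
        exact this G hG
      obtain ⟨n, hn⟩ := hn
      exact (K.mono hn).trans (le_iSup (fun n => (ℱ n)) n)
  have hlim := tendsto_eLpNorm_condExp (μ := μ) (ℱ := ℱ) u
  rw [hsup, condExp_of_stronglyMeasurable (K.le _) hm hui] at hlim
  apply condExp_eq_of_approx hui (v := fun n => μ[u|ℱ n]) (fun n => integrable_condExp) hlim
  intro n
  exact K.inv_fin hE hSE hU ((Set.finite_lt_nat n).image f) (hfE n) h𝒲 (hu.condExp _)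
    stronglyMeasurable_condExp

end

end Coup
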