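import Pool.Agent.Work.MP_e8a478_co.LawD
import Pool.Agent.Work.MP_e8a478_co.HomA
import Pool.Agent.Work.MP_e8a478_co.Sys

/-!
# Link between the random structures and the abstract systems (MP_e8a478_co)
-/

set_option autoImplicit false

open Filter Topology Classical MeasureTheory ProbabilityTheory

namespace Pool.MP_e8a478_co

variable {L L₁ L₂ L₃ : Lang}

/-! ### Reducts -/

/-- a natural reduct operation from `L`-structures to `L'`-structures -/
structure Red (L L' : Lang) where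
  r : ∀ {V : Type}, Str L V → Str L' V
  pull : ∀ {V W : Type} (f : W → V) (S : Str L V), (r S).pull f = r (S.pull f)
  meas : ∀ (V : Type), Measurable (fun S : Str L V => r S)

/-- the identity reduct -/
def Red.id (L : Lang) : Red L L where
  r S := S
  pull _ _ := rfl
  meas _ := measurable_id

theorem measurable_fst (V : Type) : Measurable (fun S : Str (L₁.sum L₂) V => S.fst) := by
  apply measurable_pi_lambda
  intro i
  apply measurable_pi_lambda
  intro x
  exact (measurable_pi_apply x).comp (measurable_pi_apply (Sum.inl i : (L₁.sum L₂).ι))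

theorem measurable_snd (V : Type) : Measurable (fun S : Str (L₁.sum L₂) V => S.snd) := by
  apply measurable_pi_lambda
  intro i
  apply measurable_pi_lambda
  intro x
  exact (measurable_pi_apply x).comp (measurable_pi_apply (Sum.inr i : (L₁.sum L₂).ι))

/-- the reduct to the first language -/
def Red.fst (L₁ L₂ : Lang) : Red (L₁.sum L₂) L₁ where
  r S := S.fst
  pull _ _ := rfl
  meas V := measurable_fst V

/-- the reduct to the second language -/
def Red.snd (L₁ L₂ : Lang) : Red (L₁.sum L₂) L₂ where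
  r S := S.snd
  pull _ _ := rfl
  meas V := measurable_snd V

/-- composition of reducts -/
def Red.comp (R : Red L₂ L₃) (R' : Red L₁ L₂) : Red L₁ L₃ where
  r S := R.r (R'.r S)
  pull f S := by rw [R.pull, R'.pull]
  meas V := (R.meas V).comp (R'.meas V)

/-! ### The flow and the families of σ-algebras -/

section

variable {I : Type}

/-- the action of the injections -/
def flow (ξ : Fam L) (hξ : Consistent ξ) (μ : Measure (Str L I)) [IsProbabilityMeasure μ]
    (hμ : IsLaw ξ μ) : Coup.Flow (Str L I) I μ where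
  τ σ S := S.pull σ
  mp σ := invariance hξ μ hμ σ σ.injective
  comp _ _ _ := rfl
  one _ := rfl

/-- the σ-algebra of the reduct induced on `U` -/
@[reducible] def HR (R : Red L₁ L₂) (U : Set I) : MeasurableSpace (Str L₁ I) :=
  (HS L₂ U).comap R.r

theorem HR_eq (R : Red L₁ L₂) (U : Set I) : HR R U =
    MeasurableSpace.comap (fun S : Str L₁ I => (R.r S).pull (Subtype.val : U → I))
      inferInstance := by
  rw [HR, HS, MeasurableSpace.comap_comp]
  rfl

theorem HR_comp (R : Red L₂ L₃) (R' : Red L₁ L₂) (U : Set I) :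
    HR (R.comp R') U = (HR R U).comap R'.r := by
  show (HS L₃ U).comap (fun S => R.r (R'.r S)) = ((HS L₃ U).comap R.r).comap R'.r
  rw [MeasurableSpace.comap_comp (f := R.r) (g := R'.r)]
  rfl

theorem HR_id (U : Set I) : HR (Red.id L) U = HS L U := by
  rw [HR]
  exact MeasurableSpace.comap_id

theorem HR_le (R : Red L₁ L₂) (U : Set I) : HR R U ≤ (inferInstance : MeasurableSpace (Str L₁ I)) :=
  (MeasurableSpace.comap_mono (D.HS_le U)).trans (R.meas I).comap_le

theorem HR_mono (R : Red L₁ L₂) {U V : Set I} (h : U ⊆ V) : HR R U ≤ HR R V :=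
  MeasurableSpace.comap_mono (D.HS_mono h)

/-- membership in `HR` -/
theorem measurableSet_HR {R : Red L₁ L₂} {U : Set I} {s : Set (Str L₁ I)} :
    MeasurableSet[HR R U] s ↔ ∃ B : Set (Str L₂ U), MeasurableSet B ∧
      (fun S : Str L₁ I => (R.r S).pull (Subtype.val : U → I)) ⁻¹' B = s := by
  rw [HR_eq]
  exact Iff.rfl

theorem HS_comap_pull (σ : I ↪ I) (U : Set I) :
    (HS L U).comap (fun S : Str L I => S.pull σ) = HS L (σ '' U) := by
  rw [HS, MeasurableSpace.comap_comp, HS]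
  apply le_antisymm
  · let g : U → (σ '' U : Set I) := fun x => ⟨σ x.1, ⟨x.1, x.2, rfl⟩⟩
    have e : ((fun S : Str L I => S.pull (Subtype.val : U → I)) ∘ fun S : Str L I => S.pull σ) =
        (fun S : Str L (σ '' U : Set I) => S.pull g) ∘
          (fun S : Str L I => S.pull (Subtype.val : (σ '' U : Set I) → I)) := rfl
    rw [e, ← MeasurableSpace.comap_comp]
    exact MeasurableSpace.comap_mono (D.measurable_pull g).comap_le
  · let g : (σ '' U : Set I) → U := fun y => ⟨y.2.choose, y.2.choose_spec.1⟩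
    have e : (fun S : Str L I => S.pull (Subtype.val : (σ '' U : Set I) → I)) =
        (fun S : Str L U => S.pull g) ∘
          ((fun S : Str L I => S.pull (Subtype.val : U → I)) ∘ fun S : Str L I => S.pull σ) := by
      funext S
      show S.pull (Subtype.val : (σ '' U : Set I) → I) =
        ((S.pull σ).pull (Subtype.val : U → I)).pull g
      rw [D.pull_pull, D.pull_pull]
      congr 1
      funext y
      exact (y.2.choose_spec.2).symm
    rw [e, ← MeasurableSpace.comap_comp]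
    exact MeasurableSpace.comap_mono (D.measurable_pull g).comap_le

/-- the family of σ-algebras of a reduct -/
def fam (R : Red L L₁) {ξ : Fam L} {hξ : Consistent ξ} {μ : Measure (Str L I)}
    [IsProbabilityMeasure μ] {hμ : IsLaw ξ μ} : Coup.Fam (flow ξ hξ μ hμ) where
  H U := HR R U
  le U := HR_le R U
  mono h := HR_mono R h
  comap σ U := by
    show (HR R U).comap (fun S : Str L I => S.pull σ) = HR R (σ '' U)
    have e : (R.r ∘ fun S : Str L I => S.pull σ) = ((fun S : Str L₁ I => S.pull σ) ∘ R.r) := by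
      funext S
      exact (R.pull σ S).symm
    calc ((HS L₁ U).comap R.r).comap (fun S : Str L I => S.pull σ)
        = (HS L₁ U).comap (R.r ∘ fun S : Str L I => S.pull σ) := MeasurableSpace.comap_comp
      _ = (HS L₁ U).comap ((fun S : Str L₁ I => S.pull σ) ∘ R.r) := by rw [e]
      _ = ((HS L₁ U).comap (fun S : Str L₁ I => S.pull σ)).comap R.r :=
        MeasurableSpace.comap_comp.symm
      _ = _ := by rw [HS_comap_pull]
  agree σ σ' U h s hs := by
    obtain ⟨B, -, rfl⟩ := measurableSet_HR.1 hs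
    ext S
    show (R.r (S.pull σ)).pull (Subtype.val : U → I) ∈ B ↔
      (R.r (S.pull σ')).pull (Subtype.val : U → I) ∈ B
    have e : (R.r (S.pull σ)).pull (Subtype.val : U → I) =
        (R.r (S.pull σ')).pull (Subtype.val : U → I) := by
      rw [← R.pull, ← R.pull, D.pull_pull, D.pull_pull]
      congr 1
      funext x
      exact h x.1 x.2
    rw [e]
  fin U := by
    rw [HR, D.HS_eq_iSup, MeasurableSpace.comap_iSup]
    refine iSup_le fun F => ?_
    exact le_iSup₂ (f := fun (F : Finset I) (_ : (F : Set I) ⊆ U) => HR R (F : Set I)) F.1 F.2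

theorem fam_H (R : Red L L₁) {ξ : Fam L} {hξ : Consistent ξ} {μ : Measure (Str L I)}
    [IsProbabilityMeasure μ] {hμ : IsLaw ξ μ} (U : Set I) :
    (fam (hξ := hξ) (hμ := hμ) R).H U = HR R U := rfl

/-! ### Marginals -/

theorem marg₁_apply (ξ : Fam (L₁.sum L₂)) (m : ℕ) (M : Str L₁ (Fin m)) :
    marg₁ ξ m M = ∑ S : Str (L₁.sum L₂) (Fin m), if S.fst = M then ξ m S else 0 := rfl

theorem marg₂_apply (ξ : Fam (L₁.sum L₂)) (m : ℕ) (M : Str L₂ (Fin m)) :
    marg₂ ξ m M = ∑ S : Str (L₁.sum L₂) (Fin m), if S.snd = M then ξ m S else 0 := rfl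

/-- the pushforward of a family under a reduct -/
noncomputable def push (R : Red L L₁) (ξ : Fam L) : Fam L₁ :=
  fun m M => ∑ S : Str L (Fin m), if R.r S = M then ξ m S else 0

theorem push_fst (ξ : Fam (L₁.sum L₂)) : push (Red.fst L₁ L₂) ξ = marg₁ ξ := rfl

theorem push_snd (ξ : Fam (L₁.sum L₂)) : push (Red.snd L₁ L₂) ξ = marg₂ ξ := rfl

theorem sum_push (R : Red L L₁) (ξ : Fam L) (m : ℕ) (P : Str L₁ (Fin m) → Prop)
    [DecidablePred P] :
    ∑ M : Str L₁ (Fin m), (if P M then push R ξ m M else 0) =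
      ∑ S : Str L (Fin m), if P (R.r S) then ξ m S else 0 := by
  have h : ∀ M : Str L₁ (Fin m), (if P M then push R ξ m M else 0) =
      ∑ S : Str L (Fin m), if R.r S = M then (if P M then ξ m S else 0) else 0 := by
    intro M
    by_cases hP : P M <;> simp [hP, push]
  rw [Finset.sum_congr rfl (fun M _ => h M), Finset.sum_comm]
  apply Finset.sum_congr rfl
  intro S _
  rw [Finset.sum_ite_eq]
  simp

theorem push_nonneg (R : Red L L₁) {ξ : Fam L} (h : ∀ m M, 0 ≤ ξ m M) (m : ℕ)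
    (M : Str L₁ (Fin m)) : 0 ≤ push R ξ m M :=
  Finset.sum_nonneg fun S _ => by split_ifs; exacts [h _ _, le_rfl]

theorem Consistent.push (R : Red L L₁) {ξ : Fam L} (hξ : Consistent ξ) :
    Consistent (push R ξ) where
  nonneg := push_nonneg R hξ.nonneg
  total := by
    have := sum_push R ξ 0 (fun _ => True)
    simp only [if_true] at this
    rw [this, hξ.total]
  cons := by
    intro m n f M
    rw [sum_push R ξ n (fun N => N.pull f = M)]
    simp only [R.pull]
    have h : ∀ M' : Str L (Fin m), ∑ N : Str L (Fin n), (if N.pull f = M' then ξ n N else 0) =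
      ξ m M' := fun M' => hξ.cons f M'
    have h2 : MP_e8a478_co.push R ξ m M = ∑ M' : Str L (Fin m), ∑ N : Str L (Fin n),
        if N.pull f = M' then (if R.r M' = M then ξ n N else 0) else 0 := by
      unfold MP_e8a478_co.push
      apply Finset.sum_congr rfl
      intro M' _
      rw [← h M']
      by_cases hR : R.r M' = M <;> simp [hR]
    rw [h2, Finset.sum_comm]
    apply Finset.sum_congr rfl
    intro N _
    rw [Finset.sum_ite_eq]
    simp

theorem Dissociated.push (R : Red L L₁) {ξ : Fam L} (hξ : Dissociated ξ) :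
    Dissociated (push R ξ) := by
  intro m n M M'
  rw [sum_push R ξ (m + n) (fun N => N.pull (Fin.castAdd n) = M ∧ N.pull (Fin.natAdd m) = M')]
  simp only [R.pull]
  unfold MP_e8a478_co.push
  rw [Finset.sum_mul_sum]
  have h : ∀ (A : Str L (Fin m)) (B : Str L (Fin n)),
      (if R.r A = M then ξ m A else 0) * (if R.r B = M' then ξ n B else 0) =
      ∑ N : Str L (Fin (m + n)), if N.pull (Fin.natAdd m) = B then
        (if N.pull (Fin.castAdd n) = A then
          (if R.r A = M ∧ R.r B = M' then ξ (m + n) N else 0) else 0) else 0 := by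
    intro A B
    by_cases hA : R.r A = M
    · by_cases hB : R.r B = M'
      · simp only [hA, hB, and_self, if_true]
        rw [← hξ m n A B]
        apply Finset.sum_congr rfl
        intro N _
        rw [← ite_and]
        exact if_congr and_comm rfl rfl
      · simp [hB]
    · simp [hA]
  simp only [h]
  have h2 : ∀ A : Str L (Fin m), ∑ B : Str L (Fin n), ∑ N : Str L (Fin (m + n)),
      (if N.pull (Fin.natAdd m) = B then (if N.pull (Fin.castAdd n) = A then
          (if R.r A = M ∧ R.r B = M' then ξ (m + n) N else 0) else 0) else 0) =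
      ∑ N : Str L (Fin (m + n)), if N.pull (Fin.castAdd n) = A then
          (if R.r A = M ∧ R.r (N.pull (Fin.natAdd m)) = M' then ξ (m + n) N else 0) else 0 := by
    intro A
    rw [Finset.sum_comm]
    apply Finset.sum_congr rfl
    intro N _
    rw [Finset.sum_ite_eq]
    simp
  simp only [h2]
  rw [Finset.sum_comm]
  apply Finset.sum_congr rfl
  intro N _
  rw [Finset.sum_ite_eq]
  simp

/-- the law of the reduct -/
theorem IsLaw.push (R : Red L L₁) {ξ : Fam L} (hξ : Consistent ξ) {μ : Measure (Str L I)}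
    (hμ : IsLaw ξ μ) : IsLaw (push R ξ) (μ.map (fun S : Str L I => R.r S)) := by
  intro m f M
  rw [Measure.map_apply (R.meas I) (D.measurableSet_cyl _ _)]
  have e : (fun S : Str L I => R.r S) ⁻¹' {S : Str L₁ I | S.pull f = M} =
      {S : Str L I | S.pull f ∈ {N : Str L (Fin m) | R.r N = M}} := by
    ext S
    show (R.r S).pull f = M ↔ R.r (S.pull f) = M
    rw [R.pull]
  rw [e, D.measure_cyl hξ.nonneg hμ]
  rfl

theorem Indep.comap_map {Ω Ω' : Type} [MeasurableSpace Ω] [mΩ' : MeasurableSpace Ω']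
    {μ : Measure Ω} {f : Ω → Ω'} {m₁ m₂ : MeasurableSpace Ω'}
    (hf : @Measurable _ _ _ mΩ' f)
    (h₁ : m₁ ≤ mΩ') (h₂ : m₂ ≤ mΩ') (h : @Indep Ω' m₁ m₂ mΩ' (@Measure.map _ _ _ mΩ' f μ)) :
    Indep (m₁.comap f) (m₂.comap f) μ := by
  rw [Indep_iff] at h ⊢
  rintro _ _ ⟨s, hs, rfl⟩ ⟨t, ht, rfl⟩
  have := h s t hs ht
  have hs' : MeasurableSet[mΩ'] s := h₁ s hs
  have ht' : MeasurableSet[mΩ'] t := h₂ t ht
  rw [Measure.map_apply hf (hs'.inter ht'), Measure.map_apply hf hs',
    Measure.map_apply hf ht', Set.preimage_inter] at this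
  exact this

/-- the pair structure -/
def join {V : Type} (A : Str L₁ V) (B : Str L₂ V) : Str (L₁.sum L₂) V :=
  fun i => Sum.rec (fun i x => A i x) (fun i x => B i x) i

theorem join_fst {V : Type} (A : Str L₁ V) (B : Str L₂ V) : (join A B).fst = A := rfl

theorem join_snd {V : Type} (A : Str L₁ V) (B : Str L₂ V) : (join A B).snd = B := rfl

theorem join_eta {V : Type} (S : Str (L₁.sum L₂) V) : join S.fst S.snd = S := by
  funext i
  cases i <;> rfl

/-- structures in the union language are pairs -/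
def pairEquiv (L₁ L₂ : Lang) (V : Type) : Str (L₁.sum L₂) V ≃ Str L₁ V × Str L₂ V where
  toFun S := (S.fst, S.snd)
  invFun p := join p.1 p.2
  left_inv S := join_eta S
  right_inv _ := rfl

theorem sum_pair (m : ℕ) (F : Str L₁ (Fin m) → Str L₂ (Fin m) → ℝ) :
    ∑ S : Str (L₁.sum L₂) (Fin m), F S.fst S.snd = ∑ A, ∑ B, F A B := by
  rw [← Fintype.sum_prod_type' (f := F)]
  exact Fintype.sum_equiv (pairEquiv L₁ L₂ (Fin m)) _ _ (fun S => rfl)

theorem Consistent.indep {φ₁ : Fam L₁} {φ₂ : Fam L₂} (h₁ : Consistent φ₁) (h₂ : Consistent φ₂) :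
    Consistent (indep φ₁ φ₂) where
  nonneg m M := mul_nonneg (h₁.nonneg _ _) (h₂.nonneg _ _)
  total := by
    unfold MP_e8a478_co.indep
    rw [sum_pair 0 (fun A B => φ₁ 0 A * φ₂ 0 B), ← Finset.sum_mul_sum, h₁.total, h₂.total, one_mul]
  cons := by
    intro m n f M
    unfold MP_e8a478_co.indep
    have e : ∀ N : Str (L₁.sum L₂) (Fin n), (if N.pull f = M then φ₁ n N.fst * φ₂ n N.snd else 0)
        = (if N.fst.pull f = M.fst then φ₁ n N.fst else 0) *
          (if N.snd.pull f = M.snd then φ₂ n N.snd else 0) := by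
      intro N
      have h : N.pull f = M ↔ N.fst.pull f = M.fst ∧ N.snd.pull f = M.snd := by
        constructor
        · rintro rfl; exact ⟨rfl, rfl⟩
        · rintro ⟨h1, h2⟩
          rw [← join_eta M, ← h1, ← h2]
          exact (join_eta (N.pull f)).symm
      by_cases h1 : N.fst.pull f = M.fst <;> by_cases h2 : N.snd.pull f = M.snd <;>
        simp [h, h1, h2]
    rw [Finset.sum_congr rfl (fun N _ => e N),
      sum_pair n (fun A B => (if A.pull f = M.fst then φ₁ n A else 0) *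
        (if B.pull f = M.snd then φ₂ n B else 0)), ← Finset.sum_mul_sum, h₁.cons f, h₂.cons f]

theorem Dissociated.indep {φ₁ : Fam L₁} {φ₂ : Fam L₂} (h₁ : Dissociated φ₁)
    (h₂ : Dissociated φ₂) : Dissociated (indep φ₁ φ₂) := by
  intro m n M M'
  unfold MP_e8a478_co.indep
  have e : ∀ N : Str (L₁.sum L₂) (Fin (m + n)),
      (if N.pull (Fin.castAdd n) = M ∧ N.pull (Fin.natAdd m) = M' then
        φ₁ (m + n) N.fst * φ₂ (m + n) N.snd else 0)
        = (if N.fst.pull (Fin.castAdd n) = M.fst ∧ N.fst.pull (Fin.natAdd m) = M'.fst then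
            φ₁ (m + n) N.fst else 0) *
          (if N.snd.pull (Fin.castAdd n) = M.snd ∧ N.snd.pull (Fin.natAdd m) = M'.snd then
            φ₂ (m + n) N.snd else 0) := by
    intro N
    have h : ∀ {k l : ℕ} (f : Fin k → Fin l) (N : Str (L₁.sum L₂) (Fin l))
        (M : Str (L₁.sum L₂) (Fin k)),
        N.pull f = M ↔ N.fst.pull f = M.fst ∧ N.snd.pull f = M.snd := by
      intro k l f N M
      constructor
      · rintro rfl; exact ⟨rfl, rfl⟩
      · rintro ⟨h1, h2⟩
        rw [← join_eta M, ← h1, ← h2]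
        exact (join_eta (N.pull f)).symm
    have hh : (N.pull (Fin.castAdd n) = M ∧ N.pull (Fin.natAdd m) = M') ↔
        ((N.fst.pull (Fin.castAdd n) = M.fst ∧ N.fst.pull (Fin.natAdd m) = M'.fst) ∧
        (N.snd.pull (Fin.castAdd n) = M.snd ∧ N.snd.pull (Fin.natAdd m) = M'.snd)) := by
      rw [h, h]; tauto
    by_cases a : (N.fst.pull (Fin.castAdd n) = M.fst ∧ N.fst.pull (Fin.natAdd m) = M'.fst)
    · by_cases b : (N.snd.pull (Fin.castAdd n) = M.snd ∧ N.snd.pull (Fin.natAdd m) = M'.snd)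
      · rw [if_pos (hh.2 ⟨a, b⟩), if_pos a, if_pos b]
      · rw [if_neg (fun hc => b (hh.1 hc).2), if_neg b, mul_zero]
    · rw [if_neg (fun hc => a (hh.1 hc).1), if_neg a, zero_mul]
  rw [Finset.sum_congr rfl (fun N _ => e N),
    sum_pair (m + n) (fun A B => (if A.pull (Fin.castAdd n) = M.fst ∧
        A.pull (Fin.natAdd m) = M'.fst then φ₁ (m + n) A else 0) *
      (if B.pull (Fin.castAdd n) = M.snd ∧ B.pull (Fin.natAdd m) = M'.snd then
        φ₂ (m + n) B else 0)), ← Finset.sum_mul_sum, h₁ m n, h₂ m n]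
  ring

theorem Supported.indep {T₁ : Theory L₁} {T₂ : Theory L₂} {φ₁ : Fam L₁} {φ₂ : Fam L₂}
    (h₁ : Supported T₁ φ₁) (h₂ : Supported T₂ φ₂) :
    Supported (T₁.union T₂) (indep φ₁ φ₂) := by
  intro n N hN
  unfold MP_e8a478_co.indep at hN
  exact ⟨h₁ n _ (left_ne_zero_of_mul hN), h₂ n _ (right_ne_zero_of_mul hN)⟩

theorem marg₁_indep {φ₁ : Fam L₁} {φ₂ : Fam L₂} (h₂ : Consistent φ₂) :
    marg₁ (indep φ₁ φ₂) = φ₁ := by
  funext m M
  rw [marg₁_apply]
  unfold indep
  rw [sum_pair m (fun A B => if A = M then φ₁ m A * φ₂ m B else 0)]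
  have : ∀ A : Str L₁ (Fin m), ∑ B : Str L₂ (Fin m), (if A = M then φ₁ m A * φ₂ m B else 0) =
      if A = M then φ₁ m A else 0 := by
    intro A
    by_cases h : A = M
    · simp only [h, if_true]
      rw [← Finset.mul_sum, D.total_eq_one h₂, mul_one]
    · simp [h]
  rw [Finset.sum_congr rfl (fun A _ => this A)]
  simp

theorem marg₂_indep {φ₁ : Fam L₁} {φ₂ : Fam L₂} (h₁ : Consistent φ₁) :
    marg₂ (indep φ₁ φ₂) = φ₂ := by
  funext m M
  rw [marg₂_apply]
  unfold indep
  rw [sum_pair m (fun A B => if B = M then φ₁ m A * φ₂ m B else 0), Finset.sum_comm]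
  have : ∀ B : Str L₂ (Fin m), ∑ A : Str L₁ (Fin m), (if B = M then φ₁ m A * φ₂ m B else 0) =
      if B = M then φ₂ m B else 0 := by
    intro B
    by_cases h : B = M
    · simp only [h, if_true]
      rw [← Finset.sum_mul, D.total_eq_one h₁, one_mul]
    · simp [h]
  rw [Finset.sum_congr rfl (fun A _ => this A)]
  simp

/-- if the law of the pair is a product, the two reducts are independent -/
theorem indep_of_isLaw_indep {φ₁ : Fam L₁} {φ₂ : Fam L₂} (h₁ : Consistent φ₁)
    (h₂ : Consistent φ₂) {μ : Measure (Str (L₁.sum L₂) I)} [IsProbabilityMeasure μ]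
    (hμ : IsLaw (indep φ₁ φ₂) μ) (U V : Set I) :
    Indep (HR (Red.fst L₁ L₂) U) (HR (Red.snd L₁ L₂) V) μ := by
  -- reduce to `U = V = univ`
  suffices H : Indep (HR (Red.fst L₁ L₂) (Set.univ : Set I))
      (HR (Red.snd L₁ L₂) (Set.univ : Set I)) μ from
    indep_of_indep_of_le_left (indep_of_indep_of_le_right H (HR_mono _ (Set.subset_univ _)))
      (HR_mono _ (Set.subset_univ _))
  have hc := Consistent.indep h₁ h₂
  -- π-systems
  let C₁ : Set (Set (Str (L₁.sum L₂) I)) :=
    (fun s => (Red.fst L₁ L₂).r ⁻¹' s) '' (D.cylSets L₁ (Set.univ : Set I))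
  let C₂ : Set (Set (Str (L₁.sum L₂) I)) :=
    (fun s => (Red.snd L₁ L₂).r ⁻¹' s) '' (D.cylSets L₂ (Set.univ : Set I))
  have g₁ : HR (Red.fst L₁ L₂) (Set.univ : Set I) = MeasurableSpace.generateFrom C₁ := by
    rw [HR, ← D.generateFrom_cylSets, MeasurableSpace.comap_generateFrom]
  have g₂ : HR (Red.snd L₁ L₂) (Set.univ : Set I) = MeasurableSpace.generateFrom C₂ := by
    rw [HR, ← D.generateFrom_cylSets, MeasurableSpace.comap_generateFrom]
  have p₁ : IsPiSystem C₁ := (D.isPiSystem_cylSets Set.univ).comap _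
  have p₂ : IsPiSystem C₂ := (D.isPiSystem_cylSets Set.univ).comap _
  refine IndepSets.indep (HR_le _ _) (HR_le _ _) p₁ p₂ g₁ g₂ ?_
  rw [IndepSets_iff]
  rintro _ _ ⟨s, hs, rfl⟩ ⟨t, ht, rfl⟩
  simp only [D.cylSets, Set.mem_iUnion] at hs ht
  obtain ⟨F, hF⟩ := hs
  obtain ⟨G, hG⟩ := ht
  -- both depend on `F ∪ G`
  have hF' : MeasurableSet[HS L₁ ((F.1 ∪ G.1 : Finset I) : Set I)] s := D.HS_mono (by simp) _ hF
  have hG' : MeasurableSet[HS L₂ ((F.1 ∪ G.1 : Finset I) : Set I)] t := D.HS_mono (by simp) _ hG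
  obtain ⟨B, rfl⟩ := D.exists_cyl hF'
  obtain ⟨C, rfl⟩ := D.exists_cyl hG'
  set f := D.enum (F.1 ∪ G.1)
  have e1 : (Red.fst L₁ L₂).r ⁻¹' {S : Str L₁ I | S.pull f ∈ B} =
      {S : Str (L₁.sum L₂) I | S.pull f ∈ {N | N.fst ∈ B}} := rfl
  have e2 : (Red.snd L₁ L₂).r ⁻¹' {S : Str L₂ I | S.pull f ∈ C} =
      {S : Str (L₁.sum L₂) I | S.pull f ∈ {N | N.snd ∈ C}} := rfl
  have e3 : {S : Str (L₁.sum L₂) I | S.pull f ∈ {N | N.fst ∈ B}} ∩
      {S : Str (L₁.sum L₂) I | S.pull f ∈ {N | N.snd ∈ C}} =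
      {S : Str (L₁.sum L₂) I | S.pull f ∈ {N | N.fst ∈ B ∧ N.snd ∈ C}} := rfl
  simp only [e1, e2, e3]
  rw [D.measure_cyl hc.nonneg hμ, D.measure_cyl hc.nonneg hμ, D.measure_cyl hc.nonneg hμ,
    ← ENNReal.ofReal_mul (Finset.sum_nonneg fun M _ => by
      split_ifs; exacts [hc.nonneg _ _, le_rfl])]
  congr 1
  simp only [Set.mem_ofPred_eq, MP_e8a478_co.indep]
  have t1 := sum_pair (F.1 ∪ G.1).card
    (fun (A : Str L₁ _) (A' : Str L₂ _) => if A ∈ B ∧ A' ∈ C then φ₁ _ A * φ₂ _ A' else 0)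
  have t1' : (∑ M : Str (L₁.sum L₂) (Fin (F.1 ∪ G.1).card),
      if M.fst ∈ B ∧ M.snd ∈ C then φ₁ _ M.fst * φ₂ _ M.snd else 0) =
      ∑ A : Str L₁ (Fin (F.1 ∪ G.1).card), ∑ A' : Str L₂ (Fin (F.1 ∪ G.1).card),
        if A ∈ B ∧ A' ∈ C then φ₁ _ A * φ₂ _ A' else 0 := by convert t1
  rw [sum_pair _ (fun A A' => if A ∈ B then φ₁ _ A * φ₂ _ A' else 0),
    sum_pair _ (fun A A' => if A' ∈ C then φ₁ _ A * φ₂ _ A' else 0)]
  trans (∑ A : Str L₁ (Fin (F.1 ∪ G.1).card), ∑ A' : Str L₂ (Fin (F.1 ∪ G.1).card),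
        if A ∈ B ∧ A' ∈ C then φ₁ _ A * φ₂ _ A' else 0)
  · convert t1'
  have s1 : ∀ A : Str L₁ (Fin (F.1 ∪ G.1).card), ∑ A' : Str L₂ (Fin (F.1 ∪ G.1).card),
      (if A ∈ B then φ₁ _ A * φ₂ _ A' else 0) = if A ∈ B then φ₁ _ A else 0 := by
    intro A
    by_cases h : A ∈ B
    · simp only [h, if_true]
      rw [← Finset.mul_sum, D.total_eq_one h₂, mul_one]
    · simp [h]
  have s2 : ∀ A' : Str L₂ (Fin (F.1 ∪ G.1).card), ∑ A : Str L₁ (Fin (F.1 ∪ G.1).card),
      (if A' ∈ C then φ₁ _ A * φ₂ _ A' else 0) = if A' ∈ C then φ₂ _ A' else 0 := by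
    intro A
    by_cases h : A ∈ C
    · simp only [h, if_true]
      rw [← Finset.sum_mul, D.total_eq_one h₁, one_mul]
    · simp [h]
  rw [Finset.sum_congr rfl (fun A _ => s1 A)]
  rw [Finset.sum_comm (f := fun A A' => if A' ∈ C then φ₁ _ A * φ₂ _ A' else 0),
    Finset.sum_congr rfl (fun A _ => s2 A), Finset.sum_mul_sum]
  apply Finset.sum_congr rfl
  intro A _
  apply Finset.sum_congr rfl
  intro A' _
  by_cases h1 : A ∈ B <;> by_cases h2 : A' ∈ C <;> simp [h1, h2]

/-- conversely: independence of the reducts gives the product law -/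
theorem eq_indep_of_indep {φ₁ : Fam L₁} {φ₂ : Fam L₂} {ξ : Fam (L₁.sum L₂)} [Infinite I]
    (hξ : Consistent ξ) (m₁ : marg₁ ξ = φ₁) (m₂ : marg₂ ξ = φ₂)
    {μ : Measure (Str (L₁.sum L₂) I)} [IsProbabilityMeasure μ] (hμ : IsLaw ξ μ)
    (h : ∀ F : Finset I, Indep (HR (Red.fst L₁ L₂) (F : Set I)) (HR (Red.snd L₁ L₂) (F : Set I)) μ) :
    ξ = indep φ₁ φ₂ := by
  funext m M
  obtain ⟨f⟩ : Nonempty (Fin m ↪ I) :=
    ⟨(⟨Fin.val, Fin.val_injective⟩ : Fin m ↪ ℕ).trans (Infinite.natEmbedding I)⟩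
  have n₁ := push_nonneg (Red.fst L₁ L₂) hξ.nonneg
  have n₂ := push_nonneg (Red.snd L₁ L₂) hξ.nonneg
  rw [push_fst, m₁] at n₁
  rw [push_snd, m₂] at n₂
  set F : Finset I := Finset.univ.image f with hF
  have hfF : ∀ k, f k ∈ (F : Set I) := fun k => by simp [hF]
  have meas : ∀ {L' : Lang} (M : Str L' (Fin m)), MeasurableSet[HS L' (F : Set I)]
      {S : Str L' I | S.pull f = M} := by
    intro L' M
    refine ⟨{N | N.pull (fun k => (⟨f k, hfF k⟩ : (F : Set I))) = M}, ?_, rfl⟩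
    exact (D.measurable_pull _) (measurableSet_singleton M)
  have e : {S : Str (L₁.sum L₂) I | S.pull f = M} =
      ((Red.fst L₁ L₂).r ⁻¹' {S : Str L₁ I | S.pull f = M.fst}) ∩
      ((Red.snd L₁ L₂).r ⁻¹' {S : Str L₂ I | S.pull f = M.snd}) := by
    ext S
    show S.pull f = M ↔ S.fst.pull f = M.fst ∧ S.snd.pull f = M.snd
    constructor
    · rintro rfl; exact ⟨rfl, rfl⟩
    · rintro ⟨h1, h2⟩
      rw [← join_eta M, ← h1, ← h2]
      exact (join_eta (S.pull f)).symm
  have h1 := hμ m f M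
  have l₁ := (IsLaw.push (Red.fst L₁ L₂) hξ hμ) m f M.fst
  have l₂ := (IsLaw.push (Red.snd L₁ L₂) hξ hμ) m f M.snd
  rw [Measure.map_apply ((Red.fst L₁ L₂).meas I) (D.measurableSet_cyl _ _), push_fst, m₁] at l₁
  rw [Measure.map_apply ((Red.snd L₁ L₂).meas I) (D.measurableSet_cyl _ _), push_snd, m₂] at l₂
  rw [e, (Indep_iff _ _ _).1 (h F) _ _ ⟨_, meas M.fst, rfl⟩ ⟨_, meas M.snd, rfl⟩] at h1
  have h2 : ENNReal.ofReal (φ₁ m M.fst) * ENNReal.ofReal (φ₂ m M.snd) =
      ENNReal.ofReal (ξ m M) := by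
    rw [← l₁, ← l₂]; exact h1
  rw [← ENNReal.ofReal_mul (n₁ _ _)] at h2
  have h3 := (ENNReal.ofReal_eq_ofReal_iff (mul_nonneg (n₁ _ _) (n₂ _ _)) (hξ.nonneg _ _)).1 h2
  exact h3.symm

end

end Pool.MP_e8a478_co
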