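import Pool.Agent.Work.MP_e8a478_co.Core

/-!
# The abstract main theorem
-/

open MeasureTheory Filter Topology ProbabilityTheory

namespace Coup

variable {Ω I : Type*} {m0 : MeasurableSpace Ω} {μ : Measure Ω} [IsProbabilityMeasure μ]
variable {Φ : Flow Ω I μ} {E : Set I}

/-- All perturbed joint laws of the pair of families `K`, `K'` are products. -/
def Rigid (K K' : Fam Φ) (E : Set I) : Prop :=
  ∀ (k : ℕ) (x : Fin k → I) (T T' : Ω → ℝ), 0 < k → Cent K E x T → Cent K' E x T' →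
    ∀ (t : ℝ), 0 ≤ t → t ≤ 1 → ∀ (n : ℕ) (ι : Fin n → I), Good E ι →
      ∀ F G : Ω → ℝ, AB μ F → StronglyMeasurable[K.H (Set.range ι)] F → AB μ G →
      StronglyMeasurable[K'.H (Set.range ι)] G →
      Q Φ E x T T' t ι F G = (∫ ω, F ω ∂μ) * ∫ ω, G ω ∂μ

/-- There is no common level of a rigid pair. -/
theorem no_common {K K' : Fam Φ} [Countable I] (hE : E.Infinite) (hE' : Eᶜ.Infinite)
    (hR : Rigid K K' E) {S : Finset I} (hSE : Disjoint (S : Set I) E) {f h : Ω → ℝ}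
    (hf : AB μ f) (hh : AB μ h) (hfm : StronglyMeasurable[K.H S] f)
    (hhm : StronglyMeasurable[K'.H S] h) {A : Finset I} {𝒲 : Set (Set I)} (hAS : A ⊆ S)
    (hA : A.Nonempty) (h𝒲 : ∀ W ∈ 𝒲, W ⊆ S ∧ ¬ (A : Set I) ⊆ W)
    (hlow : ∀ B, B ⊂ (A : Set I) → B ∈ 𝒲)
    (hne : ¬ μ[f|K.J E (insert (A : Set I) 𝒲)] =ᵐ[μ] μ[f|K.J E 𝒲])
    (hne' : ¬ μ[h|K'.J E (insert (A : Set I) 𝒲)] =ᵐ[μ] μ[h|K'.J E 𝒲]) : False := by
  classical
  have hAS' : (A : Set I) ⊆ S := Finset.coe_subset.2 hAS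
  have hSSE : (S : Set I) ⊆ S ∪ E := Set.subset_union_left
  obtain ⟨T, hT1, hT2, hT3, hT4⟩ := K.extract hE hSE hAS' h𝒲 hlow hf (hfm.mono (K.mono hSSE)) hne
  obtain ⟨T', hT1', hT2', hT3', hT4'⟩ :=
    K'.extract hE hSE hAS' h𝒲 hlow hh (hhm.mono (K'.mono hSSE)) hne'
  -- enumeration of `A`
  let x : Fin A.card → I := fun i => (A.equivFin.symm i : I)
  have hxinj : Function.Injective x := fun i j hij => A.equivFin.symm.injective (Subtype.ext hij)
  have hxA : ∀ i, x i ∈ A := fun i => (A.equivFin.symm i).2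
  have hrange : Set.range x = A := by
    ext z; constructor
    · rintro ⟨i, rfl⟩; exact hxA i
    · intro hz
      exact ⟨A.equivFin ⟨z, hz⟩, by simp [x]⟩
  have hgood : Good E x := ⟨hxinj, fun i => Set.disjoint_left.1 hSE (hAS' (hxA i))⟩
  have hC : Cent K E x T := ⟨hgood, hT1, by rw [hrange]; exact hT2, by rw [hrange]; exact hT3⟩
  have hC' : Cent K' E x T' := ⟨hgood, hT1', by rw [hrange]; exact hT2', by rw [hrange]; exact hT3'⟩
  have hk : 0 < A.card := Finset.card_pos.2 hA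
  -- the copy of `S`
  obtain ⟨σ, hσ1, hσ2⟩ := exists_fresh (W := (A : Set I)) S.finite_toSet hE' hSE hAS'
  have hσS : σ '' (S : Set I) = (A : Set I) ∪ σ '' ((S : Set I) \ (A : Set I)) := image_S hAS' fun z hz => hσ1 z (Or.inl hz)
  have hσE : σ '' E = E := image_eq_of_fix fun z hz => hσ1 z (Or.inr hz)
  have hS'E : Disjoint (σ '' (S : Set I)) E := by
    rw [hσS, Set.disjoint_union_left]
    exact ⟨Set.disjoint_of_subset_left hAS' hSE,
      Set.disjoint_of_subset_right Set.subset_union_right hσ2⟩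
  have hSS' : (S : Set I) ∩ σ '' S ⊆ Set.range x := by
    rw [hσS, hrange]
    rintro z ⟨hz, hz' | hz'⟩
    · exact hz'
    · exact absurd (Or.inl hz) (Set.disjoint_left.1 hσ2 hz')
  have hneS : ¬ μ[(fun ω => f ω * T ω)|K.J E {W | ∃ z ∈ Set.range x, W = (S : Set I) \ {z}}]
      =ᵐ[μ] 0 := by
    rw [hrange]; exact hT4
  have hneS' : ¬ μ[(fun ω => h (Φ.τ σ ω) * T' ω)|K'.J E
      {W | ∃ z ∈ Set.range x, W = σ '' (S : Set I) \ {z}}] =ᵐ[μ] 0 := by
    intro hcon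
    apply hT4'
    have hT'i : StronglyMeasurable[K'.H (S ∪ E)] (fun ω => h ω * T' ω) :=
      (hhm.mono (K'.mono hSSE)).mul (hT2'.mono (K'.mono (Set.union_subset_union_left _ hAS')))
    have hint : Integrable (fun ω => h ω * T' ω) μ :=
      (hh.mul (AB.of_bdd hT1')).integrable' (K'.le _) hT'i
    have h1 := condExp_comp (K'.J E {W | ∃ z ∈ (A : Set I), W = (S : Set I) \ {z}}) (Φ.mp σ)
      (K'.J_le _ _) hint
    have h2 : (K'.J E {W | ∃ z ∈ (A : Set I), W = (S : Set I) \ {z}}).comap (Φ.τ σ)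
        = K'.J E {W | ∃ z ∈ Set.range x, W = σ '' (S : Set I) \ {z}} := by
      rw [K'.comap_J, hrange]
      have him : ∀ z ∈ (A : Set I), σ '' ((S : Set I) \ {z}) = σ '' (S : Set I) \ {z} := by
        intro z hz
        rw [Set.image_sdiff σ.injective, Set.image_singleton, hσ1 z (Or.inl hz)]
      apply le_antisymm
      · refine iSup₂_le ?_
        rintro W ⟨z, hz, rfl⟩
        rw [Set.image_union, him z hz, hσE]
        exact K'.le_J E ⟨z, hz, rfl⟩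
      · refine iSup₂_le ?_
        rintro W ⟨z, hz, rfl⟩
        rw [← him z hz]
        have e1 : σ '' ((S : Set I) \ {z}) ∪ E = σ '' (((S : Set I) \ {z}) ∪ E) := by
          rw [Set.image_union, hσE]
        rw [e1]
        exact le_iSup₂ (f := fun W (_ : W ∈ {W | ∃ z ∈ (A : Set I), W = (S : Set I) \ {z}}) =>
          K'.H (σ '' (W ∪ E))) ((S : Set I) \ {z}) ⟨z, hz, rfl⟩
    rw [h2] at h1
    have h3 : (fun ω => h (Φ.τ σ ω) * T' (Φ.τ σ ω)) = fun ω => h (Φ.τ σ ω) * T' ω := by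
      funext ω
      rw [K'.comp_id hσ1 hT2' ω]
    rw [h3] at h1
    have h4 := h1.symm.trans hcon
    set v := μ[(fun ω => h ω * T' ω)|K'.J E {W | ∃ z ∈ (A : Set I), W = (S : Set I) \ {z}}] with hv
    have hvm : StronglyMeasurable v := stronglyMeasurable_condExp.mono (K'.J_le _ _)
    have h5 : ∀ᵐ ω ∂(μ.map (Φ.τ σ)), v ω ∈ ({0} : Set ℝ) := by
      rw [ae_map_iff (Φ.mp σ).aemeasurable
        (hvm.measurable (measurableSet_singleton 0))]
      filter_upwards [h4] with ω hω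
      exact hω
    rw [(Φ.mp σ).map_eq] at h5
    filter_upwards [h5] with ω hω
    exact hω
  refine core hk hE hE' hC hC' (S := (S : Set I)) (S' := σ '' (S : Set I)) S.finite_toSet
    (S.finite_toSet.image _) hSE hS'E (fun i => hAS' (hxA i)) (fun i => ?_) hSS' hf
    (hh.comp (Φ.mp σ)) hfm (K'.comp_meas σ hhm) hneS hneS' (hR A.card x T T' hk hC hC')
  exact ⟨x i, hAS' (hxA i), hσ1 _ (Or.inl (hxA i))⟩

/-- The abstract form of the theorem: if `K1` and `K2` are independent and both are rigid with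
`K3`, then the join of `K1` and `K2` is independent of `K3`. -/
theorem main_abs (K K1 K2 K3 : Fam Φ) (h1 : ∀ U, K1.H U ≤ K.H U) (h2 : ∀ U, K2.H U ≤ K.H U)
    (h3 : ∀ U, K3.H U ≤ K.H U) [Countable I] (hE : E.Infinite) (hE' : Eᶜ.Infinite)
    (hind : Indep (K1.H Set.univ) (K2.H Set.univ) μ)
    (hdis : ∀ S : Finset I, Disjoint (S : Set I) E → Indep (K.H S) (K.H E) μ)
    (hR1 : Rigid K1 K3 E) (hR2 : Rigid K2 K3 E) {S : Finset I} (hSE : Disjoint (S : Set I) E)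
    {f1 f2 h : Ω → ℝ} (hf1 : AB μ f1) (hf2 : AB μ f2) (hh : AB μ h)
    (hm1 : StronglyMeasurable[K1.H S] f1) (hm2 : StronglyMeasurable[K2.H S] f2)
    (hm3 : StronglyMeasurable[K3.H S] h) :
    ∫ ω, (f1 ω * f2 ω) * h ω ∂μ = (∫ ω, f1 ω * f2 ω ∂μ) * ∫ ω, h ω ∂μ := by
  apply K.tele K1 K2 K3 h1 h2 h3 hE hE' hind hSE (hdis S hSE) hf1 hf2 hh hm1 hm2 hm3
  intro A 𝒲 hAS hA h𝒲 hlow
  by_contra hcon
  push Not at hcon
  obtain ⟨hc1, hc2⟩ := hcon
  by_cases hd1 : μ[f1|K1.J E (insert (A : Set I) 𝒲)] =ᵐ[μ] μ[f1|K1.J E 𝒲]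
  · exact no_common hE hE' hR2 hSE hf2 hh hm2 hm3 hAS hA h𝒲 hlow (hc1 hd1) hc2
  · exact no_common hE hE' hR1 hSE hf1 hh hm1 hm3 hAS hA h𝒲 hlow hd1 hc2

end Coup
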