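import Pool.Agent.Work.MP_e8a478_co.SecondMoment

/-!
# Consistent dissociated families are limit objects (MP_e8a478_co)
-/

set_option autoImplicit false

open Filter Topology Classical

namespace Pool.MP_e8a478_co

variable {L L₁ L₂ : Lang}

/-- total squared deviation of the densities of the structures with at most `j` vertices -/
noncomputable def dev {L : Lang} (φ : Fam L) (j : ℕ) {n : ℕ} (N : Str L (Fin n)) : ℝ :=
  ∑ m ∈ Finset.range (j + 1), ∑ M : Str L (Fin m), ((j : ℝ) + 1) ^ 2 * (dens M N - φ m M) ^ 2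

theorem dev_nonneg (φ : Fam L) (j : ℕ) {n : ℕ} (N : Str L (Fin n)) : 0 ≤ dev φ j N :=
  Finset.sum_nonneg fun _ _ => Finset.sum_nonneg fun _ _ => by positivity

/-- the constant of the deviation bound -/
noncomputable def devC (L : Lang) (j : ℕ) : ℝ :=
  ∑ m ∈ Finset.range (j + 1), ∑ _M : Str L (Fin m), ((j : ℝ) + 1) ^ 2 * (m : ℝ) ^ 2

theorem devC_nonneg (L : Lang) (j : ℕ) : 0 ≤ devC L j :=
  Finset.sum_nonneg fun _ _ => Finset.sum_nonneg fun _ _ => by positivity

theorem sum_dev_le {φ : Fam L} (h : Consistent φ) (hd : Dissociated φ) {j n : ℕ} (hn : 0 < n)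
    (hj : j ≤ n) : ∑ N : Str L (Fin n), φ n N * dev φ j N ≤ devC L j / n := by
  unfold dev devC
  have : ∀ N : Str L (Fin n), φ n N * (∑ m ∈ Finset.range (j + 1), ∑ M : Str L (Fin m),
      ((j : ℝ) + 1) ^ 2 * (dens M N - φ m M) ^ 2) =
      ∑ m ∈ Finset.range (j + 1), ∑ M : Str L (Fin m),
        ((j : ℝ) + 1) ^ 2 * (φ n N * (dens M N - φ m M) ^ 2) := by
    intro N
    rw [Finset.mul_sum]
    refine Finset.sum_congr rfl fun m _ => ?_
    rw [Finset.mul_sum]
    refine Finset.sum_congr rfl fun M _ => ?_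
    ring
  simp_rw [this]
  rw [Finset.sum_comm, Finset.sum_div]
  refine Finset.sum_le_sum fun m hm => ?_
  rw [Finset.sum_comm, Finset.sum_div]
  refine Finset.sum_le_sum fun M _ => ?_
  rw [← Finset.mul_sum, mul_div_assoc]
  refine mul_le_mul_of_nonneg_left ?_ (by positivity)
  exact second_moment h hd hn ((Nat.lt_succ_iff.1 (Finset.mem_range.1 hm)).trans hj) M

theorem dens_close_of_dev {φ : Fam L} {j n : ℕ} {N : Str L (Fin n)} (h : dev φ j N < 1)
    {m : ℕ} (hm : m ≤ j) (M : Str L (Fin m)) : |dens M N - φ m M| < 1 / ((j : ℝ) + 1) := by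
  have h1 : ((j : ℝ) + 1) ^ 2 * (dens M N - φ m M) ^ 2 ≤ dev φ j N := by
    unfold dev
    calc ((j : ℝ) + 1) ^ 2 * (dens M N - φ m M) ^ 2
        ≤ ∑ M : Str L (Fin m), ((j : ℝ) + 1) ^ 2 * (dens M N - φ m M) ^ 2 :=
          Finset.single_le_sum (f := fun M : Str L (Fin m) =>
            ((j : ℝ) + 1) ^ 2 * (dens M N - φ m M) ^ 2) (fun _ _ => by positivity)
            (Finset.mem_univ M)
      _ ≤ _ := Finset.single_le_sum (f := fun m => ∑ M : Str L (Fin m),
            ((j : ℝ) + 1) ^ 2 * (dens M N - φ m M) ^ 2)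
            (fun _ _ => Finset.sum_nonneg fun _ _ => by positivity)
            (Finset.mem_range.2 (Nat.lt_succ_of_le hm))
  have hj : (0 : ℝ) < (j : ℝ) + 1 := by positivity
  rw [lt_div_iff₀ hj, ← abs_of_pos hj, ← abs_mul, ← sq_lt_one_iff_abs_lt_one, mul_pow, mul_comm]
  linarith

/-- If the expectation of `F` is negative then `F` is negative at some point of the support. -/
theorem exists_neg {n : ℕ} {ξ : Fam L} (h : Consistent ξ) (F : Str L (Fin n) → ℝ)
    (hF : ∑ N : Str L (Fin n), ξ n N * F N < 0) : ∃ N, ξ n N ≠ 0 ∧ F N < 0 := by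
  by_contra hcon
  push Not at hcon
  refine absurd hF (not_lt.2 (Finset.sum_nonneg fun N _ => ?_))
  by_cases h0 : ξ n N = 0
  · simp [h0]
  · exact mul_nonneg (h.nonneg n N) (hcon N h0)

theorem memHom : MemHom := by
  intro L T ξ h hd hs
  have key : ∀ j : ℕ, ∃ n : ℕ, j ≤ n ∧ ∃ N : Str L (Fin n), N ∈ T.mod n ∧ dev ξ j N < 1 := by
    intro j
    obtain ⟨n, hn1, hn2⟩ : ∃ n : ℕ, j + 1 ≤ n ∧ devC L j < n := by
      obtain ⟨k, hk⟩ := exists_nat_gt (devC L j)
      refine ⟨max (j + 1) k, le_max_left _ _, hk.trans_le ?_⟩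
      exact_mod_cast le_max_right _ _
    have hn0 : 0 < n := by omega
    have hnR : (0 : ℝ) < n := by exact_mod_cast hn0
    have h1 := sum_dev_le h hd hn0 (show j ≤ n by omega)
    have h2 : devC L j / n < 1 := by rwa [div_lt_one hnR]
    obtain ⟨N, hN1, hN2⟩ := exists_neg h (fun N => dev ξ j N - 1) (by
      simp_rw [mul_sub, mul_one]
      rw [Finset.sum_sub_distrib, h.total_all n]
      linarith)
    exact ⟨n, by omega, N, hs n N hN1, by linarith⟩
  choose n hn N hN hdev using key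
  refine ⟨n, N, tendsto_atTop_mono hn tendsto_id, hN, fun m M => ?_⟩
  rw [tendsto_iff_norm_sub_tendsto_zero]
  refine squeeze_zero' (Eventually.of_forall fun j => norm_nonneg _) ?_
    (tendsto_one_div_add_atTop_nhds_zero_nat (𝕜 := ℝ))
  filter_upwards [eventually_ge_atTop m] with j hj
  rw [Real.norm_eq_abs]
  exact (dens_close_of_dev (hdev j) hj M).le

end Pool.MP_e8a478_co
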