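import Pool.Agent.Work.MP_e8a478_co.Tele

/-!
# Copies of the centred test function
-/

open MeasureTheory Filter Topology ProbabilityTheory

namespace Coup

variable {Ω I : Type*} {m0 : MeasurableSpace Ω} {μ : Measure Ω} [IsProbabilityMeasure μ]
variable {Φ : Flow Ω I μ}

theorem exists_move {E : Set I} {k : ℕ} {x b : Fin k → I} (hx : Function.Injective x)
    (hb : Function.Injective b) (hxE : ∀ i, x i ∉ E) (hbE : ∀ i, b i ∉ E) :
    ∃ σ : I ↪ I, (∀ e ∈ E, σ e = e) ∧ ∀ i, σ (x i) = b i := by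
  classical
  let V := {v : I // v ∉ E}
  let x' : Fin k ↪ V := ⟨fun i => ⟨x i, hxE i⟩, fun i j h => hx (congrArg Subtype.val h)⟩
  let b' : Fin k ↪ V := ⟨fun i => ⟨b i, hbE i⟩, fun i j h => hb (congrArg Subtype.val h)⟩
  have hp := Equiv.Perm.isMultiplyPretransitive V k
  obtain ⟨g, hg⟩ := hp.exists_smul_eq x' b'
  refine ⟨(Equiv.Perm.ofSubtype g).toEmbedding, ?_, ?_⟩
  · intro e he
    exact Equiv.Perm.ofSubtype_apply_of_not_mem g (by simpa using he)
  · intro i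
    have h1 : g (x' i) = b' i := by
      have := DFunLike.congr_fun hg i
      simpa using this
    have h2 : (Equiv.Perm.ofSubtype g) (x i) = g (x' i) :=
      Equiv.Perm.ofSubtype_apply_of_mem g (hxE i)
    change (Equiv.Perm.ofSubtype g) (x i) = b i
    rw [h2, h1]
    rfl

/-- A shift moving `x` to `b` and fixing the environment. -/
noncomputable def mv (E : Set I) {k : ℕ} (x b : Fin k → I) : I ↪ I :=
  open Classical in
  if h : ∃ σ : I ↪ I, (∀ e ∈ E, σ e = e) ∧ ∀ i, σ (x i) = b i then h.choose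
  else Function.Embedding.refl I

/-- Injective tuples avoiding the environment. -/
def Good (E : Set I) {k : ℕ} (b : Fin k → I) : Prop := Function.Injective b ∧ ∀ i, b i ∉ E

theorem mv_spec {E : Set I} {k : ℕ} {x b : Fin k → I} (hx : Good E x) (hb : Good E b) :
    (∀ e ∈ E, mv E x b e = e) ∧ ∀ i, mv E x b (x i) = b i := by
  have h := exists_move hx.1 hb.1 hx.2 hb.2
  rw [mv, dif_pos h]
  exact h.choose_spec

/-- The copy of `T` at the tuple `b`. -/
noncomputable def cp (Φ : Flow Ω I μ) (E : Set I) {k : ℕ} (x : Fin k → I) (T : Ω → ℝ)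
    (b : Fin k → I) : Ω → ℝ := fun ω => T (Φ.τ (mv E x b) ω)

/-- The data of a centred test function for the family `K` at the tuple `x`. -/
structure Cent (K : Fam Φ) (E : Set I) {k : ℕ} (x : Fin k → I) (T : Ω → ℝ) : Prop where
  good : Good E x
  bd : ∀ ω, |T ω| ≤ 1
  meas : StronglyMeasurable[K.H (Set.range x ∪ E)] T
  cent : μ[T|K.Y E (Set.range x)] =ᵐ[μ] 0

section

variable {K : Fam Φ} {E : Set I} {k : ℕ} {x : Fin k → I} {T : Ω → ℝ}

omit [IsProbabilityMeasure μ] in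
theorem mv_image {b : Fin k → I} (hx : Good E x) (hb : Good E b) :
    mv E x b '' (Set.range x ∪ E) = Set.range b ∪ E := by
  obtain ⟨h1, h2⟩ := mv_spec hx hb
  rw [Set.image_union, image_eq_of_fix h1]
  congr 1
  ext z; constructor
  · rintro ⟨_, ⟨i, rfl⟩, rfl⟩; exact ⟨i, (h2 i).symm⟩
  · rintro ⟨i, rfl⟩; exact ⟨x i, ⟨i, rfl⟩, h2 i⟩

omit [IsProbabilityMeasure μ] in
theorem Cent.cp_bd (h : Cent K E x T) (b : Fin k → I) (ω : Ω) : |cp Φ E x T b ω| ≤ 1 := h.bd _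

omit [IsProbabilityMeasure μ] in
theorem Cent.cp_meas (h : Cent K E x T) {b : Fin k → I} (hb : Good E b) :
    StronglyMeasurable[K.H (Set.range b ∪ E)] (cp Φ E x T b) := by
  rw [← mv_image h.good hb]
  exact K.comp_meas _ h.meas

omit [IsProbabilityMeasure μ] in
theorem Cent.cp_AB (h : Cent K E x T) (b : Fin k → I) : AB μ (cp Φ E x T b) :=
  AB.of_bdd (h.cp_bd b)

omit [IsProbabilityMeasure μ] in
theorem Good.comp {b : Fin k → I} (hb : Good E b) {σ : I ↪ I} (hσ : ∀ e ∈ E, σ e = e) :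
    Good E (fun i => σ (b i)) := by
  refine ⟨σ.injective.comp hb.1, fun i hi => ?_⟩
  have h1 : σ (b i) = σ (σ (b i)) := (hσ _ hi).symm
  have h2 : b i = σ (b i) := σ.injective h1
  exact hb.2 i (h2 ▸ hi)

omit [IsProbabilityMeasure μ] in
theorem Cent.cp_comp (h : Cent K E x T) {b : Fin k → I} (hb : Good E b) {σ : I ↪ I}
    (hσ : ∀ e ∈ E, σ e = e) (ω : Ω) :
    cp Φ E x T b (Φ.τ σ ω) = cp Φ E x T (fun i => σ (b i)) ω := by
  unfold cp
  rw [Φ.comp]
  obtain ⟨h1, h2⟩ := mv_spec h.good hb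
  obtain ⟨h3, h4⟩ := mv_spec h.good (hb.comp hσ)
  apply K.comp_agree (U := Set.range x ∪ E) _ h.meas
  rintro z (⟨i, rfl⟩ | hz)
  · simp [h2, h4]
  · simp [h1 z hz, h3 z hz, hσ z hz]

omit [IsProbabilityMeasure μ] in
theorem Cent.cp_self (h : Cent K E x T) (ω : Ω) : cp Φ E x T x ω = T ω := by
  unfold cp
  obtain ⟨h1, h2⟩ := mv_spec h.good h.good
  apply K.comp_id (U := Set.range x ∪ E) _ h.meas
  rintro z (⟨i, rfl⟩ | hz)
  · exact h2 i
  · exact h1 z hz

theorem Cent.cp_cent (h : Cent K E x T) {b : Fin k → I} (hb : Good E b) :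
    μ[cp Φ E x T b|K.Y E (Set.range b)] =ᵐ[μ] 0 := by
  obtain ⟨h1, h2⟩ := mv_spec h.good hb
  have hTi : Integrable T μ := (AB.of_bdd h.bd).integrable' (K.le _) h.meas
  have h3 := condExp_comp (K.Y E (Set.range x)) (Φ.mp (mv E x b)) (K.J_le _ _) hTi
  have h4 : (K.Y E (Set.range x)).comap (Φ.τ (mv E x b)) = K.Y E (Set.range b) := by
    rw [K.comap_J]
    have himg : mv E x b '' Set.range x = Set.range b := by
      ext z; constructor
      · rintro ⟨_, ⟨i, rfl⟩, rfl⟩; exact ⟨i, (h2 i).symm⟩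
      · rintro ⟨i, rfl⟩; exact ⟨x i, ⟨i, rfl⟩, h2 i⟩
    apply le_antisymm
    · refine iSup₂_le fun B hB => ?_
      have hB' : B ⊂ Set.range x := hB
      rw [Set.image_union, image_eq_of_fix h1]
      apply K.le_J E
      change mv E x b '' B ⊂ Set.range b
      rw [← himg]
      exact ⟨Set.image_mono hB'.1, fun hcon =>
        hB'.2 ((Set.image_subset_image_iff (mv E x b).injective).1 hcon)⟩
    · refine iSup₂_le fun B hB => ?_
      have hB' : B ⊂ Set.range b := hB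
      have e1 : mv E x b '' (mv E x b ⁻¹' B) = B := by
        rw [Set.image_preimage_eq_iff]
        intro z hz
        obtain ⟨i, rfl⟩ := hB'.1 hz
        exact ⟨x i, h2 i⟩
      have e2 : mv E x b ⁻¹' B ∩ Set.range x ⊂ Set.range x := by
        refine ⟨Set.inter_subset_right, fun hcon => hB'.2 ?_⟩
        rintro _ ⟨i, rfl⟩
        have := (hcon ⟨i, rfl⟩).1
        rw [Set.mem_preimage, h2] at this
        exact this
      have e3 : mv E x b '' (mv E x b ⁻¹' B ∩ Set.range x) = B := by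
        apply Set.Subset.antisymm
        · rintro _ ⟨z, hz, rfl⟩; exact hz.1
        · intro z hz
          obtain ⟨i, rfl⟩ := hB'.1 hz
          refine ⟨x i, ⟨?_, ⟨i, rfl⟩⟩, h2 i⟩
          rw [Set.mem_preimage, h2]; exact hz
      have e4 : K.H (B ∪ E) = K.H (mv E x b '' ((mv E x b ⁻¹' B ∩ Set.range x) ∪ E)) := by
        rw [Set.image_union, image_eq_of_fix h1, e3]
      rw [e4]
      exact le_iSup₂ (f := fun W (_ : W ∈ {B | B ⊂ Set.range x}) => K.H (mv E x b '' (W ∪ E)))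
        (mv E x b ⁻¹' B ∩ Set.range x) e2
  rw [h4] at h3
  have h5 : ∀ᵐ ω ∂μ, (μ[T|K.Y E (Set.range x)]) (Φ.τ (mv E x b) ω) = 0 :=
    (Φ.mp (mv E x b)).quasiMeasurePreserving.ae h.cent
  filter_upwards [h3, h5] with ω a1 a2
  change (μ[(fun ω => T (Φ.τ (mv E x b) ω))|K.Y E (Set.range b)]) ω = _
  rw [a1, a2]; rfl

omit [IsProbabilityMeasure μ] in
theorem cp_prod_AB {β : Type*} (h : Cent K E x T) (b : β → Fin k → I) (ℬ : Finset β) :
    AB μ (fun ω => ∏ a ∈ ℬ, cp Φ E x T (b a) ω) := by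
  apply AB.of_bdd (C := 1)
  intro ω
  rw [Finset.abs_prod]
  exact Finset.prod_le_one (fun a _ => abs_nonneg _) (fun a _ => h.cp_bd _ _)

/-- Vanishing of the mixed moments. -/
theorem Cent.kill [Countable I] (hE : E.Infinite) (h : Cent K E x T) {β : Type*}
    {b : β → Fin k → I} {ℬ : Finset β} (hb : ∀ a ∈ ℬ, Good E (b a)) {𝒰 : Set (Set I)}
    {F : Ω → ℝ} (hF : AB μ F) (hFm : StronglyMeasurable[K.J E 𝒰] F) {a : β} (ha : a ∈ ℬ)
    (ha1 : ∀ W ∈ 𝒰, ¬ Set.range (b a) ⊆ W)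
    (ha2 : ∀ a' ∈ ℬ, a' ≠ a → ¬ Set.range (b a) ⊆ Set.range (b a')) :
    ∫ ω, F ω * ∏ a ∈ ℬ, cp Φ E x T (b a) ω ∂μ = 0 := by
  classical
  set 𝒲 : Set (Set I) := 𝒰 ∪ {W | ∃ a' ∈ ℬ, a' ≠ a ∧ W = Set.range (b a')} with h𝒲
  have hP : StronglyMeasurable[K.J E 𝒲] (fun ω => ∏ a' ∈ ℬ.erase a, cp Φ E x T (b a') ω) := by
    have h1 : ∀ a' ∈ ℬ.erase a, StronglyMeasurable[K.J E 𝒲] (cp Φ E x T (b a')) := by
      intro a' ha'
      rw [Finset.mem_erase] at ha'
      exact (h.cp_meas (hb a' ha'.2)).mono (K.le_J E (Or.inr ⟨a', ha'.2, ha'.1, rfl⟩))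
    exact Finset.stronglyMeasurable_fun_prod _ h1
  have hF' : StronglyMeasurable[K.J E 𝒲] F :=
    hFm.mono (K.J_le_of fun X hX => ⟨X, Or.inl hX, le_rfl⟩)
  have hv : StronglyMeasurable[K.J E 𝒲]
      (fun ω => F ω * ∏ a' ∈ ℬ.erase a, cp Φ E x T (b a') ω) := hF'.mul hP
  have hTi : Integrable (cp Φ E x T (b a)) μ :=
    (h.cp_AB (b a)).integrable' (K.le _) (h.cp_meas (hb a ha))
  have hci : μ[cp Φ E x T (b a)|K.J E 𝒲] =ᵐ[μ] 0 := by
    apply K.ci hE _ (h.cp_AB (b a)) (h.cp_meas (hb a ha)) (h.cp_cent (hb a ha))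
    · rintro W (hW | ⟨a', ha', hne, rfl⟩)
      · exact ha1 W hW
      · exact ha2 a' ha' hne
    · rw [Set.disjoint_left]
      rintro _ ⟨i, rfl⟩
      exact (hb a ha).2 i
  have hvb : AB μ (fun ω => F ω * ∏ a' ∈ ℬ.erase a, cp Φ E x T (b a') ω) :=
    hF.mul (cp_prod_AB h b _)
  have hmain := integral_mul_eq_zero (K.J_le E 𝒲) hTi
    (((h.cp_AB (b a)).mul hvb).integrable
      (hTi.1.mul (hv.mono (K.J_le _ _)).aestronglyMeasurable)) hv.aestronglyMeasurable hci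
  rw [← hmain]
  congr 1; ext ω
  rw [← Finset.mul_prod_erase _ _ ha]
  ring

end

end Coup
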