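import Pool.Agent.Work.MP_e8a478_co.Comb

/-!
# The perturbed joint law
-/

open MeasureTheory Filter Topology ProbabilityTheory

namespace Coup

variable {Ω I : Type*} {m0 : MeasurableSpace Ω} {μ : Measure Ω} [IsProbabilityMeasure μ]
variable {Φ : Flow Ω I μ} {E : Set I} {k : ℕ} {x : Fin k → I} {T T' : Ω → ℝ}

/-- The sections of a colouring. -/
def sec {k n : ℕ} (c : Fin n → Fin k) : Finset (Fin k → Fin n) :=
  Finset.univ.filter fun a => ∀ i, c (a i) = i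

theorem mem_sec {k n : ℕ} {c : Fin n → Fin k} {a : Fin k → Fin n} :
    a ∈ sec c ↔ ∀ i, c (a i) = i := by simp [sec]

theorem sec_inj {k n : ℕ} {c : Fin n → Fin k} {a : Fin k → Fin n} (ha : a ∈ sec c) :
    Function.Injective a := by
  intro i j hij
  rw [mem_sec] at ha
  rw [← ha i, ← ha j, hij]

theorem sec_ne {k n : ℕ} {c : Fin n → Fin k} {a b : Fin k → Fin n} (ha : a ∈ sec c)
    (hb : b ∈ sec c) {ι : Fin n → I} (hι : Function.Injective ι)
    (h : Set.range (fun i => ι (a i)) ⊆ Set.range (fun i => ι (b i))) : a = b := by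
  rw [mem_sec] at ha hb
  funext i
  obtain ⟨j, hj⟩ := h ⟨i, rfl⟩
  have h1 : b j = a i := hι hj
  have h2 : j = i := by rw [← hb j, h1, ha i]
  rw [← h1, h2]

/-- Mixed moments. -/
noncomputable def mom (Φ : Flow Ω I μ) (E : Set I) {k : ℕ} (x : Fin k → I) (T : Ω → ℝ) {n : ℕ}
    (ι : Fin n → I) (F : Ω → ℝ) (ℬ : Finset (Fin k → Fin n)) : ℝ :=
  ∫ ω, F ω * ∏ a ∈ ℬ, cp Φ E x T (fun i => ι (a i)) ω ∂μ

/-- The contribution of a colouring. -/
noncomputable def Qc (Φ : Flow Ω I μ) (E : Set I) {k : ℕ} (x : Fin k → I) (T T' : Ω → ℝ) (t : ℝ)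
    {n : ℕ} (ι : Fin n → I) (F G : Ω → ℝ) (𝒜 : Finset (Fin k → Fin n)) : ℝ :=
  ∑ ℬ ∈ 𝒜.powerset, t ^ ℬ.card * (mom Φ E x T ι F ℬ * mom Φ E x T' ι G ℬ)

/-- The perturbed joint law. -/
noncomputable def Q (Φ : Flow Ω I μ) (E : Set I) {k : ℕ} (x : Fin k → I) (T T' : Ω → ℝ) (t : ℝ)
    {n : ℕ} (ι : Fin n → I) (F G : Ω → ℝ) : ℝ :=
  ((k : ℝ) ^ n)⁻¹ * ∑ c : Fin n → Fin k, Qc Φ E x T T' t ι F G (sec c)

theorem Good.sec {n : ℕ} {ι : Fin n → I} (hι : Good E ι) {c : Fin n → Fin k} {a : Fin k → Fin n}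
    (ha : a ∈ Coup.sec c) : Good E (fun i => ι (a i)) :=
  ⟨hι.1.comp (sec_inj ha), fun _ => hι.2 _⟩

section

variable {K K' : Fam Φ}

omit [IsProbabilityMeasure μ] in
theorem Cent.prod_aesm (h : Cent K E x T) {n : ℕ} {ι : Fin n → I} (hι : Good E ι)
    {c : Fin n → Fin k} {ℬ : Finset (Fin k → Fin n)} (hℬ : ℬ ⊆ sec c) :
    AEStronglyMeasurable (fun ω => ∏ a ∈ ℬ, cp Φ E x T (fun i => ι (a i)) ω) μ :=
  Finset.aestronglyMeasurable_fun_prod _ fun _ ha =>
    ((h.cp_meas (hι.sec (hℬ ha))).mono (K.le _)).aestronglyMeasurable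

/-- Positivity. -/
theorem Qc_nonneg (h : Cent K E x T) (h' : Cent K' E x T') {t : ℝ} (ht : |t| ≤ 1) {n : ℕ}
    {ι : Fin n → I} (hι : Good E ι) {F G : Ω → ℝ} (hF : AB μ F) (hG : AB μ G)
    (hFm : AEStronglyMeasurable F μ) (hGm : AEStronglyMeasurable G μ) (hF0 : ∀ ω, 0 ≤ F ω)
    (hG0 : ∀ ω, 0 ≤ G ω) (c : Fin n → Fin k) : 0 ≤ Qc Φ E x T T' t ι F G (sec c) := by
  classical
  have hAB : ∀ ℬ : Finset (Fin k → Fin n), AB μ (fun ω => ∏ a ∈ ℬ, cp Φ E x T (fun i => ι (a i)) ω) :=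
    fun ℬ => cp_prod_AB h (fun (a : Fin k → Fin n) i => ι (a i)) ℬ
  have hAB' : ∀ ℬ : Finset (Fin k → Fin n),
      AB μ (fun ω => ∏ a ∈ ℬ, cp Φ E x T' (fun i => ι (a i)) ω) :=
    fun ℬ => cp_prod_AB h' (fun (a : Fin k → Fin n) i => ι (a i)) ℬ
  set H : Ω → ℝ := fun ω' => ∑ ℬ ∈ (sec c).powerset,
    (t ^ ℬ.card * mom Φ E x T ι F ℬ) * ∏ a ∈ ℬ, cp Φ E x T' (fun i => ι (a i)) ω' with hH
  have h1 : ∀ ω', H ω' = ∫ ω, F ω * ∏ a ∈ sec c,
      (1 + t * cp Φ E x T (fun i => ι (a i)) ω * cp Φ E x T' (fun i => ι (a i)) ω') ∂μ := by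
    intro ω'
    have e1 : ∀ ω, F ω * ∏ a ∈ sec c,
        (1 + t * cp Φ E x T (fun i => ι (a i)) ω * cp Φ E x T' (fun i => ι (a i)) ω')
        = ∑ ℬ ∈ (sec c).powerset, (t ^ ℬ.card * ∏ a ∈ ℬ, cp Φ E x T' (fun i => ι (a i)) ω')
          * (F ω * ∏ a ∈ ℬ, cp Φ E x T (fun i => ι (a i)) ω) := by
      intro ω
      rw [Finset.prod_one_add, Finset.mul_sum]
      apply Finset.sum_congr rfl
      intro ℬ _
      rw [Finset.prod_mul_distrib, Finset.prod_mul_distrib, Finset.prod_const]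
      ring
    simp_rw [e1]
    rw [integral_finsetSum]
    · apply Finset.sum_congr rfl
      intro ℬ _
      rw [integral_const_mul]
      unfold mom
      ring
    · intro ℬ hℬ
      rw [Finset.mem_powerset] at hℬ
      exact ((hF.mul (hAB ℬ)).integrable (hFm.mul (h.prod_aesm hι hℬ))).const_mul _
  have h2 : ∀ ω', 0 ≤ H ω' := by
    intro ω'
    rw [h1]
    apply integral_nonneg
    intro ω
    apply mul_nonneg (hF0 ω)
    apply Finset.prod_nonneg
    intro a _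
    have b1 := h.cp_bd (fun i => ι (a i)) ω
    have b2 := h'.cp_bd (fun i => ι (a i)) ω'
    have b3 : |t * cp Φ E x T (fun i => ι (a i)) ω * cp Φ E x T' (fun i => ι (a i)) ω'| ≤ 1 := by
      rw [abs_mul, abs_mul]
      calc |t| * |cp Φ E x T (fun i => ι (a i)) ω| * |cp Φ E x T' (fun i => ι (a i)) ω'|
          ≤ 1 * 1 * 1 := by gcongr
        _ = 1 := by norm_num
    rw [abs_le] at b3
    linarith [b3.1]
  have h3 : Qc Φ E x T T' t ι F G (sec c) = ∫ ω', G ω' * H ω' ∂μ := by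
    have e1 : ∀ ω', G ω' * H ω' = ∑ ℬ ∈ (sec c).powerset,
        (t ^ ℬ.card * mom Φ E x T ι F ℬ)
          * (G ω' * ∏ a ∈ ℬ, cp Φ E x T' (fun i => ι (a i)) ω') := by
      intro ω'
      rw [hH, Finset.mul_sum]
      apply Finset.sum_congr rfl
      intro ℬ _
      ring
    simp_rw [e1]
    rw [integral_finsetSum]
    · unfold Qc
      apply Finset.sum_congr rfl
      intro ℬ _
      rw [integral_const_mul]
      unfold mom
      ring
    · intro ℬ hℬ
      rw [Finset.mem_powerset] at hℬ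
      exact ((hG.mul (hAB' ℬ)).integrable (hGm.mul (h'.prod_aesm hι hℬ))).const_mul _
  rw [h3]
  exact integral_nonneg fun ω => mul_nonneg (hG0 ω) (h2 ω)

theorem Q_nonneg (h : Cent K E x T) (h' : Cent K' E x T') {t : ℝ} (ht : |t| ≤ 1) {n : ℕ}
    {ι : Fin n → I} (hι : Good E ι) {F G : Ω → ℝ} (hF : AB μ F) (hG : AB μ G)
    (hFm : AEStronglyMeasurable F μ) (hGm : AEStronglyMeasurable G μ) (hF0 : ∀ ω, 0 ≤ F ω)
    (hG0 : ∀ ω, 0 ≤ G ω) : 0 ≤ Q Φ E x T T' t ι F G :=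
  mul_nonneg (by positivity)
    (Finset.sum_nonneg fun c _ => Qc_nonneg h h' ht hι hF hG hFm hGm hF0 hG0 c)

/-- Vanishing. -/
theorem mom_zero [Countable I] (hE : E.Infinite) (h : Cent K E x T) {n : ℕ} {ι : Fin n → I}
    (hι : Good E ι) {c : Fin n → Fin k} {ℬ : Finset (Fin k → Fin n)} (hℬ : ℬ ⊆ sec c)
    {𝒰 : Set (Set I)} {F : Ω → ℝ} (hF : AB μ F) (hFm : StronglyMeasurable[K.J E 𝒰] F)
    {a : Fin k → Fin n} (ha : a ∈ ℬ) (ha1 : ∀ W ∈ 𝒰, ¬ Set.range (fun i => ι (a i)) ⊆ W) :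
    mom Φ E x T ι F ℬ = 0 := by
  apply Cent.kill hE h (b := fun (a : Fin k → Fin n) i => ι (a i)) (ℬ := ℬ)
    (fun a ha => hι.sec (hℬ ha)) hF hFm ha ha1
  intro a' ha' hne hcon
  exact hne (sec_ne (hℬ ha) (hℬ ha') hι.1 hcon).symm

theorem mom_one [Countable I] (hk : 0 < k) (hE : E.Infinite) (h : Cent K E x T) {n : ℕ}
    {ι : Fin n → I} (hι : Good E ι) {c : Fin n → Fin k} {ℬ : Finset (Fin k → Fin n)}
    (hℬ : ℬ ⊆ sec c) : mom Φ E x T ι (fun _ => 1) ℬ = if ℬ = ∅ then 1 else 0 := by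
  split_ifs with he
  · subst he
    simp [mom]
  · obtain ⟨a, ha⟩ := Finset.nonempty_iff_ne_empty.2 he
    apply mom_zero hE h hι hℬ (𝒰 := {∅}) (AB.of_bdd (C := 1) (by simp))
      stronglyMeasurable_const ha
    rintro W hW
    rw [Set.mem_singleton_iff] at hW
    subst hW
    intro hcon
    exact hcon ⟨⟨0, hk⟩, rfl⟩

omit [IsProbabilityMeasure μ] in
theorem mom_empty {n : ℕ} {ι : Fin n → I} (F : Ω → ℝ) :
    mom Φ E x T ι F ∅ = ∫ ω, F ω ∂μ := by simp [mom]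

/-- The marginals. -/
theorem Q_one_right [Countable I] (hk : 0 < k) (hE : E.Infinite) (h' : Cent K' E x T')
    {t : ℝ} {n : ℕ} {ι : Fin n → I} (hι : Good E ι) (F : Ω → ℝ) :
    Q Φ E x T T' t ι F (fun _ => 1) = ∫ ω, F ω ∂μ := by
  have h1 : ∀ c : Fin n → Fin k, Qc Φ E x T T' t ι F (fun _ => 1) (sec c) = ∫ ω, F ω ∂μ := by
    intro c
    unfold Qc
    rw [Finset.sum_eq_single ∅]
    · rw [mom_one hk hE h' hι (Finset.empty_subset (sec c)), mom_empty]; simp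
    · intro ℬ hℬ hne
      rw [Finset.mem_powerset] at hℬ
      rw [mom_one hk hE h' hι hℬ, if_neg hne]; ring
    · intro hcon; exact absurd (Finset.empty_mem_powerset _) hcon
  unfold Q
  have hk' : (k : ℝ) ^ n ≠ 0 := pow_ne_zero _ (by exact_mod_cast hk.ne')
  simp only [h1, Finset.sum_const, Finset.card_univ, Fintype.card_fun, Fintype.card_fin,
    nsmul_eq_mul, Nat.cast_pow]
  field_simp

theorem Q_one_left [Countable I] (hk : 0 < k) (hE : E.Infinite) (h : Cent K E x T)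
    {t : ℝ} {n : ℕ} {ι : Fin n → I} (hι : Good E ι) (G : Ω → ℝ) :
    Q Φ E x T T' t ι (fun _ => 1) G = ∫ ω, G ω ∂μ := by
  have h1 : ∀ c : Fin n → Fin k, Qc Φ E x T T' t ι (fun _ => 1) G (sec c) = ∫ ω, G ω ∂μ := by
    intro c
    unfold Qc
    rw [Finset.sum_eq_single ∅]
    · rw [mom_one hk hE h hι (Finset.empty_subset (sec c)), mom_empty]; simp
    · intro ℬ hℬ hne
      rw [Finset.mem_powerset] at hℬ
      rw [mom_one hk hE h hι hℬ, if_neg hne]; ring
    · intro hcon; exact absurd (Finset.empty_mem_powerset _) hcon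
  unfold Q
  have hk' : (k : ℝ) ^ n ≠ 0 := pow_ne_zero _ (by exact_mod_cast hk.ne')
  simp only [h1, Finset.sum_const, Finset.card_univ, Fintype.card_fun, Fintype.card_fin,
    nsmul_eq_mul, Nat.cast_pow]
  field_simp

theorem sum_comp_emb {k m n : ℕ} (f : Fin m ↪ Fin n) (g : (Fin m → Fin k) → ℝ) :
    ∑ c : Fin n → Fin k, g (fun i => c (f i)) = (k : ℝ) ^ (n - m) * ∑ c, g c := by
  classical
  let R := ((Set.range f)ᶜ : Set (Fin n))
  let e1 : Fin m ⊕ R ≃ Fin n :=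
    ((Equiv.ofInjective f f.injective).sumCongr (Equiv.refl R)).trans
      (Equiv.Set.sumCompl (Set.range f))
  have he1 : ∀ i, e1 (Sum.inl i) = f i := fun i => rfl
  let e2 : (Fin n → Fin k) ≃ (Fin m → Fin k) × (R → Fin k) :=
    (Equiv.arrowCongr e1.symm (Equiv.refl _)).trans (Equiv.sumArrowEquivProdArrow _ _ _)
  have he2 : ∀ c, (e2 c).1 = fun i => c (f i) := by
    intro c
    funext i
    simp [e2, he1]
  have hcard : Fintype.card R = n - m := by
    have h1 : Fintype.card (Fin m ⊕ R) = Fintype.card (Fin n) := Fintype.card_congr e1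
    rw [Fintype.card_sum, Fintype.card_fin, Fintype.card_fin] at h1
    omega
  have h1 : ∑ c : Fin n → Fin k, g (fun i => c (f i)) = ∑ p : (Fin m → Fin k) × (R → Fin k), g p.1 := by
    rw [← e2.sum_comp]
    exact Finset.sum_congr rfl fun c _ => by rw [he2]
  rw [h1, Fintype.sum_prod_type]
  simp only [Finset.sum_const, Finset.card_univ, Fintype.card_fun, hcard, Fintype.card_fin,
    nsmul_eq_mul, Nat.cast_pow, Finset.mul_sum]

/-- Restriction to a subset of the vertices. -/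
theorem Q_restrict [Countable I] (hk : 0 < k) (hE : E.Infinite) (h : Cent K E x T)
    {t : ℝ} {m n : ℕ} {ι : Fin n → I} (hι : Good E ι) (f : Fin m ↪ Fin n) {F : Ω → ℝ}
    (hF : AB μ F) (hFm : StronglyMeasurable[K.H (Set.range (fun i => ι (f i)))] F) (G : Ω → ℝ) :
    Q Φ E x T T' t ι F G = Q Φ E x T T' t (fun i => ι (f i)) F G := by
  classical
  have hFJ : StronglyMeasurable[K.J E {Set.range (fun i => ι (f i))}] F := by
    rw [K.J_singleton]
    exact hFm.mono (K.mono Set.subset_union_left)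
  let e : (Fin k → Fin m) ↪ (Fin k → Fin n) :=
    ⟨fun a i => f (a i), fun a b hab => by
      funext i; exact f.injective (congrFun hab i)⟩
  have h1 : ∀ c : Fin n → Fin k, Qc Φ E x T T' t ι F G (sec c)
      = Qc Φ E x T T' t (fun i => ι (f i)) F G (sec (fun i => c (f i))) := by
    intro c
    unfold Qc
    have hsub : ((sec (fun i => c (f i))).map e).powerset ⊆ (sec c).powerset := by
      apply Finset.powerset_mono.2
      intro a ha
      rw [Finset.mem_map] at ha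
      obtain ⟨b, hb, rfl⟩ := ha
      rw [mem_sec] at hb ⊢
      exact hb
    rw [← Finset.sum_subset hsub]
    · symm
      apply Finset.sum_nbij (fun ℬ => ℬ.map e)
      · intro ℬ hℬ
        rw [Finset.mem_powerset] at hℬ ⊢
        exact Finset.map_subset_map.2 hℬ
      · intro ℬ _ ℬ' _ he
        exact Finset.map_injective e he
      · intro ℬ hℬ
        rw [Finset.mem_coe, Finset.mem_powerset, Finset.subset_map_iff] at hℬ
        obtain ⟨u, hu, rfl⟩ := hℬ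
        exact ⟨u, by rw [Finset.mem_coe, Finset.mem_powerset]; exact hu, rfl⟩
      · intro ℬ _
        rw [Finset.card_map]
        unfold mom
        simp only [Finset.prod_map]
        rfl
    · intro ℬ hℬ hn
      rw [Finset.mem_powerset] at hℬ hn
      rw [Finset.not_subset] at hn
      obtain ⟨a, ha, hna⟩ := hn
      rw [mom_zero hE h hι hℬ hF hFJ ha]
      · ring
      · rintro W hW hcon
        rw [Set.mem_singleton_iff] at hW
        subst hW
        apply hna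
        have : ∀ i, ∃ j, f j = a i := by
          intro i
          obtain ⟨j, hj⟩ := hcon ⟨i, rfl⟩
          exact ⟨j, hι.1 hj⟩
        choose b hb using this
        rw [Finset.mem_map]
        refine ⟨b, ?_, funext hb⟩
        rw [mem_sec]
        intro i
        rw [hb, (mem_sec.1 (hℬ ha)) i]
  unfold Q
  simp only [h1]
  rw [sum_comp_emb f (fun c => Qc Φ E x T T' t (fun i => ι (f i)) F G (sec c)), ← mul_assoc]
  congr 1
  have hmn : m ≤ n := by simpa using Fintype.card_le_of_embedding f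
  have hk' : (k : ℝ) ≠ 0 := by exact_mod_cast hk.ne'
  rw [inv_mul_eq_div, div_eq_iff (pow_ne_zero _ hk'), inv_mul_eq_div, eq_div_iff (pow_ne_zero _ hk'),
    ← pow_add]
  congr 1
  omega

omit [IsProbabilityMeasure μ] in
theorem mom_shift (h : Cent K E x T) {n : ℕ} {ι : Fin n → I} (hι : Good E ι)
    {σ : I ↪ I} (hσ : ∀ e ∈ E, σ e = e) {c : Fin n → Fin k} {ℬ : Finset (Fin k → Fin n)}
    (hℬ : ℬ ⊆ sec c) {F : Ω → ℝ} (hFm : AEStronglyMeasurable F μ) :
    mom Φ E x T (fun i => σ (ι i)) (fun ω => F (Φ.τ σ ω)) ℬ = mom Φ E x T ι F ℬ := by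
  unfold mom
  have h1 : AEStronglyMeasurable
      (fun ω => F ω * ∏ a ∈ ℬ, cp Φ E x T (fun i => ι (a i)) ω) μ :=
    hFm.mul (h.prod_aesm hι hℬ)
  have h2 := integral_map (μ := μ) (Φ.mp σ).aemeasurable
    (f := fun ω => F ω * ∏ a ∈ ℬ, cp Φ E x T (fun i => ι (a i)) ω)
    (by rw [(Φ.mp σ).map_eq]; exact h1)
  rw [(Φ.mp σ).map_eq] at h2
  rw [h2]
  congr 1; ext ω
  congr 1
  apply Finset.prod_congr rfl
  intro a ha
  exact (h.cp_comp (hι.sec (hℬ ha)) hσ ω).symm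

theorem Q_shift (h : Cent K E x T) (h' : Cent K' E x T') {t : ℝ} {n : ℕ} {ι : Fin n → I}
    (hι : Good E ι) {σ : I ↪ I} (hσ : ∀ e ∈ E, σ e = e) {F G : Ω → ℝ}
    (hFm : AEStronglyMeasurable F μ) (hGm : AEStronglyMeasurable G μ) :
    Q Φ E x T T' t (fun i => σ (ι i)) (fun ω => F (Φ.τ σ ω)) (fun ω => G (Φ.τ σ ω))
      = Q Φ E x T T' t ι F G := by
  unfold Q Qc
  congr 1
  apply Finset.sum_congr rfl
  intro c _
  apply Finset.sum_congr rfl
  intro ℬ hℬ
  rw [Finset.mem_powerset] at hℬ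
  rw [mom_shift h hι hσ hℬ hFm, mom_shift h' hι hσ hℬ hGm]

theorem mom_sum (h : Cent K E x T) {n : ℕ} {ι : Fin n → I} (hι : Good E ι)
    {c : Fin n → Fin k} {ℬ : Finset (Fin k → Fin n)} (hℬ : ℬ ⊆ sec c) {β : Type*} (s : Finset β)
    {F : β → Ω → ℝ} (hF : ∀ b, AB μ (F b)) (hFm : ∀ b, AEStronglyMeasurable (F b) μ) :
    mom Φ E x T ι (fun ω => ∑ b ∈ s, F b ω) ℬ = ∑ b ∈ s, mom Φ E x T ι (F b) ℬ := by
  unfold mom
  simp only [Finset.sum_mul]
  rw [integral_finsetSum]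
  intro b _
  exact ((hF b).mul (cp_prod_AB h (fun (a : Fin k → Fin n) i => ι (a i)) ℬ)).integrable
    ((hFm b).mul (h.prod_aesm hι hℬ))

theorem Q_sum_left (h : Cent K E x T) {t : ℝ} {n : ℕ} {ι : Fin n → I} (hι : Good E ι)
    {β : Type*} (s : Finset β) {F : β → Ω → ℝ} (hF : ∀ b, AB μ (F b))
    (hFm : ∀ b, AEStronglyMeasurable (F b) μ) (G : Ω → ℝ) :
    Q Φ E x T T' t ι (fun ω => ∑ b ∈ s, F b ω) G = ∑ b ∈ s, Q Φ E x T T' t ι (F b) G := by
  unfold Q
  rw [← Finset.mul_sum, Finset.sum_comm]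
  congr 1
  apply Finset.sum_congr rfl
  intro c _
  unfold Qc
  rw [Finset.sum_comm]
  apply Finset.sum_congr rfl
  intro ℬ hℬ
  rw [Finset.mem_powerset] at hℬ
  rw [mom_sum h hι hℬ s hF hFm, Finset.sum_mul, Finset.mul_sum]

theorem Q_sum_right (h' : Cent K' E x T') {t : ℝ} {n : ℕ} {ι : Fin n → I} (hι : Good E ι)
    {β : Type*} (s : Finset β) (F : Ω → ℝ) {G : β → Ω → ℝ} (hG : ∀ b, AB μ (G b))
    (hGm : ∀ b, AEStronglyMeasurable (G b) μ) :
    Q Φ E x T T' t ι F (fun ω => ∑ b ∈ s, G b ω) = ∑ b ∈ s, Q Φ E x T T' t ι F (G b) := by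
  unfold Q
  rw [← Finset.mul_sum, Finset.sum_comm]
  congr 1
  apply Finset.sum_congr rfl
  intro c _
  unfold Qc
  rw [Finset.sum_comm]
  apply Finset.sum_congr rfl
  intro ℬ hℬ
  rw [Finset.mem_powerset] at hℬ
  rw [mom_sum h' hι hℬ s hG hGm, Finset.mul_sum, Finset.mul_sum]

end

end Coup
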