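import Pool.Agent.Work.MP_e8a478_co.MemHom

/-!
# Unique coupleability and arbitrary consistent families (MP_e8a478_co)
-/

set_option autoImplicit false

open Filter Topology Classical

namespace Pool.MP_e8a478_co

variable {L L₁ L₂ : Lang}

theorem fst_pull {V W : Type} (S : Str (L₁.sum L₂) V) (f : W → V) :
    (S.pull f).fst = S.fst.pull f := rfl

theorem snd_pull {V W : Type} (S : Str (L₁.sum L₂) V) (f : W → V) :
    (S.pull f).snd = S.snd.pull f := rfl

theorem sum_marg₁ (ξ : Fam (L₁.sum L₂)) (n : ℕ) (G : Str L₁ (Fin n) → ℝ) :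
    ∑ N : Str (L₁.sum L₂) (Fin n), ξ n N * G N.fst = ∑ K : Str L₁ (Fin n), marg₁ ξ n K * G K := by
  unfold marg₁
  simp_rw [Finset.sum_mul]
  rw [Finset.sum_comm]
  refine Finset.sum_congr rfl fun N _ => ?_
  simp [ite_mul]

theorem sum_marg₂ (ξ : Fam (L₁.sum L₂)) (n : ℕ) (G : Str L₂ (Fin n) → ℝ) :
    ∑ N : Str (L₁.sum L₂) (Fin n), ξ n N * G N.snd = ∑ K : Str L₂ (Fin n), marg₂ ξ n K * G K := by
  unfold marg₂
  simp_rw [Finset.sum_mul]
  rw [Finset.sum_comm]
  refine Finset.sum_congr rfl fun N _ => ?_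
  simp [ite_mul]

theorem marg₁_dens {m n : ℕ} (N : Str (L₁.sum L₂) (Fin n)) (M : Str L₁ (Fin m)) :
    ∑ S : Str (L₁.sum L₂) (Fin m), (if S.fst = M then dens S N else 0) = dens M N.fst := by
  simp_rw [dens_eq, hit]
  have : ∀ S : Str (L₁.sum L₂) (Fin m),
      (if S.fst = M then (∑ f : Fin m ↪ Fin n, if N.pull f = S then (1 : ℝ) else 0) /
        (Fintype.card (Fin m ↪ Fin n) : ℝ) else 0) =
      (∑ f : Fin m ↪ Fin n, if N.pull f = S then (if S.fst = M then (1 : ℝ) else 0) else 0) /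
        (Fintype.card (Fin m ↪ Fin n) : ℝ) := by
    intro S
    split_ifs with h
    · rfl
    · simp
  simp_rw [this]
  rw [← Finset.sum_div, Finset.sum_comm]
  congr 1
  refine Finset.sum_congr rfl fun f _ => ?_
  simp only [Finset.sum_ite_eq, Finset.mem_univ, if_true]
  rw [fst_pull]

theorem marg₂_dens {m n : ℕ} (N : Str (L₁.sum L₂) (Fin n)) (M : Str L₂ (Fin m)) :
    ∑ S : Str (L₁.sum L₂) (Fin m), (if S.snd = M then dens S N else 0) = dens M N.snd := by
  simp_rw [dens_eq, hit]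
  have : ∀ S : Str (L₁.sum L₂) (Fin m),
      (if S.snd = M then (∑ f : Fin m ↪ Fin n, if N.pull f = S then (1 : ℝ) else 0) /
        (Fintype.card (Fin m ↪ Fin n) : ℝ) else 0) =
      (∑ f : Fin m ↪ Fin n, if N.pull f = S then (if S.snd = M then (1 : ℝ) else 0) else 0) /
        (Fintype.card (Fin m ↪ Fin n) : ℝ) := by
    intro S
    split_ifs with h
    · rfl
    · simp
  simp_rw [this]
  rw [← Finset.sum_div, Finset.sum_comm]
  congr 1
  refine Finset.sum_congr rfl fun f _ => ?_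
  simp only [Finset.sum_ite_eq, Finset.mem_univ, if_true]
  rw [snd_pull]

theorem marg₁_ne_zero {ξ : Fam (L₁.sum L₂)} (h : Consistent ξ) {n : ℕ}
    {N : Str (L₁.sum L₂) (Fin n)} (hN : ξ n N ≠ 0) : marg₁ ξ n N.fst ≠ 0 := by
  have h1 : ξ n N ≤ marg₁ ξ n N.fst := by
    unfold marg₁
    calc ξ n N = if N.fst = N.fst then ξ n N else 0 := by simp
      _ ≤ _ := Finset.single_le_sum (f := fun S : Str (L₁.sum L₂) (Fin n) =>
          if S.fst = N.fst then ξ n S else 0) (fun S _ => by split_ifs; exacts [h.nonneg n S, le_rfl])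
          (Finset.mem_univ N)
  have h2 : 0 < ξ n N := lt_of_le_of_ne (h.nonneg n N) hN.symm
  linarith

theorem marg₂_ne_zero {ξ : Fam (L₁.sum L₂)} (h : Consistent ξ) {n : ℕ}
    {N : Str (L₁.sum L₂) (Fin n)} (hN : ξ n N ≠ 0) : marg₂ ξ n N.snd ≠ 0 := by
  have h1 : ξ n N ≤ marg₂ ξ n N.snd := by
    unfold marg₂
    calc ξ n N = if N.snd = N.snd then ξ n N else 0 := by simp
      _ ≤ _ := Finset.single_le_sum (f := fun S : Str (L₁.sum L₂) (Fin n) =>
          if S.snd = N.snd then ξ n S else 0) (fun S _ => by split_ifs; exacts [h.nonneg n S, le_rfl])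
          (Finset.mem_univ N)
  have h2 : 0 < ξ n N := lt_of_le_of_ne (h.nonneg n N) hN.symm
  linarith

/-- Sequential compactness of the space of density families. -/
theorem exists_subseq (L : Lang) (n : ℕ → ℕ) (N : ∀ j, Str L (Fin (n j))) :
    ∃ (ξ : Fam L) (g : ℕ → ℕ), StrictMono g ∧
      ∀ (m : ℕ) (M : Str L (Fin m)), Tendsto (fun j => dens M (N (g j))) atTop (𝓝 (ξ m M)) := by
  let K : Set (Fam L) := Set.pi Set.univ fun m => Set.pi Set.univ fun _ => Set.Icc (0 : ℝ) 1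
  have hK : IsCompact K := isCompact_univ_pi fun m => isCompact_univ_pi fun _ => isCompact_Icc
  let x : ℕ → Fam L := fun j m M => dens M (N j)
  have hx : ∀ j, x j ∈ K := fun j m _ M _ => ⟨dens_nonneg M (N j), dens_le_one M (N j)⟩
  obtain ⟨ξ, -, g, hg, hlim⟩ := hK.tendsto_subseq hx
  refine ⟨ξ, g, hg, fun m M => ?_⟩
  have h1 := tendsto_pi_nhds.1 hlim m
  exact tendsto_pi_nhds.1 h1 M

theorem ucLaw : UcLaw := by
  intro L₁ L₂ T₁ T₂ φ₁ φ₂ ξ hc₁ hd₁ hs₁ hc₂ hd₂ hs₂ huc hξ hm₁ hm₂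
  by_contra hne
  obtain ⟨m, M, hM⟩ : ∃ (m : ℕ) (M : Str (L₁.sum L₂) (Fin m)), ξ m M ≠ indep φ₁ φ₂ m M := by
    by_contra hcon
    push Not at hcon
    exact hne (funext fun m => funext fun M => hcon m M)
  set p : ℝ := indep φ₁ φ₂ m M with hp
  set d : ℝ := ξ m M - p with hd
  have hd0 : d ≠ 0 := sub_ne_zero.2 hM
  have hp01 : 0 ≤ p ∧ p ≤ 1 := by
    rw [hp]; unfold indep
    exact ⟨mul_nonneg (hc₁.nonneg _ _) (hc₂.nonneg _ _),
      mul_le_one₀ (hc₁.le_one _ _) (hc₂.nonneg _ _) (hc₂.le_one _ _)⟩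
  -- a sign
  obtain ⟨s, hs, hsd⟩ : ∃ s : ℝ, |s| = 1 ∧ s * d = |d| := by
    rcases lt_or_gt_of_ne hd0 with h | h
    · exact ⟨-1, by norm_num, by rw [abs_of_neg h]; ring⟩
    · exact ⟨1, by norm_num, by rw [abs_of_pos h]; ring⟩
  have hdpos : 0 < |d| := abs_pos.2 hd0
  have key : ∀ j : ℕ, ∃ n : ℕ, j ≤ n ∧ ∃ N : Str (L₁.sum L₂) (Fin n),
      N ∈ (T₁.union T₂).mod n ∧ dev φ₁ j N.fst < 1 ∧ dev φ₂ j N.snd < 1 ∧
        |d| / 2 ≤ |dens M N - p| := by
    intro j
    obtain ⟨n, hn1, hn2, hn3⟩ : ∃ n : ℕ, j + m + 1 ≤ n ∧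
        16 * devC L₁ j < n * |d| ∧ 16 * devC L₂ j < n * |d| := by
      obtain ⟨k, hk⟩ := exists_nat_gt (16 * devC L₁ j / |d|)
      obtain ⟨l, hl⟩ := exists_nat_gt (16 * devC L₂ j / |d|)
      refine ⟨j + m + 1 + k + l, by omega, ?_, ?_⟩
      · rw [div_lt_iff₀ hdpos] at hk
        refine hk.trans_le (mul_le_mul_of_nonneg_right ?_ hdpos.le)
        push_cast
        have : (0 : ℝ) ≤ j + m + 1 + l := by positivity
        linarith
      · rw [div_lt_iff₀ hdpos] at hl
        refine hl.trans_le (mul_le_mul_of_nonneg_right ?_ hdpos.le)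
        push_cast
        have : (0 : ℝ) ≤ j + m + 1 + k := by positivity
        linarith
    have hn0 : 0 < n := by omega
    have hnR : (0 : ℝ) < n := by exact_mod_cast hn0
    have e1 := sum_dev_le hc₁ hd₁ hn0 (show j ≤ n by omega)
    have e2 := sum_dev_le hc₂ hd₂ hn0 (show j ≤ n by omega)
    have f1 : devC L₁ j / n < |d| / 16 := by
      rw [div_lt_iff₀ hnR]; linarith
    have f2 : devC L₂ j / n < |d| / 16 := by
      rw [div_lt_iff₀ hnR]; linarith
    have g1 : ∑ N : Str (L₁.sum L₂) (Fin n), ξ n N * dev φ₁ j N.fst ≤ devC L₁ j / n := by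
      rw [sum_marg₁ ξ n (fun K => dev φ₁ j K), hm₁]; exact e1
    have g2 : ∑ N : Str (L₁.sum L₂) (Fin n), ξ n N * dev φ₂ j N.snd ≤ devC L₂ j / n := by
      rw [sum_marg₂ ξ n (fun K => dev φ₂ j K), hm₂]; exact e2
    have g3 : ∑ N : Str (L₁.sum L₂) (Fin n), ξ n N * dens M N = ξ m M :=
      hξ.sum_dens (by omega) M
    obtain ⟨N, hN1, hN2⟩ := exists_neg hξ
      (fun N => 2 * dev φ₁ j N.fst + 2 * dev φ₂ j N.snd - s * (dens M N - p) + |d| / 2) (by
        have : ∀ N : Str (L₁.sum L₂) (Fin n), ξ n N *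
            (2 * dev φ₁ j N.fst + 2 * dev φ₂ j N.snd - s * (dens M N - p) + |d| / 2) =
            2 * (ξ n N * dev φ₁ j N.fst) + 2 * (ξ n N * dev φ₂ j N.snd)
              - s * (ξ n N * dens M N) + (s * p + |d| / 2) * ξ n N := fun N => by ring
        rw [Finset.sum_congr rfl fun N _ => this N]
        rw [Finset.sum_add_distrib, Finset.sum_sub_distrib, Finset.sum_add_distrib,
          ← Finset.mul_sum, ← Finset.mul_sum, ← Finset.mul_sum, ← Finset.mul_sum, g3,
          hξ.total_all n]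
        have : s * ξ m M = s * p + |d| := by rw [← hsd, hd]; ring
        rw [this]
        linarith)
    have q1 : 0 ≤ dev φ₁ j N.fst := dev_nonneg _ _ _
    have q2 : 0 ≤ dev φ₂ j N.snd := dev_nonneg _ _ _
    have q3 : |d| / 2 < s * (dens M N - p) := by linarith
    have q4 : s * (dens M N - p) ≤ |dens M N - p| := by
      calc s * (dens M N - p) ≤ |s * (dens M N - p)| := le_abs_self _
        _ = |dens M N - p| := by rw [abs_mul, hs, one_mul]
    have q5 : |dens M N - p| ≤ 1 := by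
      rw [abs_le]
      constructor <;> linarith [dens_nonneg M N, dens_le_one M N, hp01.1, hp01.2]
    refine ⟨n, by omega, N, ⟨?_, ?_⟩, by linarith, by linarith, by linarith⟩
    · refine hs₁ n _ ?_
      rw [← hm₁]; exact marg₁_ne_zero hξ hN1
    · refine hs₂ n _ ?_
      rw [← hm₂]; exact marg₂_ne_zero hξ hN1
  choose n hn N hN hdev₁ hdev₂ hfar using key
  obtain ⟨ζ, g, hg, hlim⟩ := exists_subseq (L₁.sum L₂) n N
  have hgid : ∀ j, j ≤ g j := fun j => hg.id_le j
  -- densities of the reducts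
  have lim₁ : ∀ (k : ℕ) (K : Str L₁ (Fin k)),
      Tendsto (fun j => dens K (N (g j)).fst) atTop (𝓝 (φ₁ k K)) := by
    intro k K
    rw [tendsto_iff_norm_sub_tendsto_zero]
    refine squeeze_zero' (Eventually.of_forall fun j => norm_nonneg _) ?_
      (tendsto_one_div_add_atTop_nhds_zero_nat (𝕜 := ℝ))
    filter_upwards [eventually_ge_atTop k] with j hj
    rw [Real.norm_eq_abs]
    refine (dens_close_of_dev (hdev₁ (g j)) (hj.trans (hgid j)) K).le.trans ?_
    have : (j : ℝ) ≤ g j := by exact_mod_cast hgid j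
    gcongr
  have lim₂ : ∀ (k : ℕ) (K : Str L₂ (Fin k)),
      Tendsto (fun j => dens K (N (g j)).snd) atTop (𝓝 (φ₂ k K)) := by
    intro k K
    rw [tendsto_iff_norm_sub_tendsto_zero]
    refine squeeze_zero' (Eventually.of_forall fun j => norm_nonneg _) ?_
      (tendsto_one_div_add_atTop_nhds_zero_nat (𝕜 := ℝ))
    filter_upwards [eventually_ge_atTop k] with j hj
    rw [Real.norm_eq_abs]
    refine (dens_close_of_dev (hdev₂ (g j)) (hj.trans (hgid j)) K).le.trans ?_
    have : (j : ℝ) ≤ g j := by exact_mod_cast hgid j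
    gcongr
  have hζ : IsCoupling T₁ T₂ φ₁ φ₂ ζ := by
    refine ⟨⟨fun j => n (g j), fun j => N (g j), ?_, fun j => hN (g j), hlim⟩, ?_, ?_⟩
    · exact tendsto_atTop_mono (fun j => (hgid j).trans (hn (g j))) tendsto_id
    · funext k K
      have h1 : Tendsto (fun j => ∑ S : Str (L₁.sum L₂) (Fin k),
          (if S.fst = K then dens S (N (g j)) else 0)) atTop (𝓝 (marg₁ ζ k K)) := by
        unfold marg₁
        refine tendsto_finsetSum _ fun S _ => ?_
        split_ifs
        · exact hlim k S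
        · exact tendsto_const_nhds
      simp_rw [marg₁_dens] at h1
      exact tendsto_nhds_unique h1 (lim₁ k K)
    · funext k K
      have h1 : Tendsto (fun j => ∑ S : Str (L₁.sum L₂) (Fin k),
          (if S.snd = K then dens S (N (g j)) else 0)) atTop (𝓝 (marg₂ ζ k K)) := by
        unfold marg₂
        refine tendsto_finsetSum _ fun S _ => ?_
        split_ifs
        · exact hlim k S
        · exact tendsto_const_nhds
      simp_rw [marg₂_dens] at h1
      exact tendsto_nhds_unique h1 (lim₂ k K)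
  have hζ' : ζ = indep φ₁ φ₂ := (huc ζ).1 hζ
  have h2 : Tendsto (fun j => |dens M (N (g j)) - p|) atTop (𝓝 |ζ m M - p|) :=
    ((hlim m M).sub_const p).abs
  have h3 : |d| / 2 ≤ |ζ m M - p| := ge_of_tendsto' h2 fun j => hfar (g j)
  rw [hζ', ← hp, sub_self, abs_zero] at h3
  linarith

end Pool.MP_e8a478_co
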