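import Pool.Agent.Work.MP_e8a478_co.Link
import Pool.Agent.Work.MP_e8a478_co.UcLaw
import Pool.Agent.Work.MP_e8a478_co.MainAbs

/-!
# Unique coupleability makes the perturbed laws products (MP_e8a478_co)
-/

set_option autoImplicit false

open Filter Topology Classical MeasureTheory ProbabilityTheory

namespace Pool.MP_e8a478_co

variable {L A B : Lang} {I : Type}

/-- the indicator of a labelled pattern of a reduct -/
noncomputable def ind (R : Red L A) {n : ℕ} (ι : Fin n → I) (M : Str A (Fin n)) :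
    Str L I → ℝ := fun ω => if (R.r ω).pull ι = M then 1 else 0

theorem ind_bd (R : Red L A) {n : ℕ} (ι : Fin n → I) (M : Str A (Fin n)) (ω : Str L I) :
    |ind R ι M ω| ≤ 1 := by
  unfold ind
  split_ifs <;> simp

theorem ind_nonneg (R : Red L A) {n : ℕ} (ι : Fin n → I) (M : Str A (Fin n)) (ω : Str L I) :
    0 ≤ ind R ι M ω := by
  unfold ind
  split_ifs <;> simp

theorem ind_set (R : Red L A) {n : ℕ} (ι : Fin n → I) (M : Str A (Fin n)) :
    MeasurableSet[HR R (Set.range ι)] {ω : Str L I | (R.r ω).pull ι = M} := by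
  rw [measurableSet_HR]
  refine ⟨{N | N.pull (fun i => (⟨ι i, ⟨i, rfl⟩⟩ : Set.range ι)) = M}, ?_, rfl⟩
  exact D.measurable_pull _ (measurableSet_singleton M)

theorem ind_meas (R : Red L A) {n : ℕ} (ι : Fin n → I) (M : Str A (Fin n)) :
    StronglyMeasurable[HR R (Set.range ι)] (ind R ι M) := by
  have h : ind R ι M = {ω : Str L I | (R.r ω).pull ι = M}.indicator (fun _ => (1:ℝ)) := by
    funext ω
    unfold ind
    by_cases h : (R.r ω).pull ι = M
    · rw [if_pos h, Set.indicator_of_mem (by exact h)]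
    · rw [if_neg h, Set.indicator_of_notMem (by exact h)]
  rw [h]
  exact stronglyMeasurable_const.indicator (ind_set R ι M)

theorem ind_sum (R : Red L A) {m n : ℕ} (ι : Fin n → I) (f : Fin m → Fin n)
    (M : Str A (Fin m)) (ω : Str L I) :
    ∑ N : Str A (Fin n), (if N.pull f = M then ind R ι N ω else 0)
      = ind R (fun i => ι (f i)) M ω := by
  unfold ind
  have h : ∀ N : Str A (Fin n), (if N.pull f = M then (if (R.r ω).pull ι = N then (1:ℝ) else 0)
      else 0) = if (R.r ω).pull ι = N then (if N.pull f = M then (1:ℝ) else 0) else 0 := by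
    intro N
    split_ifs <;> rfl
  rw [Finset.sum_congr rfl fun N _ => h N, Finset.sum_ite_eq]
  simp only [Finset.mem_univ, if_true]
  rfl

theorem ind_sum_one (R : Red L A) {n : ℕ} (ι : Fin n → I) (ω : Str L I) :
    ∑ N : Str A (Fin n), ind R ι N ω = 1 := by
  unfold ind
  rw [Finset.sum_ite_eq]
  simp

section

variable {ξ : Fam L} {hξ : Consistent ξ} {μ : Measure (Str L I)} [IsProbabilityMeasure μ]
  {hμ : IsLaw ξ μ}

omit [IsProbabilityMeasure μ] in
theorem ind_AB (R : Red L A) {n : ℕ} (ι : Fin n → I) (M : Str A (Fin n)) :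
    Coup.AB μ (ind R ι M) := Coup.AB.of_bdd (ind_bd R ι M)

omit [IsProbabilityMeasure μ] in
theorem ind_aesm (R : Red L A) {n : ℕ} (ι : Fin n → I) (M : Str A (Fin n)) :
    AEStronglyMeasurable (ind R ι M) μ :=
  ((ind_meas R ι M).mono (HR_le R _)).aestronglyMeasurable

omit [IsProbabilityMeasure μ] in
theorem ind_integral (hξ : Consistent ξ) (hμ : IsLaw ξ μ) (R : Red L A) {n : ℕ} (ι : Fin n ↪ I)
    (M : Str A (Fin n)) :
    ∫ ω, ind R ι M ω ∂μ = push R ξ n M := by
  have h1 := (IsLaw.push R hξ hμ) n ι M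
  rw [Measure.map_apply (R.meas I) (D.measurableSet_cyl _ _)] at h1
  have hm : MeasurableSet {ω : Str L I | (R.r ω).pull ι = M} := HR_le R _ _ (ind_set R ι M)
  have h : ind R ι M = {ω : Str L I | (R.r ω).pull ι = M}.indicator (fun _ => (1:ℝ)) := by
    funext ω
    unfold ind
    by_cases h : (R.r ω).pull ι = M
    · rw [if_pos h, Set.indicator_of_mem (by exact h)]
    · rw [if_neg h, Set.indicator_of_notMem (by exact h)]
  rw [h, integral_indicator_const _ hm, smul_eq_mul, mul_one]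
  have h2 : μ {ω : Str L I | (R.r ω).pull ι = M} = ENNReal.ofReal (push R ξ n M) := h1
  rw [Measure.real, h2, ENNReal.toReal_ofReal (push_nonneg R hξ.nonneg n M)]

/-- The perturbed family. -/
noncomputable def pert (R : Red L A) (R' : Red L B) (hξ : Consistent ξ) (hμ : IsLaw ξ μ)
    (E : Set I) {k : ℕ} (x : Fin k → I) (T T' : Str L I → ℝ) (t : ℝ)
    (e : ℕ → I) : Fam (A.sum B) := fun m S =>
  Coup.Q (flow ξ hξ μ hμ) E x T T' t (fun i : Fin m => e i) (ind R (fun i : Fin m => e i) S.fst)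
    (ind R' (fun i : Fin m => e i) S.snd)

theorem Q_shift_ind {R : Red L A} {R' : Red L B} {E : Set I} {k : ℕ} {x : Fin k → I}
    {T T' : Str L I → ℝ}
    (hC : Coup.Cent (fam (hξ := hξ) (hμ := hμ) R) E x T)
    (hC' : Coup.Cent (fam (hξ := hξ) (hμ := hμ) R') E x T') {t : ℝ} {n : ℕ}
    {ι ι' : Fin n → I} (hι : Coup.Good E ι) (hι' : Coup.Good E ι')
    (M : Str A (Fin n)) (N : Str B (Fin n)) :
    Coup.Q (flow ξ hξ μ hμ) E x T T' t ι' (ind R ι' M) (ind R' ι' N)
      = Coup.Q (flow ξ hξ μ hμ) E x T T' t ι (ind R ι M) (ind R' ι N) := by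
  obtain ⟨σ, hσ1, hσ2⟩ := Coup.exists_move hι.1 hι'.1 hι.2 hι'.2
  have h := Coup.Q_shift (t := t) hC hC' hι hσ1 (ind_aesm (μ := μ) R ι M) (ind_aesm (μ := μ) R' ι N)
  have e1 : (fun i => σ (ι i)) = ι' := funext hσ2
  have e2 : (fun ω => ind R ι M ((flow ξ hξ μ hμ).τ σ ω)) = ind R ι' M := by
    funext ω
    unfold ind
    have : (R.r ((flow ξ hξ μ hμ).τ σ ω)).pull ι = (R.r ω).pull ι' := by
      change (R.r (ω.pull σ)).pull ι = _
      rw [← R.pull, D.pull_pull, ← e1]
      rfl
    rw [this]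
  have e3 : (fun ω => ind R' ι N ((flow ξ hξ μ hμ).τ σ ω)) = ind R' ι' N := by
    funext ω
    unfold ind
    have : (R'.r ((flow ξ hξ μ hμ).τ σ ω)).pull ι = (R'.r ω).pull ι' := by
      change (R'.r (ω.pull σ)).pull ι = _
      rw [← R'.pull, D.pull_pull, ← e1]
      rfl
    rw [this]
  rw [e1, e2, e3] at h
  exact h

omit [IsProbabilityMeasure μ] in
theorem mom_smul {E : Set I} {k : ℕ} {x : Fin k → I} {T : Str L I → ℝ} {n : ℕ}
    [IsProbabilityMeasure μ] (Φ : Coup.Flow (Str L I) I μ)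
    (ι : Fin n → I) (c : ℝ) (F : Str L I → ℝ) (ℬ : Finset (Fin k → Fin n)) :
    Coup.mom Φ E x T ι (fun ω => c * F ω) ℬ = c * Coup.mom Φ E x T ι F ℬ := by
  unfold Coup.mom
  rw [← integral_const_mul]
  congr 1; ext ω; ring

theorem Q_smul_left {E : Set I} {k : ℕ} {x : Fin k → I} {T T' : Str L I → ℝ} {t : ℝ} {n : ℕ}
    (Φ : Coup.Flow (Str L I) I μ) (ι : Fin n → I) (c : ℝ) (F G : Str L I → ℝ) :
    Coup.Q Φ E x T T' t ι (fun ω => c * F ω) G = c * Coup.Q Φ E x T T' t ι F G := by
  unfold Coup.Q Coup.Qc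
  rw [mul_left_comm]
  congr 1
  rw [Finset.mul_sum]
  apply Finset.sum_congr rfl
  intro d _
  rw [Finset.mul_sum]
  apply Finset.sum_congr rfl
  intro ℬ _
  rw [mom_smul]; ring

theorem Q_smul_right {E : Set I} {k : ℕ} {x : Fin k → I} {T T' : Str L I → ℝ} {t : ℝ} {n : ℕ}
    (Φ : Coup.Flow (Str L I) I μ) (ι : Fin n → I) (c : ℝ) (F G : Str L I → ℝ) :
    Coup.Q Φ E x T T' t ι F (fun ω => c * G ω) = c * Coup.Q Φ E x T T' t ι F G := by
  unfold Coup.Q Coup.Qc
  rw [mul_left_comm]
  congr 1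
  rw [Finset.mul_sum]
  apply Finset.sum_congr rfl
  intro d _
  rw [Finset.mul_sum]
  apply Finset.sum_congr rfl
  intro ℬ _
  rw [mom_smul]; ring

/-- Linear expansion in both arguments. -/
theorem Q_expand {R : Red L A} {R' : Red L B} {E : Set I} {k : ℕ} {x : Fin k → I}
    {T T' : Str L I → ℝ}
    (hC : Coup.Cent (fam (hξ := hξ) (hμ := hμ) R) E x T)
    (hC' : Coup.Cent (fam (hξ := hξ) (hμ := hμ) R') E x T') {t : ℝ} {n : ℕ}
    {ι : Fin n → I} (hι : Coup.Good E ι) (a : Str A (Fin n) → ℝ) (b : Str B (Fin n) → ℝ) :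
    Coup.Q (flow ξ hξ μ hμ) E x T T' t ι (fun ω => ∑ M, a M * ind R ι M ω)
        (fun ω => ∑ N, b N * ind R' ι N ω)
      = ∑ M, ∑ N, a M * b N *
        Coup.Q (flow ξ hξ μ hμ) E x T T' t ι (ind R ι M) (ind R' ι N) := by
  have h1 := Coup.Q_sum_left (T' := T') hC (t := t) hι Finset.univ
    (F := fun M ω => a M * ind R ι M ω)
    (fun M => (Coup.AB.of_bdd (C := |a M|) (by simp)).mul (ind_AB R ι M))
    (fun M => (ind_aesm R ι M).const_mul _) (fun ω => ∑ N, b N * ind R' ι N ω)
  rw [h1]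
  apply Finset.sum_congr rfl
  intro M _
  have h2 := Coup.Q_sum_right (T := T) hC' (t := t) hι Finset.univ
    (fun ω => a M * ind R ι M ω)
    (G := fun N ω => b N * ind R' ι N ω)
    (fun N => (Coup.AB.of_bdd (C := |b N|) (by simp)).mul (ind_AB R' ι N))
    (fun N => (ind_aesm R' ι N).const_mul _)
  rw [h2]
  apply Finset.sum_congr rfl
  intro N _
  rw [Q_smul_right, Q_smul_left]
  ring

theorem sum_ind_ite (R : Red L A) {m n : ℕ} (ι : Fin n → I) (f : Fin m → Fin n)
    (M : Str A (Fin m)) (ω : Str L I) :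
    ∑ N : Str A (Fin n), (if N.pull f = M then (1:ℝ) else 0) * ind R ι N ω
      = ind R (fun i => ι (f i)) M ω := by
  rw [← ind_sum R ι f M ω]
  apply Finset.sum_congr rfl
  intro N _
  split_ifs <;> simp

theorem pert_consistent [Countable I] {R : Red L A} {R' : Red L B} {E : Set I}
    (hE : E.Infinite) {k : ℕ} (hk : 0 < k) {x : Fin k → I} {T T' : Str L I → ℝ}
    (hC : Coup.Cent (fam (hξ := hξ) (hμ := hμ) R) E x T)
    (hC' : Coup.Cent (fam (hξ := hξ) (hμ := hμ) R') E x T') {t : ℝ} (ht : |t| ≤ 1)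
    {e : ℕ → I} (he : Function.Injective e) (heE : ∀ i, e i ∉ E) :
    Consistent (pert R R' hξ hμ E x T T' t e) := by
  have hgood : ∀ m, Coup.Good E (fun i : Fin m => e i) := fun m =>
    ⟨fun i j h => Fin.ext (he h), fun i => heE i⟩
  refine ⟨?_, ?_, ?_⟩
  · intro m M
    exact Coup.Q_nonneg hC hC' ht (hgood m) (ind_AB _ _ _) (ind_AB _ _ _) (ind_aesm _ _ _)
      (ind_aesm _ _ _) (ind_nonneg _ _ _) (ind_nonneg _ _ _)
  · unfold pert
    rw [sum_pair 0 (fun M N => Coup.Q (flow ξ hξ μ hμ) E x T T' t (fun i : Fin 0 => e i)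
      (ind R (fun i : Fin 0 => e i) M) (ind R' (fun i : Fin 0 => e i) N))]
    have h1 := Q_expand hC hC' (t := t) (hgood 0) (fun _ => 1) (fun _ => 1)
    simp only [one_mul] at h1
    rw [← h1]
    have e1 : (fun ω => ∑ M, ind R (fun i : Fin 0 => e i) M ω) = fun _ => (1:ℝ) :=
      funext fun ω => ind_sum_one R _ ω
    have e2 : (fun ω => ∑ M, ind R' (fun i : Fin 0 => e i) M ω) = fun _ => (1:ℝ) :=
      funext fun ω => ind_sum_one R' _ ω
    rw [e1, e2, Coup.Q_one_right hk hE hC' (hgood 0)]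
    simp
  · intro m n f S
    have e0 : ∀ N : Str (A.sum B) (Fin n), (if N.pull f = S then
        pert R R' hξ hμ E x T T' t e n N else 0)
        = (if N.fst.pull f = S.fst then (1:ℝ) else 0) * (if N.snd.pull f = S.snd then (1:ℝ) else 0)
          * Coup.Q (flow ξ hξ μ hμ) E x T T' t (fun i : Fin n => e i)
            (ind R (fun i : Fin n => e i) N.fst) (ind R' (fun i : Fin n => e i) N.snd) := by
      intro N
      have h : N.pull f = S ↔ N.fst.pull f = S.fst ∧ N.snd.pull f = S.snd := by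
        constructor
        · rintro rfl; exact ⟨rfl, rfl⟩
        · rintro ⟨h1, h2⟩
          rw [← join_eta S, ← h1, ← h2]
          exact (join_eta (N.pull f)).symm
      by_cases h1 : N.fst.pull f = S.fst <;> by_cases h2 : N.snd.pull f = S.snd <;>
        simp [h, h1, h2, pert]
    rw [Finset.sum_congr rfl (fun N _ => e0 N),
      sum_pair n (fun M N => (if M.pull f = S.fst then (1:ℝ) else 0)
        * (if N.pull f = S.snd then (1:ℝ) else 0)
          * Coup.Q (flow ξ hξ μ hμ) E x T T' t (fun i : Fin n => e i)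
            (ind R (fun i : Fin n => e i) M) (ind R' (fun i : Fin n => e i) N)),
      ← Q_expand hC hC' (t := t) (hgood n)]
    have e1 : (fun ω => ∑ M : Str A (Fin n), (if M.pull f = S.fst then (1:ℝ) else 0)
        * ind R (fun i : Fin n => e i) M ω) = ind R (fun i : Fin m => e (f i)) S.fst :=
      funext fun ω => sum_ind_ite R _ f S.fst ω
    have e2 : (fun ω => ∑ N : Str B (Fin n), (if N.pull f = S.snd then (1:ℝ) else 0)
        * ind R' (fun i : Fin n => e i) N ω) = ind R' (fun i : Fin m => e (f i)) S.snd :=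
      funext fun ω => sum_ind_ite R' _ f S.snd ω
    rw [e1, e2]
    have h3 := Coup.Q_restrict (T' := T') hk hE hC (t := t) (hgood n) f
      (F := ind R (fun i : Fin m => e (f i)) S.fst) (ind_AB _ _ _) (ind_meas R _ _)
      (ind R' (fun i : Fin m => e (f i)) S.snd)
    rw [h3]
    unfold pert
    apply Q_shift_ind hC hC' (hgood m)
    exact ⟨fun i j h => f.injective (Fin.ext (he h)), fun i => heE _⟩

theorem pert_marg₁ [Countable I] {R : Red L A} {R' : Red L B} {E : Set I}
    (hE : E.Infinite) {k : ℕ} (hk : 0 < k) {x : Fin k → I} {T T' : Str L I → ℝ}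
    (hC : Coup.Cent (fam (hξ := hξ) (hμ := hμ) R) E x T)
    (hC' : Coup.Cent (fam (hξ := hξ) (hμ := hμ) R') E x T') {t : ℝ}
    {e : ℕ → I} (he : Function.Injective e) (heE : ∀ i, e i ∉ E) :
    marg₁ (pert R R' hξ hμ E x T T' t e) = push R ξ := by
  have hgood : ∀ m, Coup.Good E (fun i : Fin m => e i) := fun m =>
    ⟨fun i j h => Fin.ext (he h), fun i => heE i⟩
  funext m M
  rw [marg₁_apply]
  have e0 : ∀ S : Str (A.sum B) (Fin m), (if S.fst = M then
      pert R R' hξ hμ E x T T' t e m S else 0)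
      = (if S.fst = M then (1:ℝ) else 0) * 1
        * Coup.Q (flow ξ hξ μ hμ) E x T T' t (fun i : Fin m => e i)
          (ind R (fun i : Fin m => e i) S.fst) (ind R' (fun i : Fin m => e i) S.snd) := by
    intro S
    by_cases h1 : S.fst = M <;> simp [h1, pert]
  rw [Finset.sum_congr rfl (fun N _ => e0 N),
    sum_pair m (fun K N => (if K = M then (1:ℝ) else 0) * 1
        * Coup.Q (flow ξ hξ μ hμ) E x T T' t (fun i : Fin m => e i)
          (ind R (fun i : Fin m => e i) K) (ind R' (fun i : Fin m => e i) N)),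
    ← Q_expand hC hC' (t := t) (hgood m)]
  have e1 : (fun ω => ∑ K : Str A (Fin m), (if K = M then (1:ℝ) else 0)
      * ind R (fun i : Fin m => e i) K ω) = ind R (fun i : Fin m => e i) M := by
    funext ω
    simp
  have e2 : (fun ω => ∑ N : Str B (Fin m), 1 * ind R' (fun i : Fin m => e i) N ω)
      = fun _ => (1:ℝ) := by
    funext ω
    simp only [one_mul]
    exact ind_sum_one R' _ ω
  rw [e1, e2, Coup.Q_one_right hk hE hC' (hgood m)]
  exact ind_integral hξ hμ R ⟨fun i : Fin m => e i, (hgood m).1⟩ M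

theorem pert_marg₂ [Countable I] {R : Red L A} {R' : Red L B} {E : Set I}
    (hE : E.Infinite) {k : ℕ} (hk : 0 < k) {x : Fin k → I} {T T' : Str L I → ℝ}
    (hC : Coup.Cent (fam (hξ := hξ) (hμ := hμ) R) E x T)
    (hC' : Coup.Cent (fam (hξ := hξ) (hμ := hμ) R') E x T') {t : ℝ}
    {e : ℕ → I} (he : Function.Injective e) (heE : ∀ i, e i ∉ E) :
    marg₂ (pert R R' hξ hμ E x T T' t e) = push R' ξ := by
  have hgood : ∀ m, Coup.Good E (fun i : Fin m => e i) := fun m =>
    ⟨fun i j h => Fin.ext (he h), fun i => heE i⟩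
  funext m M
  rw [marg₂_apply]
  have e0 : ∀ S : Str (A.sum B) (Fin m), (if S.snd = M then
      pert R R' hξ hμ E x T T' t e m S else 0)
      = 1 * (if S.snd = M then (1:ℝ) else 0)
        * Coup.Q (flow ξ hξ μ hμ) E x T T' t (fun i : Fin m => e i)
          (ind R (fun i : Fin m => e i) S.fst) (ind R' (fun i : Fin m => e i) S.snd) := by
    intro S
    by_cases h1 : S.snd = M <;> simp [h1, pert]
  rw [Finset.sum_congr rfl (fun N _ => e0 N),
    sum_pair m (fun K N => 1 * (if N = M then (1:ℝ) else 0)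
        * Coup.Q (flow ξ hξ μ hμ) E x T T' t (fun i : Fin m => e i)
          (ind R (fun i : Fin m => e i) K) (ind R' (fun i : Fin m => e i) N)),
    ← Q_expand hC hC' (t := t) (hgood m)]
  have e1 : (fun ω => ∑ K : Str A (Fin m), 1 * ind R (fun i : Fin m => e i) K ω)
      = fun _ => (1:ℝ) := by
    funext ω
    simp only [one_mul]
    exact ind_sum_one R _ ω
  have e2 : (fun ω => ∑ N : Str B (Fin m), (if N = M then (1:ℝ) else 0)
      * ind R' (fun i : Fin m => e i) N ω) = ind R' (fun i : Fin m => e i) M := by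
    funext ω
    simp
  rw [e1, e2, Coup.Q_one_left hk hE hC (hgood m)]
  exact ind_integral hξ hμ R' ⟨fun i : Fin m => e i, (hgood m).1⟩ M

/-- A function of the reduct on the range of `ι` is a combination of indicators. -/
theorem exists_coeff [Nonempty (Str L I)] (R : Red L A) {n : ℕ} (ι : Fin n → I) {F : Str L I → ℝ}
    (hF : StronglyMeasurable[HR R (Set.range ι)] F) :
    ∃ a : Str A (Fin n) → ℝ, F = fun ω => ∑ M, a M * ind R ι M ω := by
  have hfac : ∀ ω ω' : Str L I, (R.r ω).pull ι = (R.r ω').pull ι → F ω = F ω' := by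
    intro ω ω' h
    have hs : MeasurableSet[HR R (Set.range ι)] (F ⁻¹' {F ω'}) :=
      hF.measurable (measurableSet_singleton _)
    rw [measurableSet_HR] at hs
    obtain ⟨C, _, hC⟩ := hs
    have h1 : ω' ∈ F ⁻¹' {F ω'} := rfl
    rw [← hC] at h1
    have h2 : (R.r ω).pull (Subtype.val : Set.range ι → I)
        = (R.r ω').pull (Subtype.val : Set.range ι → I) := by
      have hg : ∀ v : Set.range ι, ∃ i, ι i = v.1 := fun v => v.2
      choose g hg using hg
      have h3 : (Subtype.val : Set.range ι → I) = ι ∘ g := funext fun v => (hg v).symm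
      rw [h3, ← D.pull_pull, ← D.pull_pull, h]
    have h3 : ω ∈ (fun S : Str L I => (R.r S).pull (Subtype.val : Set.range ι → I)) ⁻¹' C := by
      rw [Set.mem_preimage, h2]; exact h1
    rw [hC] at h3
    exact h3
  refine ⟨fun M => if h : ∃ ω : Str L I, (R.r ω).pull ι = M then F h.choose else 0, ?_⟩
  funext ω
  rw [Finset.sum_eq_single ((R.r ω).pull ι)]
  · have h : ∃ ω' : Str L I, (R.r ω').pull ι = (R.r ω).pull ι := ⟨ω, rfl⟩
    beta_reduce
    rw [dif_pos h]
    simp only [ind, if_true, mul_one]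
    exact hfac _ _ h.choose_spec.symm
  · intro M _ hM
    simp [ind, hM.symm]
  · intro h; exact absurd (Finset.mem_univ _) h

/-- Unique coupleability of the two marginals makes the pair of families rigid. -/
theorem rigid_of_uc [Countable I] {R : Red L A} {R' : Red L B} {E : Set I}
    (hE : E.Infinite) (hE' : Eᶜ.Infinite) (T₁ : Theory A) (T₂ : Theory B)
    (hd₁ : Dissociated (push R ξ)) (hs₁ : Supported T₁ (push R ξ))
    (hd₂ : Dissociated (push R' ξ)) (hs₂ : Supported T₂ (push R' ξ))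
    (huc : UC T₁ T₂ (push R ξ) (push R' ξ)) :
    Coup.Rigid (fam (hξ := hξ) (hμ := hμ) R) (fam (hξ := hξ) (hμ := hμ) R') E := by
  intro k x T T' hk hC hC' t ht0 ht1 n ι hι F G _ hFm _ hGm
  have ht : |t| ≤ 1 := by rw [abs_of_nonneg ht0]; exact ht1
  -- the reference embedding
  let e : ℕ → I := fun i => (hE'.natEmbedding _ i : I)
  have he : Function.Injective e := fun i j h =>
    (hE'.natEmbedding _).injective (Subtype.ext h)
  have heE : ∀ i, e i ∉ E := fun i => (hE'.natEmbedding _ i).2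
  have hcons := pert_consistent hE hk hC hC' ht he heE
  have hprod := ucLaw A B T₁ T₂ (push R ξ) (push R' ξ) (pert R R' hξ hμ E x T T' t e)
    (Consistent.push R hξ) hd₁ hs₁ (Consistent.push R' hξ) hd₂ hs₂ huc hcons
    (pert_marg₁ hE hk hC hC' he heE) (pert_marg₂ hE hk hC hC' he heE)
  have hgood : Coup.Good E (fun i : Fin n => e i) :=
    ⟨fun i j h => Fin.ext (he h), fun i => heE i⟩
  have hind : ∀ (M : Str A (Fin n)) (N : Str B (Fin n)),
      Coup.Q (flow ξ hξ μ hμ) E x T T' t ι (ind R ι M) (ind R' ι N)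
        = (∫ ω, ind R ι M ω ∂μ) * ∫ ω, ind R' ι N ω ∂μ := by
    intro M N
    rw [Q_shift_ind hC hC' (t := t) hgood hι M N]
    have h1 := congrFun (congrFun hprod n) (join M N)
    have h2 : pert R R' hξ hμ E x T T' t e n (join M N)
        = Coup.Q (flow ξ hξ μ hμ) E x T T' t (fun i : Fin n => e i)
          (ind R (fun i : Fin n => e i) M) (ind R' (fun i : Fin n => e i) N) := rfl
    rw [← h2, h1]
    change push R ξ n M * push R' ξ n N = _
    have i1 : ∫ ω, ind R ι M ω ∂μ = push R ξ n M := ind_integral hξ hμ R ⟨ι, hι.1⟩ M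
    have i2 : ∫ ω, ind R' ι N ω ∂μ = push R' ξ n N := ind_integral hξ hμ R' ⟨ι, hι.1⟩ N
    rw [i1, i2]
  have : Nonempty (Str L I) := ⟨fun _ _ => false⟩
  obtain ⟨a, rfl⟩ := exists_coeff R ι hFm
  obtain ⟨b, rfl⟩ := exists_coeff R' ι hGm
  rw [Q_expand hC hC' (t := t) hι a b]
  have i1 : ∫ ω, ∑ M, a M * ind R ι M ω ∂μ = ∑ M, a M * ∫ ω, ind R ι M ω ∂μ := by
    rw [integral_finsetSum]
    · exact Finset.sum_congr rfl fun M _ => integral_const_mul _ _
    · exact fun M _ => ((ind_AB R ι M).integrable (ind_aesm R ι M)).const_mul _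
  have i2 : ∫ ω, ∑ N, b N * ind R' ι N ω ∂μ = ∑ N, b N * ∫ ω, ind R' ι N ω ∂μ := by
    rw [integral_finsetSum]
    · exact Finset.sum_congr rfl fun N _ => integral_const_mul _ _
    · exact fun N _ => ((ind_AB R' ι N).integrable (ind_aesm R' ι N)).const_mul _
  rw [i1, i2, Finset.sum_mul_sum]
  apply Finset.sum_congr rfl
  intro M _
  apply Finset.sum_congr rfl
  intro N _
  rw [hind]; ring

end

end Pool.MP_e8a478_co
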