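import Pool.Agent.Work.MP_e8a478_co.Concrete

/-!
# Second moment of a density in a random finite structure (MP_e8a478_co)
-/

set_option autoImplicit false

open Filter Topology Classical

namespace Pool.MP_e8a478_co

variable {L L₁ L₂ : Lang}

theorem Consistent.total_all {ξ : Fam L} (h : Consistent ξ) (n : ℕ) :
    ∑ N : Str L (Fin n), ξ n N = 1 := by
  have f : Fin 0 ↪ Fin n := ⟨fun i => i.elim0, fun i => i.elim0⟩
  have h1 : ∑ M : Str L (Fin 0), ∑ N : Str L (Fin n), (if N.pull f = M then ξ n N else 0) = 1 := by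
    rw [← h.total]
    exact Finset.sum_congr rfl fun M _ => h.cons f M
  rw [Finset.sum_comm] at h1
  rw [← h1]
  refine Finset.sum_congr rfl fun N _ => ?_
  simp

theorem Consistent.le_one {ξ : Fam L} (h : Consistent ξ) (n : ℕ) (N : Str L (Fin n)) :
    ξ n N ≤ 1 := by
  rw [← h.total_all n]
  exact Finset.single_le_sum (f := fun N => ξ n N) (fun N _ => h.nonneg n N) (Finset.mem_univ N)

theorem Consistent.sum_pull {ξ : Fam L} (h : Consistent ξ) {m n : ℕ} (f : Fin m ↪ Fin n)
    (G : Str L (Fin m) → ℝ) :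
    ∑ N : Str L (Fin n), ξ n N * G (N.pull f) = ∑ M : Str L (Fin m), ξ m M * G M := by
  have h1 : ∀ N : Str L (Fin n), ξ n N * G (N.pull f) =
      ∑ M : Str L (Fin m), (if N.pull f = M then ξ n N else 0) * G M := by
    intro N
    simp [ite_mul]
  simp_rw [h1]
  rw [Finset.sum_comm]
  refine Finset.sum_congr rfl fun M _ => ?_
  rw [← Finset.sum_mul, h.cons f M]

/-- `1` if the map `f` pulls `N` back to `M` -/
noncomputable def hit {m n : ℕ} (M : Str L (Fin m)) (N : Str L (Fin n)) (f : Fin m ↪ Fin n) : ℝ :=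
  if N.pull f = M then 1 else 0

theorem hit_nonneg {m n : ℕ} (M : Str L (Fin m)) (N : Str L (Fin n)) (f : Fin m ↪ Fin n) :
    0 ≤ hit M N f := by
  unfold hit; split_ifs <;> norm_num

theorem hit_le_one {m n : ℕ} (M : Str L (Fin m)) (N : Str L (Fin n)) (f : Fin m ↪ Fin n) :
    hit M N f ≤ 1 := by
  unfold hit; split_ifs <;> norm_num

theorem dens_eq {m n : ℕ} (M : Str L (Fin m)) (N : Str L (Fin n)) :
    dens M N = (∑ f : Fin m ↪ Fin n, hit M N f) / (Fintype.card (Fin m ↪ Fin n) : ℝ) := by
  unfold dens hit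
  rw [Nat.card_eq_fintype_card, Nat.card_eq_fintype_card, Fintype.card_subtype,
    Finset.card_filter]
  push_cast
  rfl

theorem dens_nonneg {m n : ℕ} (M : Str L (Fin m)) (N : Str L (Fin n)) : 0 ≤ dens M N := by
  unfold dens; positivity

theorem dens_le_one {m n : ℕ} (M : Str L (Fin m)) (N : Str L (Fin n)) : dens M N ≤ 1 := by
  rw [dens_eq]
  rcases Nat.eq_zero_or_pos (Fintype.card (Fin m ↪ Fin n)) with h | h
  · rw [h]; simp
  · rw [div_le_one (by exact_mod_cast h)]
    calc ∑ f : Fin m ↪ Fin n, hit M N f ≤ ∑ f : Fin m ↪ Fin n, (1 : ℝ) :=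
          Finset.sum_le_sum fun f _ => hit_le_one M N f
      _ = (Fintype.card (Fin m ↪ Fin n) : ℝ) := by simp

theorem card_emb_pos {m n : ℕ} (hmn : m ≤ n) : 0 < Fintype.card (Fin m ↪ Fin n) :=
  Fintype.card_pos_iff.2 ⟨Fin.castLEEmb hmn⟩

theorem Consistent.sum_hit {ξ : Fam L} (h : Consistent ξ) {m n : ℕ} (f : Fin m ↪ Fin n)
    (M : Str L (Fin m)) :
    ∑ N : Str L (Fin n), ξ n N * hit M N f = ξ m M := by
  rw [← h.cons f M]
  refine Finset.sum_congr rfl fun N _ => ?_
  unfold hit
  split_ifs <;> simp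

/-- The expected density. -/
theorem Consistent.sum_dens {ξ : Fam L} (h : Consistent ξ) {m n : ℕ} (hmn : m ≤ n)
    (M : Str L (Fin m)) :
    ∑ N : Str L (Fin n), ξ n N * dens M N = ξ m M := by
  have hc : (Fintype.card (Fin m ↪ Fin n) : ℝ) ≠ 0 := by
    exact_mod_cast (card_emb_pos hmn).ne'
  simp_rw [dens_eq, mul_div_assoc', Finset.mul_sum]
  rw [← Finset.sum_div, Finset.sum_comm]
  rw [div_eq_iff hc]
  rw [Finset.sum_congr rfl fun f _ => h.sum_hit f M]
  simp [mul_comm]

/-- Pairs of injections with a given common value. -/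
theorem card_pairs {m n : ℕ} (i j : Fin m) :
    (n : ℝ) * (∑ f : Fin m ↪ Fin n, ∑ g : Fin m ↪ Fin n, if f i = g j then (1 : ℝ) else 0) =
      (Fintype.card (Fin m ↪ Fin n) : ℝ) ^ 2 := by
  have key : ∀ v w : Fin n, (∑ g : Fin m ↪ Fin n, if v = g j then (1 : ℝ) else 0) =
      ∑ g : Fin m ↪ Fin n, if w = g j then (1 : ℝ) else 0 := by
    intro v w
    let e : (Fin m ↪ Fin n) ≃ (Fin m ↪ Fin n) :=
      ⟨fun g => g.trans (Equiv.swap v w).toEmbedding, fun g => g.trans (Equiv.swap v w).toEmbedding,
        fun g => by ext x; simp, fun g => by ext x; simp⟩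
    refine Fintype.sum_equiv e _ _ fun g => ?_
    have : (v = g j) ↔ (w = e g j) := by
      change _ ↔ w = Equiv.swap v w (g j)
      constructor
      · intro h; rw [← h, Equiv.swap_apply_left]
      · intro h
        have h2 := congrArg (Equiv.swap v w) h
        rw [Equiv.swap_apply_right, Equiv.swap_apply_self] at h2
        exact h2
    simp only [this]
  have hsum : ∀ v : Fin n, (n : ℝ) * (∑ g : Fin m ↪ Fin n, if v = g j then (1 : ℝ) else 0) =
      (Fintype.card (Fin m ↪ Fin n) : ℝ) := by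
    intro v
    have h1 : ∑ w : Fin n, (∑ g : Fin m ↪ Fin n, if w = g j then (1 : ℝ) else 0) =
        (Fintype.card (Fin m ↪ Fin n) : ℝ) := by
      rw [Finset.sum_comm]
      simp
    rw [← h1, Finset.sum_congr rfl fun w _ => key w v]
    simp
  rw [Finset.mul_sum, Finset.sum_congr rfl fun f _ => hsum (f i)]
  simp [sq]

/-- The disjoint union of two injections with disjoint ranges. -/
theorem exists_join {m n : ℕ} (f g : Fin m ↪ Fin n) (hfg : ∀ i j, f i ≠ g j) :
    ∃ h : Fin (m + m) ↪ Fin n, (∀ i, h (Fin.castAdd m i) = f i) ∧ ∀ j, h (Fin.natAdd m j) = g j := by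
  refine ⟨⟨Fin.addCases f g, ?_⟩, fun i => ?_, fun j => ?_⟩
  · intro x y hxy
    induction x using Fin.addCases with
    | left i =>
      induction y using Fin.addCases with
      | left i' => simp only [Fin.addCases_left] at hxy; rw [f.injective hxy]
      | right j => simp only [Fin.addCases_left, Fin.addCases_right] at hxy; exact (hfg _ _ hxy).elim
    | right j =>
      induction y using Fin.addCases with
      | left i => simp only [Fin.addCases_left, Fin.addCases_right] at hxy
                  exact (hfg _ _ hxy.symm).elim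
      | right j' => simp only [Fin.addCases_right] at hxy; rw [g.injective hxy]
  · exact Fin.addCases_left (motive := fun _ => Fin n) (left := ⇑f) (right := ⇑g) i
  · exact Fin.addCases_right (motive := fun _ => Fin n) (left := ⇑f) (right := ⇑g) j

theorem sum_hit_mul {ξ : Fam L} (h : Consistent ξ) (hd : Dissociated ξ) {m n : ℕ}
    (f g : Fin m ↪ Fin n) (hfg : ∀ i j, f i ≠ g j) (M : Str L (Fin m)) :
    ∑ N : Str L (Fin n), ξ n N * (hit M N f * hit M N g) = ξ m M ^ 2 := by
  obtain ⟨e, he1, he2⟩ := exists_join f g hfg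
  have h1 := h.sum_pull e (fun K : Str L (Fin (m + m)) =>
    if K.pull (Fin.castAdd m) = M ∧ K.pull (Fin.natAdd m) = M then (1 : ℝ) else 0)
  have h2 := hd m m M M
  have h3 : ∀ N : Str L (Fin n), (N.pull e).pull (Fin.castAdd m) = N.pull f := by
    intro N
    funext i x
    simp only [Str.pull]
    congr 1
    funext y
    exact he1 (x y)
  have h4 : ∀ N : Str L (Fin n), (N.pull e).pull (Fin.natAdd m) = N.pull g := by
    intro N
    funext i x
    simp only [Str.pull]
    congr 1
    funext y
    exact he2 (x y)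
  simp only [h3, h4] at h1
  rw [sq, ← h2]
  calc ∑ N : Str L (Fin n), ξ n N * (hit M N f * hit M N g)
      = ∑ N : Str L (Fin n), ξ n N * (if N.pull f = M ∧ N.pull g = M then (1 : ℝ) else 0) := by
        refine Finset.sum_congr rfl fun N _ => ?_
        unfold hit
        by_cases h5 : N.pull f = M <;> by_cases h6 : N.pull g = M <;> simp [h5, h6]
    _ = _ := by
        rw [h1]
        refine Finset.sum_congr rfl fun N _ => ?_
        split_ifs <;> simp

/-- The second moment bound. -/
theorem second_moment {ξ : Fam L} (h : Consistent ξ) (hd : Dissociated ξ) {m n : ℕ} (hn : 0 < n)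
    (hmn : m ≤ n) (M : Str L (Fin m)) :
    ∑ N : Str L (Fin n), ξ n N * (dens M N - ξ m M) ^ 2 ≤ (m : ℝ) ^ 2 / n := by
  set C : ℝ := (Fintype.card (Fin m ↪ Fin n) : ℝ) with hC
  have hCpos : 0 < C := by rw [hC]; exact_mod_cast card_emb_pos hmn
  set p : ℝ := ξ m M with hp
  have hp0 : 0 ≤ p := h.nonneg m M
  have hp1 : p ≤ 1 := h.le_one m M
  have hnR : (0 : ℝ) < n := by exact_mod_cast hn
  -- E dens ^ 2
  have e2 : ∑ N : Str L (Fin n), ξ n N * (dens M N) ^ 2 =
      (∑ f : Fin m ↪ Fin n, ∑ g : Fin m ↪ Fin n,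
        ∑ N : Str L (Fin n), ξ n N * (hit M N f * hit M N g)) / C ^ 2 := by
    rw [eq_div_iff (by positivity), Finset.sum_mul]
    have : ∀ N : Str L (Fin n), ξ n N * dens M N ^ 2 * C ^ 2 =
        ∑ f : Fin m ↪ Fin n, ∑ g : Fin m ↪ Fin n, ξ n N * (hit M N f * hit M N g) := by
      intro N
      rw [dens_eq, ← hC, div_pow, mul_assoc, div_mul_cancel₀ _ (by positivity), sq,
        Finset.sum_mul_sum, Finset.mul_sum]
      refine Finset.sum_congr rfl fun f _ => ?_
      rw [Finset.mul_sum]
    simp_rw [this]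
    rw [Finset.sum_comm]
    refine Finset.sum_congr rfl fun f _ => ?_
    rw [Finset.sum_comm]
  have e1 : ∑ N : Str L (Fin n), ξ n N * dens M N = p := h.sum_dens hmn M
  have e0 : ∑ N : Str L (Fin n), ξ n N = 1 := h.total_all n
  have expand : ∑ N : Str L (Fin n), ξ n N * (dens M N - p) ^ 2 =
      ∑ N : Str L (Fin n), ξ n N * (dens M N) ^ 2 - p ^ 2 := by
    have : ∀ N : Str L (Fin n), ξ n N * (dens M N - p) ^ 2 =
        ξ n N * (dens M N) ^ 2 - 2 * p * (ξ n N * dens M N) + p ^ 2 * ξ n N := fun N => by ring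
    simp_rw [this]
    rw [Finset.sum_add_distrib, Finset.sum_sub_distrib, ← Finset.mul_sum, ← Finset.mul_sum, e1, e0]
    ring
  rw [expand, e2]
  -- bound each pair
  have pair : ∀ f g : Fin m ↪ Fin n,
      ∑ N : Str L (Fin n), ξ n N * (hit M N f * hit M N g) ≤
        p ^ 2 + ∑ i : Fin m, ∑ j : Fin m, if f i = g j then (1 : ℝ) else 0 := by
    intro f g
    have hnn : 0 ≤ ∑ i : Fin m, ∑ j : Fin m, if f i = g j then (1 : ℝ) else 0 :=
      Finset.sum_nonneg fun i _ => Finset.sum_nonneg fun j _ => by split_ifs <;> norm_num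
    by_cases hfg : ∀ i j, f i ≠ g j
    · rw [sum_hit_mul h hd f g hfg M]
      linarith
    · push Not at hfg
      obtain ⟨i, j, hij⟩ := hfg
      have h1 : (1 : ℝ) ≤ ∑ i : Fin m, ∑ j : Fin m, if f i = g j then (1 : ℝ) else 0 := by
        calc (1 : ℝ) = if f i = g j then (1 : ℝ) else 0 := by simp [hij]
          _ ≤ ∑ j : Fin m, if f i = g j then (1 : ℝ) else 0 :=
              Finset.single_le_sum (f := fun j => if f i = g j then (1 : ℝ) else 0)
                (fun j _ => by split_ifs <;> norm_num) (Finset.mem_univ j)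
          _ ≤ _ := Finset.single_le_sum
                (f := fun i => ∑ j : Fin m, if f i = g j then (1 : ℝ) else 0)
                (fun i _ => Finset.sum_nonneg fun j _ => by split_ifs <;> norm_num)
                (Finset.mem_univ i)
      have h2 : ∑ N : Str L (Fin n), ξ n N * (hit M N f * hit M N g) ≤ 1 := by
        rw [← e0]
        refine Finset.sum_le_sum fun N _ => ?_
        have := hit_nonneg M N f
        have := hit_nonneg M N g
        have := hit_le_one M N f
        have := hit_le_one M N g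
        have := h.nonneg n N
        calc ξ n N * (hit M N f * hit M N g) ≤ ξ n N * 1 := by
              refine mul_le_mul_of_nonneg_left ?_ this
              nlinarith
          _ = ξ n N := mul_one _
      nlinarith
  have tot : ∑ f : Fin m ↪ Fin n, ∑ g : Fin m ↪ Fin n,
      ∑ N : Str L (Fin n), ξ n N * (hit M N f * hit M N g) ≤ C ^ 2 * p ^ 2 + m ^ 2 * (C ^ 2 / n) := by
    calc _ ≤ ∑ f : Fin m ↪ Fin n, ∑ g : Fin m ↪ Fin n,
          (p ^ 2 + ∑ i : Fin m, ∑ j : Fin m, if f i = g j then (1 : ℝ) else 0) :=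
            Finset.sum_le_sum fun f _ => Finset.sum_le_sum fun g _ => pair f g
      _ = C ^ 2 * p ^ 2 + ∑ i : Fin m, ∑ j : Fin m,
          ∑ f : Fin m ↪ Fin n, ∑ g : Fin m ↪ Fin n, (if f i = g j then (1 : ℝ) else 0) := by
            simp_rw [Finset.sum_add_distrib]
            congr 1
            · simp [hC, sq]; ring
            · rw [Finset.sum_congr rfl fun f _ => Finset.sum_comm]
              rw [Finset.sum_comm]
              refine Finset.sum_congr rfl fun i _ => ?_
              rw [Finset.sum_congr rfl fun f _ => Finset.sum_comm]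
              rw [Finset.sum_comm]
      _ = C ^ 2 * p ^ 2 + ∑ i : Fin m, ∑ j : Fin m, C ^ 2 / n := by
            congr 1
            refine Finset.sum_congr rfl fun i _ => Finset.sum_congr rfl fun j _ => ?_
            rw [eq_div_iff hnR.ne', mul_comm]
            exact card_pairs i j
      _ = _ := by simp [sq]; ring
  have : (∑ f : Fin m ↪ Fin n, ∑ g : Fin m ↪ Fin n,
      ∑ N : Str L (Fin n), ξ n N * (hit M N f * hit M N g)) / C ^ 2 ≤ p ^ 2 + m ^ 2 / n := by
    rw [div_le_iff₀ (by positivity)]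
    calc _ ≤ _ := tot
      _ = _ := by field_simp
  linarith

end Pool.MP_e8a478_co
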