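import Pool.Agent.Work.MP_e8a478_co.Box

/-!
# Conditioning on a reduct, conditional independence, extraction
-/

open MeasureTheory Filter Topology ProbabilityTheory

namespace Coup

variable {Ω I : Type*} {m0 : MeasurableSpace Ω} {μ : Measure Ω} [IsProbabilityMeasure μ]
variable {Φ : Flow Ω I μ}

theorem exists_fresh {S E W : Set I} (hS : S.Finite) (hE : Eᶜ.Infinite) (hSE : Disjoint S E)
    (hW : W ⊆ S) :
    ∃ σ : I ↪ I, (∀ x ∈ W ∪ E, σ x = x) ∧ Disjoint (σ '' (S \ W)) (S ∪ E) := by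
  classical
  rw [Set.disjoint_left] at hSE
  have key : ∀ R : Finset I, (R : Set I) ⊆ S → ∃ σ : Equiv.Perm I,
      (∀ x ∈ (S \ R) ∪ E, σ x = x) ∧ ∀ x ∈ R, σ x ∉ S ∪ E := by
    intro R
    induction R using Finset.induction_on with
    | empty => intro _; exact ⟨1, by simp, by simp⟩
    | insert a R ha ih =>
      intro h
      rw [Finset.coe_insert, Set.insert_subset_iff] at h
      obtain ⟨σ, h1, h2⟩ := ih h.2
      have hinf : (Eᶜ \ S).Infinite := hE.sdiff hS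
      obtain ⟨b, hb, hbR⟩ := hinf.exists_notMem_finset (R.image σ)
      have hbE : b ∉ E := hb.1
      have hbS : b ∉ S := hb.2
      have hσa : σ a = a := h1 a (Or.inl ⟨h.1, by simpa using ha⟩)
      refine ⟨σ.trans (Equiv.swap a b), ?_, ?_⟩
      · intro x hx
        have hx' : σ x = x := by
          apply h1
          rcases hx with hx | hx
          · left; exact ⟨hx.1, fun h => hx.2 (by simp [Finset.mem_coe.1 h])⟩
          · exact Or.inr hx
        rw [Equiv.trans_apply, hx']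
        apply Equiv.swap_apply_of_ne_of_ne
        · rintro rfl
          rcases hx with hx | hx
          · exact hx.2 (by simp)
          · exact hSE h.1 hx
        · rintro rfl
          rcases hx with hx | hx
          · exact hbS hx.1
          · exact hbE hx
      · intro x hx
        rw [Finset.mem_insert] at hx
        rw [Equiv.trans_apply]
        rcases hx with rfl | hx
        · rw [hσa, Equiv.swap_apply_left]
          rintro (h | h)
          · exact hbS h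
          · exact hbE h
        · have h3 : σ x ≠ a := by
            intro he
            exact h2 x hx (Or.inl (he ▸ h.1))
          have h4 : σ x ≠ b := by
            intro he
            exact hbR (Finset.mem_image.2 ⟨x, hx, he⟩)
          rw [Equiv.swap_apply_of_ne_of_ne h3 h4]
          exact h2 x hx
  obtain ⟨σ, h1, h2⟩ := key (hS.subset (Set.sdiff_subset (t := W))).toFinset (by
    rw [Set.Finite.coe_toFinset]; exact Set.sdiff_subset)
  refine ⟨σ.toEmbedding, ?_, ?_⟩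
  · intro x hx
    apply h1
    rcases hx with hx | hx
    · left; refine ⟨hW hx, ?_⟩
      rw [Set.Finite.coe_toFinset]
      exact fun h => h.2 hx
    · exact Or.inr hx
  · rw [Set.disjoint_left]
    rintro _ ⟨x, hx, rfl⟩
    exact h2 x (by rw [Set.Finite.mem_toFinset]; exact hx)

theorem exists_valid {E : Set I} (hE : Eᶜ.Infinite) (n : ℕ) :
    ∀ (S : Set I) (l : List (Set I)), l.length = n → S.Finite → Disjoint S E →
      (∀ X ∈ l, X ⊆ S) → ∃ ρ, Valid E S l ρ := by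
  induction n with
  | zero =>
    intro S l hl _ _ _
    rw [List.length_eq_zero_iff] at hl
    subst hl
    exact ⟨[], Valid.nil S⟩
  | succ n ih =>
    intro S l hl hS hSE hsub
    cases l with
    | nil => simp at hl
    | cons W l =>
      obtain ⟨σ, h1, h2⟩ := exists_fresh hS hE hSE (hsub W (by simp))
      have hWS : W ⊆ S := hsub W (by simp)
      have hSE' : Disjoint (S ∪ σ '' S) E := by
        rw [image_S hWS (fun x hx => h1 x (Or.inl hx))]
        refine Set.disjoint_union_left.2 ⟨hSE, Set.disjoint_union_left.2 ⟨?_, ?_⟩⟩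
        · exact Set.disjoint_of_subset_left hWS hSE
        · exact Set.disjoint_of_subset_right Set.subset_union_right h2
      obtain ⟨ρ, hρ⟩ := ih (S ∪ σ '' S) (l.map fun X => X ∪ σ '' X) (by simpa using hl)
        (hS.union (hS.image _)) hSE' (by
          intro X hX
          rw [List.mem_map] at hX
          obtain ⟨Y, hY, rfl⟩ := hX
          have : Y ⊆ S := hsub Y (by simp [hY])
          exact Set.union_subset_union this (Set.image_mono this))
      exact ⟨σ :: ρ, Valid.cons S W l σ ρ hWS (fun X hX => hsub X (by simp [hX])) h1 h2 hρ⟩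

/-- Conditioning on the full structure or on a reduct gives the same. -/
theorem Fam.star (K K1 : Fam Φ) (hle : ∀ U, K1.H U ≤ K.H U) [Countable I] {E : Set I}
    (hE : E.Infinite) (hE' : Eᶜ.Infinite) {S : Set I} (hS : S.Finite) (hSE : Disjoint S E)
    {𝒲 : Set (Set I)} (hfin : 𝒲.Finite) (h𝒲 : ∀ X ∈ 𝒲, X ⊆ S) {f : Ω → ℝ} (hf : AB μ f)
    (hm : StronglyMeasurable[K1.H (S ∪ E)] f) : μ[f|K.J E 𝒲] =ᵐ[μ] μ[f|K1.J E 𝒲] := by
  classical
  have hfi : Integrable f μ := hf.integrable' (K1.le _) hm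
  obtain ⟨l, rfl⟩ : ∃ l : List (Set I), 𝒲 = {W | W ∈ l} :=
    ⟨hfin.toFinset.toList, by ext W; simp⟩
  by_cases hl : l = []
  · subst hl
    have h1 : K.J E {W | W ∈ ([] : List (Set I))} = ⊥ := by simp [Fam.J]
    have h2 : K1.J E {W | W ∈ ([] : List (Set I))} = ⊥ := by simp [Fam.J]
    rw [h1, h2]
  obtain ⟨ρ, hρ⟩ := exists_valid hE' l.length S l rfl hS hSE h𝒲
  set a := μ[f|K1.J E {W | W ∈ l}] with ha
  have hJ1 : K1.J E {W | W ∈ l} ≤ K1.H (S ∪ E) :=
    K1.J_le_H fun X hX => Set.union_subset_union_left _ (h𝒲 X hX)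
  have hJ : K1.J E {W | W ∈ l} ≤ K.J E {W | W ∈ l} := iSup₂_mono fun W _ => hle _
  have ham : StronglyMeasurable[K1.J E {W | W ∈ l}] a := stronglyMeasurable_condExp
  have hai : Integrable a μ := integrable_condExp
  have hgb : AB μ (fun ω => f ω - a ω) := hf.sub (hf.condExp _)
  have hgm : StronglyMeasurable[K1.H (S ∪ E)] (fun ω => f ω - a ω) := hm.sub (ham.mono hJ1)
  have hg0 : μ[(fun ω => f ω - a ω)|K1.J E {W | W ∈ l}] =ᵐ[μ] 0 := by
    have h1 : μ[(fun ω => f ω - a ω)|K1.J E {W | W ∈ l}] =ᵐ[μ] μ[f|K1.J E {W | W ∈ l}]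
        - μ[a|K1.J E {W | W ∈ l}] := condExp_sub hfi hai _
    rw [condExp_of_stronglyMeasurable (K1.J_le _ _) ham hai, ← ha] at h1
    filter_upwards [h1] with ω h
    rw [h]; simp
  have hbox : ∫ ω, box Φ ρ (fun ω => f ω - a ω) ω ∂μ = 0 :=
    (K1.pos hE hρ hl hSE hgb hgm).2.2 hg0
  have hg1 : μ[(fun ω => f ω - a ω)|K.J E {W | W ∈ l}] =ᵐ[μ] 0 :=
    (K.pos hE hρ hl hSE hgb (hgm.mono (hle _))).2.1 hbox
  have h1 : μ[(fun ω => f ω - a ω)|K.J E {W | W ∈ l}] =ᵐ[μ] μ[f|K.J E {W | W ∈ l}]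
      - μ[a|K.J E {W | W ∈ l}] := condExp_sub hfi hai _
  rw [condExp_of_stronglyMeasurable (K.J_le _ _) (ham.mono hJ) hai] at h1
  filter_upwards [h1, hg1] with ω h h'
  rw [h'] at h
  simp only [Pi.zero_apply, Pi.sub_apply] at h
  linarith

omit [IsProbabilityMeasure μ] in
theorem condExp_zero_of_le {Ω : Type*} {m m' m0 : MeasurableSpace Ω} {μ : Measure Ω}
    [IsProbabilityMeasure μ] (hmm : m ≤ m') (hm' : m' ≤ m0) {u : Ω → ℝ}
    (h : μ[u|m'] =ᵐ[μ] 0) : μ[u|m] =ᵐ[μ] 0 := by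
  have h1 := condExp_condExp_of_le (μ := μ) (f := u) hmm hm'
  have h2 : μ[μ[u|m']|m] =ᵐ[μ] μ[(0 : Ω → ℝ)|m] := condExp_congr_ae h
  rw [condExp_zero] at h2
  exact h1.symm.trans h2

/-- The algebra generated by the proper subsets of `A`. -/
@[reducible]
def Fam.Y (K : Fam Φ) (E A : Set I) : MeasurableSpace Ω := K.J E {B | B ⊂ A}

/-- Conditional independence. -/
theorem Fam.ci (K : Fam Φ) [Countable I] {E A : Set I} (hE : E.Infinite)
    (hAE : Disjoint A E) {u : Ω → ℝ} (hu : AB μ u) (hm : StronglyMeasurable[K.H (A ∪ E)] u)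
    (h0 : μ[u|K.Y E A] =ᵐ[μ] 0) {𝒲 : Set (Set I)} (h𝒲 : ∀ W ∈ 𝒲, ¬ A ⊆ W) :
    μ[u|K.J E 𝒲] =ᵐ[μ] 0 := by
  set U : Set I := (⋃ W ∈ 𝒲, W) \ (A ∪ E) with hU
  have h1 := K.inv hE hAE (U := U) Set.disjoint_sdiff_left (𝒲 := (fun W => W ∩ A) '' 𝒲)
    (by rintro _ ⟨W, _, rfl⟩; exact Set.inter_subset_right) hu hm
  have h2 : μ[u|K.J E ((fun W => W ∩ A) '' 𝒲)] =ᵐ[μ] 0 := by
    apply condExp_zero_of_le _ (K.J_le _ _) h0
    apply K.J_le_of
    rintro _ ⟨W, hW, rfl⟩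
    refine ⟨W ∩ A, ?_, le_rfl⟩
    refine ⟨Set.inter_subset_right, fun h => h𝒲 W hW (h.trans Set.inter_subset_left)⟩
  have h3 := h1.symm.trans h2
  apply condExp_zero_of_le _ (K.J_le _ _) h3
  apply K.J_le_of
  intro W hW
  refine ⟨W ∩ A, Set.mem_image_of_mem (fun W => W ∩ A) hW, ?_⟩
  rintro x (hx | hx)
  · by_cases hA : x ∈ A
    · exact Or.inl ⟨hx, hA⟩
    · by_cases hxE : x ∈ E
      · exact Or.inr (Or.inl hxE)
      · right; right
        exact ⟨Set.mem_biUnion hW hx, by rintro (h | h) <;> contradiction⟩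
  · exact Or.inr (Or.inl hx)

/-- Extraction of a centred test function. -/
theorem Fam.extract (K : Fam Φ) [Countable I] {E S A : Set I} (hE : E.Infinite)
    (hSE : Disjoint S E) (hAS : A ⊆ S) {𝒲 : Set (Set I)} (h𝒲 : ∀ W ∈ 𝒲, W ⊆ S ∧ ¬ A ⊆ W)
    (hlow : ∀ B, B ⊂ A → B ∈ 𝒲) {f : Ω → ℝ} (hf : AB μ f)
    (hm : StronglyMeasurable[K.H (S ∪ E)] f)
    (hne : ¬ μ[f|K.J E (insert A 𝒲)] =ᵐ[μ] μ[f|K.J E 𝒲]) :
    ∃ T : Ω → ℝ, (∀ ω, |T ω| ≤ 1) ∧ StronglyMeasurable[K.H (A ∪ E)] T ∧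
      μ[T|K.Y E A] =ᵐ[μ] 0 ∧
      ¬ μ[(fun ω => f ω * T ω)|K.J E {W | ∃ x ∈ A, W = S \ {x}}] =ᵐ[μ] 0 := by
  classical
  have hfi : Integrable f μ := hf.integrable' (K.le _) hm
  set p := μ[f|K.J E 𝒲] with hp
  have hpm : StronglyMeasurable[K.J E 𝒲] p := stronglyMeasurable_condExp
  have hpi : Integrable p μ := integrable_condExp
  have hpb : AB μ p := hf.condExp _
  set g : Ω → ℝ := fun ω => f ω - p ω with hg
  have hgi : Integrable g μ := hfi.sub hpi
  have hgb : AB μ g := hf.sub hpb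
  have hgcond : ∀ m : MeasurableSpace Ω, μ[g|m] =ᵐ[μ] μ[f|m] - μ[p|m] := fun m =>
    condExp_sub hfi hpi m
  have hg0 : μ[g|K.J E 𝒲] =ᵐ[μ] 0 := by
    have h1 := hgcond (K.J E 𝒲)
    rw [condExp_of_stronglyMeasurable (K.J_le _ _) hpm hpi, ← hp] at h1
    filter_upwards [h1] with ω h
    rw [h]; simp
  have hg1 : ¬ μ[g|K.J E (insert A 𝒲)] =ᵐ[μ] 0 := by
    intro h
    apply hne
    have h1 := hgcond (K.J E (insert A 𝒲))
    have hle : K.J E 𝒲 ≤ K.J E (insert A 𝒲) :=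
      K.J_le_of fun X hX => ⟨X, Set.mem_insert_of_mem _ hX, le_rfl⟩
    rw [condExp_of_stronglyMeasurable (K.J_le _ _) (hpm.mono hle) hpi] at h1
    filter_upwards [h1, h] with ω h2 h3
    rw [h3] at h2
    simp only [Pi.zero_apply, Pi.sub_apply] at h2
    linarith
  obtain ⟨A1, B1, hA1, hB1, hAB⟩ : ∃ A1 B1, MeasurableSet[K.H (A ∪ E)] A1 ∧
      MeasurableSet[K.J E 𝒲] B1 ∧ ∫ ω in A1 ∩ B1, g ω ∂μ ≠ 0 := by
    by_contra hcon
    push Not at hcon
    apply hg1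
    rw [K.J_insert]
    exact condExp_sup_eq_zero (K.le _) (K.J_le _ _) hgi hcon
  set a : Ω → ℝ := A1.indicator (fun _ => (1:ℝ)) with ha
  set b : Ω → ℝ := B1.indicator (fun _ => (1:ℝ)) with hb
  have hab : ∀ ω, |a ω| ≤ 1 := fun ω => by by_cases h : ω ∈ A1 <;> simp [ha, h]
  have haB : AB μ a := AB.of_bdd hab
  have hbB : AB μ b := AB.indicator
  have ham : StronglyMeasurable[K.H (A ∪ E)] a := stronglyMeasurable_const.indicator hA1
  have hbm : StronglyMeasurable[K.J E 𝒲] b := stronglyMeasurable_const.indicator hB1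
  have hai : Integrable a μ := haB.integrable' (K.le _) ham
  have hbi : Integrable b μ := hbB.integrable' (K.J_le _ _) hbm
  set q := μ[a|K.Y E A] with hq
  have hqm : StronglyMeasurable[K.Y E A] q := stronglyMeasurable_condExp
  have hqi : Integrable q μ := integrable_condExp
  have hYJ : K.Y E A ≤ K.J E 𝒲 := K.J_le_of fun B hB => ⟨B, hlow B hB, le_rfl⟩
  have hYH : K.Y E A ≤ K.H (A ∪ E) :=
    K.J_le_H fun B hB => Set.union_subset_union_left _ hB.1
  have hqb : ∀ᵐ ω ∂μ, |q ω| ≤ 1 :=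
    ae_bdd_abs_condExp_of_ae_bdd_abs (Eventually.of_forall hab)
  set T0 : Ω → ℝ := fun ω => (1/2) * (a ω - q ω) with hT0
  set T : Ω → ℝ := fun ω => max (-1) (min 1 (T0 ω)) with hT
  have hT0m : StronglyMeasurable[K.H (A ∪ E)] T0 :=
    stronglyMeasurable_const.mul (ham.sub (hqm.mono hYH))
  have c1 : StronglyMeasurable[K.H (A ∪ E)] (fun _ : Ω => (1:ℝ)) := stronglyMeasurable_const
  have c2 : StronglyMeasurable[K.H (A ∪ E)] (fun _ : Ω => (-1:ℝ)) := stronglyMeasurable_const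
  have hTm : StronglyMeasurable[K.H (A ∪ E)] T :=
    @StronglyMeasurable.sup Ω ℝ _ _ (K.H (A ∪ E)) _ _ _ c2
      (@StronglyMeasurable.inf Ω ℝ _ _ (K.H (A ∪ E)) _ _ _ c1 hT0m)
  have hTT0 : T =ᵐ[μ] T0 := by
    filter_upwards [hqb] with ω h
    have h1 := hab ω
    rw [abs_le] at h h1
    simp only [hT, hT0]
    rw [min_eq_right (by linarith), max_eq_right (by linarith)]
  have hTb : ∀ ω, |T ω| ≤ 1 := by
    intro ω
    rw [abs_le]
    exact ⟨le_max_left _ _, max_le (by norm_num) (min_le_left _ _)⟩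
  have hTB : AB μ T := AB.of_bdd hTb
  have hTi : Integrable T μ := hTB.integrable' (K.le _) hTm
  have hTY : μ[T|K.Y E A] =ᵐ[μ] 0 := by
    have h1 : μ[T|K.Y E A] =ᵐ[μ] μ[(1/2 : ℝ) • (a - q)|K.Y E A] := by
      apply condExp_congr_ae
      filter_upwards [hTT0] with ω h
      rw [h]; simp [hT0]
    have h2 : μ[(1/2 : ℝ) • (a - q)|K.Y E A] =ᵐ[μ] (1/2 : ℝ) • μ[a - q|K.Y E A] :=
      condExp_smul _ _ _
    have h3 : μ[a - q|K.Y E A] =ᵐ[μ] μ[a|K.Y E A] - μ[q|K.Y E A] := condExp_sub hai hqi _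
    rw [condExp_of_stronglyMeasurable (K.J_le _ _) hqm hqi, ← hq] at h3
    filter_upwards [h1, h2, h3] with ω e1 e2 e3
    rw [e1, e2]
    simp [e3]
  refine ⟨T, hTb, hTm, hTY, ?_⟩
  intro hcon
  -- integrate against `b`
  have hAE : Disjoint A E := Set.disjoint_of_subset_left hAS hSE
  have hTJ : μ[T|K.J E 𝒲] =ᵐ[μ] 0 := K.ci hE hAE hTB hTm hTY fun W hW => (h𝒲 W hW).2
  have hZ : K.J E 𝒲 ≤ K.J E {W | ∃ x ∈ A, W = S \ {x}} := by
    apply K.J_le_of
    intro W hW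
    obtain ⟨h1, h2⟩ := h𝒲 W hW
    obtain ⟨x, hx, hxW⟩ := Set.not_subset.1 h2
    refine ⟨S \ {x}, ⟨x, hx, rfl⟩, Set.union_subset_union_left _ ?_⟩
    intro y hy
    exact ⟨h1 hy, fun h => hxW (by rw [Set.mem_singleton_iff] at h; exact h ▸ hy)⟩
  have hbJ0 : AEStronglyMeasurable b μ := hbi.1
  have e1 : ∫ ω, (f ω * T ω) * b ω ∂μ = 0 :=
    integral_mul_eq_zero (K.J_le _ _) ((hf.mul hTB).integrable (hfi.1.mul hTi.1))
      (((hf.mul hTB).mul hbB).integrable ((hfi.1.mul hTi.1).mul hbJ0))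
      (hbm.mono hZ).aestronglyMeasurable hcon
  have e2 : ∫ ω, T ω * (p ω * b ω) ∂μ = 0 :=
    integral_mul_eq_zero (K.J_le _ _) hTi
      ((hTB.mul (hpb.mul hbB)).integrable (hTi.1.mul (hpi.1.mul hbJ0)))
      (hpm.mul hbm).aestronglyMeasurable hTJ
  have e3 : ∫ ω, g ω * (q ω * b ω) ∂μ = 0 :=
    integral_mul_eq_zero (K.J_le _ _) hgi
      ((hgb.mul ((haB.condExp _).mul hbB)).integrable (hgi.1.mul (hqi.1.mul hbJ0)))
      ((hqm.mono hYJ).mul hbm).aestronglyMeasurable hg0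
  have e4 : ∫ ω, (f ω * T ω) * b ω ∂μ
      = ∫ ω, T ω * (p ω * b ω) ∂μ + (1/2) * (∫ ω, g ω * (a ω * b ω) ∂μ
        - ∫ ω, g ω * (q ω * b ω) ∂μ) := by
    have i1 : Integrable (fun ω => T ω * (p ω * b ω)) μ :=
      (hTB.mul (hpb.mul hbB)).integrable (hTi.1.mul (hpi.1.mul hbJ0))
    have i2 : Integrable (fun ω => g ω * (a ω * b ω)) μ :=
      (hgb.mul (haB.mul hbB)).integrable (hgi.1.mul (hai.1.mul hbJ0))
    have i3 : Integrable (fun ω => g ω * (q ω * b ω)) μ :=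
      (hgb.mul ((haB.condExp _).mul hbB)).integrable (hgi.1.mul (hqi.1.mul hbJ0))
    have j1 : ∫ ω, (f ω * T ω) * b ω ∂μ
        = ∫ ω, (T ω * (p ω * b ω) + (1/2) * (g ω * (a ω * b ω) - g ω * (q ω * b ω))) ∂μ := by
      apply integral_congr_ae
      filter_upwards [hTT0] with ω h
      rw [h]
      simp only [hT0, hg]
      ring
    have j2 : ∫ ω, (T ω * (p ω * b ω) + (1/2) * (g ω * (a ω * b ω) - g ω * (q ω * b ω))) ∂μ
        = ∫ ω, T ω * (p ω * b ω) ∂μ + ∫ ω, (1/2) * (g ω * (a ω * b ω) - g ω * (q ω * b ω)) ∂μ :=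
      integral_add i1 ((i2.sub i3).const_mul _)
    have j3 : ∫ ω, (g ω * (a ω * b ω) - g ω * (q ω * b ω)) ∂μ
        = ∫ ω, g ω * (a ω * b ω) ∂μ - ∫ ω, g ω * (q ω * b ω) ∂μ := integral_sub i2 i3
    rw [j1, j2, integral_const_mul, j3]
  rw [e1, e2, e3] at e4
  have e5 : ∫ ω, g ω * (a ω * b ω) ∂μ = 0 := by linarith
  apply hAB
  rw [setIntegral_eq_mul ((K.le _ _ hA1).inter (K.J_le _ _ _ hB1)), ← e5]
  congr 1; ext ω
  by_cases h1 : ω ∈ A1 <;> by_cases h2 : ω ∈ B1 <;> simp [ha, hb, h1, h2]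

end Coup
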