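import Pool.Agent.Work.MP_e8a478_co.Star

/-!
# Telescoping over down-sets
-/

open MeasureTheory Filter Topology ProbabilityTheory

namespace Coup

variable {Ω I : Type*} {m0 : MeasurableSpace Ω} {μ : Measure Ω} [IsProbabilityMeasure μ]
variable {Φ : Flow Ω I μ}

omit [IsProbabilityMeasure μ] in
/-- The join of two families. -/
def Fam.sup (K1 K2 : Fam Φ) : Fam Φ where
  H U := K1.H U ⊔ K2.H U
  le U := sup_le (K1.le U) (K2.le U)
  mono h := sup_le_sup (K1.mono h) (K2.mono h)
  comap σ U := by rw [MeasurableSpace.comap_sup, K1.comap, K2.comap]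
  agree σ σ' U h s hs := by
    let M : MeasurableSpace Ω :=
      { MeasurableSet' := fun s => Φ.τ σ ⁻¹' s = Φ.τ σ' ⁻¹' s
        measurableSet_empty := by simp
        measurableSet_compl := fun s hs => by rw [Set.preimage_compl, Set.preimage_compl, hs]
        measurableSet_iUnion := fun f hf => by
          rw [Set.preimage_iUnion, Set.preimage_iUnion]
          exact Set.iUnion_congr hf }
    have hM : K1.H U ⊔ K2.H U ≤ M :=
      sup_le (fun s hs => K1.agree σ σ' U h s hs) (fun s hs => K2.agree σ σ' U h s hs)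
    exact hM s hs
  fin U := by
    refine sup_le ((K1.fin U).trans ?_) ((K2.fin U).trans ?_)
    · exact iSup₂_mono fun F _ => le_sup_left
    · exact iSup₂_mono fun F _ => le_sup_right

omit [IsProbabilityMeasure μ] in
theorem Fam.sup_J (K1 K2 : Fam Φ) (E : Set I) (𝒲 : Set (Set I)) :
    (K1.sup K2).J E 𝒲 = K1.J E 𝒲 ⊔ K2.J E 𝒲 := by
  apply le_antisymm
  · exact iSup₂_le fun W hW => sup_le ((K1.le_J E hW).trans le_sup_left)
      ((K2.le_J E hW).trans le_sup_right)
  · exact sup_le (iSup₂_mono fun W _ => le_sup_left) (iSup₂_mono fun W _ => le_sup_right)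

theorem integral_mul_of_indep {Ω : Type*} {m1 m2 m0 : MeasurableSpace Ω} {μ : Measure Ω}
    (h1 : m1 ≤ m0) (h2 : m2 ≤ m0)
    (h : Indep m1 m2 μ) {f g : Ω → ℝ} (hf : StronglyMeasurable[m1] f)
    (hg : StronglyMeasurable[m2] g) :
    ∫ ω, f ω * g ω ∂μ = (∫ ω, f ω ∂μ) * ∫ ω, g ω ∂μ := by
  have hfg : IndepFun f g μ := by
    rw [IndepFun_iff_Indep]
    exact indep_of_indep_of_le_left (indep_of_indep_of_le_right h hg.measurable.comap_le)
      hf.measurable.comap_le
  exact hfg.integral_mul_eq_mul_integral (hf.mono h1).aestronglyMeasurable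
    (hg.mono h2).aestronglyMeasurable

theorem condExp_mul_of_indep {Ω : Type*} {m1 m2 M1 M2 m0 : MeasurableSpace Ω} {μ : Measure Ω}
    [IsProbabilityMeasure μ]
    (hm1 : m1 ≤ M1) (hm2 : m2 ≤ M2) (hM1 : M1 ≤ m0) (hM2 : M2 ≤ m0) (h : Indep M1 M2 μ)
    {f g : Ω → ℝ} (hf : AB μ f) (hg : AB μ g) (hfm : StronglyMeasurable[M1] f)
    (hgm : StronglyMeasurable[M2] g) :
    μ[(fun ω => f ω * g ω)|m1 ⊔ m2] =ᵐ[μ] fun ω => (μ[f|m1]) ω * (μ[g|m2]) ω := by
  have h1 : m1 ≤ m0 := hm1.trans hM1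
  have h2 : m2 ≤ m0 := hm2.trans hM2
  have hle : m1 ⊔ m2 ≤ m0 := sup_le h1 h2
  have hfi : Integrable f μ := hf.integrable' hM1 hfm
  have hgi : Integrable g μ := hg.integrable' hM2 hgm
  set p := μ[f|m1] with hp
  set q := μ[g|m2] with hq
  have hpm : StronglyMeasurable[m1] p := stronglyMeasurable_condExp
  have hqm : StronglyMeasurable[m2] q := stronglyMeasurable_condExp
  have hpi : Integrable p μ := integrable_condExp
  have hqi : Integrable q μ := integrable_condExp
  have hpb : AB μ p := hf.condExp _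
  have hqb : AB μ q := hg.condExp _
  have hfgi : Integrable (fun ω => f ω * g ω) μ := (hf.mul hg).integrable (hfi.1.mul hgi.1)
  have hpqi : Integrable (fun ω => p ω * q ω) μ := (hpb.mul hqb).integrable (hpi.1.mul hqi.1)
  have hpqm : StronglyMeasurable[m1 ⊔ m2] (fun ω => p ω * q ω) :=
    (hpm.mono le_sup_left).mul (hqm.mono le_sup_right)
  have key : μ[(fun ω => f ω * g ω - p ω * q ω)|m1 ⊔ m2] =ᵐ[μ] 0 := by
    apply condExp_sup_eq_zero h1 h2 (hfgi.sub hpqi)
    intro A B hA hB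
    set a : Ω → ℝ := A.indicator (fun _ => (1:ℝ)) with ha
    set b : Ω → ℝ := B.indicator (fun _ => (1:ℝ)) with hb
    have ham : StronglyMeasurable[m1] a := stronglyMeasurable_const.indicator hA
    have hbm : StronglyMeasurable[m2] b := stronglyMeasurable_const.indicator hB
    have haB : AB μ a := AB.indicator
    have hbB : AB μ b := AB.indicator
    have ha0 : AEStronglyMeasurable a μ := (ham.mono h1).aestronglyMeasurable
    have hb0 : AEStronglyMeasurable b μ := (hbm.mono h2).aestronglyMeasurable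
    have i1 : Integrable (fun ω => (f ω * a ω) * (g ω * b ω)) μ :=
      ((hf.mul haB).mul (hg.mul hbB)).integrable ((hfi.1.mul ha0).mul (hgi.1.mul hb0))
    have i2 : Integrable (fun ω => (p ω * a ω) * (q ω * b ω)) μ :=
      ((hpb.mul haB).mul (hqb.mul hbB)).integrable ((hpi.1.mul ha0).mul (hqi.1.mul hb0))
    have e1 : ∫ ω, (f ω * a ω) * (g ω * b ω) ∂μ
        = (∫ ω, f ω * a ω ∂μ) * ∫ ω, g ω * b ω ∂μ :=
      integral_mul_of_indep hM1 hM2 h (hfm.mul (ham.mono hm1)) (hgm.mul (hbm.mono hm2))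
    have e2 : ∫ ω, (p ω * a ω) * (q ω * b ω) ∂μ
        = (∫ ω, p ω * a ω ∂μ) * ∫ ω, q ω * b ω ∂μ :=
      integral_mul_of_indep h1 h2 (indep_of_indep_of_le_left (indep_of_indep_of_le_right h hm2) hm1)
        (hpm.mul ham) (hqm.mul hbm)
    have e3 : ∫ ω, f ω * a ω ∂μ = ∫ ω, p ω * a ω ∂μ :=
      integral_mul_condExp h1 hfi ((hf.mul haB).integrable (hfi.1.mul ha0)) ham.aestronglyMeasurable
    have e4 : ∫ ω, g ω * b ω ∂μ = ∫ ω, q ω * b ω ∂μ :=
      integral_mul_condExp h2 hgi ((hg.mul hbB).integrable (hgi.1.mul hb0)) hbm.aestronglyMeasurable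
    rw [setIntegral_eq_mul ((h1 _ hA).inter (h2 _ hB))]
    have e5 : ∫ ω, (f ω * g ω - p ω * q ω) * (A ∩ B).indicator (fun _ => (1:ℝ)) ω ∂μ
        = ∫ ω, ((f ω * a ω) * (g ω * b ω) - (p ω * a ω) * (q ω * b ω)) ∂μ := by
      congr 1; ext ω
      by_cases h1 : ω ∈ A <;> by_cases h2 : ω ∈ B <;> simp [ha, hb, h1, h2]
    have e6 : ∫ ω, ((f ω * a ω) * (g ω * b ω) - (p ω * a ω) * (q ω * b ω)) ∂μ
        = ∫ ω, (f ω * a ω) * (g ω * b ω) ∂μ - ∫ ω, (p ω * a ω) * (q ω * b ω) ∂μ :=
      integral_sub i1 i2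
    have e7 : ∫ ω, ((fun ω => f ω * g ω) - fun ω => p ω * q ω) ω
        * (A ∩ B).indicator (fun _ => (1:ℝ)) ω ∂μ
        = ∫ ω, (f ω * g ω - p ω * q ω) * (A ∩ B).indicator (fun _ => (1:ℝ)) ω ∂μ := rfl
    rw [e7, e5, e6, e1, e2, e3, e4, sub_self]
  have h3 : μ[(fun ω => f ω * g ω - p ω * q ω)|m1 ⊔ m2] =ᵐ[μ]
      μ[(fun ω => f ω * g ω)|m1 ⊔ m2] - μ[(fun ω => p ω * q ω)|m1 ⊔ m2] :=
    condExp_sub hfgi hpqi _
  rw [condExp_of_stronglyMeasurable hle hpqm hpqi] at h3
  filter_upwards [h3, key] with ω e1 e2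
  rw [e2] at e1
  simp only [Pi.zero_apply, Pi.sub_apply] at e1
  linarith

/-- The sets of a finite collection. -/
def cw (ℬ : Finset (Finset I)) : Set (Set I) := (fun B : Finset I => (B : Set I)) '' ℬ

theorem cw_finite (ℬ : Finset (Finset I)) : (cw ℬ).Finite := (Finset.finite_toSet ℬ).image _

/-- If there is no common level, then the two functions are uncorrelated. -/
theorem Fam.tele (K K1 K2 K3 : Fam Φ) (h1 : ∀ U, K1.H U ≤ K.H U) (h2 : ∀ U, K2.H U ≤ K.H U)
    (h3 : ∀ U, K3.H U ≤ K.H U) [Countable I] {E : Set I} (hE : E.Infinite) (hE' : Eᶜ.Infinite)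
    (hind : Indep (K1.H Set.univ) (K2.H Set.univ) μ) {S : Finset I}
    (hSE : Disjoint (S : Set I) E) (hdis : Indep (K.H S) (K.H E) μ)
    {f1 f2 h : Ω → ℝ} (hf1 : AB μ f1) (hf2 : AB μ f2) (hh : AB μ h)
    (hm1 : StronglyMeasurable[K1.H S] f1) (hm2 : StronglyMeasurable[K2.H S] f2)
    (hm3 : StronglyMeasurable[K3.H S] h)
    (hno : ∀ (A : Finset I) (𝒲 : Set (Set I)), A ⊆ S → A.Nonempty →
      (∀ W ∈ 𝒲, W ⊆ S ∧ ¬ (A : Set I) ⊆ W) → (∀ B, B ⊂ (A : Set I) → B ∈ 𝒲) →
      (μ[f1|K1.J E (insert (A : Set I) 𝒲)] =ᵐ[μ] μ[f1|K1.J E 𝒲] ∧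
        μ[f2|K2.J E (insert (A : Set I) 𝒲)] =ᵐ[μ] μ[f2|K2.J E 𝒲]) ∨
      μ[h|K3.J E (insert (A : Set I) 𝒲)] =ᵐ[μ] μ[h|K3.J E 𝒲]) :
    ∫ ω, (f1 ω * f2 ω) * h ω ∂μ = (∫ ω, f1 ω * f2 ω ∂μ) * ∫ ω, h ω ∂μ := by
  classical
  have hSSE : (S : Set I) ⊆ S ∪ E := Set.subset_union_left
  have m1 : StronglyMeasurable[K1.H (S ∪ E)] f1 := hm1.mono (K1.mono hSSE)
  have m2 : StronglyMeasurable[K2.H (S ∪ E)] f2 := hm2.mono (K2.mono hSSE)
  have m3 : StronglyMeasurable[K3.H (S ∪ E)] h := hm3.mono (K3.mono hSSE)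
  set g : Ω → ℝ := fun ω => f1 ω * f2 ω with hg
  have hgb : AB μ g := hf1.mul hf2
  have hgS : StronglyMeasurable[K.H S] g := (hm1.mono (h1 _)).mul (hm2.mono (h2 _))
  have hhS : StronglyMeasurable[K.H S] h := hm3.mono (h3 _)
  have hgi : Integrable g μ := hgb.integrable' (K.le _) hgS
  have hhi : Integrable h μ := hh.integrable' (K.le _) hhS
  -- the conditional expectations of `g` and `h`
  have cg : ∀ 𝒲 : Set (Set I), 𝒲.Finite → (∀ X ∈ 𝒲, X ⊆ S) →
      μ[g|K.J E 𝒲] =ᵐ[μ] fun ω => (μ[f1|K1.J E 𝒲]) ω * (μ[f2|K2.J E 𝒲]) ω := by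
    intro 𝒲 hfin hsub
    have e1 := K.star (K1.sup K2) (fun U => sup_le (h1 U) (h2 U)) hE hE' S.finite_toSet hSE hfin
      hsub hgb ((m1.mono le_sup_left).mul (m2.mono le_sup_right))
    rw [Fam.sup_J] at e1
    refine e1.trans ?_
    exact condExp_mul_of_indep (K1.J_le_H fun _ _ => Set.subset_univ _)
      (K2.J_le_H fun _ _ => Set.subset_univ _) (K1.le _) (K2.le _) hind hf1 hf2
      (m1.mono (K1.mono (Set.subset_univ _))) (m2.mono (K2.mono (Set.subset_univ _)))
  have ch : ∀ 𝒲 : Set (Set I), 𝒲.Finite → (∀ X ∈ 𝒲, X ⊆ S) →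
      μ[h|K.J E 𝒲] =ᵐ[μ] μ[h|K3.J E 𝒲] := fun 𝒲 hfin hsub =>
    K.star K3 h3 hE hE' S.finite_toSet hSE hfin hsub hh m3
  -- induction on the down-set
  have key : ∀ n : ℕ, ∀ ℬ : Finset (Finset I), ℬ.card = n → (∀ B ∈ ℬ, B ⊆ S) →
      (∀ B ∈ ℬ, ∀ B', B' ⊆ B → B' ∈ ℬ) → ∅ ∈ ℬ →
      ∫ ω, (μ[g|K.J E (cw ℬ)]) ω * (μ[h|K.J E (cw ℬ)]) ω ∂μ
        = (∫ ω, g ω ∂μ) * ∫ ω, h ω ∂μ := by
    intro n
    induction n with
    | zero =>
      intro ℬ hc _ _ he
      rw [Finset.card_eq_zero] at hc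
      subst hc
      simp at he
    | succ n ih =>
      intro ℬ hc hsub hlow he
      obtain ⟨A, hA, hmax⟩ := Finset.exists_max_image ℬ Finset.card ⟨∅, he⟩
      by_cases hAe : A = ∅
      · -- only the empty set
        have hB : cw ℬ = {∅} := by
          ext X
          simp only [cw, Set.mem_image, Finset.mem_coe, Set.mem_singleton_iff]
          constructor
          · rintro ⟨B, hB, rfl⟩
            have := hmax B hB
            rw [hAe, Finset.card_empty, Nat.le_zero, Finset.card_eq_zero] at this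
            simp [this]
          · rintro rfl
            exact ⟨∅, he, by simp⟩
        rw [hB, K.J_singleton, Set.empty_union]
        have e1 : μ[g|K.H E] =ᵐ[μ] fun _ => ∫ ω, g ω ∂μ := condExp_indep_eq (K.le _) (K.le _) hgS hdis
        have e2 : μ[h|K.H E] =ᵐ[μ] fun _ => ∫ ω, h ω ∂μ := condExp_indep_eq (K.le _) (K.le _) hhS hdis
        have e3 : ∫ ω, (μ[g|K.H E]) ω * (μ[h|K.H E]) ω ∂μ
            = ∫ _, (∫ ω, g ω ∂μ) * (∫ ω, h ω ∂μ) ∂μ := by
          apply integral_congr_ae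
          filter_upwards [e1, e2] with ω a1 a2
          rw [a1, a2]
        rw [e3]; simp
      · set ℬ' := ℬ.erase A with hℬ'
        have hins : cw ℬ = insert (A : Set I) (cw ℬ') := by
          rw [cw, cw, ← Set.image_insert_eq, hℬ', ← Finset.coe_insert, Finset.insert_erase hA]
        have hlow' : ∀ B ∈ ℬ', ∀ B', B' ⊆ B → B' ∈ ℬ' := by
          intro B hB B' hB'
          rw [hℬ', Finset.mem_erase] at hB ⊢
          refine ⟨?_, hlow B hB.2 B' hB'⟩
          rintro rfl
          exact hB.1 (Finset.eq_of_subset_of_card_le hB' (hmax B hB.2)).symm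
        have he' : ∅ ∈ ℬ' := Finset.mem_erase.2 ⟨fun h => hAe h.symm, he⟩
        have hih := ih ℬ' (by rw [hℬ', Finset.card_erase_of_mem hA, hc]; rfl)
          (fun B hB => hsub B (Finset.mem_of_mem_erase hB)) hlow' he'
        have hw : ∀ X ∈ cw ℬ', X ⊆ (S : Set I) := by
          rintro _ ⟨B, hB, rfl⟩
          exact Finset.coe_subset.2 (hsub B (Finset.mem_of_mem_erase hB))
        have hwS : ∀ X ∈ cw ℬ, X ⊆ (S : Set I) := by
          rintro _ ⟨B, hB, rfl⟩
          exact Finset.coe_subset.2 (hsub B hB)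
        have hJJ : K.J E (cw ℬ') ≤ K.J E (cw ℬ) := by
          rw [hins]
          exact K.J_le_of fun X hX => ⟨X, Set.mem_insert_of_mem _ hX, le_rfl⟩
        have hdi := hno A (cw ℬ') (hsub A hA) (Finset.nonempty_iff_ne_empty.2 hAe)
          (by
            rintro _ ⟨B, hB, rfl⟩
            rw [Finset.mem_coe, hℬ', Finset.mem_erase] at hB
            refine ⟨Finset.coe_subset.2 (hsub B hB.2), fun hAB => ?_⟩
            rw [Finset.coe_subset] at hAB
            exact hB.1 (Finset.eq_of_subset_of_card_le hAB (hmax B hB.2)).symm)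
          (by
            intro B hB
            have hBf : B.Finite := A.finite_toSet.subset hB.1
            refine ⟨hBf.toFinset, ?_, by simp⟩
            rw [Finset.mem_coe, hℬ', Finset.mem_erase]
            constructor
            · rintro rfl
              exact hB.2 (by simp)
            · exact hlow A hA _ (by simpa using hB.1))
        rw [← hins] at hdi
        rw [← hih]
        set G := μ[g|K.J E (cw ℬ)] with hG
        set G' := μ[g|K.J E (cw ℬ')] with hG'
        set H := μ[h|K.J E (cw ℬ)] with hH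
        set H' := μ[h|K.J E (cw ℬ')] with hH'
        have bG : AB μ G := hgb.condExp _
        have bG' : AB μ G' := hgb.condExp _
        have bH : AB μ H := hh.condExp _
        have bH' : AB μ H' := hh.condExp _
        have iG : Integrable G μ := integrable_condExp
        have iG' : Integrable G' μ := integrable_condExp
        have iH : Integrable H μ := integrable_condExp
        have iH' : Integrable H' μ := integrable_condExp
        have tG : μ[G|K.J E (cw ℬ')] =ᵐ[μ] G' := condExp_condExp_of_le hJJ (K.J_le _ _)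
        have tH : μ[H|K.J E (cw ℬ')] =ᵐ[μ] H' := condExp_condExp_of_le hJJ (K.J_le _ _)
        rcases hdi with ⟨d1, d2⟩ | d3
        · -- `G = G'`
          have hGG : G =ᵐ[μ] G' := by
            filter_upwards [cg (cw ℬ) (cw_finite _) hwS, cg (cw ℬ') (cw_finite _) hw, d1, d2]
              with ω a1 a2 a3 a4
            rw [hG, hG', a1, a2, a3, a4]
          have e1 : ∫ ω, G ω * H ω ∂μ = ∫ ω, H ω * G' ω ∂μ := by
            apply integral_congr_ae
            filter_upwards [hGG] with ω a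
            rw [a, mul_comm]
          rw [e1, integral_mul_condExp (K.J_le E (cw ℬ')) iH
            ((bH.mul bG').integrable (iH.1.mul iG'.1))
            stronglyMeasurable_condExp.aestronglyMeasurable]
          apply integral_congr_ae
          filter_upwards [tH] with ω a
          rw [a, mul_comm]
        · have hHH : H =ᵐ[μ] H' := by
            filter_upwards [ch (cw ℬ) (cw_finite _) hwS, ch (cw ℬ') (cw_finite _) hw, d3]
              with ω a1 a2 a3
            rw [hH, hH', a1, a2, a3]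
          have e1 : ∫ ω, G ω * H ω ∂μ = ∫ ω, G ω * H' ω ∂μ := by
            apply integral_congr_ae
            filter_upwards [hHH] with ω a
            rw [a]
          rw [e1, integral_mul_condExp (K.J_le E (cw ℬ')) iG
            ((bG.mul bH').integrable (iG.1.mul iH'.1))
            stronglyMeasurable_condExp.aestronglyMeasurable]
          apply integral_congr_ae
          filter_upwards [tG] with ω a
          rw [a]
  have hfinal := key S.powerset.card S.powerset rfl (fun B hB => Finset.mem_powerset.1 hB)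
    (fun B hB B' hB' => Finset.mem_powerset.2 (hB'.trans (Finset.mem_powerset.1 hB)))
    (Finset.empty_mem_powerset S)
  have hJ : K.J E (cw S.powerset) = K.H (S ∪ E) := by
    apply le_antisymm
    · apply K.J_le_H
      rintro _ ⟨B, hB, rfl⟩
      exact Set.union_subset_union_left _ (Finset.coe_subset.2 (Finset.mem_powerset.1 hB))
    · exact K.le_J E ⟨S, by simp, rfl⟩
  rw [hJ, condExp_of_stronglyMeasurable (K.le _) (hgS.mono (K.mono hSSE)) hgi,
    condExp_of_stronglyMeasurable (K.le _) (hhS.mono (K.mono hSSE)) hhi] at hfinal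
  exact hfinal

end Coup
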